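import Pool.Agent.REV.Lin

/-!
# REV / Walks: walks through configurations with a property, shortening, reversal
-/

set_option autoImplicit false

namespace Pool.Agent.REV

open Pool.Agent.EEF Finset

variable {Q : Type} {d : ℕ} {T : VASS Q d}

/-- walks all of whose configurations satisfy `P` -/
inductive PW (T : VASS Q d) (P : Q → Vec d → Prop) : Q → Vec d → List (Vec d) → Q → Prop
  | nil {p : Q} {x : Vec d} : P p x → PW T P p x [] p
  | cons {p p' q : Q} {v x : Vec d} {w : List (Vec d)} :
      P p x → (p, v, p') ∈ T → PW T P p' (x + v) w q → PW T P p x (v :: w) q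

variable {P P' : Q → Vec d → Prop} {E : Set (Fin d)}

theorem PW.walk {p q : Q} {x : Vec d} {w : List (Vec d)} (h : PW T P p x w q) :
    Walk T p w q := by
  induction h with
  | nil _ => exact .nil _
  | cons _ h1 _ ih => exact .cons h1 ih

theorem PW.start {p q : Q} {x : Vec d} {w : List (Vec d)} (h : PW T P p x w q) : P p x := by
  cases h with
  | nil h => exact h
  | cons h _ _ => exact h

theorem PW.stop {p q : Q} {x : Vec d} {w : List (Vec d)} (h : PW T P p x w q) :
    P q (x + w.sum) := by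
  induction h with
  | nil h => simpa using h
  | cons _ _ _ ih => rw [List.sum_cons, ← add_assoc]; exact ih

theorem PW.append {p q r : Q} {x : Vec d} {u w : List (Vec d)} (h : PW T P p x u q)
    (h' : PW T P q (x + u.sum) w r) : PW T P p x (u ++ w) r := by
  induction h with
  | nil h => simpa using h'
  | cons h0 h1 _ ih =>
    refine .cons h0 h1 (ih ?_)
    rw [List.sum_cons, ← add_assoc] at h'
    exact h'

theorem PW.split {u w : List (Vec d)} : ∀ {p r : Q} {x : Vec d}, PW T P p x (u ++ w) r →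
    ∃ q, PW T P p x u q ∧ PW T P q (x + u.sum) w r := by
  induction u with
  | nil => intro p r x h; exact ⟨p, .nil h.start, by simpa using h⟩
  | cons v u ih =>
    intro p r x h
    rw [List.cons_append] at h
    cases h with
    | cons h0 h1 h2 =>
      obtain ⟨q, h3, h4⟩ := ih h2
      exact ⟨q, .cons h0 h1 h3, by rw [List.sum_cons, ← add_assoc]; exact h4⟩

theorem PW.mono (hPP : ∀ p x, P p x → P' p x) {p q : Q} {x : Vec d} {w : List (Vec d)}
    (h : PW T P p x w q) : PW T P' p x w q := by
  induction h with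
  | nil h => exact .nil (hPP _ _ h)
  | cons h0 h1 _ ih => exact .cons (hPP _ _ h0) h1 ih

/-- the property only depends on the coordinates in `E` -/
def Inv (P : Q → Vec d → Prop) (E : Set (Fin d)) : Prop :=
  ∀ p x x', (∀ j ∈ E, x j = x' j) → P p x → P p x'

theorem PW.congr (hinv : Inv P E) {p q : Q} {x x' : Vec d} {w : List (Vec d)}
    (hx : ∀ j ∈ E, x j = x' j) (h : PW T P p x w q) : PW T P p x' w q := by
  induction h generalizing x' with
  | nil h => exact .nil (hinv _ _ _ hx h)
  | cons h0 h1 _ ih =>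
    refine .cons (hinv _ _ _ hx h0) h1 (ih fun j hj => ?_)
    simp only [Pi.add_apply, hx j hj]

/-- shortening -/
theorem PW.shorten {α : Type} [DecidableEq α] (hinv : Inv P E) (C : Finset α)
    (code : Q → Vec d → α) {p : Q} {x : Vec d}
    (hC : ∀ r y, P r y → code r y ∈ C)
    (hinj : ∀ r₁ r₂ u₁ u₂, Walk T p u₁ r₁ → Walk T p u₂ r₂ → P r₁ (x + u₁.sum) →
      P r₂ (x + u₂.sum) → code r₁ (x + u₁.sum) = code r₂ (x + u₂.sum) →
      r₁ = r₂ ∧ ∀ j ∈ E, u₁.sum j = u₂.sum j) :
    ∀ (m : ℕ) {q : Q} {w : List (Vec d)}, w.length ≤ m → PW T P p x w q →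
    ∃ w', PW T P p x w' q ∧ (∀ j ∈ E, w'.sum j = w.sum j) ∧ w'.length < C.card := by
  intro m
  induction m with
  | zero =>
    intro q w hw h
    refine ⟨w, h, fun _ _ => rfl, ?_⟩
    have h1 : 0 < C.card := Finset.card_pos.2 ⟨_, hC _ _ h.start⟩
    omega
  | succ m ih =>
    intro q w hw h
    by_cases hlt : w.length < C.card
    · exact ⟨w, h, fun _ _ => rfl, hlt⟩
    push Not at hlt
    have hsp : ∀ i : ℕ, ∃ r, PW T P p x (w.take i) r ∧
        PW T P r (x + (w.take i).sum) (w.drop i) q := fun i => by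
      apply PW.split
      rw [List.take_append_drop]
      exact h
    choose f hf1 hf2 using hsp
    obtain ⟨i, hi, j, hj, hne, he⟩ := Finset.exists_ne_map_eq_of_card_lt_of_maps_to
      (s := range (w.length + 1)) (t := C) (by rw [card_range]; omega)
      (f := fun i => code (f i) (x + (w.take i).sum)) (fun i _ => hC _ _ (hf1 i).stop)
    have key : ∀ i j, i < j → j ≤ w.length →
        code (f i) (x + (w.take i).sum) = code (f j) (x + (w.take j).sum) →
        ∃ w', PW T P p x w' q ∧ (∀ j ∈ E, w'.sum j = w.sum j) ∧ w'.length < C.card := by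
      intro i j hij hj he
      obtain ⟨h1, h2⟩ := hinj _ _ _ _ (hf1 i).walk (hf1 j).walk (hf1 i).stop (hf1 j).stop he
      have h3 : PW T P (f i) (x + (w.take i).sum) (w.drop j) q := by
        rw [h1]
        refine (hf2 j).congr hinv fun k hk => ?_
        simp only [Pi.add_apply, h2 k hk]
      have h4 := (hf1 i).append h3
      have hlen : (w.take i ++ w.drop j).length ≤ m := by
        rw [List.length_append, List.length_take, List.length_drop]
        omega
      obtain ⟨w', h5, h6, h7⟩ := ih hlen h4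
      refine ⟨w', h5, fun k hk => ?_, h7⟩
      rw [h6 k hk, List.sum_append, Pi.add_apply, h2 k hk, ← Pi.add_apply, ← List.sum_append,
        List.take_append_drop]
    rw [mem_range] at hi hj
    rcases lt_or_gt_of_ne hne with h1 | h1
    · exact key i j h1 (by omega) he
    · exact key j i h1 (by omega) he.symm

/-- the first configuration with the property fails -/
theorem PW.firstBad (P' : Q → Vec d → Prop) {p q : Q} {x : Vec d} {w : List (Vec d)}
    (h : PW T P p x w q) : PW T (fun r y => P r y ∧ P' r y) p x w q ∨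
      ∃ u₁ u₂ r, w = u₁ ++ u₂ ∧ P r (x + u₁.sum) ∧ ¬ P' r (x + u₁.sum) ∧
        PW T P r (x + u₁.sum) u₂ q ∧ ((u₁ = [] ∧ r = p) ∨ ∃ u₀ v r₀, u₁ = u₀ ++ [v] ∧
          PW T (fun r y => P r y ∧ P' r y) p x u₀ r₀ ∧ (r₀, v, r) ∈ T) := by
  induction h with
  | @nil p x h0 =>
    by_cases hP : P' p x
    · exact Or.inl (.nil ⟨h0, hP⟩)
    · exact Or.inr ⟨[], [], p, rfl, by simpa using h0, by simpa using hP,
        by simpa using PW.nil (T := T) h0, Or.inl ⟨rfl, rfl⟩⟩
  | @cons p p' q v x w h0 h1 h2 ih =>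
    by_cases hP : P' p x
    · rcases ih with ih | ⟨u₁, u₂, r, e, h3, h4, h5, h6⟩
      · exact Or.inl (.cons ⟨h0, hP⟩ h1 ih)
      · have es : x + (v :: u₁).sum = x + v + u₁.sum := by rw [List.sum_cons, add_assoc]
        refine Or.inr ⟨v :: u₁, u₂, r, by rw [e, List.cons_append], by rw [es]; exact h3,
          by rw [es]; exact h4, by rw [es]; exact h5, Or.inr ?_⟩
        rcases h6 with ⟨rfl, rfl⟩ | ⟨u₀, v', r₀, rfl, h7, h8⟩
        · exact ⟨[], v, p, rfl, .nil ⟨h0, hP⟩, h1⟩
        · exact ⟨v :: u₀, v', r₀, rfl, .cons ⟨h0, hP⟩ h1 h7, h8⟩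
    · exact Or.inr ⟨[], v :: w, p, rfl, by simpa using h0, by simpa using hP,
        by simpa using PW.cons h0 h1 h2, Or.inl ⟨rfl, rfl⟩⟩

/-! ### The component -/

/-- membership in the strongly connected component of `p₀` -/
def InS (T : VASS Q d) (p₀ p : Q) : Prop := Reach T p₀ p ∧ Reach T p p₀

/-- a reversible strongly connected component; `W` contains its cycle effects -/
structure Scc (T : VASS Q d) (p₀ : Q) (W : Submodule ℚ (Fin d → ℚ)) : Prop where
  rev : ∀ p v q, (p, v, q) ∈ T → Reach T p₀ p → Reach T q p₀ → (q, -v, p) ∈ T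
  hW : ∀ w, Walk T p₀ w p₀ → qv w.sum ∈ W

theorem qv_add (v w : Vec d) : qv (v + w) = qv v + qv w := by
  funext k; simp [qv]

theorem qv_neg (v : Vec d) : qv (-v) = -qv v := by
  funext k; simp [qv]

theorem qv_sub (v w : Vec d) : qv (v - w) = qv v - qv w := by
  funext k; simp [qv]

theorem Scc.diff {p₀ : Q} {W : Submodule ℚ (Fin d → ℚ)} (hs : Scc T p₀ W) {p q : Q}
    (hp : Reach T p₀ p) (hq : Reach T q p₀) {u u' : List (Vec d)} (hu : Walk T p u q)
    (hu' : Walk T p u' q) : qv (u.sum - u'.sum) ∈ W := by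
  obtain ⟨a, ha⟩ := hp
  obtain ⟨b, hb⟩ := hq
  have h1 := hs.hW _ ((ha.append hu).append hb)
  have h2 := hs.hW _ ((ha.append hu').append hb)
  have h3 := W.sub_mem h1 h2
  rw [← qv_sub] at h3
  have e : ((a ++ u) ++ b).sum - ((a ++ u') ++ b).sum = u.sum - u'.sum := by
    simp only [List.sum_append]
    abel
  rwa [e] at h3

/-- the reversed word -/
def rv : List (Vec d) → List (Vec d)
  | [] => []
  | v :: w => rv w ++ [-v]

theorem rv_sum (w : List (Vec d)) : (rv w).sum = -w.sum := by
  induction w with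
  | nil => simp [rv]
  | cons v w ih =>
    rw [rv, List.sum_append, ih, List.sum_singleton, List.sum_cons]
    abel

theorem rv_length (w : List (Vec d)) : (rv w).length = w.length := by
  induction w with
  | nil => rfl
  | cons v w ih => rw [rv, List.length_append, ih]; rfl

theorem PW.rv {p₀ : Q} {W : Submodule ℚ (Fin d → ℚ)} (hs : Scc T p₀ W)
    (hP : ∀ p x, P p x → InS T p₀ p) {p q : Q} {x : Vec d} {w : List (Vec d)}
    (h : PW T P p x w q) : PW T P q (x + w.sum) (rv w) p := by
  induction h with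
  | @nil p x h0 => simpa [REV.rv] using PW.nil (T := T) h0
  | @cons p p' q v x w h0 h1 h2 ih =>
    rw [REV.rv, List.sum_cons, ← add_assoc]
    refine ih.append ?_
    have e : x + v + w.sum + (REV.rv w).sum = x + v := by rw [rv_sum]; abel
    rw [e]
    have h3 := hs.rev _ _ _ h1 (hP _ _ h0).1 (hP _ _ h2.start).2
    refine .cons h2.start h3 (.nil ?_)
    rw [add_neg_cancel_right]
    exact h0

/-- non-negative on `E`, in the component -/
def NP (T : VASS Q d) (p₀ : Q) (E : Set (Fin d)) (p : Q) (x : Vec d) : Prop :=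
  InS T p₀ p ∧ ∀ j ∈ E, 0 ≤ x j

theorem NP_inv (p₀ : Q) (E : Set (Fin d)) : Inv (NP T p₀ E) E := by
  intro p x x' hx h
  exact ⟨h.1, fun j hj => by rw [← hx j hj]; exact h.2 j hj⟩

theorem NP_mono {p₀ : Q} {E E' : Set (Fin d)} (hE : E' ⊆ E) :
    ∀ p x, NP T p₀ E p x → NP T p₀ E' p x := fun _ _ h => ⟨h.1, fun j hj => h.2 j (hE hj)⟩

/-- short walks are executable -/
theorem PW.exec {p₀ : Q} {M : ℕ} (hM : ∀ p v q, (p, v, q) ∈ T → ∀ k, |v k| ≤ M) {D : ℤ}
    (hD : 0 ≤ D) {p q : Q} {x : Vec d} {w : List (Vec d)} (h : PW T (NP T p₀ E) p x w q)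
    (hx : ∀ j ∉ E, D + M * w.length ≤ x j) :
    PW T (NP T p₀ Set.univ) p x w q ∧ ∀ j ∉ E, D ≤ (x + w.sum) j := by
  induction h with
  | @nil p x h0 =>
    refine ⟨.nil ⟨h0.1, fun j _ => ?_⟩, fun j hj => ?_⟩
    · by_cases hj : j ∈ E
      · exact h0.2 j hj
      · have := hx j hj
        simp only [List.length_nil] at this
        push_cast at this
        linarith
    · have := hx j hj
      simpa using this
  | @cons p p' q v x w h0 h1 h2 ih =>
    have h3 : ∀ j ∉ E, D + M * w.length ≤ (x + v) j := by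
      intro j hj
      have h4 := hx j hj
      have h5 := (abs_le.1 (hM _ _ _ h1 j)).1
      rw [List.length_cons] at h4
      push_cast at h4
      rw [Pi.add_apply]
      linarith
    obtain ⟨h4, h5⟩ := ih h3
    refine ⟨.cons ⟨h0.1, fun j _ => ?_⟩ h1 h4, fun j hj => ?_⟩
    · by_cases hj : j ∈ E
      · exact h0.2 j hj
      · have h6 := hx j hj
        have h7 : (0 : ℤ) ≤ M * (v :: w).length := by positivity
        linarith
    · rw [List.sum_cons, ← add_assoc]
      exact h5 j hj

end Pool.Agent.REV
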