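import Pool.Agent.REV.Ret

/-!
# REV / Drain: runs which can be undone up to coverage follow small path schemes

If a configuration `c'` reached from `c` can cover `c` again, then after adding small drains at the
state of `c` (in the lattice of the cycle effects) the run becomes a returning run; the drains are
deleted from the scheme at the end.
-/

set_option autoImplicit false

namespace Pool.Agent.REV

open Pool.Agent.EEF Finset

variable {Q : Type} {d : ℕ} {T : VASS Q d}

/-! ### The lattice of the cycle effects -/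

/-- effects of short closed walks in the component of `p` -/
def CG (T : VASS Q d) (p : Q) (n : ℕ) : Set (Vec d) :=
  {g | ∃ q u, Reach T p q ∧ Reach T q p ∧ Walk T q u q ∧ u.length ≤ n ∧ u.sum = g}

theorem CG_mem {p : Q} {n : ℕ} {g : Vec d} (hg : g ∈ CG T p n) : qv g ∈ Wp T p := by
  obtain ⟨q, u, ⟨a, ha⟩, ⟨b, hb⟩, hu, -, rfl⟩ := hg
  have h1 := mem_Wp ((ha.append hu).append hb)
  have h2 := mem_Wp (ha.append hb)
  rw [List.sum_append, List.sum_append] at h1
  rw [List.sum_append] at h2
  have h3 := Submodule.sub_mem _ h1 h2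
  rw [← qv_sub] at h3
  have e : a.sum + u.sum + b.sum - (a.sum + b.sum) = u.sum := by abel
  rwa [e] at h3

theorem CG_bound {M : ℕ} (hM : ∀ p v q, (p, v, q) ∈ T → ∀ k, |v k| ≤ (M : ℤ)) {p : Q} {n : ℕ}
    {g : Vec d} (hg : g ∈ CG T p n) (j : Fin d) : |g j| ≤ (M * n : ℕ) := by
  obtain ⟨q, u, -, -, hu, hn, rfl⟩ := hg
  have h4 := sum_le (w := u) (M := M) (fun v hv k => by
    obtain ⟨a, b, h⟩ := hu.letters v hv
    exact hM _ _ _ h k) j
  refine h4.trans ?_
  have h5 : u.length * M ≤ M * n := by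
    rw [Nat.mul_comm]
    exact Nat.mul_le_mul_left _ hn
  exact_mod_cast h5

theorem toSW {p q : Q} {w : List (Vec d)} (h : Walk T p w q) (x : Vec d) :
    SW (fun p _ v p' => (p, v, p') ∈ T) (fun _ _ => True) p x w q := by
  induction h generalizing x with
  | nil p => exact .nil trivial
  | cons h1 _ ih => exact .cons trivial h1 (ih _)

theorem cycle_cut [Fintype Q] {p q : Q} {w : List (Vec d)} (h : Walk T p w q)
    (hl : Fintype.card Q < w.length) : ∃ a u b r, w = a ++ (u ++ b) ∧ Walk T p a r ∧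
      Walk T r u r ∧ Walk T r b q ∧ 0 < u.length ∧ u.length ≤ Fintype.card Q := by
  obtain ⟨st, h1, h2, h3⟩ := neg_path (toSW h 0)
  obtain ⟨i, hi, j, hj, hne, he⟩ := Finset.exists_ne_map_eq_of_card_lt_of_maps_to
    (s := range (Fintype.card Q + 1)) (t := univ) (by rw [card_range, card_univ]; omega)
    (f := st) (fun i _ => mem_univ _)
  rw [mem_range] at hi hj
  have key : ∀ i j, i < j → j ≤ Fintype.card Q → st i = st j →
      ∃ a u b r, w = a ++ (u ++ b) ∧ Walk T p a r ∧
      Walk T r u r ∧ Walk T r b q ∧ 0 < u.length ∧ u.length ≤ Fintype.card Q := by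
    intro i j hij hj he
    have a1 := (h3 0 i (Nat.zero_le _) (by omega)).walk fun _ _ _ _ h => h
    have a2 := (h3 i j hij.le (by omega)).walk fun _ _ _ _ h => h
    have a3 := (h3 j w.length (by omega) le_rfl).walk fun _ _ _ _ h => h
    rw [List.drop_zero, h1] at a1
    rw [List.take_length, h2] at a3
    rw [← he] at a2 a3
    refine ⟨w.take i, (w.take j).drop i, w.drop j, st i, ?_, a1, a2, a3, ?_, ?_⟩
    · rw [← List.append_assoc]
      have e1 : w.take i = (w.take j).take i := by
        rw [List.take_take, Nat.min_eq_left hij.le]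
      rw [e1, List.take_append_drop, List.take_append_drop]
    · rw [List.length_drop, List.length_take]
      omega
    · rw [List.length_drop, List.length_take]
      omega
  rcases lt_or_gt_of_ne hne with h4 | h4
  · exact key i j h4 (by omega) he
  · exact key j i h4 (by omega) he.symm

theorem CG_gen [Fintype Q] {p : Q} : ∀ (N : ℕ) {q : Q} {w : List (Vec d)}, w.length ≤ N →
    Reach T p q → Reach T q p → Walk T q w q →
    w.sum ∈ AddSubgroup.closure (CG T p (Fintype.card Q)) := by
  intro N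
  induction N with
  | zero =>
    intro q w hN h1 h2 h3
    exact AddSubgroup.subset_closure ⟨q, w, h1, h2, h3, by omega, rfl⟩
  | succ N ih =>
    intro q w hN h1 h2 h3
    by_cases hl : w.length ≤ Fintype.card Q
    · exact AddSubgroup.subset_closure ⟨q, w, h1, h2, h3, hl, rfl⟩
    · obtain ⟨a, u, b, r, rfl, h4, h5, h6, h7, h8⟩ := cycle_cut h3 (by omega)
      have h9 := ih (q := q) (w := a ++ b) (by
        rw [List.length_append, List.length_append] at hN
        rw [List.length_append]
        omega) h1 h2 (h4.append h6)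
      have h10 : u.sum ∈ CG T p (Fintype.card Q) :=
        ⟨r, u, h1.trans ⟨a, h4⟩, Reach.trans ⟨b, h6⟩ h2, h5, h8, rfl⟩
      have e : (a ++ (u ++ b)).sum = (a ++ b).sum + u.sum := by
        rw [List.sum_append, List.sum_append, List.sum_append]
        abel
      rw [e]
      exact AddSubgroup.add_mem _ h9 (AddSubgroup.subset_closure h10)

/-! ### Deleting the drains -/

open Classical in
/-- the system with the drains `-h`, `h ∈ H`, at the state `p` -/
noncomputable def addD (T : VASS Q d) (p : Q) (H : Finset (Vec d)) : VASS Q d :=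
  T ∪ H.image fun h => (p, -h, p)

theorem mem_addD {p a b : Q} {H : Finset (Vec d)} {v : Vec d} :
    (a, v, b) ∈ addD T p H ↔ (a, v, b) ∈ T ∨ ∃ h ∈ H, p = a ∧ -h = v ∧ p = b := by
  classical
  rw [addD, mem_union, mem_image]
  simp only [Prod.mk.injEq]

/-- `w'` dominates `w` -/
def Dom (w w' : List (Vec d)) : Prop :=
  ∀ x x' : Vec d, x ≤ x' → Ok x w → Ok x' w' ∧ x + w.sum ≤ x' + w'.sum

theorem Dom.nil : Dom ([] : List (Vec d)) [] := fun x x' h _ => ⟨trivial, by simpa using h⟩

theorem Dom.append {a a' b b' : List (Vec d)} (h : Dom a a') (h' : Dom b b') :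
    Dom (a ++ b) (a' ++ b') := by
  intro x x' hx hok
  rw [Ok_append] at hok
  obtain ⟨h1, h2⟩ := h x x' hx hok.1
  obtain ⟨h3, h4⟩ := h' _ _ h2 hok.2
  rw [Ok_append, List.sum_append, List.sum_append, ← add_assoc, ← add_assoc]
  exact ⟨⟨h1, h3⟩, h4⟩

theorem Dom.rep {a a' : List (Vec d)} (h : Dom a a') (n : ℕ) : Dom (rep n a) (rep n a') := by
  induction n with
  | zero => exact Dom.nil
  | succ n ih =>
    rw [rep_succ, rep_succ]
    exact h.append ih

theorem Dom.letter (v : Vec d) : Dom [v] [v] := by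
  intro x x' hx hok
  refine ⟨⟨hok.1.trans (by gcongr), trivial⟩, ?_⟩
  simp only [List.sum_singleton]
  gcongr

theorem Dom.drain {h : Vec d} (hh : 0 ≤ h) : Dom [-h] [] := by
  intro x x' hx hok
  refine ⟨trivial, ?_⟩
  simp only [List.sum_singleton, List.sum_nil, add_zero]
  have h1 : x + -h ≤ x := by
    intro j
    have := hh j
    simp only [Pi.add_apply, Pi.neg_apply, Pi.zero_apply] at this ⊢
    linarith
  exact h1.trans hx

theorem strip {p : Q} {H : Finset (Vec d)} (hH : ∀ h ∈ H, 0 ≤ h)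
    (hW : ∀ h ∈ H, qv h ∈ Wp T p) {a b : Q} {w : List (Vec d)} (h : Walk (addD T p H) a w b) :
    ∃ w', Walk T a w' b ∧ Dom w w' ∧ w'.length ≤ w.length ∧ qv (w'.sum - w.sum) ∈ Wp T p := by
  induction h with
  | nil a =>
    refine ⟨[], .nil a, Dom.nil, le_rfl, ?_⟩
    rw [sub_self, tube_qv_zero]
    exact Submodule.zero_mem _
  | @cons a a' b v w h1 _ ih =>
    obtain ⟨w', h2, h3, h4, h5⟩ := ih
    rcases mem_addD.1 h1 with h6 | ⟨h, h6, rfl, rfl, rfl⟩
    · refine ⟨v :: w', .cons h6 h2, ?_, ?_, ?_⟩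
      · exact (Dom.letter v).append h3
      · rw [List.length_cons, List.length_cons]; omega
      · rw [List.sum_cons, List.sum_cons, add_sub_add_left_eq_sub]
        exact h5
    · refine ⟨w', h2, ?_, ?_, ?_⟩
      · exact (Dom.drain (hH h h6)).append h3
      · rw [List.length_cons]; omega
      · rw [List.sum_cons]
        have e : w'.sum - (-h + w.sum) = (w'.sum - w.sum) + h := by abel
        rw [e, qv_add]
        exact Submodule.add_mem _ h5 (hW h h6)

theorem Wp_addD {p : Q} {H : Finset (Vec d)} (hH : ∀ h ∈ H, 0 ≤ h)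
    (hW : ∀ h ∈ H, qv h ∈ Wp T p) : Wp (addD T p H) p ≤ Wp T p := by
  rw [Wp, Submodule.span_le]
  rintro c ⟨w, hw, rfl⟩
  obtain ⟨w', h1, -, -, h2⟩ := strip hH hW hw
  have h3 := Submodule.sub_mem _ (mem_Wp h1) h2
  rw [← qv_sub] at h3
  have e : w'.sum - (w'.sum - w.sum) = w.sum := by abel
  rw [e] at h3
  exact h3

theorem strip_scheme {p : Q} {H : Finset (Vec d)} (hH : ∀ h ∈ H, 0 ≤ h)
    (hW : ∀ h ∈ H, qv h ∈ Wp T p) : ∀ (I : List (Itm d)) {a b : Q},
      IsScheme (addD T p H) a (I.map isk) b → ∃ I' : List (Itm d), IsScheme T a (I'.map isk) b ∧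
        Dom (unroll I) (unroll I') ∧ schemeSize (I'.map isk) ≤ schemeSize (I.map isk) := by
  intro I
  induction I with
  | nil =>
    intro a b h
    cases h with
    | nil _ => exact ⟨[], .nil _, Dom.nil, le_rfl⟩
  | cons i I ih =>
    intro a b h
    obtain ⟨α, β, n⟩ := i
    rw [List.map_cons] at h
    cases h with
    | cons h1 h2 h3 =>
      obtain ⟨α', a1, a2, a3, -⟩ := strip hH hW h1
      obtain ⟨β', b1, b2, b3, -⟩ := strip hH hW h2
      obtain ⟨I', c1, c2, c3⟩ := ih h3
      refine ⟨(α', β', n) :: I', .cons a1 b1 c1, ?_, ?_⟩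
      · rw [unroll_cons, unroll_cons, wrd, wrd]
        exact (a2.append (b2.rep n)).append c2
      · have e1 : schemeSize (((α', β', n) :: I').map isk) =
            α'.length + β'.length + 1 + schemeSize (I'.map isk) := by
          simp [schemeSize, isk]
        have e2 : schemeSize (((α, β, n) :: I).map isk) =
            α.length + β.length + 1 + schemeSize (I.map isk) := by
          simp [schemeSize, isk]
        have a4 : α'.length ≤ α.length := a3
        have b4 : β'.length ≤ β.length := b3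
        rw [e1]
        refine le_trans ?_ (le_of_eq e2.symm)
        omega

/-! ### Coverage by small schemes -/

/-- from `p(x)` a scheme of size at most `s` leads to a configuration of state `q` above `y` -/
def RlzC (T : VASS Q d) (p : Q) (x y : Vec d) (q : Q) (s : ℕ) : Prop :=
  ∃ I : List (Itm d), IsScheme T p (I.map isk) q ∧ Ok x (unroll I) ∧
    y ≤ x + (unroll I).sum ∧ schemeSize (I.map isk) ≤ s

theorem rlz_toC {p q : Q} {x e : Vec d} {s : ℕ} (h : Rlz T p x e q s) :
    RlzC T p x (x + e) q s := by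
  obtain ⟨I, h1, h2, h3, h4⟩ := h
  exact ⟨I, h1, h2, by rw [h3], h4⟩

theorem RlzC.mono {p q : Q} {x y : Vec d} {s s' : ℕ} (h : RlzC T p x y q s) (hs : s ≤ s') :
    RlzC T p x y q s' := by
  obtain ⟨I, h1, h2, h3, h4⟩ := h
  exact ⟨I, h1, h2, h3, h4.trans hs⟩

theorem Dom.refl (w : List (Vec d)) : Dom w w := by
  induction w with
  | nil => exact Dom.nil
  | cons v w ih => exact (Dom.letter v).append ih

theorem RlzC.append {p q r : Q} {x y z : Vec d} {s s' : ℕ} (h : RlzC T p x y q s)
    (h' : RlzC T q y z r s') : RlzC T p x z r (s + s') := by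
  obtain ⟨I, h1, h2, h3, h4⟩ := h
  obtain ⟨J, h5, h6, h7, h8⟩ := h'
  obtain ⟨h9, h10⟩ := Dom.refl (unroll J) _ _ h3 h6
  refine ⟨I ++ J, ?_, ?_, ?_, ?_⟩
  · rw [List.map_append]; exact h1.append h5
  · rw [unroll_append, Ok_append]; exact ⟨h2, h9⟩
  · rw [unroll_append, List.sum_append, ← add_assoc]
    exact h7.trans h10
  · rw [List.map_append, schemeSize_append]; omega

/-! ### Runs which can be undone up to coverage -/

/-- the word of the drains -/
def dr (D : List (ℕ × Vec d)) : List (Vec d) := (D.map fun e => rep e.1 [-e.2]).flatten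

theorem dr_cons (e : ℕ × Vec d) (D : List (ℕ × Vec d)) : dr (e :: D) = rep e.1 [-e.2] ++ dr D := by
  rw [dr, List.map_cons, List.flatten_cons]
  rfl

theorem rep_drain_sum (n : ℕ) (h : Vec d) : (rep n [-h]).sum = -(n • h) := by
  induction n with
  | zero => simp [rep_zero]
  | succ n ih =>
    rw [rep_succ, List.sum_append, List.sum_singleton, ih, succ_nsmul]
    abel

theorem rep_drain_ok (n : ℕ) {h y : Vec d} (hh : 0 ≤ h) (hy : 0 ≤ y) :
    Ok (y + n • h) (rep n [-h]) := by
  induction n with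
  | zero => trivial
  | succ n ih =>
    rw [rep_succ, Ok_append]
    have e : y + (n + 1) • h + -h = y + n • h := by
      rw [succ_nsmul]
      abel
    refine ⟨⟨?_, trivial⟩, ?_⟩
    · rw [e]
      exact add_nonneg hy (nsmul_nonneg hh n)
    · rw [List.sum_singleton, e]
      exact ih

theorem dr_sum (D : List (ℕ × Vec d)) : (dr D).sum = -(D.map fun e => e.1 • e.2).sum := by
  induction D with
  | nil => simp [dr]
  | cons e D ih =>
    rw [dr_cons, List.sum_append, rep_drain_sum, ih, List.map_cons, List.sum_cons, neg_add]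

theorem dr_ok (D : List (ℕ × Vec d)) (hD : ∀ e ∈ D, 0 ≤ e.2) {y : Vec d} (hy : 0 ≤ y) :
    Ok (y + (D.map fun e => e.1 • e.2).sum) (dr D) := by
  induction D with
  | nil => trivial
  | cons e D ih =>
    have hD' : ∀ e' ∈ D, 0 ≤ e'.2 := fun e' he' => hD e' (List.mem_cons_of_mem _ he')
    have hS : 0 ≤ (D.map fun e => e.1 • e.2).sum := by
      refine List.sum_nonneg fun v hv => ?_
      obtain ⟨e', h1, rfl⟩ := List.mem_map.1 hv
      exact nsmul_nonneg (hD' e' h1) _
    rw [dr_cons, List.map_cons, List.sum_cons, Ok_append, rep_drain_sum]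
    have e1 : y + (e.1 • e.2 + (D.map fun e => e.1 • e.2).sum) =
        (y + (D.map fun e => e.1 • e.2).sum) + e.1 • e.2 := by abel
    rw [e1]
    refine ⟨rep_drain_ok _ (hD e List.mem_cons_self) (add_nonneg hy hS), ?_⟩
    have e2 : y + (D.map fun e => e.1 • e.2).sum + e.1 • e.2 + -(e.1 • e.2) =
        y + (D.map fun e => e.1 • e.2).sum := by abel
    rw [e2]
    exact ih hD'

theorem dr_walk {p : Q} (D : List (ℕ × Vec d)) {H : Finset (Vec d)}
    (hD : ∀ e ∈ D, e.2 ∈ H) : Walk (addD T p H) p (dr D) p := by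
  induction D with
  | nil => exact .nil p
  | cons e D ih =>
    rw [dr_cons]
    refine Walk.append (Walk.rep (.cons (mem_addD.2 (Or.inr
      ⟨e.2, hD e List.mem_cons_self, rfl, rfl, rfl⟩)) (.nil p)) _) ?_
    exact ih fun e' he' => hD e' (List.mem_cons_of_mem _ he')

theorem walk_mono {T' : VASS Q d} (h : ∀ p v q, (p, v, q) ∈ T → (p, v, q) ∈ T') {p q : Q}
    {w : List (Vec d)} (hw : Walk T p w q) : Walk T' p w q := by
  induction hw with
  | nil p => exact .nil p
  | cons h1 _ ih => exact .cons (h _ _ _ h1) ih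

/-- **Runs which can be undone up to coverage follow small path schemes, up to coverage.** -/
theorem rec_part [Fintype Q] {g M : ℕ} (hM : ∀ p v q, (p, v, q) ∈ T → ∀ k, |v k| ≤ (M : ℤ))
    {p q : Q} {x : Vec d} {w w' : List (Vec d)} (hx : 0 ≤ x)
    (hg : Module.finrank ℚ (Wp T p) ≤ g) (hw : Walk T p w q) (hok : Ok x w)
    (hw' : Walk T q w' p) (hok' : Ok (x + w.sum) w') (hs : 0 ≤ w.sum + w'.sum) :
    RlzC T p x (x + w.sum) q (cRet (Fintype.card Q) d
      (max M (rB d g (M * Fintype.card Q))) g) := by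
  classical
  have hpp : Reach T p p := ⟨[], .nil p⟩
  have hδ := CG_gen (p := p) (w ++ w').length le_rfl hpp hpp (hw.append hw')
  rw [List.sum_append] at hδ
  obtain ⟨D, -, d2, d3⟩ := conf (k := g) (fun g' hg' j => CG_bound hM hg' j)
    (fun g' hg' => CG_mem hg') hg hδ
  set H : Finset (Vec d) := (D.map Prod.snd).toFinset with hHdef
  have hmem : ∀ e ∈ D, e.2 ∈ H := fun e he => by
    rw [hHdef, List.mem_toFinset]
    exact List.mem_map_of_mem he
  have hcl : ∀ z ∈ AddSubgroup.closure (CG T p (Fintype.card Q)), qv z ∈ Wp T p := by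
    intro z hz
    induction hz using AddSubgroup.closure_induction with
    | mem x hx => exact CG_mem hx
    | zero => rw [tube_qv_zero]; exact Submodule.zero_mem _
    | add x y _ _ hx hy => rw [qv_add]; exact Submodule.add_mem _ hx hy
    | neg x _ hx => rw [qv_neg]; exact Submodule.neg_mem _ hx
  have hH' : ∀ h ∈ H, 0 ≤ h ∧ qv h ∈ Wp T p ∧ ∀ j, |h j| ≤ rB d g (M * Fintype.card Q) := by
    intro h hh
    rw [hHdef, List.mem_toFinset] at hh
    obtain ⟨e, he, rfl⟩ := List.mem_map.1 hh
    obtain ⟨c1, c2, c3⟩ := d3 e he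
    exact ⟨fun j => (c3 j).1 (hs j), hcl _ c1, c2⟩
  have hH : ∀ h ∈ H, 0 ≤ h := fun h hh => (hH' h hh).1
  have hHW : ∀ h ∈ H, qv h ∈ Wp T p := fun h hh => (hH' h hh).2.1
  have hT : ∀ a v b, (a, v, b) ∈ T → (a, v, b) ∈ addD T p H := fun a v b h =>
    mem_addD.2 (Or.inl h)
  have hM' : ∀ a v b, (a, v, b) ∈ addD T p H → ∀ k, |v k| ≤
      ((max M (rB d g (M * Fintype.card Q)) : ℕ) : ℤ) := by
    intro a v b h k
    rcases mem_addD.1 h with h1 | ⟨h1, h2, rfl, rfl, rfl⟩
    · exact (hM _ _ _ h1 k).trans (by exact_mod_cast le_max_left _ _)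
    · rw [Pi.neg_apply, abs_neg]
      exact ((hH' h1 h2).2.2 k).trans (by exact_mod_cast le_max_right _ _)
  have hback : Walk (addD T p H) q (w' ++ dr D) p := (walk_mono hT hw').append (dr_walk D hmem)
  have hbok : Ok (x + w.sum) (w' ++ dr D) := by
    rw [Ok_append]
    refine ⟨hok', ?_⟩
    have e : x + w.sum + w'.sum = x + (D.map fun e => e.1 • e.2).sum := by
      rw [d2, add_assoc]
    rw [e]
    exact dr_ok D (fun e he => hH _ (hmem e he)) hx
  have hsum : w.sum + (w' ++ dr D).sum = 0 := by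
    rw [List.sum_append, dr_sum, d2]
    abel
  obtain ⟨I, h1, h2, h3, h4⟩ := ret_part hM' hx
    ((Submodule.finrank_mono (Wp_addD hH hHW)).trans hg) (walk_mono hT hw) hok hback hbok hsum
  obtain ⟨I', e1, e2, e3⟩ := strip_scheme hH hHW I h1
  obtain ⟨e4, e5⟩ := e2 x x le_rfl h2
  exact ⟨I', e1, e4, by rwa [h3] at e5, e3.trans h4⟩

end Pool.Agent.REV
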