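import Pool.Agent.REV.SW

/-!
# REV / ClDef: effects of closed walks along a periodic run
-/

set_option autoImplicit false

namespace Pool.Agent.REV

open Pool.Agent.EEF

variable {Q : Type} {d : ℕ}

/-- effects of closed walks at time 0 along the steps of the run, read on `F` -/
def Cl (f : ℕ → Q) (Z : ℕ → Vec d) (F : Set (Fin d)) (L : ℕ) : Set (Vec d) :=
  {g | ∃ u, SW (RE f Z F) (VE f Z F) (f 0) (Z 0) u (f 0) ∧ (∀ j ∈ F, u.sum j = 0) ∧
    u.length ≤ L ∧ u.sum = g}

end Pool.Agent.REV
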