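import Pool.Agent.REV.Defs

/-!
# REV / Conf: conformal decomposition in a lattice generated by small vectors
-/

set_option autoImplicit false

namespace Pool.Agent.REV

open Pool.Agent.EEF

variable {d : ℕ}

namespace Conf

/-- a small set of coordinates which cuts out the same subspace -/
theorem exists_small (n : ℕ) : ∀ (W : Submodule ℚ (Fin d → ℚ)) (S : Set (Fin d)),
    Module.finrank ℚ W ≤ n → ∃ J : Finset (Fin d), (∀ j ∈ J, j ∈ S) ∧
      (∀ v ∈ W, (∀ j ∈ J, v j = 0) → ∀ j ∈ S, v j = 0) ∧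
      J.card + Module.finrank ℚ (Kr W S) ≤ Module.finrank ℚ W := by
  induction n with
  | zero =>
    intro W S hn
    have h0 : W = ⊥ := Submodule.finrank_eq_zero.1 (Nat.le_zero.1 hn)
    refine ⟨∅, by simp, ?_, ?_⟩
    · intro v hv _ j _
      rw [h0, Submodule.mem_bot] at hv
      rw [hv]; rfl
    · have := Submodule.finrank_mono (Kr_le W S)
      simpa using this
  | succ n ih =>
    intro W S hn
    by_cases hS : ∀ v ∈ W, ∀ j ∈ S, v j = 0
    · refine ⟨∅, by simp, fun v hv _ => hS v hv, ?_⟩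
      have := Submodule.finrank_mono (Kr_le W S)
      simpa using this
    · push Not at hS
      obtain ⟨v, hv, j, hj, hvj⟩ := hS
      have hlt : Module.finrank ℚ (Kr W {j}) < Module.finrank ℚ W := by
        refine Submodule.finrank_lt_finrank_of_lt (lt_of_le_of_ne (Kr_le W _) fun he => ?_)
        rw [← he] at hv
        exact hvj (hv.2 j rfl)
      obtain ⟨J, h1, h2, h3⟩ := ih (Kr W {j}) S (by omega)
      have h4 : Kr (Kr W {j}) S = Kr W S := by
        ext u
        constructor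
        · rintro ⟨⟨h5, h6⟩, h7⟩
          exact ⟨h5, h7⟩
        · rintro ⟨h5, h6⟩
          refine ⟨⟨h5, ?_⟩, h6⟩
          intro i hi
          rw [Set.mem_singleton_iff] at hi
          rw [hi]
          exact h6 j hj
      rw [h4] at h3
      refine ⟨insert j J, ?_, ?_, ?_⟩
      · intro i hi
        rcases Finset.mem_insert.1 hi with rfl | hi
        · exact hj
        · exact h1 i hi
      · intro u hu h5
        refine h2 u ⟨hu, ?_⟩ fun i hi => h5 i (Finset.mem_insert_of_mem hi)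
        intro i hi
        rw [Set.mem_singleton_iff] at hi
        rw [hi]
        exact h5 j (Finset.mem_insert_self _ _)
      · have := Finset.card_insert_le j J
        omega

theorem qv_sum {ι : Type} (s : Finset ι) (f : ι → Vec d) :
    qv (∑ i ∈ s, f i) = ∑ i ∈ s, qv (f i) := by
  funext k
  simp [qv]

theorem qv_sub (a b : Vec d) : qv (a - b) = qv a - qv b := by
  funext k
  simp [qv]

theorem qv_neg (a : Vec d) : qv (-a) = -qv a := by
  funext k
  simp [qv]

theorem qv_zsmul (n : ℤ) (a : Vec d) : qv (n • a) = (n : ℚ) • qv a := by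
  funext k
  simp [qv]

theorem qv_mem {G : Set (Vec d)} {W : Submodule ℚ (Fin d → ℚ)} (hGW : ∀ g ∈ G, qv g ∈ W)
    {z : Vec d} (hz : z ∈ AddSubgroup.closure G) : qv z ∈ W := by
  induction hz using AddSubgroup.closure_induction with
  | mem x hx => exact hGW x hx
  | zero =>
    have : qv (0 : Vec d) = 0 := by funext k; simp [qv]
    rw [this]; exact W.zero_mem
  | add x y _ _ h1 h2 =>
    have : qv (x + y) = qv x + qv y := by funext k; simp [qv]
    rw [this]; exact W.add_mem h1 h2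
  | neg x _ h =>
    rw [qv_neg]; exact W.neg_mem h

/-- pigeonhole principle for small integer combinations -/
theorem small_comb {r : ℕ} {c : Fin r → Vec d} {Γ k : ℕ} (hc : ∀ i j, |c i j| ≤ Γ)
    (hli : LinearIndependent ℚ (fun i => qv (c i))) (hrk : r ≤ k) {J : Finset (Fin d)}
    (hJ : J.card + 1 ≤ r) :
    ∃ a : Fin r → ℤ, (∑ i, a i • c i) ≠ 0 ∧
      (∀ j, |(∑ i, a i • c i) j| ≤ (2 * k * Γ + 1) ^ k) ∧ ∀ j ∈ J, (∑ i, a i • c i) j = 0 := by
  classical
  obtain ⟨H, hH⟩ : ∃ H, H = (2 * k * Γ + 1) ^ (r - 1) := ⟨_, rfl⟩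
  have hH1 : 1 ≤ H := by rw [hH]; exact Nat.one_le_pow _ _ (by omega)
  let A : Finset (Fin r → ℕ) := Fintype.piFinset fun _ => Finset.range (H + 1)
  let B : Finset (J → ℤ) :=
    Fintype.piFinset fun _ => Finset.Icc (-((r * H * Γ : ℕ) : ℤ)) ((r * H * Γ : ℕ) : ℤ)
  have hA : A.card = (H + 1) ^ r := by
    simp [A, Fintype.card_piFinset]
  have hB : B.card = (2 * (r * H * Γ) + 1) ^ J.card := by
    have h1 : (Finset.Icc (-((r * H * Γ : ℕ) : ℤ)) ((r * H * Γ : ℕ) : ℤ)).card
        = 2 * (r * H * Γ) + 1 := by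
      rw [Int.card_Icc]
      omega
    simp only [B, Fintype.card_piFinset, h1, Finset.prod_const, Finset.card_univ,
      Fintype.card_coe]
  have hBA : B.card < A.card := by
    rw [hA, hB]
    calc (2 * (r * H * Γ) + 1) ^ J.card ≤ (2 * (r * H * Γ) + 1) ^ (r - 1) :=
          Nat.pow_le_pow_right (by omega) (by omega)
      _ ≤ ((2 * k * Γ + 1) * H) ^ (r - 1) := by
          refine Nat.pow_le_pow_left ?_ _
          have h1 : r * H * Γ ≤ k * H * Γ :=
            Nat.mul_le_mul_right _ (Nat.mul_le_mul_right _ hrk)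
          nlinarith
      _ = H * H ^ (r - 1) := by rw [mul_pow, ← hH]
      _ = H ^ r := by rw [← pow_succ']; congr 1; omega
      _ < (H + 1) ^ r := Nat.pow_lt_pow_left (by omega) (by omega)
  let F : (Fin r → ℕ) → (J → ℤ) := fun x j => ∑ i, (x i : ℤ) * c i j.1
  have hmaps : ∀ x ∈ A, F x ∈ B := by
    intro x hx
    rw [Fintype.mem_piFinset]
    intro j
    rw [Finset.mem_Icc, ← abs_le]
    calc |∑ i, (x i : ℤ) * c i j.1| ≤ ∑ i, |(x i : ℤ) * c i j.1| :=
          Finset.abs_sum_le_sum_abs _ _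
      _ ≤ ∑ _i : Fin r, ((H : ℤ) * Γ) := by
          refine Finset.sum_le_sum fun i _ => ?_
          rw [abs_mul, Nat.abs_cast]
          have h1 := Fintype.mem_piFinset.1 hx i
          rw [Finset.mem_range] at h1
          have h2 : (x i : ℤ) ≤ H := by exact_mod_cast Nat.lt_succ_iff.1 h1
          exact mul_le_mul h2 (hc i j.1) (abs_nonneg _) (by positivity)
      _ = ((r * H * Γ : ℕ) : ℤ) := by
          rw [Finset.sum_const, Finset.card_univ, Fintype.card_fin]
          push_cast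
          ring
  obtain ⟨x, hx, y, hy, hxy, hF⟩ := Finset.exists_ne_map_eq_of_card_lt_of_maps_to hBA hmaps
  refine ⟨fun i => (x i : ℤ) - y i, ?_, ?_, ?_⟩
  · intro h0
    apply hxy
    have h1 : ∑ i, (((x i : ℤ) - y i : ℤ) : ℚ) • qv (c i) = 0 := by
      have h2 := congrArg qv h0
      rw [qv_sum] at h2
      have h3 : qv (0 : Vec d) = 0 := by funext k; simp [qv]
      rw [h3] at h2
      rw [← h2]
      exact Finset.sum_congr rfl fun i _ => (qv_zsmul _ _).symm
    have h4 := Fintype.linearIndependent_iff.1 hli _ h1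
    funext i
    have h5 := h4 i
    have h6 : ((x i : ℤ) - y i : ℤ) = 0 := by exact_mod_cast h5
    omega
  · intro j
    have h1 : |(∑ i, ((x i : ℤ) - y i) • c i) j| ≤ ((r * H * Γ : ℕ) : ℤ) := by
      rw [Finset.sum_apply]
      calc |∑ i, (((x i : ℤ) - y i) • c i) j| ≤ ∑ i, |(((x i : ℤ) - y i) • c i) j| :=
            Finset.abs_sum_le_sum_abs _ _
        _ ≤ ∑ _i : Fin r, ((H : ℤ) * Γ) := by
            refine Finset.sum_le_sum fun i _ => ?_
            rw [Pi.smul_apply, smul_eq_mul, abs_mul]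
            have h1 := Fintype.mem_piFinset.1 hx i
            have h2 := Fintype.mem_piFinset.1 hy i
            rw [Finset.mem_range] at h1 h2
            have h3 : |(x i : ℤ) - y i| ≤ H := by
              rw [abs_le]
              constructor <;> omega
            exact mul_le_mul h3 (hc i j) (abs_nonneg _) (by positivity)
        _ = ((r * H * Γ : ℕ) : ℤ) := by
            rw [Finset.sum_const, Finset.card_univ, Fintype.card_fin]
            push_cast
            ring
    refine h1.trans ?_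
    have h2 : r * H * Γ ≤ (2 * k * Γ + 1) ^ k := by
      calc r * H * Γ ≤ k * H * Γ := Nat.mul_le_mul_right _ (Nat.mul_le_mul_right _ hrk)
        _ ≤ (2 * k * Γ + 1) * H := by nlinarith [Nat.zero_le (k * H * Γ), Nat.zero_le H]
        _ = (2 * k * Γ + 1) ^ r := by
            rw [hH, ← pow_succ']
            congr 1
            omega
        _ ≤ (2 * k * Γ + 1) ^ k := Nat.pow_le_pow_right (by omega) hrk
    exact_mod_cast h2
  · intro j hj
    have h1 := congrFun hF ⟨j, hj⟩
    simp only [F] at h1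
    rw [Finset.sum_apply]
    simp only [Pi.smul_apply, smul_eq_mul, sub_mul, Finset.sum_sub_distrib]
    rw [h1, sub_self]

/-- a small lattice vector in a one dimensional coordinate section -/
theorem small_vec {G : Set (Vec d)} {Γ k : ℕ} (hG : ∀ g ∈ G, ∀ j, |g j| ≤ Γ)
    (hk : Module.finrank ℚ (Submodule.span ℚ (qv '' G)) ≤ k)
    {S : Set (Fin d)} (hF : 1 ≤ Module.finrank ℚ (Kr (Submodule.span ℚ (qv '' G)) S)) :
    ∃ e ∈ AddSubgroup.closure G, e ≠ 0 ∧ (∀ j, |e j| ≤ (2 * k * Γ + 1) ^ k) ∧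
      ∀ j ∈ S, e j = 0 := by
  classical
  obtain ⟨J, hJ1, hJ2, hJ3⟩ := exists_small _ (Submodule.span ℚ (qv '' G)) S le_rfl
  obtain ⟨f, hf1, hf2, hf3⟩ := Submodule.exists_fun_fin_finrank_span_eq ℚ (qv '' G)
  choose c hc1 hc2 using hf1
  have hli : LinearIndependent ℚ (fun i => qv (c i)) := by
    have : (fun i => qv (c i)) = f := funext hc2
    rw [this]
    exact hf3
  obtain ⟨a, ha1, ha2, ha3⟩ := small_comb (k := k) (fun i j => hG _ (hc1 i) j) hli hk
    (J := J) (by omega)
  have hmem : (∑ i, a i • c i) ∈ AddSubgroup.closure G :=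
    AddSubgroup.sum_mem _ fun i _ =>
      AddSubgroup.zsmul_mem _ (AddSubgroup.subset_closure (hc1 i)) _
  refine ⟨_, hmem, ha1, ha2, ?_⟩
  have h1 : qv (∑ i, a i • c i) ∈ Submodule.span ℚ (qv '' G) :=
    qv_mem (fun g hg => Submodule.subset_span (Set.mem_image_of_mem qv hg)) hmem
  intro j hj
  have h2 : (((∑ i, a i • c i) j : ℤ) : ℚ) = 0 := hJ2 _ h1 (fun j hj => by
    show (((∑ i, a i • c i) j : ℤ) : ℚ) = 0
    rw [ha3 j hj, Int.cast_zero]) j hj
  exact_mod_cast h2

/-- the support -/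
noncomputable def supp (w : Fin d → ℚ) : Finset (Fin d) := by
  classical exact Finset.univ.filter fun j => w j ≠ 0

theorem mem_supp {w : Fin d → ℚ} {j : Fin d} : j ∈ supp w ↔ w j ≠ 0 := by
  classical
  simp [supp]

/-- if `v` points into the support of `w` and is no multiple of it, one reaches a smaller support
-/
theorem reduce {w v : Fin d → ℚ} {j₀ : Fin d}
    (hj : 0 < w j₀ * v j₀) : ∃ l : ℚ, 0 < l ∧ (∀ j, 0 ≤ w j * (w j - l * v j)) ∧
      ∃ j₁, w j₁ ≠ 0 ∧ w j₁ - l * v j₁ = 0 := by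
  classical
  let P : Finset (Fin d) := Finset.univ.filter fun j => 0 < w j * v j
  have hP : P.Nonempty := ⟨j₀, by simp [P, hj]⟩
  obtain ⟨j₁, hj₁, hmin⟩ := P.exists_min_image (fun j => w j / v j) hP
  have h1 : 0 < w j₁ * v j₁ := by simpa [P] using hj₁
  have hv1 : v j₁ ≠ 0 := fun h => by rw [h, mul_zero] at h1; exact lt_irrefl _ h1
  have hw1 : w j₁ ≠ 0 := fun h => by rw [h, zero_mul] at h1; exact lt_irrefl _ h1
  have hl : 0 < w j₁ / v j₁ := by
    have : w j₁ / v j₁ = (w j₁ * v j₁) / (v j₁ * v j₁) := by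
      field_simp
    rw [this]
    exact div_pos h1 (mul_self_pos.2 hv1)
  refine ⟨w j₁ / v j₁, hl, ?_, j₁, hw1, ?_⟩
  · intro j
    by_cases hp : 0 < w j * v j
    · have hvj : v j ≠ 0 := fun h => by rw [h, mul_zero] at hp; exact lt_irrefl _ hp
      have h2 := hmin j (by simp [P, hp])
      have h3 : w j * (w j - w j₁ / v j₁ * v j) = (w j * v j) * (w j / v j - w j₁ / v j₁) := by
        field_simp
      rw [h3]
      exact mul_nonneg hp.le (sub_nonneg.2 h2)
    · push Not at hp
      have h3 : w j * (w j - w j₁ / v j₁ * v j) = w j * w j - (w j₁ / v j₁) * (w j * v j) := by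
        ring
      rw [h3]
      nlinarith [mul_self_nonneg (w j), mul_nonneg hl.le (neg_nonneg.2 hp)]
  · field_simp
    ring

/-- conformality -/
def Cf (w : Fin d → ℚ) (e : Vec d) : Prop := ∀ j, 0 ≤ w j * (e j : ℚ) ∧ (w j = 0 → e j = 0)

theorem exists_conf {G : Set (Vec d)} {Γ k : ℕ} (hG : ∀ g ∈ G, ∀ j, |g j| ≤ Γ)
    (hk : Module.finrank ℚ (Submodule.span ℚ (qv '' G)) ≤ k) (n : ℕ) :
    ∀ w ∈ Submodule.span ℚ (qv '' G), w ≠ 0 → (supp w).card ≤ n →
      ∃ e ∈ AddSubgroup.closure G, e ≠ 0 ∧ (∀ j, |e j| ≤ (2 * k * Γ + 1) ^ k) ∧ Cf w e := by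
  classical
  induction n with
  | zero =>
    intro w _ hw0 hn
    exfalso
    apply hw0
    funext j
    by_contra hj
    have : j ∈ supp w := mem_supp.2 hj
    rw [Finset.card_eq_zero.1 (Nat.le_zero.1 hn)] at this
    simp at this
  | succ n ih =>
    intro w hw hw0 hn
    have hGW : ∀ g ∈ G, qv g ∈ Submodule.span ℚ (qv '' G) := fun g hg =>
      Submodule.subset_span (Set.mem_image_of_mem qv hg)
    by_cases hm : ∃ v ∈ Submodule.span ℚ (qv '' G), (∀ j, w j = 0 → v j = 0) ∧
        ∀ l : ℚ, v ≠ l • w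
    · obtain ⟨v, hv, hv1, hv2⟩ := hm
      obtain ⟨j₀, hj₀⟩ : ∃ j, v j ≠ 0 := by
        by_contra h
        push Not at h
        apply hv2 0
        funext j
        rw [h j, zero_smul]
        rfl
      have hwj : w j₀ ≠ 0 := fun h => hj₀ (hv1 j₀ h)
      obtain ⟨u, hu, hu1, hu2, hu3⟩ : ∃ u ∈ Submodule.span ℚ (qv '' G),
          (∀ j, w j = 0 → u j = 0) ∧ (∀ l : ℚ, u ≠ l • w) ∧ 0 < w j₀ * u j₀ := by
        rcases lt_or_gt_of_ne (mul_ne_zero hwj hj₀) with h | h
        · refine ⟨-v, Submodule.neg_mem _ hv, fun j hj => ?_, fun l hl => ?_, ?_⟩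
          · rw [Pi.neg_apply, hv1 j hj, neg_zero]
          · apply hv2 (-l)
            rw [neg_smul, ← hl, neg_neg]
          · rw [Pi.neg_apply]
            linarith
        · exact ⟨v, hv, hv1, hv2, h⟩
      obtain ⟨l, hl0, hl1, j₁, hj1, hj2⟩ := reduce hu3
      have hw' : w - l • u ∈ Submodule.span ℚ (qv '' G) :=
        Submodule.sub_mem _ hw (Submodule.smul_mem _ _ hu)
      have hw'0 : w - l • u ≠ 0 := by
        intro h
        apply hu2 l⁻¹
        rw [sub_eq_zero] at h
        rw [h, smul_smul, inv_mul_cancel₀ hl0.ne', one_smul]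
      have hsub : supp (w - l • u) ⊂ supp w := by
        rw [Finset.ssubset_iff_of_subset]
        · refine ⟨j₁, mem_supp.2 hj1, ?_⟩
          rw [mem_supp, not_not]
          simpa using hj2
        · intro j hj
          rw [mem_supp] at hj ⊢
          intro h
          apply hj
          rw [Pi.sub_apply, Pi.smul_apply, h, hu1 j h, smul_zero, sub_zero]
      have hcard := Finset.card_lt_card hsub
      obtain ⟨e, he1, he2, he3, he4⟩ := ih _ hw' hw'0 (by omega)
      refine ⟨e, he1, he2, he3, fun j => ?_⟩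
      obtain ⟨h1, h2⟩ := he4 j
      have h3 := hl1 j
      rw [Pi.sub_apply, Pi.smul_apply, smul_eq_mul] at h1 h2
      constructor
      · by_cases h4 : w j - l * u j = 0
        · rw [h2 h4, Int.cast_zero, mul_zero]
        · have h5 : 0 < (w j - l * u j) * (w j - l * u j) := mul_self_pos.2 h4
          have h6 : 0 ≤ (w j * (e j : ℚ)) * ((w j - l * u j) * (w j - l * u j)) := by
            have : (w j * (e j : ℚ)) * ((w j - l * u j) * (w j - l * u j)) =
              (w j * (w j - l * u j)) * ((w j - l * u j) * (e j : ℚ)) := by ring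
            rw [this]
            exact mul_nonneg h3 h1
          exact nonneg_of_mul_nonneg_left h6 h5
      · intro h4
        apply h2
        rw [h4, hu1 j h4, mul_zero, sub_zero]
    · push Not at hm
      have hF : 1 ≤ Module.finrank ℚ (Kr (Submodule.span ℚ (qv '' G)) {j | w j = 0}) := by
        rw [Nat.one_le_iff_ne_zero]
        intro h
        rw [Submodule.finrank_eq_zero] at h
        have h1 : w ∈ Kr (Submodule.span ℚ (qv '' G)) {j | w j = 0} := ⟨hw, fun j hj => hj⟩
        rw [h, Submodule.mem_bot] at h1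
        exact hw0 h1
      obtain ⟨e, he1, he2, he3, he4⟩ := small_vec hG hk hF
      obtain ⟨l, hl⟩ := hm (qv e) (qv_mem hGW he1) fun j hj => by
        show ((e j : ℤ) : ℚ) = 0
        rw [he4 j hj, Int.cast_zero]
      have hlj : ∀ j, (e j : ℚ) = l * w j := fun j => by
        have := congrFun hl j
        simpa [qv] using this
      rcases lt_trichotomy l 0 with h | h | h
      · refine ⟨-e, AddSubgroup.neg_mem _ he1, neg_ne_zero.2 he2, fun j => ?_, fun j => ⟨?_, ?_⟩⟩
        · rw [Pi.neg_apply, abs_neg]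
          exact he3 j
        · rw [Pi.neg_apply, Int.cast_neg, hlj j]
          nlinarith [mul_self_nonneg (w j), mul_nonneg (neg_nonneg.2 h.le) (mul_self_nonneg (w j))]
        · intro hj
          rw [Pi.neg_apply, he4 j hj, neg_zero]
      · exfalso
        apply he2
        funext j
        have h1 := hlj j
        rw [h, zero_mul] at h1
        exact_mod_cast h1
      · refine ⟨e, he1, he2, he3, fun j => ⟨?_, fun hj => he4 j hj⟩⟩
        rw [hlj j]
        nlinarith [mul_self_nonneg (w j), mul_nonneg h.le (mul_self_nonneg (w j))]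

/-- real conformal decomposition -/
theorem decomp {G : Set (Vec d)} {Γ k : ℕ} (hG : ∀ g ∈ G, ∀ j, |g j| ≤ Γ)
    (hk : Module.finrank ℚ (Submodule.span ℚ (qv '' G)) ≤ k) (n : ℕ) :
    ∀ w ∈ Submodule.span ℚ (qv '' G), (supp w).card ≤ n →
      ∃ D : List (ℚ × Vec d), D.length ≤ n ∧
        (∀ j, (D.map fun p => p.1 * (p.2 j : ℚ)).sum = w j) ∧
        ∀ p ∈ D, 0 ≤ p.1 ∧ p.2 ∈ AddSubgroup.closure G ∧
          (∀ j, |p.2 j| ≤ (2 * k * Γ + 1) ^ k) ∧ Cf w p.2 := by
  classical
  induction n with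
  | zero =>
    intro w _ hn
    refine ⟨[], le_rfl, fun j => ?_, by simp⟩
    by_contra hj
    have : j ∈ supp w := mem_supp.2 fun h => hj (by simp [h])
    rw [Finset.card_eq_zero.1 (Nat.le_zero.1 hn)] at this
    simp at this
  | succ n ih =>
    intro w hw hn
    by_cases hw0 : w = 0
    · refine ⟨[], by simp, fun j => by simp [hw0], by simp⟩
    obtain ⟨e, he1, he2, he3, he4⟩ := exists_conf hG hk _ w hw hw0 le_rfl
    obtain ⟨j₀, hj₀⟩ : ∃ j, e j ≠ 0 := by
      by_contra h
      push Not at h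
      exact he2 (funext h)
    have hpos : 0 < w j₀ * qv e j₀ := by
      refine lt_of_le_of_ne (he4 j₀).1 fun h => ?_
      have h1 : w j₀ * (e j₀ : ℚ) = 0 := h.symm
      rcases mul_eq_zero.1 h1 with h2 | h2
      · exact hj₀ ((he4 j₀).2 h2)
      · exact hj₀ (by exact_mod_cast h2)
    obtain ⟨l, hl0, hl1, j₁, hj1, hj2⟩ := reduce hpos
    have hGW : ∀ g ∈ G, qv g ∈ Submodule.span ℚ (qv '' G) := fun g hg =>
      Submodule.subset_span (Set.mem_image_of_mem qv hg)
    have hw' : w - l • qv e ∈ Submodule.span ℚ (qv '' G) :=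
      Submodule.sub_mem _ hw (Submodule.smul_mem _ _ (qv_mem hGW he1))
    have hz : ∀ j, w j = 0 → (w - l • qv e) j = 0 := fun j hj => by
      rw [Pi.sub_apply, Pi.smul_apply, hj, qv, (he4 j).2 hj, Int.cast_zero, smul_zero, sub_zero]
    have hsub : supp (w - l • qv e) ⊂ supp w := by
      rw [Finset.ssubset_iff_of_subset]
      · refine ⟨j₁, mem_supp.2 hj1, ?_⟩
        rw [mem_supp, not_not]
        simpa using hj2
      · intro j hj
        rw [mem_supp] at hj ⊢
        exact fun h => hj (hz j h)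
    have hcard := Finset.card_lt_card hsub
    obtain ⟨D, hD1, hD2, hD3⟩ := ih _ hw' (by omega)
    refine ⟨(l, e) :: D, by simp; omega, fun j => ?_, ?_⟩
    · rw [List.map_cons, List.sum_cons, hD2 j, Pi.sub_apply, Pi.smul_apply, smul_eq_mul]
      show l * (e j : ℚ) + (w j - l * (e j : ℚ)) = w j
      ring
    · intro p hp
      rcases List.mem_cons.1 hp with rfl | hp
      · exact ⟨hl0.le, he1, he3, he4⟩
      · obtain ⟨h1, h2, h3, h4⟩ := hD3 p hp
        refine ⟨h1, h2, h3, fun j => ?_⟩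
        obtain ⟨h5, h6⟩ := h4 j
        have h7 := hl1 j
        constructor
        · by_cases h8 : (w - l • qv e) j = 0
          · rw [h6 h8, Int.cast_zero, mul_zero]
          · have h9 := mul_self_pos.2 h8
            have h10 : 0 ≤ (w j * (p.2 j : ℚ)) * ((w - l • qv e) j * (w - l • qv e) j) := by
              have : (w j * (p.2 j : ℚ)) * ((w - l • qv e) j * (w - l • qv e) j) =
                (w j * (w - l • qv e) j) * ((w - l • qv e) j * (p.2 j : ℚ)) := by ring
              rw [this]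
              exact mul_nonneg h7 h5
            exact nonneg_of_mul_nonneg_left h10 h9
        · exact fun hj => h6 (hz j hj)

theorem cf_nonneg {z e : Vec d} (h : Cf (qv z) e) {j : Fin d} (hz : 0 ≤ z j) : 0 ≤ e j := by
  obtain ⟨h1, h2⟩ := h j
  rcases hz.lt_or_eq with h3 | h3
  · have h4 : (0 : ℚ) < (z j : ℚ) := by exact_mod_cast h3
    have h5 : (0 : ℚ) ≤ (e j : ℚ) := nonneg_of_mul_nonneg_right h1 h4
    exact_mod_cast h5
  · rw [h2 (by show ((z j : ℤ) : ℚ) = 0; rw [← h3, Int.cast_zero])]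

theorem cf_nonpos {z e : Vec d} (h : Cf (qv z) e) {j : Fin d} (hz : z j ≤ 0) : e j ≤ 0 := by
  obtain ⟨h1, h2⟩ := h j
  rcases hz.lt_or_eq with h3 | h3
  · have h4 : (z j : ℚ) < 0 := by exact_mod_cast h3
    have h5 : (e j : ℚ) ≤ 0 := by
      by_contra h6
      push Not at h6
      have := mul_neg_of_neg_of_pos h4 h6
      exact absurd h1 (not_le.2 this)
    exact_mod_cast h5
  · rw [h2 (by show ((z j : ℤ) : ℚ) = 0; rw [h3, Int.cast_zero])]

theorem list_sum_nonneg {D : List (ℚ × Vec d)} {j : Fin d}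
    (h : ∀ p ∈ D, 0 ≤ p.1 ∧ 0 ≤ p.2 j) : 0 ≤ (D.map fun p => p.1 * (p.2 j : ℚ)).sum := by
  refine List.sum_nonneg fun x hx => ?_
  obtain ⟨p, hp, rfl⟩ := List.mem_map.1 hx
  exact mul_nonneg (h p hp).1 (by exact_mod_cast (h p hp).2)

theorem list_sum_nonpos {D : List (ℚ × Vec d)} {j : Fin d}
    (h : ∀ p ∈ D, 0 ≤ p.1 ∧ p.2 j ≤ 0) : (D.map fun p => p.1 * (p.2 j : ℚ)).sum ≤ 0 := by
  induction D with
  | nil => simp
  | cons p D ih =>
    rw [List.map_cons, List.sum_cons]
    obtain ⟨h1, h2⟩ := h p (List.mem_cons_self ..)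
    have h3 := ih fun q hq => h q (List.mem_cons_of_mem _ hq)
    have h4 : p.1 * (p.2 j : ℚ) ≤ 0 := mul_nonpos_of_nonneg_of_nonpos h1 (by exact_mod_cast h2)
    linarith

theorem list_sum_abs {B : ℚ} {j : Fin d} (hB : 0 ≤ B) :
    ∀ D : List (ℚ × Vec d), (∀ p ∈ D, 0 ≤ p.1 ∧ p.1 ≤ 1 ∧ |(p.2 j : ℚ)| ≤ B) →
      |(D.map fun p => p.1 * (p.2 j : ℚ)).sum| ≤ D.length * B
  | [], _ => by simp
  | p :: D, h => by
    have h1 := list_sum_abs hB D fun q hq => h q (List.mem_cons_of_mem _ hq)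
    obtain ⟨h2, h3, h4⟩ := h p (List.mem_cons_self ..)
    rw [List.map_cons, List.sum_cons, List.length_cons]
    refine (abs_add_le _ _).trans ?_
    have h5 : |p.1 * (p.2 j : ℚ)| ≤ B := by
      rw [abs_mul, abs_of_nonneg h2]
      calc p.1 * |(p.2 j : ℚ)| ≤ 1 * B := mul_le_mul h3 h4 (abs_nonneg _) zero_le_one
        _ = B := one_mul B
    push_cast
    linarith

theorem floor_sum (D : List (ℚ × Vec d)) (j : Fin d) :
    ((((D.map fun p => (⌊p.1⌋₊, p.2)).map fun e => e.1 • e.2).sum j : ℤ) : ℚ) =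
      (D.map fun p => (⌊p.1⌋₊ : ℚ) * (p.2 j : ℚ)).sum := by
  induction D with
  | nil => simp
  | cons p D ih =>
    rw [List.map_cons, List.map_cons, List.sum_cons, Pi.add_apply, Int.cast_add, ih,
      List.map_cons, List.sum_cons]
    congr 1
    simp

end Conf

open Conf in
/-- MODULE CONF (file REV/Conf.lean) -/
theorem conf {G : Set (Vec d)} {Γ k : ℕ} (hG : ∀ g ∈ G, ∀ j, |g j| ≤ Γ)
    {W : Submodule ℚ (Fin d → ℚ)} (hGW : ∀ g ∈ G, qv g ∈ W) (hk : Module.finrank ℚ W ≤ k)
    {z : Vec d} (hz : z ∈ AddSubgroup.closure G) :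
    ∃ D : List (ℕ × Vec d), D.length ≤ d + 1 ∧ (D.map fun e => e.1 • e.2).sum = z ∧
      ∀ e ∈ D, e.2 ∈ AddSubgroup.closure G ∧ (∀ j, |e.2 j| ≤ rB d k Γ) ∧
        ∀ j, (0 ≤ z j → 0 ≤ e.2 j) ∧ (z j ≤ 0 → e.2 j ≤ 0) := by
  classical
  have hle : Submodule.span ℚ (qv '' G) ≤ W := Submodule.span_le.2 (by
    rintro _ ⟨g, hg, rfl⟩
    exact hGW g hg)
  have hk' : Module.finrank ℚ (Submodule.span ℚ (qv '' G)) ≤ k :=
    (Submodule.finrank_mono hle).trans hk
  have hGW' : ∀ g ∈ G, qv g ∈ Submodule.span ℚ (qv '' G) := fun g hg =>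
    Submodule.subset_span (Set.mem_image_of_mem qv hg)
  have hcard : (supp (qv z)).card ≤ d := by
    have := Finset.card_le_univ (supp (qv z))
    simpa using this
  obtain ⟨D, hD1, hD2, hD3⟩ := decomp hG hk' d (qv z) (qv_mem hGW' hz) hcard
  obtain ⟨E, hE⟩ : ∃ E, E = D.map fun p => (⌊p.1⌋₊, p.2) := ⟨_, rfl⟩
  obtain ⟨f, hf⟩ : ∃ f, f = z - (E.map fun e => e.1 • e.2).sum := ⟨_, rfl⟩
  have hEmem : ∀ e ∈ E, ∃ p ∈ D, e = (⌊p.1⌋₊, p.2) := by
    intro e he
    rw [hE] at he
    obtain ⟨p, hp, rfl⟩ := List.mem_map.1 he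
    exact ⟨p, hp, rfl⟩
  have hfm : f ∈ AddSubgroup.closure G := by
    rw [hf]
    refine AddSubgroup.sub_mem _ hz (AddSubgroup.list_sum_mem _ fun x hx => ?_)
    obtain ⟨e, he, rfl⟩ := List.mem_map.1 hx
    obtain ⟨p, hp, rfl⟩ := hEmem e he
    exact AddSubgroup.nsmul_mem _ (hD3 p hp).2.1 _
  obtain ⟨D', hD'⟩ : ∃ D' : List (ℚ × Vec d),
      D' = D.map fun p => (p.1 - (⌊p.1⌋₊ : ℚ), p.2) := ⟨_, rfl⟩
  have hfj : ∀ j, (f j : ℚ) = (D'.map fun p => p.1 * (p.2 j : ℚ)).sum := by
    intro j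
    have h1 : (f j : ℚ) = (z j : ℚ) - (D.map fun p => (⌊p.1⌋₊ : ℚ) * (p.2 j : ℚ)).sum := by
      rw [hf, Pi.sub_apply, Int.cast_sub, hE, floor_sum]
    have h2 : (z j : ℚ) = (D.map fun p => p.1 * (p.2 j : ℚ)).sum := (hD2 j).symm
    rw [h1, h2, hD', List.map_map]
    clear hD1 hD2 hD3 hE hf hEmem hfm hD' h1 h2
    induction D with
    | nil => simp
    | cons p D ih =>
      simp only [List.map_cons, List.sum_cons, Function.comp] at ih ⊢
      rw [← ih]
      ring
  have hD'3 : ∀ p ∈ D', 0 ≤ p.1 ∧ p.1 ≤ 1 ∧ (∀ j, |p.2 j| ≤ (2 * k * Γ + 1) ^ k) ∧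
      Cf (qv z) p.2 := by
    intro p hp
    rw [hD'] at hp
    obtain ⟨q, hq, rfl⟩ := List.mem_map.1 hp
    obtain ⟨h1, h2, h3, h4⟩ := hD3 q hq
    refine ⟨?_, ?_, h3, h4⟩
    · exact sub_nonneg.2 (Nat.floor_le h1)
    · have := (Nat.lt_floor_add_one q.1).le
      show q.1 - ⌊q.1⌋₊ ≤ 1
      linarith
  refine ⟨E ++ [(1, f)], ?_, ?_, ?_⟩
  · rw [List.length_append, hE, List.length_map]
    simpa using hD1
  · rw [List.map_append, List.sum_append, hf]
    simp
  · intro e he
    rcases List.mem_append.1 he with he | he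
    · obtain ⟨p, hp, rfl⟩ := hEmem e he
      obtain ⟨h1, h2, h3, h4⟩ := hD3 p hp
      refine ⟨h2, fun j => (h3 j).trans ?_, fun j => ⟨cf_nonneg h4, cf_nonpos h4⟩⟩
      unfold rB
      push_cast
      have : (0 : ℤ) ≤ (2 * k * Γ + 1) ^ k := by positivity
      nlinarith
    · rw [List.mem_singleton] at he
      subst he
      refine ⟨hfm, fun j => ?_, fun j => ⟨fun h => ?_, fun h => ?_⟩⟩
      · have h1 := list_sum_abs (B := (2 * k * Γ + 1) ^ k) (j := j) (by positivity) D'
          fun p hp => ⟨(hD'3 p hp).1, (hD'3 p hp).2.1, by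
            have := (hD'3 p hp).2.2.1 j
            exact_mod_cast this⟩
        rw [← hfj j] at h1
        have h2 : D'.length ≤ d := by
          rw [hD', List.length_map]
          exact hD1
        have h3 : |(f j : ℚ)| ≤ (d + 1) * (2 * k * Γ + 1) ^ k := by
          refine h1.trans ?_
          refine mul_le_mul_of_nonneg_right ?_ (by positivity)
          have : (D'.length : ℚ) ≤ d := by exact_mod_cast h2
          linarith
        unfold rB
        push_cast
        exact_mod_cast h3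
      · have h1 : (0 : ℚ) ≤ (f j : ℚ) := by
          rw [hfj j]
          exact list_sum_nonneg fun p hp => ⟨(hD'3 p hp).1, cf_nonneg (hD'3 p hp).2.2.2 h⟩
        exact_mod_cast h1
      · have h1 : (f j : ℚ) ≤ 0 := by
          rw [hfj j]
          exact list_sum_nonpos fun p hp => ⟨(hD'3 p hp).1, cf_nonpos (hD'3 p hp).2.2.2 h⟩
        exact_mod_cast h1

end Pool.Agent.REV
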