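import Pool.Agent.REV.Flats

/-!
# REV / Lift: short lifts to a common thin configuration
-/

set_option autoImplicit false

namespace Pool.Agent.REV

open Pool.Agent.EEF Finset

variable {Q : Type} {d : ℕ} {T : VASS Q d}

/-- admissible thresholds -/
structure Thr (n d M : ℕ) (A S β : ℕ → ℕ) : Prop where
  card : ∀ l, n * (AL d A l).card ≤ S l
  gap : ∀ l' l, l' < l → A l' + M * S l ≤ A l
  bank : ∀ l, M * S l + β l ≤ A l

theorem Thr.mono {n d M : ℕ} {A S β : ℕ → ℕ} (h : Thr n d M A S β) : Monotone A := by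
  intro a b hab
  rcases Nat.eq_or_lt_of_le hab with rfl | h1
  · exact le_rfl
  · exact (Nat.le_add_right _ _).trans (h.gap a b h1)

/-- the configuration `q(Y)` can be reached from `p(X)` inside the component of `p₀` -/
def Cmp (T : VASS Q d) (p₀ p : Q) (X : Vec d) (q : Q) (Y : Vec d) : Prop :=
  ∃ u, PW T (NP T p₀ Set.univ) p X u q ∧ Y = X + u.sum

theorem Cmp.trans {p₀ p q r : Q} {X Y : Vec d} (h : Cmp T p₀ p X q Y) {u : List (Vec d)}
    (h' : PW T (NP T p₀ Set.univ) q Y u r) : Cmp T p₀ p X r (Y + u.sum) := by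
  obtain ⟨a, h1, h2⟩ := h
  refine ⟨a ++ u, h1.append (h2 ▸ h'), ?_⟩
  rw [h2, List.sum_append, add_assoc]

variable {W : Submodule ℚ (Fin d → ℚ)} {A S β : ℕ → ℕ} {p₀ : Q}

/-- the common step: shorten up to the first configuration which is not thin, then descend -/
theorem step_down [Fintype Q] {M : ℕ} (hM : ∀ p v q, (p, v, q) ∈ T → ∀ k, |v k| ≤ M)
    (hs : Scc T p₀ W) (ht : Thr (Fintype.card Q) d M A S β) {E : Set (Fin d)} {l : ℕ}
    (hE : Flt W E l) {q : Q} {Y : Vec d} (hY : ∀ j ∉ E, ((A l : ℕ) : ℤ) ≤ Y j) {r : Q}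
    {u₁ : List (Vec d)} (h0 : NP T p₀ E r (Y + u₁.sum)) (h1 : ¬ Thn W A E (Y + u₁.sum))
    (h2 : (u₁ = [] ∧ r = q) ∨ ∃ u₀ v r₀, u₁ = u₀ ++ [v] ∧
      PW T (PT T p₀ W A E) q Y u₀ r₀ ∧ (r₀, v, r) ∈ T) :
    ∃ E' l' τ, Flt W E' l' ∧ l' < l ∧ E' ⊆ E ∧ PW T (NP T p₀ Set.univ) q Y τ r ∧
      (∀ j ∈ E, τ.sum j = u₁.sum j) ∧ (∀ j ∉ E', ((A l' : ℕ) : ℤ) ≤ (Y + τ.sum) j) ∧
      τ.length ≤ S l := by
  obtain ⟨E', l', d1, d2, d3, d4⟩ := descend hE h0.2 h1
  have hgap : ((A l' : ℕ) : ℤ) + M * S l ≤ A l := by exact_mod_cast ht.gap l' l d2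
  rcases h2 with ⟨rfl, rfl⟩ | ⟨u₀, v, r₀, rfl, h3, h4⟩
  · refine ⟨E', l', [], d1, d2, d3, ?_, fun _ _ => rfl, ?_, Nat.zero_le _⟩
    · rw [List.sum_nil, add_zero] at h0
      refine .nil ⟨h0.1, fun j _ => ?_⟩
      by_cases hj : j ∈ E
      · exact h0.2 j hj
      · have := hY j hj
        have h5 : (0 : ℤ) ≤ (A l : ℕ) := Int.natCast_nonneg _
        linarith
    · intro j hj
      by_cases hjE : j ∈ E
      · exact d4 j hjE hj
      · have := hY j hjE
        have h5 : (0 : ℤ) ≤ M * S l := by positivity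
        rw [List.sum_nil, add_zero]
        linarith
  · obtain ⟨w₀, e1, e2, e3⟩ := shortenT hs hE h3
    have hlen : w₀.length + 1 ≤ S l := le_trans e3 (ht.card l)
    have hsum : ∀ j ∈ E, (w₀ ++ [v]).sum j = (u₀ ++ [v]).sum j := by
      intro j hj
      rw [List.sum_append, List.sum_append, Pi.add_apply, Pi.add_apply, e2 j hj]
    have h5 : PW T (NP T p₀ E) q Y (w₀ ++ [v]) r := by
      have h6 : PW T (NP T p₀ E) q Y w₀ r₀ := e1.mono fun _ _ h => h.1
      refine h6.append (.cons h6.stop h4 (.nil ?_))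
      refine NP_inv p₀ E _ _ _ (fun j hj => ?_) h0
      have := hsum j hj
      rw [List.sum_append, List.sum_singleton] at this
      rw [add_assoc, Pi.add_apply, Pi.add_apply, this]
    have hex := h5.exec hM (D := (A l' : ℕ)) (Int.natCast_nonneg _) (fun j hj => by
      have h7 := hY j hj
      have h8 : ((w₀ ++ [v]).length : ℤ) ≤ S l := by
        rw [List.length_append, List.length_singleton]
        exact_mod_cast hlen
      have h9 : (M : ℤ) * (w₀ ++ [v]).length ≤ M * S l :=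
        mul_le_mul_of_nonneg_left h8 (Int.natCast_nonneg _)
      linarith)
    refine ⟨E', l', w₀ ++ [v], d1, d2, d3, hex.1, hsum, fun j hj => ?_, ?_⟩
    · by_cases hjE : j ∈ E
      · have h6 := d4 j hjE hj
        rw [Pi.add_apply, hsum j hjE]
        exact h6
      · exact hex.2 j hjE
    · rw [List.length_append, List.length_singleton]
      exact hlen

/-- the lifting process -/
theorem lift_aux [Fintype Q] {M : ℕ} (hM : ∀ p v q, (p, v, q) ∈ T → ∀ k, |v k| ≤ M)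
    (hs : Scc T p₀ W) (ht : Thr (Fintype.card Q) d M A S β) {p : Q} {X : Vec d} {r : ℕ}
    {F : Set (Fin d)} {qs : Q} {Xs : Vec d} (hF : Flt W F r)
    (hXs : ∀ j ∉ F, ((A r : ℕ) : ℤ) ≤ Xs j)
    (hmin : ∀ l E q Y, Flt W E l → Cmp T p₀ p X q Y → (∀ j ∉ E, ((A l : ℕ) : ℤ) ≤ Y j) → r ≤ l) :
    ∀ (l : ℕ) {E : Set (Fin d)} {q : Q} {Y : Vec d} {u : List (Vec d)}, Flt W E l →
      Cmp T p₀ p X q Y → (∀ j ∉ E, ((A l : ℕ) : ℤ) ≤ Y j) → PW T (NP T p₀ E) q Y u qs →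
      (∀ j ∈ E, (Y + u.sum) j = Xs j) →
      ∃ τ, PW T (NP T p₀ Set.univ) q Y τ qs ∧ τ.length ≤ ∑ i ∈ range (l + 1), S i ∧
        (∀ j ∈ F, (Y + τ.sum) j = Xs j) ∧ ∀ j ∉ F, ((β r : ℕ) : ℤ) ≤ (Y + τ.sum) j := by
  intro l
  induction l using Nat.strong_induction_on with
  | _ l ih =>
    intro E q Y u hE hC hY hu hfin
    rcases hu.firstBad (fun _ y => Thn W A E y) with h1 | ⟨u₁, u₂, r', rfl, h1, h2, h3, h4⟩
    · obtain ⟨w', e1, e2, e3⟩ := shortenT hs hE h1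
      have hlen : w'.length ≤ S l := (le_of_lt e3).trans (ht.card l)
      have hrl := hmin l E q Y hE hC hY
      have hfin' : ∀ j ∈ E, (Y + w'.sum) j = Xs j := by
        intro j hj
        rw [← hfin j hj, Pi.add_apply, Pi.add_apply, e2 j hj]
      have hth : Thn W A E Xs := e1.stop.2.congr hfin'
      obtain ⟨rfl, rfl⟩ := thin_star ht.mono hF hE hrl hth hXs
      have hex := (e1.mono (P' := NP T p₀ E) fun _ _ h => h.1).exec hM (D := (β l : ℕ))
        (Int.natCast_nonneg _) (fun j hj => by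
          have h7 := hY j hj
          have h8 : ((w'.length : ℕ) : ℤ) ≤ S l := by exact_mod_cast hlen
          have h9 : (M : ℤ) * w'.length ≤ M * S l :=
            mul_le_mul_of_nonneg_left h8 (Int.natCast_nonneg _)
          have h10 : ((M * S l + β l : ℕ) : ℤ) ≤ A l := by exact_mod_cast ht.bank l
          push_cast at h10
          linarith)
      refine ⟨w', hex.1, hlen.trans ?_, hfin', hex.2⟩
      exact Finset.single_le_sum (f := S) (fun i _ => Nat.zero_le _)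
        (mem_range.2 (Nat.lt_succ_self l))
    · obtain ⟨E', l', τ, f1, f2, f3, f4, f5, f6, f7⟩ := step_down hM hs ht hE hY h1 h2 h4
      have hcong : ∀ j ∈ E, (Y + u₁.sum) j = (Y + τ.sum) j := by
        intro j hj
        rw [Pi.add_apply, Pi.add_apply, f5 j hj]
      have h5 : PW T (NP T p₀ E') r' (Y + τ.sum) u₂ qs :=
        (h3.congr (NP_inv p₀ E) hcong).mono (NP_mono f3)
      obtain ⟨τ', g1, g2, g3, g4⟩ := ih l' f2 f1 (hC.trans f4) f6 h5 (fun j hj => by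
        have h6 := hfin j (f3 hj)
        have h7 := f5 j (f3 hj)
        rw [List.sum_append] at h6
        simp only [Pi.add_apply] at h6 ⊢
        rw [h7]
        linarith)
      have es : Y + (τ ++ τ').sum = Y + τ.sum + τ'.sum := by rw [List.sum_append, add_assoc]
      refine ⟨τ ++ τ', f4.append g1, ?_, ?_, ?_⟩
      · rw [List.length_append, sum_range_succ]
        have h8 : ∑ i ∈ range (l' + 1), S i ≤ ∑ i ∈ range l, S i :=
          Finset.sum_le_sum_of_subset (range_subset_range.2 (by omega))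
        omega
      · rw [es]; exact g3
      · rw [es]; exact g4

/-- **Lifting.** -/
theorem lift [Fintype Q] {M : ℕ} (hM : ∀ p v q, (p, v, q) ∈ T → ∀ k, |v k| ≤ M)
    (hs : Scc T p₀ W) (ht : Thr (Fintype.card Q) d M A S β) {p : Q} {X : Vec d}
    (hp : InS T p₀ p) (hX : 0 ≤ X) :
    ∃ (r : ℕ) (F : Set (Fin d)) (qs : Q) (Xs : Vec d), r ≤ Module.finrank ℚ W ∧ InS T p₀ qs ∧
      (∀ j ∈ F, 0 ≤ Xs j) ∧
      (∀ q Y, Cmp T p₀ p X q Y → ∃ τ, PW T (NP T p₀ Set.univ) q Y τ qs ∧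
        τ.length ≤ ∑ i ∈ range (Module.finrank ℚ W + 1), S i ∧
        (∀ j ∈ F, (Y + τ.sum) j = Xs j) ∧ ∀ j ∉ F, ((β r : ℕ) : ℤ) ≤ (Y + τ.sum) j) ∧
      ∀ u q, PW T (NP T p₀ F) qs Xs u q → ∃ τ, PW T (NP T p₀ F) qs Xs τ q ∧
        (∀ j ∈ F, τ.sum j = u.sum j) ∧ τ.length < S r := by
  classical
  have hex : ∃ r, ∃ E q Y, Flt W E r ∧ Cmp T p₀ p X q Y ∧ ∀ j ∉ E, ((A r : ℕ) : ℤ) ≤ Y j :=
    ⟨_, Set.univ, p, X, Flt_univ W, ⟨[], .nil ⟨hp, fun j _ => hX j⟩, by simp⟩,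
      fun j hj => absurd (Set.mem_univ j) hj⟩
  obtain ⟨F, qs, Xs, hF, hC, hXs⟩ := Nat.find_spec hex
  have hmin : ∀ l E q Y, Flt W E l → Cmp T p₀ p X q Y → (∀ j ∉ E, ((A l : ℕ) : ℤ) ≤ Y j) →
      Nat.find hex ≤ l := fun l E q Y h1 h2 h3 => Nat.find_min' hex ⟨E, q, Y, h1, h2, h3⟩
  have hle : Nat.find hex ≤ Module.finrank ℚ W := hmin _ _ p X (Flt_univ W)
    ⟨[], .nil ⟨hp, fun j _ => hX j⟩, by simp⟩ (fun j hj => absurd (Set.mem_univ j) hj)
  obtain ⟨us, hus, hXsu⟩ := hC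
  have hstop := hus.stop
  rw [← hXsu] at hstop
  refine ⟨Nat.find hex, F, qs, Xs, hle, hstop.1, fun j _ => hstop.2 j (Set.mem_univ j), ?_, ?_⟩
  · intro q Y hCY
    obtain ⟨a, ha, hYa⟩ := hCY
    have hback := ha.rv hs (fun _ _ h => h.1)
    rw [← hYa] at hback
    have hsum : Y + (rv a).sum = X := by rw [rv_sum, hYa]; abel
    have hgo : PW T (NP T p₀ Set.univ) q Y (rv a ++ us) qs := hback.append (by rw [hsum]; exact hus)
    exact lift_aux hM hs ht hF hXs hmin _ (Flt_univ W) ⟨a, ha, hYa⟩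
      (fun j hj => absurd (Set.mem_univ j) hj) hgo (fun j _ => by
        rw [List.sum_append, ← add_assoc, hsum, ← hXsu])
  · intro u q hu
    rcases hu.firstBad (fun _ y => Thn W A F y) with h1 | ⟨u₁, u₂, r', rfl, h1, h2, h3, h4⟩
    · obtain ⟨w', e1, e2, e3⟩ := shortenT hs hF h1
      exact ⟨w', e1.mono fun _ _ h => h.1, e2, lt_of_lt_of_le e3 (ht.card _)⟩
    · obtain ⟨E', l', τ, f1, f2, f3, f4, f5, f6, f7⟩ := step_down hM hs ht hF hXs h1 h2 h4
      have h5 := hmin l' E' _ _ f1 (Cmp.trans (⟨us, hus, hXsu⟩ : Cmp T p₀ p X qs Xs) f4) f6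
      omega

end Pool.Agent.REV
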