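import Pool.Agent.REV.SW
import Pool.Agent.REV.Lift

/-!
# REV / Cyc: short lifts along a periodic run
-/

set_option autoImplicit false

namespace Pool.Agent.REV

open Pool.Agent.EEF Finset

variable {Q : Type} {d : ℕ} {T : VASS Q d} {W : Submodule ℚ (Fin d → ℚ)} {A : ℕ → ℕ}
  {f : ℕ → Q} {Z : ℕ → Vec d} {m : ℕ}

/-! ### Codes -/

theorem code_mem2 [Fintype Q] {E : Set (Fin d)} {l : ℕ} (hE : Flt W E l)
    {p : Q} {x : Vec d} (h : Thn W A E x) :
    code W A E p x ∈ (univ : Finset Q) ×ˢ AL d A l := by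
  obtain ⟨h1, h2, h3⟩ := h.choose_spec
  rw [code, mem_product, dif_pos h]
  refine ⟨mem_univ _, ?_⟩
  have h4 := enc_mem h1
  have h5 := h1.rank
  rw [h3] at h5
  have h6 := hE.2
  have h7 : (h.choose).length = l := by omega
  rw [h7] at h4
  exact h4

/-- visited on `E` and thin -/
def VT (W : Submodule ℚ (Fin d → ℚ)) (A : ℕ → ℕ) (f : ℕ → Q) (Z : ℕ → Vec d)
    (E : Set (Fin d)) (p : Q) (x : Vec d) : Prop := VE f Z E p x ∧ Thn W A E x

theorem VT_inv (W : Submodule ℚ (Fin d → ℚ)) (A : ℕ → ℕ) (f : ℕ → Q) (Z : ℕ → Vec d)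
    (E : Set (Fin d)) : Inv (VT W A f Z E) E := by
  intro p x x' hx h
  exact ⟨VE_inv f Z E p x x' hx h.1, h.2.congr hx⟩

theorem code_inj2 (hr : PR T W f Z m) {E : Set (Fin d)} {r₁ r₂ : Q} {y₁ y₂ : Vec d}
    (h₁ : VT W A f Z E r₁ y₁) (h₂ : VT W A f Z E r₂ y₂)
    (he : code W A E r₁ y₁ = code W A E r₂ y₂) : r₁ = r₂ ∧ ∀ j ∈ E, y₁ j = y₂ j := by
  obtain ⟨⟨t₁, e1, e2⟩, h1⟩ := h₁
  obtain ⟨⟨t₂, e3, e4⟩, h2⟩ := h₂
  rw [code, code, dif_pos h1, dif_pos h2, Prod.mk.injEq] at he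
  obtain ⟨rfl, he2⟩ := he
  obtain ⟨a1, a2, a3⟩ := h1.choose_spec
  obtain ⟨b1, b2, b3⟩ := h2.choose_spec
  obtain ⟨c1, c2⟩ := enc_inj a1 b1 he2
  refine ⟨rfl, fun j hj => ?_⟩
  have h3 := hr.hW t₁ t₂ (e1.trans e3.symm)
  have h4 : qv (Z t₁ - Z t₂) ∈ Kr W (ls h1.choose) := by
    refine ⟨h3, fun i hi => ?_⟩
    have h5 := c2 i hi
    have h6 := e2 i (a2 i hi)
    have h7 := e4 i (by rw [c1] at hi; exact b2 i hi)
    have h8 : Z t₁ i = Z t₂ i := by rw [h6, h7, h5]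
    simp [qv, h8]
  rw [a3] at h4
  have h6 := h4.2 j hj
  simp only [qv, Pi.sub_apply, Int.cast_sub] at h6
  have h7 : ((Z t₁ j : ℤ) : ℚ) = (Z t₂ j : ℤ) := by linarith
  have h8 : Z t₁ j = Z t₂ j := by exact_mod_cast h7
  rw [← e2 j hj, ← e4 j hj, h8]

theorem shortenR [Fintype Q] (hr : PR T W f Z m) {E : Set (Fin d)} {l : ℕ} (hE : Flt W E l)
    {p q : Q} {x : Vec d} {w : List (Vec d)} (h : SW (RE f Z E) (VT W A f Z E) p x w q) :
    ∃ w', SW (RE f Z E) (VT W A f Z E) p x w' q ∧ (∀ j ∈ E, w'.sum j = w.sum j) ∧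
      w'.length < Fintype.card Q * (AL d A l).card := by
  classical
  obtain ⟨w', h1, h2, h3⟩ := SW.shorten (RE_inv f Z E) (VT_inv W A f Z E)
    ((univ : Finset Q) ×ˢ AL d A l) (code W A E) (fun r y hy => code_mem2 hE hy.2)
    (fun r₁ r₂ y₁ y₂ h1 h2 h3 => code_inj2 hr h1 h2 h3) _ le_rfl h
  refine ⟨w', h1, h2, ?_⟩
  rwa [card_product, card_univ] at h3

theorem SW.exec {E : Set (Fin d)} {M : ℕ} (hr : PR T W f Z m)
    (hM : ∀ p v q, (p, v, q) ∈ T → ∀ k, |v k| ≤ M) {D : ℤ} (hD : 0 ≤ D) {p q : Q}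
    {x : Vec d} {w : List (Vec d)} (h : SW (RE f Z E) (VE f Z E) p x w q)
    (hx : ∀ j ∉ E, D + M * w.length ≤ x j) :
    Ok x w ∧ ∀ j ∉ E, D ≤ (x + w.sum) j := by
  induction h with
  | @nil p x h0 =>
    refine ⟨trivial, fun j hj => ?_⟩
    have := hx j hj
    simpa using this
  | @cons p p' q v x w h0 h1 h2 ih =>
    have h3 : ∀ j ∉ E, D + M * w.length ≤ (x + v) j := by
      intro j hj
      have h4 := hx j hj
      have h5 := (abs_le.1 (hM _ _ _ (hr.RT _ _ _ _ h1) j)).1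
      rw [List.length_cons] at h4
      push_cast at h4
      rw [Pi.add_apply]
      linarith
    obtain ⟨h4, h5⟩ := ih h3
    refine ⟨⟨fun j => ?_, h4⟩, fun j hj => ?_⟩
    · by_cases hj : j ∈ E
      · obtain ⟨t, -, h6⟩ := h2.start
        rw [← h6 j hj]
        exact hr.nonneg t j
      · have h6 := h3 j hj
        have h7 : (0 : ℤ) ≤ M * w.length := by positivity
        have h8 : 0 ≤ (x + v) j := by linarith
        exact h8
    · rw [List.sum_cons, ← add_assoc]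
      exact h5 j hj

/-! ### The flat -/

/-- the maximal flat which is thin at all times -/
structure MF (W : Submodule ℚ (Fin d → ℚ)) (A : ℕ → ℕ) (Z : ℕ → Vec d) (F : Set (Fin d))
    (r : ℕ) : Prop where
  flt : Flt W F r
  thn : ∀ t, Thn W A F (Z t)
  max : ∀ E l, Flt W E l → F ⊆ E → (∀ t, Thn W A E (Z t)) → E = F ∧ l = r

theorem exists_MF (W : Submodule ℚ (Fin d → ℚ)) (A : ℕ → ℕ) (Z : ℕ → Vec d) :
    ∃ F r, MF W A Z F r := by
  classical
  let P : ℕ → Prop := fun r => ∃ E, Flt W E r ∧ ∀ t, Thn W A E (Z t)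
  have hK : Kr W {j | ∀ v ∈ W, v j = 0} = W :=
    le_antisymm (Kr_le W _) fun v hv => ⟨hv, fun j hj => hj v hv⟩
  have hP0 : P 0 := by
    refine ⟨{j | ∀ v ∈ W, v j = 0}, ⟨fun j hj => ?_, ?_⟩, fun t => ⟨[], trivial, by simp, ?_⟩⟩
    · rw [hK] at hj
      exact hj
    · rw [hK]
      simp
    · rw [ls_nil, Kr_empty, hK]
  have hle : ∀ {E : Set (Fin d)} {l : ℕ}, Flt W E l → l ≤ Module.finrank ℚ W := fun h => by
    have := h.2
    omega
  obtain ⟨F, hF, hFt⟩ : P (Nat.findGreatest P (Module.finrank ℚ W)) :=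
    Nat.findGreatest_spec (Nat.zero_le _) hP0
  refine ⟨F, Nat.findGreatest P (Module.finrank ℚ W), hF, hFt, fun E l hE hFE ht => ?_⟩
  have h1 : l ≤ Nat.findGreatest P (Module.finrank ℚ W) :=
    Nat.le_findGreatest (hle hE) ⟨E, hE, ht⟩
  have h2 : Module.finrank ℚ (Kr W E) ≤ Module.finrank ℚ (Kr W F) := Kr_mono_rank W hFE
  have h3 := hE.2
  have h4 := hF.2
  have h5 : l = Nat.findGreatest P (Module.finrank ℚ W) := by omega
  have h6 : Kr W E = Kr W F := Submodule.eq_of_le_of_finrank_eq (Kr_anti W hFE) (by omega)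
  refine ⟨?_, h5⟩
  refine Set.Subset.antisymm (fun j hj => ?_) hFE
  exact hF.1 j fun v hv => (h6.symm ▸ hv : v ∈ Kr W E).2 j hj

theorem exchange {F E E' : Set (Fin d)} {l' : ℕ} (hA : Monotone A) {x : Vec d}
    (hF : Thn W A F x) (hFE : F ⊆ E) (hE' : Flt W E' l')
    (hlow : ∀ j ∈ E, j ∉ E' → ((A l' : ℕ) : ℤ) ≤ x j) : F ⊆ E' := by
  obtain ⟨b, h1, h2, h3⟩ := hF
  have key : ∀ b : List (Fin d), Gdy W A x b → (∀ j ∈ b, j ∈ E) → ∀ j ∈ b, j ∈ E' := by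
    intro b
    induction b with
    | nil => simp
    | cons i b ih =>
      intro g1 g2 j hj
      have g3 := ih g1.1 fun j hj => g2 j (List.mem_cons_of_mem _ hj)
      rw [List.mem_cons] at hj
      rcases hj with rfl | hj
      · by_contra hjE
        have g4 := hlow j (g2 j List.mem_cons_self) hjE
        have g5 := g1.2.2.2
        have g6 : Module.finrank ℚ (Kr W E') ≤ Module.finrank ℚ (Kr W (ls b)) :=
          Kr_mono_rank W g3
        have g7 := g1.1.rank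
        have g8 := hE'.2
        have g9 : b.length ≤ l' := by omega
        have g10 : ((A b.length : ℕ) : ℤ) ≤ (A l' : ℕ) := by exact_mod_cast hA g9
        linarith
      · exact g3 j hj
  have h4 := key b h1 fun j hj => hFE (h2 j hj)
  intro j hj
  refine hE'.1 j fun v hv => ?_
  have h5 : v ∈ Kr W (ls b) := Kr_anti W h4 hv
  rw [h3] at h5
  exact h5.2 j hj

/-! ### The lifting process -/

variable {S β : ℕ → ℕ}

theorem step_down2 [Fintype Q] {M : ℕ} (hM : ∀ p v q, (p, v, q) ∈ T → ∀ k, |v k| ≤ M)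
    (hr : PR T W f Z m) (ht : Thr (Fintype.card Q) d M A S β) {F : Set (Fin d)} {r : ℕ}
    (hF : MF W A Z F r) {E : Set (Fin d)} {l : ℕ} (hE : Flt W E l) (hFE : F ⊆ E) {i t : ℕ}
    (hit : i ≤ t) {Y : Vec d} (hYE : ∀ j ∈ E, Z i j = Y j)
    (hY : ∀ j ∉ E, ((A l : ℕ) : ℤ) ≤ Y j) (hthin : ∀ t', i ≤ t' → t' < t → Thn W A E (Z t'))
    (hbad : ¬ Thn W A E (Z t)) :
    ∃ E' l' τ, Flt W E' l' ∧ l' < l ∧ F ⊆ E' ∧ E' ⊆ E ∧
      SW (RE f Z E) (VE f Z E) (f i) Y τ (f t) ∧ Ok Y τ ∧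
      (∀ j ∈ E, Z t j = (Y + τ.sum) j) ∧ (∀ j ∉ E', ((A l' : ℕ) : ℤ) ≤ (Y + τ.sum) j) ∧
      τ.length ≤ S l := by
  obtain ⟨E', l', d1, d2, d3, d4⟩ := descend hE (fun j _ => hr.nonneg t j) hbad
  have hFE' : F ⊆ E' := exchange ht.mono (hF.thn t) hFE d1 d4
  have hgap : ((A l' : ℕ) : ℤ) + M * S l ≤ A l := by exact_mod_cast ht.gap l' l d2
  have hres : ∀ τ : List (Vec d), SW (RE f Z E) (VE f Z E) (f i) Y τ (f t) →
      (∀ j ∈ E, Z t j = (Y + τ.sum) j) → τ.length ≤ S l → ∃ E' l' τ, Flt W E' l' ∧ l' < l ∧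
      F ⊆ E' ∧ E' ⊆ E ∧ SW (RE f Z E) (VE f Z E) (f i) Y τ (f t) ∧ Ok Y τ ∧
      (∀ j ∈ E, Z t j = (Y + τ.sum) j) ∧ (∀ j ∉ E', ((A l' : ℕ) : ℤ) ≤ (Y + τ.sum) j) ∧
      τ.length ≤ S l := by
    intro τ h1 h2 h3
    have hex := h1.exec hr hM (D := (A l' : ℕ)) (Int.natCast_nonneg _) (fun j hj => by
      have h7 := hY j hj
      have h8 : ((τ.length : ℕ) : ℤ) ≤ S l := by exact_mod_cast h3
      have h9 : (M : ℤ) * τ.length ≤ M * S l :=
        mul_le_mul_of_nonneg_left h8 (Int.natCast_nonneg _)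
      linarith)
    refine ⟨E', l', τ, d1, d2, hFE', d3, h1, hex.1, h2, fun j hj => ?_, h3⟩
    by_cases hjE : j ∈ E
    · rw [← h2 j hjE]
      exact d4 j hjE hj
    · exact hex.2 j hjE
  rcases Nat.eq_or_lt_of_le hit with rfl | hlt
  · refine hres [] (.nil ⟨i, rfl, hYE⟩) (fun j hj => ?_) (Nat.zero_le _)
    rw [List.sum_nil, add_zero]
    exact hYE j hj
  · obtain ⟨k, rfl⟩ : ∃ k, t = i + k + 1 := ⟨t - i - 1, by omega⟩
    have h1 : SW (RE f Z E) (VT W A f Z E) (f i) Y (seg Z i k) (f (i + k)) :=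
      seg_walk f Z E _ (VT_inv W A f Z E) i k
        (fun t' h1 h2 => ⟨⟨t', rfl, fun _ _ => rfl⟩, hthin t' h1 (by omega)⟩) hYE
    obtain ⟨w₀, e1, e2, e3⟩ := shortenR hr hE h1
    have hsum : ∀ j ∈ E, (Y + (w₀ ++ [Z (i + k + 1) - Z (i + k)]).sum) j = Z (i + k + 1) j := by
      intro j hj
      rw [List.sum_append, List.sum_singleton]
      simp only [Pi.add_apply, Pi.sub_apply]
      rw [e2 j hj, seg_sum, Pi.sub_apply, ← hYE j hj]
      ring
    refine hres (w₀ ++ [Z (i + k + 1) - Z (i + k)]) ?_ (fun j hj => (hsum j hj).symm) ?_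
    · have h2 := e1.mono (P' := VE f Z E) (fun _ _ _ _ h => h) fun _ _ h => h.1
      refine h2.append (.cons h2.stop ⟨i + k, rfl, fun j hj => ?_, rfl, rfl⟩
        (.nil ⟨i + k + 1, rfl, fun j hj => ?_⟩))
      · rw [Pi.add_apply, e2 j hj, seg_sum, Pi.sub_apply, ← hYE j hj]
        ring
      · rw [← hsum j hj, List.sum_append, List.sum_singleton, ← add_assoc]
    · rw [List.length_append, List.length_singleton]
      exact le_trans e3 (ht.card l)

theorem fwd_aux [Fintype Q] {M : ℕ} (hM : ∀ p v q, (p, v, q) ∈ T → ∀ k, |v k| ≤ M)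
    (hr : PR T W f Z m) (ht : Thr (Fintype.card Q) d M A S β) {F : Set (Fin d)} {r : ℕ}
    (hF : MF W A Z F r) : ∀ (l : ℕ) {E : Set (Fin d)} {i : ℕ} {Y : Vec d}, Flt W E l → F ⊆ E →
      (∀ j ∈ E, Z i j = Y j) → (∀ j ∉ E, ((A l : ℕ) : ℤ) ≤ Y j) →
      ∃ τ, SW (RE f Z F) (VE f Z F) (f i) Y τ (f 0) ∧ Ok Y τ ∧
        τ.length ≤ ∑ i ∈ range (l + 1), S i ∧ (∀ j ∈ F, Z 0 j = (Y + τ.sum) j) ∧
        ∀ j ∉ F, ((β r : ℕ) : ℤ) ≤ (Y + τ.sum) j := by
  intro l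
  induction l using Nat.strong_induction_on with
  | _ l ih =>
    intro E i Y hE hFE hYE hY
    by_cases hall : ∀ t, i ≤ t → Thn W A E (Z t)
    · have hall' : ∀ t, Thn W A E (Z t) := by
        intro t
        have h1 := hall (t + m * i) (by have := Nat.le_mul_of_pos_left i hr.pos; omega)
        rwa [(hr.per_mul t i).2] at h1
      obtain ⟨rfl, rfl⟩ := hF.max E l hE hFE hall'
      obtain ⟨k, hk⟩ : ∃ k, i + k = 0 + m * i := ⟨m * i - i, by
        have := Nat.le_mul_of_pos_left i hr.pos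
        omega⟩
      have h1 : SW (RE f Z E) (VT W A f Z E) (f i) Y (seg Z i k) (f (i + k)) :=
        seg_walk f Z E _ (VT_inv W A f Z E) i k
          (fun t' _ _ => ⟨⟨t', rfl, fun _ _ => rfl⟩, hall' t'⟩) hYE
      obtain ⟨w₀, e1, e2, e3⟩ := shortenR hr hE h1
      rw [hk, (hr.per_mul 0 i).1] at e1
      have hlen : w₀.length ≤ S l := (le_of_lt e3).trans (ht.card l)
      have h2 := e1.mono (P' := VE f Z E) (fun _ _ _ _ h => h) fun _ _ h => h.1
      have hex := h2.exec hr hM (D := (β l : ℕ)) (Int.natCast_nonneg _) (fun j hj => by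
        have h7 := hY j hj
        have h8 : ((w₀.length : ℕ) : ℤ) ≤ S l := by exact_mod_cast hlen
        have h9 : (M : ℤ) * w₀.length ≤ M * S l :=
          mul_le_mul_of_nonneg_left h8 (Int.natCast_nonneg _)
        have h10 : ((M * S l + β l : ℕ) : ℤ) ≤ A l := by exact_mod_cast ht.bank l
        push_cast at h10
        linarith)
      refine ⟨w₀, h2, hex.1, hlen.trans ?_, fun j hj => ?_, hex.2⟩
      · exact Finset.single_le_sum (f := S) (fun i _ => Nat.zero_le _)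
          (mem_range.2 (Nat.lt_succ_self l))
      · rw [Pi.add_apply, e2 j hj, seg_sum, hk, (hr.per_mul 0 i).2, Pi.sub_apply, ← hYE j hj]
        ring
    · push Not at hall
      obtain ⟨t, ⟨hit, hbad⟩, hmin⟩ : ∃ t, (i ≤ t ∧ ¬ Thn W A E (Z t)) ∧
          ∀ t', t' < t → ¬ (i ≤ t' ∧ ¬ Thn W A E (Z t')) := by
        classical
        exact ⟨Nat.find hall, Nat.find_spec hall, fun t' h => Nat.find_min hall h⟩
      obtain ⟨E', l', τ, f1, f2, f3, f4, f5, f6, f7, f8, f9⟩ := step_down2 hM hr ht hF hE hFE hit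
        hYE hY (fun t' h1 h2 => by
          by_contra h3
          exact hmin t' h2 ⟨h1, h3⟩) hbad
      obtain ⟨τ', g1, g2, g3, g4, g5⟩ := ih l' f2 (i := t) (Y := Y + τ.sum) f1 f3
        (fun j hj => f7 j (f4 hj)) f8
      have es : Y + (τ ++ τ').sum = Y + τ.sum + τ'.sum := by rw [List.sum_append, add_assoc]
      refine ⟨τ ++ τ', ?_, ?_, ?_, ?_, ?_⟩
      · exact (f5.mono (RE_mono hFE) (VE_mono hFE)).append g1
      · rw [Ok_append]
        exact ⟨f6, g2⟩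
      · rw [List.length_append, sum_range_succ]
        have h8 : ∑ i ∈ range (l' + 1), S i ≤ ∑ i ∈ range l, S i :=
          Finset.sum_le_sum_of_subset (range_subset_range.2 (by omega))
        omega
      · rw [es]; exact g4
      · rw [es]; exact g5

theorem fwd [Fintype Q] {M : ℕ} (hM : ∀ p v q, (p, v, q) ∈ T → ∀ k, |v k| ≤ M)
    (hr : PR T W f Z m) (ht : Thr (Fintype.card Q) d M A S β) {F : Set (Fin d)} {r : ℕ}
    (hF : MF W A Z F r) (i : ℕ) :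
    ∃ τ, SW (RE f Z F) (VE f Z F) (f i) (Z i) τ (f 0) ∧ Ok (Z i) τ ∧
      τ.length ≤ ∑ i ∈ range (Module.finrank ℚ W + 1), S i ∧
      (∀ j ∈ F, Z 0 j = (Z i + τ.sum) j) ∧ ∀ j ∉ F, ((β r : ℕ) : ℤ) ≤ (Z i + τ.sum) j :=
  fwd_aux hM hr ht hF _ (Flt_univ W) (Set.subset_univ F) (fun _ _ => rfl)
    (fun j hj => absurd (Set.mem_univ j) hj)

end Pool.Agent.REV
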