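import Pool.Agent.REV.Cyc

/-!
# REV / Cyc2: the reversed run, lifts in both directions
-/

set_option autoImplicit false

namespace Pool.Agent.REV

open Pool.Agent.EEF Finset

variable {Q : Type} {d : ℕ} {T : VASS Q d} {W : Submodule ℚ (Fin d → ℚ)} {A : ℕ → ℕ}
  {f : ℕ → Q} {Z : ℕ → Vec d} {m : ℕ}

open Classical in
/-- the reversed system -/
noncomputable def opp (T : VASS Q d) : VASS Q d := T.image fun t => (t.2.2, -t.2.1, t.1)

theorem mem_opp {p q : Q} {v : Vec d} : (p, v, q) ∈ opp T ↔ (q, -v, p) ∈ T := by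
  classical
  rw [opp, mem_image]
  constructor
  · rintro ⟨⟨a, u, b⟩, h, he⟩
    simp only [Prod.mk.injEq] at he
    obtain ⟨rfl, rfl, rfl⟩ := he
    rwa [neg_neg]
  · intro h
    exact ⟨(q, -v, p), h, by simp⟩

theorem opp_walk {p q : Q} {w : List (Vec d)} (h : Walk (opp T) p w q) :
    Walk T q (rv w) p := by
  induction h with
  | nil p => exact .nil p
  | cons h1 _ ih =>
    rw [rv]
    exact ih.append (.cons (mem_opp.1 h1) (.nil _))

/-- time in the reversed run -/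
theorem rev_time {m : ℕ} (hm : 0 < m) (i : ℕ) : ∃ i', (m - 1) * i' = i % m + m * (m - i % m - 1) := by
  refine ⟨m - i % m, ?_⟩
  have h1 : i % m < m := Nat.mod_lt _ hm
  obtain ⟨a, ha⟩ : ∃ a, m = i % m + a + 1 := ⟨m - i % m - 1, by omega⟩
  generalize i % m = c at *
  subst ha
  have e1 : c + a + 1 - 1 = c + a := by omega
  have e2 : c + a + 1 - c = a + 1 := by omega
  have e3 : a + 1 - 1 = a := by omega
  rw [e1, e2, e3]
  ring

theorem PR.mod (hr : PR T W f Z m) (i k : ℕ) : f (i % m + m * k) = f i ∧ Z (i % m + m * k) = Z i := by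
  have h1 := hr.per_mul (i % m) k
  have h2 := hr.per_mul (i % m) (i / m)
  rw [Nat.mod_add_div] at h2
  exact ⟨h1.1.trans h2.1.symm, h1.2.trans h2.2.symm⟩

/-- each time is a time of the reversed run -/
theorem PR.rtime (hr : PR T W f Z m) (i : ℕ) :
    ∃ i', f ((m - 1) * i') = f i ∧ Z ((m - 1) * i') = Z i := by
  obtain ⟨i', h⟩ := rev_time hr.pos i
  refine ⟨i', ?_⟩
  rw [h]
  exact hr.mod i _

theorem PR.rstep (hr : PR T W f Z m) (t : ℕ) : ∃ j, f j = f ((m - 1) * (t + 1)) ∧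
    Z j = Z ((m - 1) * (t + 1)) ∧ f (j + 1) = f ((m - 1) * t) ∧ Z (j + 1) = Z ((m - 1) * t) := by
  refine ⟨(m - 1) * (t + 1), rfl, rfl, ?_⟩
  have h1 := hr.pos
  have e : (m - 1) * (t + 1) + 1 = (m - 1) * t + m := by
    obtain ⟨a, rfl⟩ : ∃ a, m = a + 1 := ⟨m - 1, by omega⟩
    rw [Nat.add_sub_cancel]
    ring
  rw [e]
  exact ⟨hr.perf _, hr.perZ _⟩

theorem PR.opp (hr : PR T W f Z m) :
    PR (opp T) W (fun i => f ((m - 1) * i)) (fun i => Z ((m - 1) * i)) m := by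
  refine ⟨hr.pos, fun i => ?_, fun i j => hr.nonneg _ j, fun i => ?_, fun i => ?_, fun i j h => ?_,
    fun i w hw => ?_⟩
  · rw [mem_opp]
    obtain ⟨j, h1, h2, h3, h4⟩ := hr.rstep i
    have h5 := hr.step j
    rw [h1, h2, h3, h4] at h5
    simpa using h5
  · have e : (m - 1) * (i + m) = (m - 1) * i + m * (m - 1) := by ring
    simp only [e]
    exact (hr.per_mul _ _).1
  · have e : (m - 1) * (i + m) = (m - 1) * i + m * (m - 1) := by ring
    simp only [e]
    exact (hr.per_mul _ _).2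
  · exact hr.hW _ _ h
  · have h1 := hr.hWc _ _ (opp_walk hw)
    rw [rv_sum, qv_neg] at h1
    exact (Submodule.neg_mem_iff W).1 h1

theorem opp_SW (hr : PR T W f Z m) {F : Set (Fin d)} {p q : Q} {x : Vec d} {w : List (Vec d)}
    (h : SW (RE (fun i => f ((m - 1) * i)) (fun i => Z ((m - 1) * i)) F)
      (VE (fun i => f ((m - 1) * i)) (fun i => Z ((m - 1) * i)) F) p x w q) :
    SW (RE f Z F) (VE f Z F) q (x + w.sum) (rv w) p := by
  induction h with
  | @nil p x h0 =>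
    obtain ⟨t, h1, h2⟩ := h0
    refine .nil ⟨(m - 1) * t, h1, fun j hj => ?_⟩
    simpa using h2 j hj
  | @cons p p' q v x w h0 h1 h2 ih =>
    rw [rv, List.sum_cons, ← add_assoc]
    refine ih.append ?_
    have e : x + v + w.sum + (rv w).sum = x + v := by rw [rv_sum]; abel
    rw [e]
    obtain ⟨t, e1, e2, e3, e4⟩ := h1
    obtain ⟨j, g1, g2, g3, g4⟩ := hr.rstep t
    refine .cons ?_ ⟨j, ?_, fun k hk => ?_, ?_, ?_⟩ (.nil ?_)
    · exact ⟨j, g1.trans e4, fun k hk => by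
        rw [g2, e3]
        have := e2 k hk
        simp only [Pi.add_apply, Pi.sub_apply]
        linarith⟩
    · exact g1.trans e4
    · rw [g2, e3]
      have := e2 k hk
      simp only [Pi.add_apply, Pi.sub_apply]
      linarith
    · rw [g2, g4, e3]
      abel
    · exact g3.trans e1
    · refine ⟨(m - 1) * t, e1, fun k hk => ?_⟩
      rw [add_neg_cancel_right]
      exact e2 k hk

theorem Ok_rv {x : Vec d} {w : List (Vec d)} (hx : 0 ≤ x) (h : Ok x w) :
    Ok (x + w.sum) (rv w) := by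
  induction w generalizing x with
  | nil => trivial
  | cons v w ih =>
    rw [rv, List.sum_cons, ← add_assoc, Ok_append]
    refine ⟨ih h.1 h.2, ?_⟩
    have e : x + v + w.sum + (rv w).sum = x + v := by rw [rv_sum]; abel
    rw [e]
    refine ⟨?_, trivial⟩
    rw [add_neg_cancel_right]
    exact hx

variable {S β : ℕ → ℕ}

theorem MF.opp {F : Set (Fin d)} {r : ℕ} (hr : PR T W f Z m) (hF : MF W A Z F r) :
    MF W A (fun i => Z ((m - 1) * i)) F r := by
  refine ⟨hF.flt, fun t => hF.thn _, fun E l h1 h2 h3 => hF.max E l h1 h2 fun t => ?_⟩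
  obtain ⟨i', -, h4⟩ := hr.rtime t
  rw [← h4]
  exact h3 i'

theorem bwd [Fintype Q] {M : ℕ} (hM : ∀ p v q, (p, v, q) ∈ T → ∀ k, |v k| ≤ M)
    (hr : PR T W f Z m) (ht : Thr (Fintype.card Q) d M A S β) {F : Set (Fin d)} {r : ℕ}
    (hF : MF W A Z F r) (i : ℕ) :
    ∃ y τ, SW (RE f Z F) (VE f Z F) (f 0) y τ (f i) ∧ Ok y τ ∧ y + τ.sum = Z i ∧
      τ.length ≤ ∑ i ∈ range (Module.finrank ℚ W + 1), S i ∧
      (∀ j ∈ F, Z 0 j = y j) ∧ ∀ j ∉ F, ((β r : ℕ) : ℤ) ≤ y j := by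
  obtain ⟨i', h1, h2⟩ := hr.rtime i
  have hM' : ∀ p v q, (p, v, q) ∈ opp T → ∀ k, |v k| ≤ (M : ℤ) := by
    intro p v q h k
    have := hM _ _ _ (mem_opp.1 h) k
    rwa [Pi.neg_apply, abs_neg] at this
  obtain ⟨τ, e1, e2, e3, e4, e5⟩ := fwd hM' hr.opp ht (MF.opp hr hF) i'
  simp only [Nat.mul_zero, h1, h2] at e1 e2 e4 e5
  refine ⟨Z i + τ.sum, rv τ, ?_, ?_, ?_, ?_, e4, e5⟩
  · exact opp_SW hr e1
  · exact Ok_rv (fun j => hr.nonneg i j) e2
  · rw [rv_sum]; abel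
  · rw [rv_length]; exact e3

theorem cyc_short [Fintype Q] (hr : PR T W f Z m) {M : ℕ}
    (ht : Thr (Fintype.card Q) d M A S β) {F : Set (Fin d)} {r : ℕ} (hF : MF W A Z F r)
    (p : Q) (x : Vec d) (u : List (Vec d)) (q : Q) (h : SW (RE f Z F) (VE f Z F) p x u q) :
    ∃ u', SW (RE f Z F) (VE f Z F) p x u' q ∧ (∀ j ∈ F, u'.sum j = u.sum j) ∧
      u'.length < S r := by
  have h1 : SW (RE f Z F) (VT W A f Z F) p x u q := by
    refine h.mono (fun _ _ _ _ h => h) fun p x hx => ⟨hx, ?_⟩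
    obtain ⟨t, -, h2⟩ := hx
    exact (hF.thn t).congr h2
  obtain ⟨u', h2, h3, h4⟩ := shortenR hr hF.flt h1
  exact ⟨u', h2.mono (fun _ _ _ _ h => h) fun _ _ h => h.1, h3, lt_of_lt_of_le h4 (ht.card r)⟩

theorem cyc_fin [Fintype Q] (hr : PR T W f Z m) {M : ℕ}
    (ht : Thr (Fintype.card Q) d M A S β) {F : Set (Fin d)} {r : ℕ} (hF : MF W A Z F r) :
    ∃ I : Finset ℕ, I.card ≤ S r ∧ ∀ t, ∃ t' ∈ I, f t' = f t ∧ ∀ j ∈ F, Z t' j = Z t j := by
  classical
  set C := (range m).image fun t => code W A F (f t) (Z t) with hC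
  have hVT : ∀ t, VT W A f Z F (f t) (Z t) := fun t => ⟨⟨t, rfl, fun _ _ => rfl⟩, hF.thn t⟩
  have hex : ∀ c ∈ C, ∃ t, code W A F (f t) (Z t) = c := fun c hc => by
    obtain ⟨t, -, h⟩ := mem_image.1 hc
    exact ⟨t, h⟩
  choose! g hg using hex
  refine ⟨C.image g, ?_, fun t => ?_⟩
  · refine card_image_le.trans ?_
    have h1 : C ⊆ (univ : Finset Q) ×ˢ AL d A r := by
      intro c hc
      obtain ⟨t, -, rfl⟩ := mem_image.1 hc
      exact code_mem2 hF.flt (hF.thn t)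
    have h2 := card_le_card h1
    rw [card_product, card_univ] at h2
    exact h2.trans (ht.card r)
  · have h1 : code W A F (f t) (Z t) ∈ C := by
      have h2 := hr.mod t 0
      rw [Nat.mul_zero, Nat.add_zero] at h2
      rw [← h2.1, ← h2.2]
      exact mem_image_of_mem _ (mem_range.2 (Nat.mod_lt _ hr.pos))
    refine ⟨g (code W A F (f t) (Z t)), mem_image_of_mem _ h1, ?_⟩
    exact code_inj2 hr (hVT _) (hVT t) (hg _ h1)

end Pool.Agent.REV
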