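import Pool.Agent.EEF.Final

/-!
# REV / Defs: constants for reversible components
-/

set_option autoImplicit false

namespace Pool.Agent.REV

open Pool.Agent.EEF

/-- number of different generators which suffice -/
def tN (k Γ : ℕ) : ℕ := 4 * (k + 1) ^ 2 * (Γ + 1)

/-- the depth of the dips, `S` the number of thin configurations -/
def dev (g M S : ℕ) : ℕ := tN g (2 * M * S) * (2 * M * S) + 2 * M * S

/-- `(S l, A l)`: number of thin configurations of rank `l`, threshold of rank `l` -/
def SA (n d M g : ℕ) : ℕ → ℕ × ℕ
  | 0 => (n, 1 + M * n + dev g M n)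
  | l + 1 => ((SA n d M g l).1 * ((d + 1) * (SA n d M g l).2),
      (SA n d M g l).2 + 1 + M * ((SA n d M g l).1 * ((d + 1) * (SA n d M g l).2)) +
        dev g M ((SA n d M g l).1 * ((d + 1) * (SA n d M g l).2)))

/-- number of thin configurations of rank `l` -/
def sS (n d M g l : ℕ) : ℕ := (SA n d M g l).1

/-- threshold of rank `l` -/
def sA (n d M g l : ℕ) : ℕ := (SA n d M g l).2

/-- the norm bound of the conformal decomposition -/
def rB (d k Γ : ℕ) : ℕ := (d + 1) * (2 * k * Γ + 1) ^ k

/-- length bound of closed walks, in numbers of generators -/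
def lB (d k Γ : ℕ) : ℕ := (2 * (rB d k Γ + tN k Γ * Γ) + 1) ^ k

/-- size bound of the scheme of a reversible component -/
def cRev (n d M g : ℕ) : ℕ :=
  2 * ((g + 1) * sS n d M g g + 1) +
    (d + 1) * (2 * sS n d M g g * lB d g (2 * M * sS n d M g g) + 1)

/-- Every strongly connected component of the system is thin (its cycle effects span a space of
dimension at most one) or reversible (with a transition `(p, v, q)` inside the component it also
contains the transition `(q, -v, p)`). -/
def ThinOrRev {Q : Type} {d : ℕ} (T : VASS Q d) : Prop :=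
  ∀ r, Module.finrank ℚ (Submodule.span ℚ {c : Fin d → ℚ | ∃ w, Walk T r w r ∧ c = qv w.sum}) ≤ 1 ∨
    ∀ p v q, (p, v, q) ∈ T → Reach T r p → Reach T q r → (q, -v, p) ∈ T

end Pool.Agent.REV
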