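import Pool.Agent.REV.Defs

/-!
# REV / Defs2: constants for returning runs
-/

set_option autoImplicit false

namespace Pool.Agent.REV

open Pool.Agent.EEF

/-- length bound of closed walks with prescribed short effect, `s` the number of thin vertices -/
def Lm (k M s : ℕ) : ℕ :=
  2 * s ^ 2 + s * (2 * (2 * M * s * (s + 1) + tN k (M * s) * (M * s)) + 1) ^ k

/-- the depth of the dips -/
def dev2 (g M S : ℕ) : ℕ := tN g (M * Lm g M S) * (M * Lm g M S) + M * Lm g M S

/-- `(S l, A l)`: number of thin configurations of rank `l`, threshold of rank `l` -/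
def SB (n d M g : ℕ) : ℕ → ℕ × ℕ
  | 0 => (n, 1 + M * n + dev2 g M n)
  | l + 1 => ((SB n d M g l).1 * ((d + 1) * (SB n d M g l).2),
      (SB n d M g l).2 + 1 + M * ((SB n d M g l).1 * ((d + 1) * (SB n d M g l).2)) +
        dev2 g M ((SB n d M g l).1 * ((d + 1) * (SB n d M g l).2)))

/-- number of thin configurations of rank `l` -/
def sT (n d M g l : ℕ) : ℕ := (SB n d M g l).1

/-- threshold of rank `l` -/
def sR (n d M g l : ℕ) : ℕ := (SB n d M g l).2

/-- length bound of the closed walks of a loop, in numbers of generators -/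
def lC (d k M s : ℕ) : ℕ :=
  (2 * (rB d k (2 * M * s) + tN k (M * Lm k M s) * (M * Lm k M s)) + 1) ^ k

/-- size bound of the scheme of a returning run -/
def cRet (n d M g : ℕ) : ℕ :=
  2 * ((g + 1) * sT n d M g g + 1) +
    (d + 1) * (Lm g M (sT n d M g g) * lC d g M (sT n d M g g) + 1)

end Pool.Agent.REV
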