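import Pool.Agent.REV.Defs

/-!
# REV / Num: the numerical bounds
-/

set_option autoImplicit false

namespace Pool.Agent.REV

open Pool.Agent.EEF

theorem rev_dev_le {g b M S : ℕ} (hS : 1 ≤ S) (hb : g + 1 ≤ b) :
    1 + M * S + dev g M S ≤ 19 * (b ^ 2 * (M + 1) ^ 2 * S ^ 2) := by
  unfold dev tN
  obtain ⟨m, hm⟩ : ∃ m, m = M + 1 := ⟨_, rfl⟩
  rw [← hm]
  have hb1 : 1 ≤ b := by omega
  have hm1 : 1 ≤ m := by omega
  have h1 : 2 * M * S + 1 ≤ 2 * m * S := by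
    subst hm
    nlinarith
  have h2 : 2 * M * S ≤ 2 * m * S := by omega
  have h3 : 4 * (g + 1) ^ 2 * (2 * M * S + 1) * (2 * M * S) ≤
      4 * b ^ 2 * (2 * m * S) * (2 * m * S) := by gcongr
  have h4 : 4 * b ^ 2 * (2 * m * S) * (2 * m * S) = 16 * (b ^ 2 * m ^ 2 * S ^ 2) := by ring
  have h5 : m * S ≤ b ^ 2 * m ^ 2 * S ^ 2 := by
    calc m * S = 1 * m * S := by ring
      _ ≤ b ^ 2 * m ^ 2 * S ^ 2 := Nat.mul_le_mul (Nat.mul_le_mul (Nat.one_le_pow _ _ hb1)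
          (Nat.le_self_pow (by norm_num) m)) (Nat.le_self_pow (by norm_num) S)
  have h6 : M * S + S = m * S := by subst hm; ring
  have h7 : 2 * M * S = 2 * (M * S) := by ring
  rw [h4] at h3
  omega

theorem SA_bounds {n d M g : ℕ} (hn : 1 ≤ n) (hg : g ≤ d) (l : ℕ) :
    1 ≤ (SA n d M g l).1 ∧ 1 ≤ (SA n d M g l).2 ∧
      (SA n d M g l).2 ≤ 20 * ((d + 1) ^ 2 * (M + 1) ^ 2 * (SA n d M g l).1 ^ 2) := by
  have hgd : g + 1 ≤ d + 1 := by omega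
  induction l with
  | zero =>
    have h := rev_dev_le (M := M) hn hgd
    refine ⟨hn, ?_, ?_⟩
    · show 1 ≤ 1 + M * n + dev g M n
      omega
    · show 1 + M * n + dev g M n ≤ 20 * ((d + 1) ^ 2 * (M + 1) ^ 2 * n ^ 2)
      omega
  | succ l ih =>
    obtain ⟨h1, h2, -⟩ := ih
    set S := (SA n d M g l).1 with hSdef
    set A := (SA n d M g l).2 with hAdef
    have hS' : 1 ≤ S * ((d + 1) * A) := Nat.mul_pos h1 (Nat.mul_pos (by omega) h2)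
    have hAS : A ≤ S * ((d + 1) * A) := by
      calc A = 1 * (1 * A) := by ring
        _ ≤ S * ((d + 1) * A) := Nat.mul_le_mul h1 (Nat.mul_le_mul_right _ (by omega))
    have h := rev_dev_le (M := M) hS' hgd
    have e1 : (SA n d M g (l + 1)).1 = S * ((d + 1) * A) := rfl
    have e2 : (SA n d M g (l + 1)).2 = A + 1 + M * (S * ((d + 1) * A)) +
        dev g M (S * ((d + 1) * A)) := rfl
    rw [e1, e2]
    set S' := S * ((d + 1) * A) with hS'def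
    have h5 : S' ≤ (d + 1) ^ 2 * (M + 1) ^ 2 * S' ^ 2 := by
      calc S' = 1 * 1 * S' := by ring
        _ ≤ (d + 1) ^ 2 * (M + 1) ^ 2 * S' ^ 2 := Nat.mul_le_mul (Nat.mul_le_mul
            (Nat.one_le_pow _ _ (by omega)) (Nat.one_le_pow _ _ (by omega)))
            (Nat.le_self_pow (by norm_num) S')
    refine ⟨hS', by omega, ?_⟩
    omega

theorem sS_pow {n d M g : ℕ} (hn : 1 ≤ n) (hg : g ≤ d) (l : ℕ) :
    29 * (d + 1) ^ 3 * (M + 1) ^ 2 * sS n d M g l ≤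
      (29 * n * (d + 1) ^ 3 * (M + 1) ^ 2) ^ (3 ^ l) := by
  induction l with
  | zero =>
    show 29 * (d + 1) ^ 3 * (M + 1) ^ 2 * n ≤ _
    refine le_of_eq ?_
    ring
  | succ l ih =>
    obtain ⟨h1, h2, h3⟩ := SA_bounds (M := M) hn hg l
    have e1 : sS n d M g (l + 1) = sS n d M g l * ((d + 1) * (SA n d M g l).2) := rfl
    have e2 : (SA n d M g l).1 = sS n d M g l := rfl
    rw [e2] at h1 h3
    rw [e1, pow_succ 3 l, pow_mul]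
    set S := sS n d M g l with hSdef
    obtain ⟨m, hm⟩ : ∃ m, m = M + 1 := ⟨_, rfl⟩
    obtain ⟨b, hb⟩ : ∃ b, b = d + 1 := ⟨_, rfl⟩
    rw [← hm, ← hb] at h3 ih ⊢
    have hm1 : 1 ≤ m := by omega
    have hb1 : 1 ≤ b := by omega
    have hc : 1 ≤ b ^ 3 * m ^ 2 := Nat.mul_pos (pow_pos hb1 3) (pow_pos hm1 2)
    have hcc : b ^ 3 * m ^ 2 * (b ^ 3 * m ^ 2) ≤ (b ^ 3 * m ^ 2) ^ 3 := by
      calc b ^ 3 * m ^ 2 * (b ^ 3 * m ^ 2) = (b ^ 3 * m ^ 2) ^ 2 := by ring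
        _ ≤ _ := Nat.pow_le_pow_right hc (by norm_num)
    calc 29 * b ^ 3 * m ^ 2 * (S * (b * (SA n d M g l).2))
        ≤ 29 * b ^ 3 * m ^ 2 * (S * (b * (20 * (b ^ 2 * m ^ 2 * S ^ 2)))) := by gcongr
      _ = 580 * (b ^ 3 * m ^ 2 * (b ^ 3 * m ^ 2)) * S ^ 3 := by ring
      _ ≤ 580 * (b ^ 3 * m ^ 2) ^ 3 * S ^ 3 := by gcongr
      _ ≤ 24389 * (b ^ 3 * m ^ 2) ^ 3 * S ^ 3 := by gcongr; norm_num
      _ = (29 * b ^ 3 * m ^ 2 * S) ^ 3 := by ring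
      _ ≤ ((29 * n * b ^ 3 * m ^ 2) ^ 3 ^ l) ^ 3 := Nat.pow_le_pow_left ih 3

theorem cZ_le {n d M : ℕ} (hn : 1 ≤ n) :
    cZ n d M ≤ (29 * n * (d + 1) ^ 3 * (M + 1) ^ 2) ^ 7 := by
  obtain ⟨m, hm⟩ : ∃ m, m = M + 1 := ⟨_, rfl⟩
  obtain ⟨b, hb⟩ : ∃ b, b = d + 1 := ⟨_, rfl⟩
  have hm1 : 1 ≤ m := by omega
  have hb1 : 1 ≤ b := by omega
  have hMm : M ≤ m := by omega
  have hdb : d ≤ b := by omega
  rw [← hm, ← hb]
  have hA : cA n M ≤ 4 * n ^ 3 * m ^ 2 := by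
    unfold cA
    have h1 : n * ((n * M) * (n * M)) ≤ n * ((n * m) * (n * m)) := by gcongr
    have h2 : n * ((n * m) * (n * m)) = n ^ 3 * m ^ 2 := by ring
    have h3 : n ≤ n ^ 3 * m ^ 2 := by
      calc n = n * 1 := (mul_one n).symm
        _ ≤ n ^ 3 * m ^ 2 := Nat.mul_le_mul (Nat.le_self_pow (by norm_num) n)
          (Nat.one_le_pow _ _ hm1)
    rw [h2] at h1
    linarith
  have hone : 1 ≤ n ^ 3 * m ^ 2 := Nat.mul_pos (pow_pos hn 3) (pow_pos hm1 2)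
  have hA6 : cA n M + 6 ≤ 10 * (n ^ 3 * m ^ 2) := by linarith
  have hR : n * (d * (cA n M * M)) + 1 ≤ 5 * (n ^ 4 * b * m ^ 3) := by
    have h1 : n * (d * (cA n M * M)) ≤ n * (b * ((4 * n ^ 3 * m ^ 2) * m)) := by gcongr
    have h2 : n * (b * ((4 * n ^ 3 * m ^ 2) * m)) = 4 * (n ^ 4 * b * m ^ 3) := by ring
    have h3 : 1 ≤ n ^ 4 * b * m ^ 3 :=
      Nat.mul_pos (Nat.mul_pos (pow_pos hn 4) hb1) (pow_pos hm1 3)
    linarith
  unfold cZ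
  calc (n * (d * (cA n M * M)) + 1) * (cA n M + 6)
      ≤ (5 * (n ^ 4 * b * m ^ 3)) * (10 * (n ^ 3 * m ^ 2)) := Nat.mul_le_mul hR hA6
    _ = 50 * (n ^ 7 * b ^ 1 * m ^ 5) := by ring
    _ ≤ 29 ^ 7 * (n ^ 7 * b ^ 21 * m ^ 14) := by
      gcongr <;> norm_num
    _ = _ := by ring

/-- bounds in terms of one large number -/
theorem cRev_le {n d M g X : ℕ} (hn : 1 ≤ n) (hg : g ≤ d)
    (hX : 29 * (d + 1) ^ 3 * (M + 1) ^ 2 * sS n d M g g ≤ X) :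
    cRev n d M g ≤ X ^ (g ^ 2 + 3 * g + 2) := by
  obtain ⟨h1, -, -⟩ := SA_bounds (M := M) hn hg g
  have e2 : (SA n d M g g).1 = sS n d M g g := rfl
  rw [e2] at h1
  unfold cRev
  set S := sS n d M g g with hSdef
  obtain ⟨m, hm⟩ : ∃ m, m = M + 1 := ⟨_, rfl⟩
  obtain ⟨b, hb⟩ : ∃ b, b = d + 1 := ⟨_, rfl⟩
  rw [← hm, ← hb] at hX
  rw [← hb]
  have hm1 : 1 ≤ m := by omega
  have hb1 : 1 ≤ b := by omega
  have hgb : g + 1 ≤ b := by omega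
  have hMm : M ≤ m := by omega
  have hX29 : 29 ≤ X := by
    refine le_trans ?_ hX
    have : 1 ≤ b ^ 3 * m ^ 2 * S := Nat.mul_pos (Nat.mul_pos (pow_pos hb1 3) (pow_pos hm1 2)) h1
    calc 29 = 29 * 1 := by norm_num
      _ ≤ 29 * (b ^ 3 * m ^ 2 * S) := Nat.mul_le_mul_left _ this
      _ = _ := by ring
  have hX0 : 0 < X := by omega
  -- a general comparison
  have cmp : ∀ {c i j : ℕ}, c ≤ 29 → i ≤ 3 → j ≤ 2 → c * (b ^ i * m ^ j * S) ≤ X := by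
    intro c i j hc hi hj
    refine le_trans ?_ hX
    calc c * (b ^ i * m ^ j * S) ≤ 29 * (b ^ 3 * m ^ 2 * S) :=
          Nat.mul_le_mul hc (Nat.mul_le_mul (Nat.mul_le_mul (Nat.pow_le_pow_right hb1 hi)
            (Nat.pow_le_pow_right hm1 hj)) le_rfl)
      _ = _ := by ring
  have hbms : 1 ≤ b ^ 1 * m ^ 1 * S :=
    Nat.mul_pos (Nat.mul_pos (pow_pos hb1 1) (pow_pos hm1 1)) h1
  have hbs : 1 ≤ b ^ 1 * m ^ 0 * S :=
    Nat.mul_pos (Nat.mul_pos (pow_pos hb1 1) (pow_pos hm1 0)) h1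
  have hms : 1 ≤ b ^ 0 * m ^ 1 * S :=
    Nat.mul_pos (Nat.mul_pos (pow_pos hb1 0) (pow_pos hm1 1)) h1
  -- Γ
  have hG1 : 2 * g * (2 * M * S) + 1 ≤ X := by
    have : 2 * g * (2 * M * S) ≤ 2 * b * (2 * m * S) := by
      gcongr
      omega
    have h4 : 2 * b * (2 * m * S) = 4 * (b ^ 1 * m ^ 1 * S) := by ring
    have h5 : 5 * (b ^ 1 * m ^ 1 * S) ≤ X := cmp (by norm_num) (by norm_num) (by norm_num)
    omega
  have hrB : rB d g (2 * M * S) ≤ X ^ (g + 1) := by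
    unfold rB
    rw [← hb, pow_succ, mul_comm]
    refine Nat.mul_le_mul (Nat.pow_le_pow_left hG1 g) ?_
    have : 1 * (b ^ 1 * m ^ 0 * S) ≤ X := cmp (by norm_num) (by norm_num) (by norm_num)
    calc b = b ^ 1 * m ^ 0 * 1 := by ring
      _ ≤ b ^ 1 * m ^ 0 * S := Nat.mul_le_mul_left _ h1
      _ ≤ X := by omega
  have htN : tN g (2 * M * S) * (2 * M * S) ≤ X ^ 2 := by
    unfold tN
    have h2 : 2 * M * S + 1 ≤ 3 * (b ^ 0 * m ^ 1 * S) := by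
      have : 2 * M * S ≤ 2 * m * S := by gcongr
      have h4 : 2 * m * S = 2 * (b ^ 0 * m ^ 1 * S) := by ring
      omega
    have h3 : 2 * M * S ≤ 3 * (b ^ 0 * m ^ 1 * S) := by omega
    calc 4 * (g + 1) ^ 2 * (2 * M * S + 1) * (2 * M * S)
        ≤ 4 * b ^ 2 * (3 * (b ^ 0 * m ^ 1 * S)) * (3 * (b ^ 0 * m ^ 1 * S)) := by gcongr
      _ = (6 * (b ^ 1 * m ^ 1 * S)) ^ 2 := by ring
      _ ≤ X ^ 2 := Nat.pow_le_pow_left (cmp (by norm_num) (by norm_num) (by norm_num)) 2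
  have hlB : lB d g (2 * M * S) ≤ X ^ ((g + 3) * g) := by
    unfold lB
    rw [pow_mul]
    refine Nat.pow_le_pow_left ?_ g
    have h5 : X ^ (g + 1) ≤ X ^ (g + 2) := Nat.pow_le_pow_right hX0 (by omega)
    have h6 : X ^ 2 ≤ X ^ (g + 2) := Nat.pow_le_pow_right hX0 (by omega)
    have h7 : 1 ≤ X ^ (g + 2) := Nat.one_le_pow _ _ hX0
    have h8 : 5 * X ^ (g + 2) ≤ X ^ (g + 3) := by
      rw [pow_succ X (g + 2), mul_comm]
      exact Nat.mul_le_mul_left _ (by omega)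
    omega
  have hlB1 : 1 ≤ X ^ ((g + 3) * g) := Nat.one_le_pow _ _ hX0
  have hfst : 2 * ((g + 1) * S + 1) ≤ X := by
    have h4 : (g + 1) * S ≤ b ^ 1 * m ^ 0 * S := by
      calc (g + 1) * S ≤ b * S := Nat.mul_le_mul_right _ hgb
        _ = _ := by ring
    have h5 : 4 * (b ^ 1 * m ^ 0 * S) ≤ X := cmp (by norm_num) (by norm_num) (by norm_num)
    omega
  have hsnd : b * (2 * S * lB d g (2 * M * S) + 1) ≤ X * X ^ ((g + 3) * g) := by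
    have h4 : 2 * S * lB d g (2 * M * S) + 1 ≤ 3 * S * X ^ ((g + 3) * g) := by
      have h5 : 2 * S * lB d g (2 * M * S) ≤ 2 * S * X ^ ((g + 3) * g) := by gcongr
      have h6 : 1 ≤ S * X ^ ((g + 3) * g) := Nat.mul_pos h1 hlB1
      have h7 : 3 * S * X ^ ((g + 3) * g) =
          2 * S * X ^ ((g + 3) * g) + S * X ^ ((g + 3) * g) := by ring
      omega
    calc b * (2 * S * lB d g (2 * M * S) + 1) ≤ b * (3 * S * X ^ ((g + 3) * g)) := by gcongr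
      _ = 3 * (b ^ 1 * m ^ 0 * S) * X ^ ((g + 3) * g) := by ring
      _ ≤ X * X ^ ((g + 3) * g) :=
          Nat.mul_le_mul_right _ (cmp (by norm_num) (by norm_num) (by norm_num))
  have e3 : X * X ^ ((g + 3) * g) = X ^ (g ^ 2 + 3 * g + 1) := by
    rw [← pow_succ']
    congr 1
    ring
  rw [e3] at hsnd
  have h9 : X ≤ X ^ (g ^ 2 + 3 * g + 1) := Nat.le_self_pow (by omega) X
  have h10 : 2 * X ^ (g ^ 2 + 3 * g + 1) ≤ X ^ (g ^ 2 + 3 * g + 2) := by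
    rw [pow_succ X (g ^ 2 + 3 * g + 1), mul_comm]
    exact Nat.mul_le_mul_left _ (by omega)
  omega

theorem exp_le (g : ℕ) :
    3 ^ g * ((4 * (g ^ 2 + 3 * g + 8) + 2) * (g + 1)) ≤ 42 * 24 ^ g := by
  have h1 : g + 1 ≤ 2 ^ g := Nat.lt_two_pow_self
  have h2 : (g + 1) ^ 3 ≤ (2 ^ g) ^ 3 := Nat.pow_le_pow_left h1 3
  have h3 : (2 ^ g) ^ 3 = 8 ^ g := by
    rw [← pow_mul, mul_comm, pow_mul]
    norm_num
  have h4 : (4 * (g ^ 2 + 3 * g + 8) + 2) * (g + 1) ≤ 42 * (g + 1) ^ 3 := by nlinarith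
  calc 3 ^ g * ((4 * (g ^ 2 + 3 * g + 8) + 2) * (g + 1)) ≤ 3 ^ g * (42 * 8 ^ g) := by
        refine Nat.mul_le_mul_left _ (h4.trans ?_)
        rw [← h3]
        exact Nat.mul_le_mul_left _ h2
    _ = 42 * (3 ^ g * 8 ^ g) := by ring
    _ = 42 * 24 ^ g := by rw [← mul_pow]; norm_num

theorem num_rev {n d M g s : ℕ} (hn : 1 ≤ n) (hg : g ≤ d)
    (hs : s ≤ n * (max (cZ n d M) (cRev n d M g) + 2)) :
    (45 * (s + 1) ^ 4 * (d + 1) ^ 3 * (M + 1) ^ 2) ^ (g + 1) ≤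
      ((29 * n * (d + 1) ^ 3 * (M + 1) ^ 2) ^ 42) ^ (24 ^ g) := by
  have hX := sS_pow (M := M) hn hg g
  obtain ⟨Y, hY⟩ : ∃ Y, Y = 29 * n * (d + 1) ^ 3 * (M + 1) ^ 2 := ⟨_, rfl⟩
  obtain ⟨X, hXd⟩ : ∃ X, X = Y ^ (3 ^ g) := ⟨_, rfl⟩
  have hcZ := cZ_le (d := d) (M := M) hn
  rw [← hY] at hX hcZ ⊢
  rw [← hXd] at hX
  have hcR := cRev_le hn hg hX
  have hbm : 1 ≤ (d + 1) ^ 3 * (M + 1) ^ 2 := Nat.mul_pos (pow_pos (by omega) 3)
    (pow_pos (by omega) 2)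
  have hYn : 29 * n ≤ Y := by
    rw [hY]
    calc 29 * n = 29 * n * 1 := by ring
      _ ≤ 29 * n * ((d + 1) ^ 3 * (M + 1) ^ 2) := Nat.mul_le_mul_left _ hbm
      _ = _ := by ring
  have hYb : 29 * ((d + 1) ^ 3 * (M + 1) ^ 2) ≤ Y := by
    rw [hY]
    calc 29 * ((d + 1) ^ 3 * (M + 1) ^ 2) = 29 * 1 * ((d + 1) ^ 3 * (M + 1) ^ 2) := by ring
      _ ≤ 29 * n * ((d + 1) ^ 3 * (M + 1) ^ 2) := by gcongr
      _ = _ := by ring
  have hY0 : 0 < Y := by omega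
  have hYX : Y ≤ X := by
    rw [hXd]
    exact Nat.le_self_pow (by positivity) Y
  have hX0 : 0 < X := by omega
  have hX29 : 29 ≤ X := by omega
  have hZ : cZ n d M ≤ X ^ (g ^ 2 + 3 * g + 7) :=
    hcZ.trans ((Nat.pow_le_pow_left hYX 7).trans (Nat.pow_le_pow_right hX0 (by omega)))
  have hR : cRev n d M g ≤ X ^ (g ^ 2 + 3 * g + 7) :=
    hcR.trans (Nat.pow_le_pow_right hX0 (by omega))
  have hmax : max (cZ n d M) (cRev n d M g) ≤ X ^ (g ^ 2 + 3 * g + 7) := max_le hZ hR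
  have hone : 1 ≤ X ^ (g ^ 2 + 3 * g + 7) := Nat.one_le_pow _ _ hX0
  have hs1 : s + 1 ≤ X ^ (g ^ 2 + 3 * g + 8) := by
    have h1 : n * (max (cZ n d M) (cRev n d M g) + 2) ≤ n * (3 * X ^ (g ^ 2 + 3 * g + 7)) :=
      Nat.mul_le_mul_left _ (by omega)
    have h2 : 1 ≤ n * X ^ (g ^ 2 + 3 * g + 7) := Nat.mul_pos hn hone
    have h3 : n * (3 * X ^ (g ^ 2 + 3 * g + 7)) = 3 * (n * X ^ (g ^ 2 + 3 * g + 7)) := by ring
    have h4 : 4 * (n * X ^ (g ^ 2 + 3 * g + 7)) ≤ X ^ (g ^ 2 + 3 * g + 8) := by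
      calc 4 * (n * X ^ (g ^ 2 + 3 * g + 7)) = (4 * n) * X ^ (g ^ 2 + 3 * g + 7) := by ring
        _ ≤ X * X ^ (g ^ 2 + 3 * g + 7) := Nat.mul_le_mul_right _ (by omega)
        _ = _ := by rw [← pow_succ']
    omega
  have hb2 : 45 * ((d + 1) ^ 3 * (M + 1) ^ 2) ≤ X ^ 2 := by
    have h1 : 29 * ((d + 1) ^ 3 * (M + 1) ^ 2) ≤ X := hYb.trans hYX
    calc 45 * ((d + 1) ^ 3 * (M + 1) ^ 2) ≤ 29 * (29 * ((d + 1) ^ 3 * (M + 1) ^ 2)) := by omega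
      _ ≤ X * X := Nat.mul_le_mul hX29 h1
      _ = X ^ 2 := by ring
  have hall : 45 * (s + 1) ^ 4 * (d + 1) ^ 3 * (M + 1) ^ 2 ≤
      X ^ (4 * (g ^ 2 + 3 * g + 8) + 2) := by
    calc 45 * (s + 1) ^ 4 * (d + 1) ^ 3 * (M + 1) ^ 2
        = (s + 1) ^ 4 * (45 * ((d + 1) ^ 3 * (M + 1) ^ 2)) := by ring
      _ ≤ (X ^ (g ^ 2 + 3 * g + 8)) ^ 4 * X ^ 2 :=
          Nat.mul_le_mul (Nat.pow_le_pow_left hs1 4) hb2
      _ = _ := by rw [← pow_mul, ← pow_add]; congr 1; ring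
  calc (45 * (s + 1) ^ 4 * (d + 1) ^ 3 * (M + 1) ^ 2) ^ (g + 1)
      ≤ (X ^ (4 * (g ^ 2 + 3 * g + 8) + 2)) ^ (g + 1) := Nat.pow_le_pow_left hall _
    _ = Y ^ (3 ^ g * ((4 * (g ^ 2 + 3 * g + 8) + 2) * (g + 1))) := by
        rw [hXd, ← pow_mul, ← pow_mul]
    _ ≤ Y ^ (42 * 24 ^ g) := Nat.pow_le_pow_right hY0 (exp_le g)
    _ = _ := by rw [pow_mul]

end Pool.Agent.REV
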