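import Pool.Agent.REV.Part
import Pool.Agent.REV.Num

/-!
# REV / Final: short covering runs when every component is thin or reversible
-/

set_option autoImplicit false

namespace Pool.Agent.REV

open Pool.Agent.EEF Finset

variable {Q : Type} {d : ℕ} {T : VASS Q d}

theorem finrank_le_geomDim (T : VASS Q d) (p₀ : Q) :
    Module.finrank ℚ (Submodule.span ℚ {c : Fin d → ℚ | ∃ w, Walk T p₀ w p₀ ∧ c = qv w.sum}) ≤
      geomDim T := by
  refine Submodule.finrank_mono (Submodule.span_mono ?_)
  rintro c ⟨w, hw, rfl⟩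
  exact ⟨p₀, w, hw, rfl⟩

/-- the size bound for one component -/
def cMix (n d M g : ℕ) : ℕ := max (cZ n d M) (cRev n d M g)

theorem mixed_part [Fintype Q] (hT : ThinOrRev T) {p₀ p q : Q} {x : Vec d} (hx : 0 ≤ x)
    (hp : Reach T p₀ p) (hq : Reach T q p₀) {w : List (Vec d)} (hw : Walk T p w q)
    (hok : Ok x w) : Rlz T p x w.sum q (cMix (Fintype.card Q) d (maxNorm T) (geomDim T)) := by
  rcases hT p₀ with h | h
  · exact (scc_part h hx hp hq hw hok).mono (le_max_left _ _)
  · refine (rev_part (W := Submodule.span ℚ {c : Fin d → ℚ | ∃ w, Walk T p₀ w p₀ ∧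
      c = qv w.sum}) ⟨fun p v q h1 h2 h3 => h p v q h1 h2 h3, fun w hw =>
        Submodule.subset_span ⟨w, hw, rfl⟩⟩ (finrank_le_geomDim T p₀) hx hp hq hw hok).mono
      (le_max_right _ _)

/-- Systems with thin or reversible components are captured by path schemes. -/
theorem mixed_scheme [Fintype Q] (hT : ThinOrRev T) : ∀ (n : ℕ) {S : Finset Q}, S.card ≤ n →
    ∀ {p q : Q} {x : Vec d} {w : List (Vec d)}, 0 ≤ x → WalkIn T S p w q → Ok x w →
    Rlz T p x w.sum q (n * (cMix (Fintype.card Q) d (maxNorm T) (geomDim T) + 2)) := by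
  classical
  intro n
  induction n with
  | zero =>
    intro S hS p q x w hx h hok
    have : S = ∅ := Finset.card_eq_zero.1 (Nat.le_zero.1 hS)
    have h' := h.start
    rw [this] at h'
    simp at h'
  | succ n ih =>
    intro S hS p q x w hx h hok
    set C := cMix (Fintype.card Q) d (maxNorm T) (geomDim T) with hC
    have hexp : (n + 1) * (C + 2) = n * (C + 2) + (C + 2) := by ring
    have hpp : Reach T p p := ⟨[], .nil p⟩
    by_cases hq : Reach T q p
    · exact (mixed_part hT hx hpp hq h.walk hok).mono (by rw [hexp]; omega)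
    · obtain ⟨u, v, p₂, p₃, w', rfl, h1, h2, h3, h4⟩ := leave hq h hpp
      rw [Ok_append] at hok
      obtain ⟨o1, o2, o3⟩ := hok
      have h5 := mixed_part hT hx hpp h2 h1 o1
      have hcard : (S.erase p).card ≤ n := by
        rw [card_erase_of_mem h.start]
        omega
      have h6 := ih hcard o2 h4 o3
      have h7 := (h5.append (Rlz.step h3 o2)).append (by rw [← add_assoc]; exact h6)
      have e : (u ++ v :: w').sum = u.sum + v + w'.sum := by
        rw [List.sum_append, List.sum_cons, add_assoc]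
      rw [e]
      exact h7.mono (by rw [hexp]; omega)

theorem mixed_main [Fintype Q] (hT : ThinOrRev T) {s t : Q} {x y y' : Fin d → ℕ}
    {w : List (Fin d → ℤ)} (hrun : Run T s x w t y') (hy : ∀ k, y k ≤ y' k) :
    ∃ (w' : List (Fin d → ℤ)) (y'' : Fin d → ℕ), Run T s x w' t y'' ∧ (∀ k, y k ≤ y'' k) ∧
      w'.length ≤ max 1 (supN y) *
        ((29 * Fintype.card Q * (d + 1) ^ 3 * (maxNorm T + 1) ^ 2) ^ 42) ^ (24 ^ geomDim T) := by
  obtain ⟨h1, h2, h3⟩ := run_iff.1 hrun
  obtain ⟨I, e1, e2, e3, e4⟩ := mixed_scheme hT (Fintype.card Q) (S := Finset.univ) le_rfl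
    (zv_nonneg x) h1.walkIn h2
  obtain ⟨a, ha⟩ := exists_items I
  have hw : unroll I = schemeWord (I.map isk) a := by
    conv_lhs => rw [ha]
    rw [items_unroll]
  have hrun' : Run T s x (schemeWord (I.map isk) a) t y' := by
    rw [← hw]
    refine run_iff.2 ⟨scheme_walk I e1, e2, ?_⟩
    rw [e3]
    exact h3
  obtain ⟨a', y'', h4, h5, h6⟩ := scheme_main e1 hrun' hy
  refine ⟨_, y'', h4, h5, h6.trans (Nat.mul_le_mul_left _ ?_)⟩
  have hn : 1 ≤ Fintype.card Q := Fintype.card_pos_iff.2 ⟨s⟩
  have hg : geomDim T ≤ d := by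
    refine (Submodule.finrank_le _).trans ?_
    rw [Module.finrank_fintype_fun_eq_card, Fintype.card_fin]
  refine le_trans ?_ (num_rev hn hg e4)
  refine Nat.pow_le_pow_right ?_ (Nat.add_le_add_right (schemeDim_le e1) 1)
  positivity

end Pool.Agent.REV
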