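import Pool.Agent.REV.Defs2

/-!
# REV / Num2: the numerical bound for returning runs
-/

set_option autoImplicit false

namespace Pool.Agent.REV

open Pool.Agent.EEF

theorem Lm_le {g b M s : ℕ} (hs : 1 ≤ s) (hb : g + 1 ≤ b) :
    Lm g M s ≤ (17 * (b ^ 2 * (M + 1) ^ 2 * s ^ 2)) ^ (g + 1) := by
  unfold Lm tN
  obtain ⟨m, hm⟩ : ∃ m, m = M + 1 := ⟨_, rfl⟩
  rw [← hm]
  have hb1 : 1 ≤ b := by omega
  have hm1 : 1 ≤ m := by omega
  obtain ⟨P, hP⟩ : ∃ P, P = b ^ 2 * m ^ 2 * s ^ 2 := ⟨_, rfl⟩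
  rw [← hP]
  have h0 : 1 ≤ b ^ 2 * m ^ 2 := Nat.mul_pos (pow_pos hb1 2) (pow_pos hm1 2)
  have h1 : s ^ 2 ≤ P := by
    rw [hP]
    calc s ^ 2 = 1 * s ^ 2 := (one_mul _).symm
      _ ≤ _ := Nat.mul_le_mul_right _ h0
  have h2 : s ≤ P := le_trans (Nat.le_self_pow (by norm_num) s) h1
  have hP1 : 1 ≤ P := le_trans hs h2
  have h3 : M * s + 1 ≤ m * s := by subst hm; nlinarith
  have h4 : M * s ≤ m * s := by omega
  have h5 : 2 * M * s * (s + 1) ≤ 4 * P := by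
    calc 2 * M * s * (s + 1) = 2 * (M * s) * (s + 1) := by ring
      _ ≤ 2 * (m * s) * (s + s) := by gcongr
      _ = 4 * (1 * m * s ^ 2) := by ring
      _ ≤ 4 * (b ^ 2 * m ^ 2 * s ^ 2) := by
        gcongr
        · exact Nat.one_le_pow _ _ hb1
        · exact Nat.le_self_pow (by norm_num) m
      _ = 4 * P := by rw [hP]
  have h6 : 4 * (g + 1) ^ 2 * (M * s + 1) * (M * s) ≤ 4 * P := by
    calc 4 * (g + 1) ^ 2 * (M * s + 1) * (M * s) ≤ 4 * b ^ 2 * (m * s) * (m * s) := by gcongr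
      _ = 4 * P := by rw [hP]; ring
  have h7 : 2 * (2 * M * s * (s + 1) + 4 * (g + 1) ^ 2 * (M * s + 1) * (M * s)) + 1 ≤ 17 * P := by
    omega
  have h8 : 1 ≤ (17 * P) ^ g := Nat.one_le_pow _ _ (by omega)
  calc 2 * s ^ 2 + s * (2 * (2 * M * s * (s + 1) + 4 * (g + 1) ^ 2 * (M * s + 1) * (M * s)) + 1) ^ g
      ≤ 2 * P * (17 * P) ^ g + P * (17 * P) ^ g := by
        refine Nat.add_le_add ?_ (Nat.mul_le_mul h2 (Nat.pow_le_pow_left h7 g))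
        calc 2 * s ^ 2 = 2 * s ^ 2 * 1 := (mul_one _).symm
          _ ≤ 2 * P * (17 * P) ^ g := Nat.mul_le_mul (Nat.mul_le_mul_left _ h1) h8
    _ = 3 * P * (17 * P) ^ g := by ring
    _ ≤ 17 * P * (17 * P) ^ g := by gcongr; norm_num
    _ = _ := by rw [pow_succ]; ring

theorem le_Lm {g M s : ℕ} : 2 * s ^ 2 ≤ Lm g M s := by
  unfold Lm
  exact Nat.le_add_right _ _

theorem tN_Lm_le {g b m M L : ℕ} (hL : 1 ≤ L) (hb : g + 1 ≤ b) (hm : m = M + 1) :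
    tN g (M * L) * (M * L) ≤ 4 * (b ^ 2 * m ^ 2 * L ^ 2) := by
  unfold tN
  have h3 : M * L + 1 ≤ m * L := by subst hm; nlinarith
  have h4 : M * L ≤ m * L := by omega
  calc 4 * (g + 1) ^ 2 * (M * L + 1) * (M * L) ≤ 4 * b ^ 2 * (m * L) * (m * L) := by gcongr
    _ = _ := by ring

theorem rev_dev2_le {g b m M S : ℕ} (hS : 1 ≤ S) (hb : g + 1 ≤ b) (hm : m = M + 1) :
    1 + M * S + dev2 g M S ≤ 6 * (b ^ 2 * m ^ 2 * (Lm g M S) ^ 2) ∧ S ≤ Lm g M S ∧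
      Lm g M S ≤ b ^ 2 * m ^ 2 * (Lm g M S) ^ 2 := by
  have hb1 : 1 ≤ b := by omega
  have hm1 : 1 ≤ m := by omega
  have hL : S ≤ Lm g M S := by
    have h1 : 2 * S ^ 2 ≤ Lm g M S := le_Lm
    have h2 : S ≤ S ^ 2 := Nat.le_self_pow (by norm_num) S
    omega
  have hd : dev2 g M S = tN g (M * Lm g M S) * (M * Lm g M S) + M * Lm g M S := rfl
  rw [hd]
  obtain ⟨L, hLd⟩ : ∃ L, L = Lm g M S := ⟨_, rfl⟩
  rw [← hLd] at hL ⊢
  have hL1 : 1 ≤ L := by omega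
  have h1 := tN_Lm_le (g := g) (b := b) (m := m) (M := M) hL1 hb hm
  have h2 : m * L ≤ b ^ 2 * m ^ 2 * L ^ 2 := by
    calc m * L = 1 * m * L := by ring
      _ ≤ b ^ 2 * m ^ 2 * L ^ 2 := Nat.mul_le_mul (Nat.mul_le_mul (Nat.one_le_pow _ _ hb1)
          (Nat.le_self_pow (by norm_num) m)) (Nat.le_self_pow (by norm_num) L)
  have h3 : M * S + 1 ≤ m * L := by subst hm; nlinarith
  have h4 : M * L + L = m * L := by subst hm; ring
  refine ⟨?_, hL, ?_⟩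
  · omega
  · refine le_trans ?_ h2
    nlinarith

theorem SB_bounds {n d M g : ℕ} (hn : 1 ≤ n) (hg : g ≤ d) (l : ℕ) :
    1 ≤ (SB n d M g l).1 ∧ 1 ≤ (SB n d M g l).2 ∧
      (SB n d M g l).2 ≤ 7 * ((d + 1) ^ 2 * (M + 1) ^ 2 * (Lm g M (SB n d M g l).1) ^ 2) := by
  have hgd : g + 1 ≤ d + 1 := by omega
  induction l with
  | zero =>
    have h := (rev_dev2_le (M := M) hn hgd rfl).1
    refine ⟨hn, ?_, ?_⟩
    · show 1 ≤ 1 + M * n + dev2 g M n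
      omega
    · show 1 + M * n + dev2 g M n ≤ 7 * ((d + 1) ^ 2 * (M + 1) ^ 2 * (Lm g M n) ^ 2)
      omega
  | succ l ih =>
    obtain ⟨h1, h2, -⟩ := ih
    set S := (SB n d M g l).1 with hSdef
    set A := (SB n d M g l).2 with hAdef
    have hS' : 1 ≤ S * ((d + 1) * A) := Nat.mul_pos h1 (Nat.mul_pos (by omega) h2)
    have hAS : A ≤ S * ((d + 1) * A) := by
      calc A = 1 * (1 * A) := by ring
        _ ≤ S * ((d + 1) * A) := Nat.mul_le_mul h1 (Nat.mul_le_mul_right _ (by omega))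
    obtain ⟨h, h5, h6⟩ := rev_dev2_le (M := M) hS' hgd rfl
    have e1 : (SB n d M g (l + 1)).1 = S * ((d + 1) * A) := rfl
    have e2 : (SB n d M g (l + 1)).2 = A + 1 + M * (S * ((d + 1) * A)) +
        dev2 g M (S * ((d + 1) * A)) := rfl
    rw [e1, e2]
    set S' := S * ((d + 1) * A) with hS'def
    refine ⟨hS', by omega, ?_⟩
    omega

theorem sT_pow {n d M g : ℕ} (hn : 1 ≤ n) (hg : g ≤ d) (l : ℕ) :
    17 * (d + 1) ^ 3 * (M + 1) ^ 2 * sT n d M g l ≤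
      (17 * n * (d + 1) ^ 3 * (M + 1) ^ 2) ^ ((4 * g + 6) ^ l) := by
  induction l with
  | zero =>
    show 17 * (d + 1) ^ 3 * (M + 1) ^ 2 * n ≤ _
    refine le_of_eq ?_
    ring
  | succ l ih =>
    obtain ⟨h1, h2, h3⟩ := SB_bounds (M := M) hn hg l
    have e1 : sT n d M g (l + 1) = sT n d M g l * ((d + 1) * (SB n d M g l).2) := rfl
    have e2 : (SB n d M g l).1 = sT n d M g l := rfl
    rw [e2] at h1 h3
    rw [e1, pow_succ (4 * g + 6) l, pow_mul]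
    have h4 := Lm_le (g := g) (b := d + 1) (M := M) h1 (by omega)
    set S := sT n d M g l with hSdef
    obtain ⟨m, hm⟩ : ∃ m, m = M + 1 := ⟨_, rfl⟩
    obtain ⟨b, hb⟩ : ∃ b, b = d + 1 := ⟨_, rfl⟩
    rw [← hm, ← hb] at h3 h4 ih ⊢
    have hm1 : 1 ≤ m := by omega
    have hb1 : 1 ≤ b := by omega
    obtain ⟨L, hL⟩ : ∃ L, L = Lm g M S := ⟨_, rfl⟩
    rw [← hL] at h3 h4
    obtain ⟨c, hc⟩ : ∃ c, c = 17 * b ^ 3 * m ^ 2 := ⟨_, rfl⟩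
    have hc1 : 1 ≤ c := by
      rw [hc]
      exact Nat.mul_pos (Nat.mul_pos (by norm_num) (pow_pos hb1 3)) (pow_pos hm1 2)
    rw [← hc] at ih ⊢
    have h5 : 17 * (b ^ 2 * m ^ 2 * S ^ 2) ≤ (c * S) ^ 2 := by
      calc 17 * (b ^ 2 * m ^ 2 * S ^ 2) ≤ 289 * (b ^ 6 * m ^ 4 * S ^ 2) := by
            gcongr <;> norm_num
        _ = (c * S) ^ 2 := by rw [hc]; ring
    have h6 : L ^ 2 ≤ (c * S) ^ (4 * g + 4) := by
      calc L ^ 2 ≤ ((17 * (b ^ 2 * m ^ 2 * S ^ 2)) ^ (g + 1)) ^ 2 := Nat.pow_le_pow_left h4 2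
        _ ≤ (((c * S) ^ 2) ^ (g + 1)) ^ 2 :=
          Nat.pow_le_pow_left (Nat.pow_le_pow_left h5 _) 2
        _ = (c * S) ^ (4 * g + 4) := by
          rw [← pow_mul, ← pow_mul]; congr 1; ring
    have h7 : c ≤ c * S := Nat.le_mul_of_pos_right _ h1
    have h8 : 7 * (b ^ 3 * m ^ 2) ≤ c := by
      rw [hc]
      have : 17 * b ^ 3 * m ^ 2 = 17 * (b ^ 3 * m ^ 2) := by ring
      omega
    calc c * (S * (b * (SB n d M g l).2))
        ≤ c * (S * (b * (7 * (b ^ 2 * m ^ 2 * L ^ 2)))) := by gcongr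
      _ = c * (7 * (b ^ 3 * m ^ 2) * S) * L ^ 2 := by ring
      _ ≤ (c * S) * (c * S) * (c * S) ^ (4 * g + 4) := by gcongr
      _ = (c * S) ^ (4 * g + 6) := by ring
      _ ≤ _ := Nat.pow_le_pow_left ih _

/-- bounds in terms of one large number -/
theorem cRet_le {n d M g X : ℕ} (hn : 1 ≤ n) (hg : g ≤ d)
    (hX : 17 * (d + 1) ^ 3 * (M + 1) ^ 2 * sT n d M g g ≤ X) :
    cRet n d M g + 2 ≤ X ^ (4 * (g + 1) ^ 2) := by
  obtain ⟨h1, -, -⟩ := SB_bounds (M := M) hn hg g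
  have e2 : (SB n d M g g).1 = sT n d M g g := rfl
  rw [e2] at h1
  have hLm := Lm_le (g := g) (b := d + 1) (M := M) h1 (by omega)
  have hLge : 2 * (sT n d M g g) ^ 2 ≤ Lm g M (sT n d M g g) := le_Lm
  unfold cRet
  set S := sT n d M g g with hSdef
  obtain ⟨m, hm⟩ : ∃ m, m = M + 1 := ⟨_, rfl⟩
  obtain ⟨b, hb⟩ : ∃ b, b = d + 1 := ⟨_, rfl⟩
  rw [← hm, ← hb] at hX hLm
  rw [← hb]
  have hm1 : 1 ≤ m := by omega
  have hb1 : 1 ≤ b := by omega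
  have hgb : g + 1 ≤ b := by omega
  have hb3 : b ≤ b ^ 3 := Nat.le_self_pow (by norm_num) b
  have hb23 : b ^ 2 ≤ b ^ 3 := Nat.pow_le_pow_right hb1 (by norm_num)
  have hm2 : m ≤ m ^ 2 := Nat.le_self_pow (by norm_num) m
  have hone : 1 ≤ b ^ 3 * m ^ 2 * S :=
    Nat.mul_pos (Nat.mul_pos (pow_pos hb1 3) (pow_pos hm1 2)) h1
  have hX0 : 17 * (b ^ 3 * m ^ 2 * S) ≤ X := by
    refine le_trans (le_of_eq ?_) hX
    ring
  have hX17 : 17 ≤ X := by omega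
  have hX1 : 1 ≤ X := by omega
  -- the basic inequalities
  have hbX : b ≤ X := by
    calc b = b * 1 * 1 := by ring
      _ ≤ b ^ 3 * m ^ 2 * S := by gcongr; exact Nat.one_le_pow _ _ hm1
      _ ≤ X := by omega
  have h2bX : 2 * b ≤ X := by
    have : b ≤ b ^ 3 * m ^ 2 * S := by
      calc b = b * 1 * 1 := by ring
        _ ≤ b ^ 3 * m ^ 2 * S := by gcongr; exact Nat.one_le_pow _ _ hm1
    omega
  have h4bm : 4 * (b ^ 2 * m ^ 2) ≤ X := by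
    have : b ^ 2 * m ^ 2 ≤ b ^ 3 * m ^ 2 * S := by
      calc b ^ 2 * m ^ 2 = b ^ 2 * m ^ 2 * 1 := (mul_one _).symm
        _ ≤ b ^ 3 * m ^ 2 * S := by gcongr
    omega
  have h5X : 2 * g * (2 * M * S) + 1 ≤ X := by
    have h : g * (M * S) ≤ b ^ 3 * m ^ 2 * S := by
      calc g * (M * S) ≤ b * (m * S) := by gcongr <;> omega
        _ = b * m * S := by ring
        _ ≤ b ^ 3 * m ^ 2 * S := by gcongr
    have h' : 2 * g * (2 * M * S) = 4 * (g * (M * S)) := by ring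
    omega
  have hbS : 2 * ((g + 1) * S + 1) ≤ X := by
    have h : (g + 1) * S ≤ b ^ 3 * m ^ 2 * S := by
      calc (g + 1) * S ≤ b * 1 * S := by gcongr; omega
        _ ≤ b ^ 3 * m ^ 2 * S := by gcongr; exact Nat.one_le_pow _ _ hm1
    omega
  have hP : 17 * (b ^ 2 * m ^ 2 * S ^ 2) ≤ X ^ 2 := by
    calc 17 * (b ^ 2 * m ^ 2 * S ^ 2) ≤ 289 * (b ^ 6 * m ^ 4 * S ^ 2) := by
          gcongr <;> norm_num
      _ = (17 * (b ^ 3 * m ^ 2 * S)) ^ 2 := by ring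
      _ ≤ X ^ 2 := Nat.pow_le_pow_left hX0 2
  obtain ⟨L, hL⟩ : ∃ L, L = Lm g M S := ⟨_, rfl⟩
  have hLX : L ≤ X ^ (2 * g + 2) := by
    rw [hL]
    calc Lm g M S ≤ (17 * (b ^ 2 * m ^ 2 * S ^ 2)) ^ (g + 1) := hLm
      _ ≤ (X ^ 2) ^ (g + 1) := Nat.pow_le_pow_left hP _
      _ = X ^ (2 * g + 2) := by rw [← pow_mul]; congr 1
  have hL1 : 1 ≤ L := by
    rw [hL]
    have : 1 ≤ S ^ 2 := Nat.one_le_pow _ _ h1
    omega
  have htN : tN g (M * L) * (M * L) ≤ X ^ (4 * g + 5) := by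
    calc tN g (M * L) * (M * L) ≤ 4 * (b ^ 2 * m ^ 2 * L ^ 2) := tN_Lm_le hL1 hgb hm
      _ = 4 * (b ^ 2 * m ^ 2) * L ^ 2 := by ring
      _ ≤ X * (X ^ (2 * g + 2)) ^ 2 := by gcongr
      _ = X ^ (4 * g + 5) := by rw [← pow_mul]; ring
  have hrB : rB d g (2 * M * S) ≤ X ^ (4 * g + 5) := by
    unfold rB
    rw [← hb]
    calc b * (2 * g * (2 * M * S) + 1) ^ g ≤ X * X ^ g := by gcongr
      _ = X ^ (g + 1) := by ring
      _ ≤ X ^ (4 * g + 5) := Nat.pow_le_pow_right hX1 (by omega)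
  have hlC : lC d g M S ≤ X ^ ((4 * g + 6) * g) := by
    unfold lC
    rw [← hL]
    have h1' : 1 ≤ X ^ (4 * g + 5) := Nat.one_le_pow _ _ hX1
    calc (2 * (rB d g (2 * M * S) + tN g (M * L) * (M * L)) + 1) ^ g
        ≤ (17 * X ^ (4 * g + 5)) ^ g := Nat.pow_le_pow_left (by omega) g
      _ ≤ (X * X ^ (4 * g + 5)) ^ g := by gcongr
      _ = X ^ ((4 * g + 6) * g) := by
        rw [pow_mul]; congr 1; ring
  rw [← hL]
  have hmain : L * lC d g M S ≤ X ^ (4 * g ^ 2 + 8 * g + 2) := by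
    calc L * lC d g M S ≤ X ^ (2 * g + 2) * X ^ ((4 * g + 6) * g) := Nat.mul_le_mul hLX hlC
      _ = X ^ (4 * g ^ 2 + 8 * g + 2) := by rw [← pow_add]; congr 1; ring
  obtain ⟨E, hE⟩ : ∃ E, E = X ^ (4 * g ^ 2 + 8 * g + 2) := ⟨_, rfl⟩
  rw [← hE] at hmain
  have hE1 : 1 ≤ E := by rw [hE]; exact Nat.one_le_pow _ _ hX1
  calc 2 * ((g + 1) * S + 1) + b * (L * lC d g M S + 1) + 2
      ≤ X * E + b * (E + E) + 2 * E := by
        refine Nat.add_le_add (Nat.add_le_add ?_ ?_) (by omega)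
        · calc 2 * ((g + 1) * S + 1) ≤ X := hbS
            _ = X * 1 := (mul_one _).symm
            _ ≤ X * E := Nat.mul_le_mul_left _ hE1
        · exact Nat.mul_le_mul_left _ (Nat.add_le_add hmain hE1)
    _ = X * E + 2 * b * E + 2 * E := by ring
    _ ≤ X * E + X * E + X * E := by gcongr; omega
    _ = 3 * X * E := by ring
    _ ≤ X * X * E := by gcongr; omega
    _ = X ^ (4 * (g + 1) ^ 2) := by rw [hE]; ring

theorem num_ret {n d M g K s : ℕ} (hn : 1 ≤ n) (hg : g ≤ d)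
    (hs : s ≤ K * (cRet n d M g + 2)) :
    (45 * (s + 1) ^ 4 * (d + 1) ^ 3 * (M + 1) ^ 2) ^ (g + 1) ≤
      (((K + 1) * 100 * n * (d + 1) ^ 3 * (M + 1) ^ 3) ^ 1000) ^ (100 ^ g * (g + 1) ^ g) := by
  obtain ⟨X, hX⟩ : ∃ X, X = (17 * n * (d + 1) ^ 3 * (M + 1) ^ 2) ^ ((4 * g + 6) ^ g) := ⟨_, rfl⟩
  have hS := sT_pow (M := M) hn hg g
  rw [← hX] at hS
  have hc := cRet_le hn hg hS
  obtain ⟨Y, hY⟩ : ∃ Y, Y = (K + 1) * 100 * n * (d + 1) ^ 3 * (M + 1) ^ 3 := ⟨_, rfl⟩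
  rw [← hY]
  obtain ⟨m, hm⟩ : ∃ m, m = M + 1 := ⟨_, rfl⟩
  obtain ⟨b, hb⟩ : ∃ b, b = d + 1 := ⟨_, rfl⟩
  rw [← hm, ← hb] at hX hY ⊢
  have hm1 : 1 ≤ m := by omega
  have hb1 : 1 ≤ b := by omega
  have hcn : 1 ≤ n * b ^ 3 * m ^ 2 := Nat.mul_pos (Nat.mul_pos hn (pow_pos hb1 3)) (pow_pos hm1 2)
  have hcnY : 17 * n * b ^ 3 * m ^ 2 ≤ Y := by
    rw [hY]
    calc 17 * n * b ^ 3 * m ^ 2 = 1 * 17 * n * b ^ 3 * m ^ 2 := by ring
      _ ≤ (K + 1) * 100 * n * b ^ 3 * m ^ 3 := by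
        gcongr <;> omega
  have hKY : K + 1 ≤ Y := by
    rw [hY]
    have h : 1 ≤ 100 * (n * b ^ 3 * m ^ 3) :=
      Nat.mul_pos (by norm_num) (Nat.mul_pos (Nat.mul_pos hn (pow_pos hb1 3)) (pow_pos hm1 3))
    calc K + 1 = (K + 1) * 1 := (mul_one _).symm
      _ ≤ (K + 1) * (100 * (n * b ^ 3 * m ^ 3)) := Nat.mul_le_mul_left _ h
      _ = _ := by ring
  have hY1 : 1 ≤ Y := by omega
  obtain ⟨e, he⟩ : ∃ e, e = (4 * g + 6) ^ g := ⟨_, rfl⟩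
  rw [← he] at hX
  have he1 : 1 ≤ e := by rw [he]; exact Nat.one_le_pow _ _ (by omega)
  have hXY : X ≤ Y ^ e := by rw [hX]; exact Nat.pow_le_pow_left hcnY _
  -- 17 b^3 m^2 <= X
  have hcX : 17 * (b ^ 3 * m ^ 2) ≤ X := by
    have h1 : 17 * (b ^ 3 * m ^ 2) ≤ 17 * n * b ^ 3 * m ^ 2 := by
      calc 17 * (b ^ 3 * m ^ 2) = 17 * 1 * b ^ 3 * m ^ 2 := by ring
        _ ≤ 17 * n * b ^ 3 * m ^ 2 := by gcongr
    rw [hX]
    exact le_trans h1 (Nat.le_self_pow (by omega) _)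
  have hX1 : 1 ≤ X := by
    have : 1 ≤ b ^ 3 * m ^ 2 := Nat.mul_pos (pow_pos hb1 3) (pow_pos hm1 2)
    omega
  have h45 : 45 * (b ^ 3 * m ^ 2) ≤ X ^ 2 := by
    have h1 : 1 ≤ b ^ 3 * m ^ 2 := Nat.mul_pos (pow_pos hb1 3) (pow_pos hm1 2)
    calc 45 * (b ^ 3 * m ^ 2) ≤ 17 * (b ^ 3 * m ^ 2) * (17 * (b ^ 3 * m ^ 2)) := by nlinarith
      _ ≤ X * X := Nat.mul_le_mul hcX hcX
      _ = X ^ 2 := by ring
  obtain ⟨f, hf⟩ : ∃ f, f = 4 * (g + 1) ^ 2 := ⟨_, rfl⟩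
  rw [← hf] at hc
  have hs1 : s + 1 ≤ (K + 1) * X ^ f := by
    have h1 : 1 ≤ X ^ f := Nat.one_le_pow _ _ hX1
    calc s + 1 ≤ K * X ^ f + X ^ f :=
          Nat.add_le_add (le_trans hs (Nat.mul_le_mul_left _ hc)) h1
      _ = (K + 1) * X ^ f := by ring
  have hA : 45 * (s + 1) ^ 4 * b ^ 3 * m ^ 2 ≤ Y ^ (4 + e * (4 * f + 2)) := by
    calc 45 * (s + 1) ^ 4 * b ^ 3 * m ^ 2 = 45 * (b ^ 3 * m ^ 2) * (s + 1) ^ 4 := by ring
      _ ≤ X ^ 2 * ((K + 1) * X ^ f) ^ 4 := by gcongr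
      _ = (K + 1) ^ 4 * X ^ (4 * f + 2) := by
        rw [mul_pow, ← pow_mul]; ring
      _ ≤ Y ^ 4 * (Y ^ e) ^ (4 * f + 2) := by gcongr
      _ = Y ^ (4 + e * (4 * f + 2)) := by rw [← pow_mul, ← pow_add]
  have hexp : (4 + e * (4 * f + 2)) * (g + 1) ≤ 1000 * (100 ^ g * (g + 1) ^ g) := by
    have h1 : 4 + e * (4 * f + 2) ≤ e * (22 * (g + 1) ^ 2) := by
      have h2 : 1 ≤ (g + 1) ^ 2 := Nat.one_le_pow _ _ (by omega)
      have h3 : 4 ≤ e * 4 := by omega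
      calc 4 + e * (4 * f + 2) ≤ e * 4 + e * (4 * f + 2) := by omega
        _ = e * (4 * f + 6) := by ring
        _ ≤ e * (22 * (g + 1) ^ 2) := by
          refine Nat.mul_le_mul_left _ ?_
          rw [hf]; omega
    have h4 : e ≤ 6 ^ g * (g + 1) ^ g := by
      rw [he, ← mul_pow]
      exact Nat.pow_le_pow_left (by omega) _
    have h5 : ∀ k : ℕ, (k + 1) ^ 3 * 6 ^ k ≤ 100 ^ k := by
      intro k
      induction k with
      | zero => norm_num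
      | succ k ih =>
        have h6 : (k + 1 + 1) ^ 3 ≤ 8 * (k + 1) ^ 3 := by
          calc (k + 1 + 1) ^ 3 ≤ (2 * (k + 1)) ^ 3 := Nat.pow_le_pow_left (by omega) 3
            _ = 8 * (k + 1) ^ 3 := by ring
        calc (k + 1 + 1) ^ 3 * 6 ^ (k + 1) ≤ 8 * (k + 1) ^ 3 * 6 ^ (k + 1) :=
              Nat.mul_le_mul_right _ h6
          _ = 48 * ((k + 1) ^ 3 * 6 ^ k) := by ring
          _ ≤ 100 * 100 ^ k := Nat.mul_le_mul (by norm_num) ih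
          _ = 100 ^ (k + 1) := by ring
    calc (4 + e * (4 * f + 2)) * (g + 1) ≤ e * (22 * (g + 1) ^ 2) * (g + 1) :=
          Nat.mul_le_mul_right _ h1
      _ = 22 * (g + 1) ^ 3 * e := by ring
      _ ≤ 22 * (g + 1) ^ 3 * (6 ^ g * (g + 1) ^ g) := Nat.mul_le_mul_left _ h4
      _ = 22 * ((g + 1) ^ 3 * 6 ^ g) * (g + 1) ^ g := by ring
      _ ≤ 1000 * 100 ^ g * (g + 1) ^ g := by
        refine Nat.mul_le_mul_right _ (Nat.mul_le_mul (by norm_num) (h5 g))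
      _ = 1000 * (100 ^ g * (g + 1) ^ g) := by ring
  calc (45 * (s + 1) ^ 4 * b ^ 3 * m ^ 2) ^ (g + 1)
      ≤ (Y ^ (4 + e * (4 * f + 2))) ^ (g + 1) := Nat.pow_le_pow_left hA _
    _ = Y ^ ((4 + e * (4 * f + 2)) * (g + 1)) := by rw [← pow_mul]
    _ ≤ Y ^ (1000 * (100 ^ g * (g + 1) ^ g)) := Nat.pow_le_pow_right hY1 hexp
    _ = (Y ^ 1000) ^ (100 ^ g * (g + 1) ^ g) := by rw [pow_mul]

end Pool.Agent.REV
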