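import Pool.Agent.REV.ClDef

/-!
# REV / GenC: differences of walks with the same end are generated by short closed walks
-/

set_option autoImplicit false

namespace Pool.Agent.REV

open Pool.Agent.EEF

variable {Q : Type} {d : ℕ} {T : VASS Q d} {W : Submodule ℚ (Fin d → ℚ)} {f : ℕ → Q}
  {Z : ℕ → Vec d} {m : ℕ} {F : Set (Fin d)}

/-- the way back -/
theorem back {s : ℕ} (hr : PR T W f Z m)
    (hsh : ∀ p x u q, SW (RE f Z F) (VE f Z F) p x u q → ∃ u', SW (RE f Z F) (VE f Z F) p x u' q ∧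
      (∀ j ∈ F, u'.sum j = u.sum j) ∧ u'.length < s)
    {u : List (Vec d)} {q : Q} (hu : SW (RE f Z F) (VE f Z F) (f 0) (Z 0) u q) :
    ∃ η, SW (RE f Z F) (VE f Z F) q (Z 0 + u.sum) η (f 0) ∧ (∀ j ∈ F, η.sum j = -u.sum j) ∧
      η.length < s := by
  obtain ⟨t, h1, h2⟩ := hu.stop
  have hm := hr.pos
  have hle : t ≤ m * t := Nat.le_mul_of_pos_left t hm
  obtain ⟨k, hk⟩ := Nat.exists_eq_add_of_le hle
  have h3 := seg_walk f Z F (VE f Z F) (VE_inv f Z F) t k (fun t' _ _ => ⟨t', rfl, fun _ _ => rfl⟩)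
    (x := Z 0 + u.sum) h2
  obtain ⟨h4, h5⟩ := hr.per_mul 0 t
  rw [zero_add] at h4 h5
  rw [← hk, h4, h1] at h3
  obtain ⟨η, h6, h7, h8⟩ := hsh _ _ _ _ h3
  refine ⟨η, h6, fun j hj => ?_, h8⟩
  rw [h7 j hj, seg_sum, ← hk, h5, Pi.sub_apply, h2 j hj, Pi.add_apply]
  ring

theorem gen_all2 {s : ℕ} (hr : PR T W f Z m)
    (hsh : ∀ p x u q, SW (RE f Z F) (VE f Z F) p x u q → ∃ u', SW (RE f Z F) (VE f Z F) p x u' q ∧
      (∀ j ∈ F, u'.sum j = u.sum j) ∧ u'.length < s) :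
    ∀ (u : List (Vec d)) {q : Q} {τ : List (Vec d)},
      SW (RE f Z F) (VE f Z F) (f 0) (Z 0) u q →
      SW (RE f Z F) (VE f Z F) (f 0) (Z 0) τ q → (∀ j ∈ F, τ.sum j = u.sum j) → τ.length < s →
      u.sum - τ.sum ∈ AddSubgroup.closure (Cl f Z F (2 * s)) := by
  intro u
  induction u using List.reverseRecOn with
  | nil =>
    intro q τ hu hτ hE hl
    have hq : q = f 0 := by
      cases hu with
      | nil _ => rfl
    subst hq
    rw [List.sum_nil, zero_sub]
    refine AddSubgroup.neg_mem _ (AddSubgroup.subset_closure ⟨τ, hτ, fun j hj => ?_, by omega, rfl⟩)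
    rw [hE j hj]
    rfl
  | append_singleton u v ih =>
    intro q τ hu hτ hE hl
    obtain ⟨r, h1, h2⟩ := hu.split
    obtain ⟨τ₀, h3, h4, h5⟩ := hsh _ _ _ _ h1
    have h6 := ih h1 h3 h4 h5
    obtain ⟨η, b1, b2, b3⟩ := back hr hsh hτ
    have h8 : SW (RE f Z F) (VE f Z F) r (Z 0 + τ₀.sum) [v] q :=
      h2.congr (RE_inv f Z F) (VE_inv f Z F) fun j hj => by
        rw [Pi.add_apply, Pi.add_apply, h4 j hj]
    have h9 := h3.append h8
    have hs7 : ∀ j ∈ F, τ₀.sum j + v j = τ.sum j := by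
      intro j hj
      rw [hE j hj, List.sum_append, List.sum_singleton, Pi.add_apply, h4 j hj]
    have h10 : SW (RE f Z F) (VE f Z F) (f 0) (Z 0) ((τ₀ ++ [v]) ++ η) (f 0) := by
      refine h9.append (b1.congr (RE_inv f Z F) (VE_inv f Z F) fun j hj => ?_)
      rw [List.sum_append, List.sum_singleton, Pi.add_apply, Pi.add_apply, Pi.add_apply, hs7 j hj]
    have h11 : ((τ₀ ++ [v]) ++ η).sum ∈ Cl f Z F (2 * s) := by
      refine ⟨_, h10, fun j hj => ?_, ?_, rfl⟩
      · rw [List.sum_append, List.sum_append, List.sum_singleton, Pi.add_apply, Pi.add_apply,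
          hs7 j hj, b2 j hj]
        ring
      · rw [List.length_append, List.length_append, List.length_singleton]
        omega
    have h12 : (τ ++ η).sum ∈ Cl f Z F (2 * s) := by
      refine ⟨_, hτ.append b1, fun j hj => ?_, ?_, rfl⟩
      · rw [List.sum_append, Pi.add_apply, b2 j hj]
        ring
      · rw [List.length_append]
        omega
    have e : (u ++ [v]).sum - τ.sum =
        (u.sum - τ₀.sum) + (((τ₀ ++ [v]) ++ η).sum - (τ ++ η).sum) := by
      simp only [List.sum_append, List.sum_singleton]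
      abel
    rw [e]
    exact AddSubgroup.add_mem _ h6 (AddSubgroup.sub_mem _ (AddSubgroup.subset_closure h11)
      (AddSubgroup.subset_closure h12))

/-- MODULE GENC (file REV/GenC.lean) -/
theorem Cl_gen {s : ℕ} (hr : PR T W f Z m)
    (hsh : ∀ p x u q, SW (RE f Z F) (VE f Z F) p x u q → ∃ u', SW (RE f Z F) (VE f Z F) p x u' q ∧
      (∀ j ∈ F, u'.sum j = u.sum j) ∧ u'.length < s)
    {u u' : List (Vec d)} {q : Q} (hu : SW (RE f Z F) (VE f Z F) (f 0) (Z 0) u q)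
    (hu' : SW (RE f Z F) (VE f Z F) (f 0) (Z 0) u' q) (he : ∀ j ∈ F, u.sum j = u'.sum j) :
    u.sum - u'.sum ∈ AddSubgroup.closure (Cl f Z F (2 * s)) := by
  obtain ⟨τ, h1, h2, h3⟩ := hsh _ _ _ _ hu'
  have h4 := gen_all2 hr hsh u hu h1 (fun j hj => by rw [h2 j hj, he j hj]) h3
  have h5 := gen_all2 hr hsh u' hu' h1 h2 h3
  have e : u.sum - u'.sum = (u.sum - τ.sum) - (u'.sum - τ.sum) := by abel
  rw [e]
  exact AddSubgroup.sub_mem _ h4 h5

end Pool.Agent.REV
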