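import Pool.Agent.REV.Defs

/-!
# REV / Tube: a list of generators with small dips

Few different generators (pigeonhole), Bresenham order, and a shortest list in the box.
-/

set_option autoImplicit false

namespace Pool.Agent.REV

open Pool.Agent.EEF Finset

variable {d : ℕ}

/-! ### coordinates -/

theorem tube_qv_zero : qv (0 : Vec d) = 0 := by
  funext k; simp [qv]

theorem tube_qv_add (a b : Vec d) : qv (a + b) = qv a + qv b := by
  funext k; simp [qv]

theorem tube_qv_sub (a b : Vec d) : qv (a - b) = qv a - qv b := by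
  funext k; simp [qv]

theorem tube_qv_sum {W : Submodule ℚ (Fin d → ℚ)} (A : Finset (Vec d))
    (h : ∀ g ∈ A, qv g ∈ W) : qv (∑ g ∈ A, g) ∈ W := by
  classical
  induction A using Finset.induction_on with
  | empty => rw [Finset.sum_empty, tube_qv_zero]; exact W.zero_mem
  | insert a s ha ih =>
    rw [Finset.sum_insert ha, tube_qv_add]
    exact W.add_mem (h a (Finset.mem_insert_self a s))
      (ih fun g hg => h g (Finset.mem_insert_of_mem hg))

theorem tube_qv_listSum {W : Submodule ℚ (Fin d → ℚ)} (L : List (Vec d))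
    (h : ∀ g ∈ L, qv g ∈ W) : qv L.sum ∈ W := by
  induction L with
  | nil => rw [List.sum_nil, tube_qv_zero]; exact W.zero_mem
  | cons a s ih =>
    rw [List.sum_cons, tube_qv_add]
    exact W.add_mem (h a (by simp)) (ih fun g hg => h g (by simp [hg]))

/-- a space of dimension at most `k` is determined by `k` coordinates -/
theorem tube_coords (k : ℕ) : ∀ W : Submodule ℚ (Fin d → ℚ), Module.finrank ℚ W ≤ k →
    ∃ J : Finset (Fin d), J.card ≤ k ∧ ∀ v ∈ W, (∀ j ∈ J, v j = 0) → v = 0 := by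
  classical
  induction k with
  | zero =>
    intro W hW
    refine ⟨∅, by simp, fun v hv _ => ?_⟩
    have h1 : W = ⊥ := Submodule.finrank_eq_zero.1 (Nat.le_zero.1 hW)
    rw [h1] at hv
    exact (Submodule.mem_bot ℚ).1 hv
  | succ k ih =>
    intro W hW
    by_cases hex : ∃ v ∈ W, v ≠ 0
    · obtain ⟨v, hv, hv0⟩ := hex
      obtain ⟨i, hi⟩ : ∃ i, v i ≠ 0 := by
        by_contra hcon
        push Not at hcon
        exact hv0 (funext hcon)
      have h1 : Module.finrank ℚ (Kr W {i}) < Module.finrank ℚ (Kr W (∅ : Set (Fin d))) :=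
        Kr_lt (Set.empty_subset _) hv (by simp) (Set.mem_singleton i) hi
      have h2 : Module.finrank ℚ (Kr W (∅ : Set (Fin d))) ≤ Module.finrank ℚ W :=
        Submodule.finrank_mono (Kr_le W _)
      obtain ⟨J, hJ, hJ2⟩ := ih (Kr W {i}) (by omega)
      refine ⟨insert i J, (Finset.card_insert_le i J).trans (by omega), fun w hw hw0 => ?_⟩
      refine hJ2 w ⟨hw, fun j hj => ?_⟩ fun j hj => hw0 j (Finset.mem_insert_of_mem hj)
      rw [Set.mem_singleton_iff.1 hj]
      exact hw0 i (Finset.mem_insert_self i J)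
    · push Not at hex
      exact ⟨∅, by simp, fun v hv _ => hex v hv⟩

/-- integer version -/
theorem tube_coords_int {W : Submodule ℚ (Fin d → ℚ)} {J : Finset (Fin d)}
    (hJ : ∀ v ∈ W, (∀ j ∈ J, v j = 0) → v = 0) {a b : Vec d} (ha : qv a ∈ W) (hb : qv b ∈ W)
    (h : ∀ j ∈ J, a j = b j) : a = b := by
  have h1 : qv (a - b) = 0 := by
    refine hJ _ ?_ fun j hj => ?_
    · rw [tube_qv_sub]; exact W.sub_mem ha hb
    · simp [qv, h j hj]
  funext j
  have h2 := congrFun h1 j
  simp only [qv, Pi.sub_apply, Pi.zero_apply, Int.cast_eq_zero] at h2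
  omega

/-! ### the numerical inequality -/

theorem tube_num (k Γ : ℕ) : (2 * (tN k Γ * Γ) + 1) ^ k < 2 ^ tN k Γ := by
  have hx : k + 1 ≤ 2 ^ (k + 1) := Nat.lt_two_pow_self.le
  have hy : Γ + 1 ≤ 2 ^ (Γ + 1) := Nat.lt_two_pow_self.le
  have h1 : 2 * (tN k Γ * Γ) + 1 ≤ 2 ^ (3 + 2 * (k + 1) + 2 * (Γ + 1)) := by
    have h2 : 2 * (tN k Γ * Γ) + 1 ≤ 8 * ((k + 1) ^ 2 * (Γ + 1) ^ 2) := by
      rw [tN]
      nlinarith [Nat.zero_le ((k + 1) ^ 2 * Γ), Nat.one_le_pow 2 (k + 1) (Nat.succ_pos k),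
        Nat.mul_le_mul (Nat.one_le_pow 2 (k + 1) (Nat.succ_pos k)) (Nat.zero_le Γ)]
    have h3 : (k + 1) ^ 2 * (Γ + 1) ^ 2 ≤ (2 ^ (k + 1)) ^ 2 * (2 ^ (Γ + 1)) ^ 2 :=
      Nat.mul_le_mul (Nat.pow_le_pow_left hx 2) (Nat.pow_le_pow_left hy 2)
    calc 2 * (tN k Γ * Γ) + 1 ≤ 8 * ((k + 1) ^ 2 * (Γ + 1) ^ 2) := h2
      _ ≤ 8 * ((2 ^ (k + 1)) ^ 2 * (2 ^ (Γ + 1)) ^ 2) := Nat.mul_le_mul_left 8 h3
      _ = 2 ^ (3 + 2 * (k + 1) + 2 * (Γ + 1)) := by
        rw [pow_add 2 (3 + 2 * (k + 1)), pow_add 2 3, pow_mul' 2 2 (k + 1), pow_mul' 2 2 (Γ + 1)]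
        ring
  calc (2 * (tN k Γ * Γ) + 1) ^ k ≤ (2 ^ (3 + 2 * (k + 1) + 2 * (Γ + 1))) ^ k :=
        Nat.pow_le_pow_left h1 k
    _ = 2 ^ ((3 + 2 * (k + 1) + 2 * (Γ + 1)) * k) := by rw [← pow_mul]
    _ < 2 ^ tN k Γ := by
      apply Nat.pow_lt_pow_right (by norm_num)
      rw [tN]
      nlinarith [Nat.zero_le (k * Γ), Nat.zero_le (k ^ 2 * Γ), Nat.zero_le (k ^ 2), Nat.zero_le k,
        Nat.zero_le Γ]

/-! ### few different generators -/

/-- `S` supports a representation of `v` -/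
def TubeRep (G : Set (Vec d)) (v : Vec d) (S : Finset (Vec d)) : Prop :=
  (∀ g ∈ S, g ∈ G) ∧ ∃ c : Vec d → ℕ, ∑ g ∈ S, c g • g = v

theorem tubeRep_list {G : Set (Vec d)} (L : List (Vec d)) (hL : ∀ g ∈ L, g ∈ G) :
    ∃ S, TubeRep G L.sum S := by
  classical
  refine ⟨L.toFinset, fun g hg => hL g (List.mem_toFinset.1 hg), fun g => L.count g, ?_⟩
  exact (Finset.sum_list_count L).symm

theorem tube_support {G : Set (Vec d)} {Γ k : ℕ} (hG : ∀ g ∈ G, ∀ j, |g j| ≤ (Γ : ℤ))
    {W : Submodule ℚ (Fin d → ℚ)} (hGW : ∀ g ∈ G, qv g ∈ W) (hk : Module.finrank ℚ W ≤ k)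
    {v : Vec d} (hv : ∃ S, TubeRep G v S) :
    ∃ S, TubeRep G v S ∧ S.card ≤ tN k Γ := by
  classical
  obtain ⟨J, hJk, hJ⟩ := tube_coords k W hk
  have hex : ∃ n, ∃ S, TubeRep G v S ∧ S.card = n := by
    obtain ⟨S, hS⟩ := hv
    exact ⟨S.card, S, hS, rfl⟩
  obtain ⟨S, hS, hSn⟩ := Nat.find_spec hex
  refine ⟨S, hS, ?_⟩
  by_contra hcon
  push Not at hcon
  obtain ⟨T₀, hT₀, hT₀c⟩ := Finset.exists_subset_card_eq hcon.le
  set t := tN k Γ with ht
  obtain ⟨hSG, c, hc⟩ := hS
  -- two subsets with the same sum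
  have hpig : ∃ A ∈ T₀.powerset, ∃ B ∈ T₀.powerset, A ≠ B ∧
      (fun j : J => (∑ g ∈ A, g) j.1) = (fun j : J => (∑ g ∈ B, g) j.1) := by
    refine Finset.exists_ne_map_eq_of_card_lt_of_maps_to
      (t := Fintype.piFinset fun _ : J => Finset.Icc (-((t * Γ : ℕ) : ℤ)) ((t * Γ : ℕ) : ℤ))
      ?_ ?_
    · rw [Fintype.card_piFinset, Finset.prod_const, Int.card_Icc, Finset.card_powerset, hT₀c,
        Finset.card_univ, Fintype.card_coe]
      have h1 : (((t * Γ : ℕ) : ℤ) + 1 - -((t * Γ : ℕ) : ℤ)).toNat = 2 * (t * Γ) + 1 := by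
        omega
      rw [h1]
      calc (2 * (t * Γ) + 1) ^ J.card ≤ (2 * (t * Γ) + 1) ^ k :=
            Nat.pow_le_pow_right (Nat.succ_pos _) hJk
        _ < 2 ^ t := tube_num k Γ
    · intro A hA
      have hA' : A ∈ T₀.powerset := hA
      rw [Finset.mem_powerset] at hA'
      refine Finset.mem_coe.2 (Fintype.mem_piFinset.2 fun j => ?_)
      rw [Finset.mem_Icc, ← abs_le]
      change |(∑ g ∈ A, g) j.1| ≤ _
      rw [Finset.sum_apply]
      calc |∑ g ∈ A, g j.1| ≤ ∑ g ∈ A, |g j.1| := Finset.abs_sum_le_sum_abs _ _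
        _ ≤ ∑ _g ∈ A, (Γ : ℤ) :=
          Finset.sum_le_sum fun g hg => hG g (hSG g (hT₀ (hA' hg))) j.1
        _ = (A.card : ℤ) * Γ := by rw [Finset.sum_const, nsmul_eq_mul]
        _ ≤ ((t * Γ : ℕ) : ℤ) := by
          have h2 : A.card ≤ t := hT₀c ▸ Finset.card_le_card hA'
          push_cast
          exact mul_le_mul_of_nonneg_right (by exact_mod_cast h2) (by positivity)
  obtain ⟨A, hA, B, hB, hAB, hsum⟩ := hpig
  rw [Finset.mem_powerset] at hA hB
  have hGA : ∀ g ∈ A, qv g ∈ W := fun g hg => hGW g (hSG g (hT₀ (hA hg)))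
  have hGB : ∀ g ∈ B, qv g ∈ W := fun g hg => hGW g (hSG g (hT₀ (hB hg)))
  have hsumAB : ∑ g ∈ A, g = ∑ g ∈ B, g :=
    tube_coords_int hJ (tube_qv_sum A hGA) (tube_qv_sum B hGB)
      fun j hj => congrFun hsum ⟨j, hj⟩
  -- disjoint parts
  have key : ∀ A B : Finset (Vec d), A ⊆ S → B ⊆ S → ∑ g ∈ A, g = ∑ g ∈ B, g →
      (A \ B).Nonempty → False := by
    intro A B hA hB hs hne
    have hs' : ∑ g ∈ A \ B, g = ∑ g ∈ B \ A, g := by
      have e1 := Finset.sum_sdiff (f := fun g : Vec d => g) (Finset.inter_subset_left : A ∩ B ⊆ A)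
      have e2 := Finset.sum_sdiff (f := fun g : Vec d => g) (Finset.inter_subset_right : A ∩ B ⊆ B)
      have e3 : A \ (A ∩ B) = A \ B := Finset.sdiff_inter_self_left A B
      have e4 : B \ (A ∩ B) = B \ A := by rw [Finset.inter_comm]; exact Finset.sdiff_inter_self_left B A
      rw [e3] at e1
      rw [e4] at e2
      have e5 : (∑ g ∈ A \ B, g) + ∑ g ∈ A ∩ B, g = (∑ g ∈ B \ A, g) + ∑ g ∈ A ∩ B, g := by
        rw [e1, e2, hs]
      exact add_right_cancel e5
    obtain ⟨g₀, hg₀, hmin⟩ := Finset.exists_min_image (A \ B) c hne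
    set τ := c g₀ with hτ
    set c' : Vec d → ℕ := fun g => if g ∈ A \ B then c g - τ else if g ∈ B \ A then c g + τ else c g
      with hc'
    have hg₀S : g₀ ∈ S := hA (Finset.mem_sdiff.1 hg₀).1
    have hpt : ∀ g ∈ S, c' g • g + (if g ∈ A \ B then τ • g else 0) =
        c g • g + (if g ∈ B \ A then τ • g else 0) := by
      intro g _
      by_cases h1 : g ∈ A \ B
      · have h2 : g ∉ B \ A := by
          rw [Finset.mem_sdiff] at h1 ⊢
          tauto
        simp only [hc', if_pos h1, if_neg h2, add_zero]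
        rw [← add_smul, Nat.sub_add_cancel (hmin g h1)]
      · by_cases h2 : g ∈ B \ A
        · simp only [hc', if_neg h1, if_pos h2, add_zero, add_smul]
        · simp only [hc', if_neg h1, if_neg h2, add_zero]
    have htot := Finset.sum_congr rfl hpt
    rw [Finset.sum_add_distrib, Finset.sum_add_distrib, ← Finset.sum_filter, ← Finset.sum_filter,
      hc] at htot
    have hf1 : S.filter (fun g => g ∈ A \ B) = A \ B := by
      ext g
      rw [Finset.mem_filter]
      exact ⟨fun h => h.2, fun h => ⟨hA (Finset.mem_sdiff.1 h).1, h⟩⟩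
    have hf2 : S.filter (fun g => g ∈ B \ A) = B \ A := by
      ext g
      rw [Finset.mem_filter]
      exact ⟨fun h => h.2, fun h => ⟨hB (Finset.mem_sdiff.1 h).1, h⟩⟩
    rw [hf1, hf2, ← Finset.smul_sum, ← Finset.smul_sum, hs'] at htot
    have hv' : ∑ g ∈ S, c' g • g = v := add_right_cancel htot
    have hz : c' g₀ = 0 := by
      simp only [hc', if_pos hg₀, hτ, Nat.sub_self]
    have hv'' : ∑ g ∈ S.erase g₀, c' g • g = v := by
      rw [← hv', ← Finset.add_sum_erase S _ hg₀S, hz, zero_smul, zero_add]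
    have hlt : (S.erase g₀).card < Nat.find hex := by
      rw [← hSn]
      exact Finset.card_erase_lt_of_mem hg₀S
    exact Nat.find_min hex hlt ⟨S.erase g₀, ⟨fun g hg => hSG g (Finset.mem_of_mem_erase hg), c', hv''⟩,
      rfl⟩
  rcases (A \ B).eq_empty_or_nonempty with h1 | h1
  · rcases (B \ A).eq_empty_or_nonempty with h2 | h2
    · exact hAB (Finset.Subset.antisymm (Finset.sdiff_eq_empty_iff_subset.1 h1)
        (Finset.sdiff_eq_empty_iff_subset.1 h2))
    · exact key B A (hB.trans hT₀) (hA.trans hT₀) hsumAB.symm h2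
  · exact key A B (hA.trans hT₀) (hB.trans hT₀) hsumAB h1

/-! ### the Bresenham order -/

/-- the prefix sums are near the segment -/
def TubeGood (S : Finset (Vec d)) (m : Vec d → ℕ) (K : ℕ) (x : Vec d) : Prop :=
  ∃ (s : ℕ) (a : Vec d → ℕ), s ≤ K ∧
    (∀ g ∈ S, |((a g * K : ℕ) : ℤ) - ((s * m g : ℕ) : ℤ)| ≤ K) ∧ x = ∑ g ∈ S, a g • g

theorem tube_bres (S : Finset (Vec d)) (m : Vec d → ℕ) (K : ℕ) (hK : 0 < K)
    (hm : ∀ g ∈ S, m g ≤ K) : ∀ s, s ≤ K → ∃ L : List (Vec d), (∀ g ∈ L, g ∈ S) ∧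
      L.sum = ∑ g ∈ S, (s * m g / K) • g ∧ ∀ P R, L = P ++ R → TubeGood S m K P.sum := by
  classical
  have hfl : ∀ s g, s ≤ K → g ∈ S → ∀ e : ℕ, e ≤ 1 →
      |((((s * m g / K) + e) * K : ℕ) : ℤ) - ((s * m g : ℕ) : ℤ)| ≤ K := by
    intro s g _ _ e he
    have h1 := Nat.div_add_mod (s * m g) K
    have h2 := Nat.mod_lt (s * m g) hK
    set q := s * m g / K
    set r := s * m g % K
    rw [abs_le]
    have h3 : (((q + e) * K : ℕ) : ℤ) = (q : ℤ) * K + e * K := by push_cast; ring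
    have h4 : ((s * m g : ℕ) : ℤ) = (K : ℤ) * q + r := by exact_mod_cast h1.symm
    have h5 : (e : ℤ) * K ≤ K := by
      have : (e : ℤ) ≤ 1 := by exact_mod_cast he
      nlinarith [(by exact_mod_cast hK : (0 : ℤ) < K)]
    have h6 : (0 : ℤ) ≤ (e : ℤ) * K := by positivity
    have h7 : (r : ℤ) < K := by exact_mod_cast h2
    have h8 : (0 : ℤ) ≤ r := by positivity
    rw [h3, h4]
    constructor <;> nlinarith
  intro s
  induction s with
  | zero =>
    intro _
    refine ⟨[], by simp, by simp, fun P R h => ?_⟩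
    have hP : P = [] := (List.append_eq_nil_iff.1 h.symm).1
    subst hP
    refine ⟨0, fun _ => 0, Nat.zero_le _, fun g _ => by simp, by simp⟩
  | succ s ih =>
    intro hs
    obtain ⟨L, hL, hsum, hgood⟩ := ih (by omega)
    set I := S.filter (fun g => s * m g / K < (s + 1) * m g / K) with hI
    have hstep : ∀ g ∈ S, (s + 1) * m g / K ≤ s * m g / K + 1 := by
      intro g hg
      rw [← Nat.lt_succ_iff, Nat.div_lt_iff_lt_mul hK]
      have h1 := Nat.div_add_mod (s * m g) K
      have h2 := Nat.mod_lt (s * m g) hK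
      have h3 := hm g hg
      set q := s * m g / K
      have h4 : (q + 1).succ * K = K * q + 2 * K := by rw [Nat.succ_eq_add_one]; ring
      have h5 : (s + 1) * m g = s * m g + m g := by ring
      rw [h4, h5]
      omega
    have hmono : ∀ g, s * m g / K ≤ (s + 1) * m g / K := fun g =>
      Nat.div_le_div_right (Nat.mul_le_mul_right _ (by omega))
    have hval : ∀ g ∈ S, (s + 1) * m g / K = s * m g / K + (if g ∈ I then 1 else 0) := by
      intro g hg
      have h1 := hstep g hg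
      have h2 := hmono g
      by_cases h3 : g ∈ I
      · rw [if_pos h3]
        have h4 := (Finset.mem_filter.1 h3).2
        omega
      · rw [if_neg h3]
        have h4 : ¬ s * m g / K < (s + 1) * m g / K := fun h => h3 (Finset.mem_filter.2 ⟨hg, h⟩)
        omega
    have hIS : ∀ g ∈ I, g ∈ S := fun g hg => (Finset.mem_filter.1 hg).1
    -- sums over subsets
    have hsub : ∀ U : Finset (Vec d), U ⊆ S →
        (∑ g ∈ S, (s * m g / K) • g) + ∑ g ∈ U, g =
          ∑ g ∈ S, (s * m g / K + (if g ∈ U then 1 else 0)) • g := by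
      intro U hU
      have h1 : ∑ g ∈ U, g = ∑ g ∈ S, (if g ∈ U then 1 else 0) • g := by
        have h2 : ∀ g ∈ S, (if g ∈ U then 1 else 0) • g = if g ∈ U then g else 0 := by
          intro g _
          split_ifs <;> simp
        rw [Finset.sum_congr rfl h2, ← Finset.sum_filter]
        congr 1
        ext g
        rw [Finset.mem_filter]
        exact ⟨fun h => ⟨hU h, h⟩, fun h => h.2⟩
      rw [h1, ← Finset.sum_add_distrib]
      exact Finset.sum_congr rfl fun g _ => (add_smul _ _ _).symm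
    refine ⟨L ++ I.toList, ?_, ?_, ?_⟩
    · intro g hg
      rcases List.mem_append.1 hg with h | h
      · exact hL g h
      · exact hIS g (Finset.mem_toList.1 h)
    · rw [List.sum_append, hsum, Finset.sum_toList, hsub I hIS]
      exact Finset.sum_congr rfl fun g hg => by rw [hval g hg]
    · intro P R hPR
      rcases List.append_eq_append_iff.1 hPR with ⟨P', h1, h2⟩ | ⟨P', h1, h2⟩
      · -- P = L ++ P', I.toList = P' ++ R
        have hnd : P'.Nodup := (List.nodup_append.1 (h2 ▸ I.nodup_toList)).1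
        have hsubI : ∀ g ∈ P', g ∈ I := fun g hg =>
          Finset.mem_toList.1 (h2 ▸ List.mem_append_left R hg)
        refine ⟨s, fun g => s * m g / K + (if g ∈ P'.toFinset then 1 else 0), by omega,
          fun g hg => hfl s g (by omega) hg _ (by split_ifs <;> omega), ?_⟩
        rw [h1, List.sum_append, hsum, ← hsub P'.toFinset
          (fun g hg => hIS g (hsubI g (List.mem_toFinset.1 hg)))]
        congr 1
        have h3 := List.sum_toFinset (fun g : Vec d => g) hnd
        rw [h3, List.map_id']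
      · exact hgood P P' h1

/-- the box -/
theorem tubeGood_box {S : Finset (Vec d)} {m : Vec d → ℕ} {K t Γ : ℕ} (hK : 0 < K)
    (hS : S.card ≤ t) (hΓ : ∀ g ∈ S, ∀ j, |g j| ≤ (Γ : ℤ)) {v x : Vec d}
    (hv : ∑ g ∈ S, m g • g = v) (hx : TubeGood S m K x) (j : Fin d) :
    min 0 (v j) - (t * Γ : ℕ) ≤ x j ∧ x j ≤ max 0 (v j) + (t * Γ : ℕ) := by
  obtain ⟨s, a, hs, ha, rfl⟩ := hx
  have hK' : (0 : ℤ) < K := by exact_mod_cast hK
  have h1 : |((∑ g ∈ S, a g • g) j) * K - s * v j| ≤ K * ((t * Γ : ℕ) : ℤ) := by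
    rw [← hv, Finset.sum_apply, Finset.sum_apply, Finset.sum_mul, Finset.mul_sum,
      ← Finset.sum_sub_distrib]
    calc |∑ g ∈ S, ((a g • g) j * (K : ℤ) - s * (m g • g) j)|
        ≤ ∑ g ∈ S, |(a g • g) j * (K : ℤ) - s * (m g • g) j| := Finset.abs_sum_le_sum_abs _ _
      _ ≤ ∑ _g ∈ S, (K : ℤ) * Γ := by
        refine Finset.sum_le_sum fun g hg => ?_
        have h2 : (a g • g) j * (K : ℤ) - s * (m g • g) j =
            (((a g * K : ℕ) : ℤ) - ((s * m g : ℕ) : ℤ)) * g j := by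
          simp only [Pi.smul_apply, nsmul_eq_mul]
          push_cast
          ring
        rw [h2, abs_mul]
        exact mul_le_mul (ha g hg) (hΓ g hg j) (abs_nonneg _) hK'.le
      _ = (S.card : ℤ) * ((K : ℤ) * Γ) := by rw [Finset.sum_const, nsmul_eq_mul]
      _ ≤ (t : ℤ) * ((K : ℤ) * Γ) :=
        mul_le_mul_of_nonneg_right (by exact_mod_cast hS) (by positivity)
      _ = K * ((t * Γ : ℕ) : ℤ) := by push_cast; ring
  rw [abs_le] at h1
  have hs0 : (0 : ℤ) ≤ s := by positivity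
  have hsK : (s : ℤ) ≤ K := by exact_mod_cast hs
  set y := (∑ g ∈ S, a g • g) j
  set B : ℤ := ((t * Γ : ℕ) : ℤ)
  constructor
  · have h2 : (K : ℤ) * min 0 (v j) ≤ s * v j := by
      rcases le_total 0 (v j) with h | h
      · rw [min_eq_left h, mul_zero]; positivity
      · rw [min_eq_right h]; nlinarith
    have h3 : (K : ℤ) * (min 0 (v j) - B) ≤ K * y := by nlinarith [h1.1]
    exact le_of_mul_le_mul_left h3 hK'
  · have h2 : (s : ℤ) * v j ≤ K * max 0 (v j) := by
      rcases le_total 0 (v j) with h | h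
      · rw [max_eq_right h]; nlinarith
      · rw [max_eq_left h, mul_zero]; nlinarith
    have h3 : (K : ℤ) * y ≤ K * (max 0 (v j) + B) := by nlinarith [h1.2]
    exact le_of_mul_le_mul_left h3 hK'

/-- MODULE TUBE -/
theorem tube {G : Set (Vec d)} {Γ k : ℕ} (hG : ∀ g ∈ G, ∀ j, |g j| ≤ Γ)
    {W : Submodule ℚ (Fin d → ℚ)} (hGW : ∀ g ∈ G, qv g ∈ W) (hk : Module.finrank ℚ W ≤ k)
    {L₀ : List (Vec d)} (hL : ∀ g ∈ L₀, g ∈ G) {N : ℕ} (hN : ∀ j, |L₀.sum j| ≤ N) :
    ∃ L : List (Vec d), (∀ g ∈ L, g ∈ G) ∧ L.sum = L₀.sum ∧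
      (∀ P R, L = P ++ R → ∀ j, min 0 (L₀.sum j) - (tN k Γ * Γ : ℕ) ≤ P.sum j) ∧
      L.length ≤ (2 * (N + tN k Γ * Γ) + 1) ^ k := by
  classical
  set t := tN k Γ with ht
  set v := L₀.sum with hv
  obtain ⟨J, hJk, hJ⟩ := tube_coords k W hk
  -- a list in the box
  have hbox : ∃ n, ∃ L : List (Vec d), L.length = n ∧ (∀ g ∈ L, g ∈ G) ∧ L.sum = v ∧
      ∀ P R, L = P ++ R → ∀ j, min 0 (v j) - (t * Γ : ℕ) ≤ P.sum j ∧
        P.sum j ≤ max 0 (v j) + (t * Γ : ℕ) := by
    obtain ⟨S, ⟨hSG, m, hm⟩, hSc⟩ := tube_support hG hGW hk (tubeRep_list L₀ hL)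
    set K := ∑ g ∈ S, m g + 1 with hKdef
    have hK : 0 < K := Nat.succ_pos _
    have hmK : ∀ g ∈ S, m g ≤ K := fun g hg =>
      (Finset.single_le_sum (fun _ _ => Nat.zero_le _) hg).trans (Nat.le_succ _)
    obtain ⟨L, hLS, hLsum, hgood⟩ := tube_bres S m K hK hmK K le_rfl
    have hLv : L.sum = v := by
      rw [hLsum]
      refine Eq.trans ?_ hm
      exact Finset.sum_congr rfl fun g _ => by rw [Nat.mul_div_cancel_left _ hK]
    exact ⟨L.length, L, rfl, fun g hg => hSG g (hLS g hg), hLv, fun P R h j =>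
      tubeGood_box hK hSc (fun g hg => hG g (hSG g hg)) hm (hgood P R h) j⟩
  obtain ⟨L, hLn, hLG, hLv, hLb⟩ := Nat.find_spec hbox
  refine ⟨L, hLG, hLv, fun P R h j => (hLb P R h j).1, ?_⟩
  -- the prefix sums are pairwise different
  have hinj : ∀ i i', i < i' → i' ≤ L.length → (L.take i).sum ≠ (L.take i').sum := by
    intro i i' hii hi' heq
    have h1 : L = L.take i ++ L.drop i := (List.take_append_drop i L).symm
    have hlen : (L.take i ++ L.drop i').length < Nat.find hbox := by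
      rw [← hLn, List.length_append, List.length_take, List.length_drop]
      omega
    have hsum1 : (L.take i').sum + (L.drop i').sum = L.sum := by
      rw [← List.sum_append, List.take_append_drop]
    refine Nat.find_min hbox hlen ⟨_, rfl, ?_, ?_, ?_⟩
    · intro g hg
      rcases List.mem_append.1 hg with h | h
      · exact hLG g (List.mem_of_mem_take h)
      · exact hLG g (List.mem_of_mem_drop h)
    · rw [List.sum_append, heq, hsum1, hLv]
    · intro P R hPR
      rcases List.append_eq_append_iff.1 hPR with ⟨P', h2, h3⟩ | ⟨P', h2, h3⟩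
      · -- P = take i ++ P', drop i' = P' ++ R
        have h4 : L = (L.take i' ++ P') ++ R := by
          rw [List.append_assoc, ← h3, List.take_append_drop]
        have h5 := hLb _ _ h4
        have h6 : (L.take i' ++ P').sum = P.sum := by
          rw [h2, List.sum_append, List.sum_append, heq]
        rwa [h6] at h5
      · -- take i = P ++ P'
        have h4 : L = P ++ (P' ++ L.drop i) := by
          rw [← List.append_assoc, ← h2, List.take_append_drop]
        exact hLb _ _ h4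
  have hmemW : ∀ i, qv (L.take i).sum ∈ W := fun i =>
    tube_qv_listSum _ fun g hg => hGW g (hLG g (List.mem_of_mem_take hg))
  have hcard : (Finset.range (L.length + 1)).card ≤
      (Fintype.piFinset fun _ : J => Finset.Icc (-((N + t * Γ : ℕ) : ℤ)) ((N + t * Γ : ℕ) : ℤ)).card := by
    refine Finset.card_le_card_of_injOn (fun i => fun j : J => (L.take i).sum j.1) ?_ ?_
    · intro i _
      refine Finset.mem_coe.2 (Fintype.mem_piFinset.2 fun j => ?_)
      rw [Finset.mem_Icc]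
      have h1 := hLb (L.take i) (L.drop i) (List.take_append_drop i L).symm j.1
      have h2 := abs_le.1 (hN j.1)
      have h3 : -(N : ℤ) ≤ min 0 (v j.1) := le_min (by omega) h2.1
      have h4 : max 0 (v j.1) ≤ (N : ℤ) := max_le (by positivity) h2.2
      push_cast at h1 ⊢
      constructor <;> linarith [h1.1, h1.2]
    · intro i hi i' hi' heq
      have hi1 : i ≤ L.length := Nat.lt_succ_iff.1 (Finset.mem_range.1 (Finset.mem_coe.1 hi))
      have hi2 : i' ≤ L.length := Nat.lt_succ_iff.1 (Finset.mem_range.1 (Finset.mem_coe.1 hi'))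
      have hsum : (L.take i).sum = (L.take i').sum :=
        tube_coords_int hJ (hmemW i) (hmemW i') fun j hj => congrFun heq ⟨j, hj⟩
      rcases lt_trichotomy i i' with h | h | h
      · exact absurd hsum (hinj i i' h hi2)
      · exact h
      · exact absurd hsum.symm (hinj i' i h hi1)
  rw [Finset.card_range, Fintype.card_piFinset, Finset.prod_const, Int.card_Icc,
    Finset.card_univ, Fintype.card_coe] at hcard
  have h1 : (((N + t * Γ : ℕ) : ℤ) + 1 - -((N + t * Γ : ℕ) : ℤ)).toNat = 2 * (N + t * Γ) + 1 := by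
    omega
  rw [h1] at hcard
  calc L.length ≤ L.length + 1 := Nat.le_succ _
    _ ≤ (2 * (N + t * Γ) + 1) ^ J.card := hcard
    _ ≤ (2 * (N + t * Γ) + 1) ^ k := Nat.pow_le_pow_right (Nat.succ_pos _) hJk

end Pool.Agent.REV
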