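import Pool.Agent.REV.Defs2
import Pool.Agent.REV.ClDef
import Pool.Agent.REV.Tube

/-!
# REV / Neg: the negative of the effect of a short closed walk of a periodic run
-/

set_option autoImplicit false

namespace Pool.Agent.REV

open Pool.Agent.EEF

variable {Q : Type} {d : ℕ} {T : VASS Q d} {W : Submodule ℚ (Fin d → ℚ)} {f : ℕ → Q}
  {Z : ℕ → Vec d} {m : ℕ} {F : Set (Fin d)}

/-- a walk with consistent intermediate states -/
theorem neg_path {R : Q → Vec d → Vec d → Q → Prop} {P : Q → Vec d → Prop} {p q : Q}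
    {x : Vec d} {w : List (Vec d)} (h : SW R P p x w q) : ∃ st : ℕ → Q, st 0 = p ∧
      st w.length = q ∧ ∀ i j, i ≤ j → j ≤ w.length →
        SW R P (st i) (x + (w.take i).sum) ((w.take j).drop i) (st j) := by
  induction h with
  | @nil p x h0 =>
    refine ⟨fun _ => p, rfl, rfl, fun i j hij hj => ?_⟩
    have hj0 : j = 0 := by simpa using hj
    subst hj0
    have hi0 : i = 0 := by omega
    subst hi0
    simpa using SW.nil (R := R) h0
  | @cons p p' q v x w h0 h1 h2 ih =>
    obtain ⟨st, hs0, hsl, hst⟩ := ih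
    refine ⟨fun n => Nat.casesOn n p st, rfl, hsl, fun i j hij hj => ?_⟩
    rw [List.length_cons] at hj
    cases j with
    | zero =>
      have hi0 : i = 0 := by omega
      subst hi0
      simpa using SW.nil (R := R) h0
    | succ k =>
      cases i with
      | zero =>
        have h3 := hst 0 k (Nat.zero_le k) (by omega)
        rw [hs0, List.take_zero, List.sum_nil, add_zero, List.drop_zero] at h3
        rw [List.take_zero, List.sum_nil, add_zero, List.drop_zero, List.take_succ_cons]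
        exact .cons h0 h1 h3
      | succ i =>
        have h3 := hst i k (by omega) (by omega)
        rw [List.take_succ_cons, List.take_succ_cons, List.sum_cons, List.drop_succ_cons,
          ← add_assoc]
        exact h3

theorem neg_VE (f : ℕ → Q) (Z : ℕ → Vec d) (F : Set (Fin d)) (t : ℕ) : VE f Z F (f t) (Z t) :=
  ⟨t, rfl, fun _ _ => rfl⟩

/-- (a) walks can be undone -/
theorem neg_rev (hr : PR T W f Z m) {p q : Q} {x : Vec d} {w : List (Vec d)}
    (h : SW (RE f Z F) (VE f Z F) p x w q) :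
    ∃ w', SW (RE f Z F) (VE f Z F) q (x + w.sum) w' p ∧ w'.sum = -w.sum := by
  induction h with
  | @nil p x h0 => exact ⟨[], by simpa using SW.nil (R := RE f Z F) h0, by simp⟩
  | @cons p p' q v x w h0 h1 h2 ih =>
    obtain ⟨w₁, h3, h4⟩ := ih
    obtain ⟨t, rfl, h5, rfl, rfl⟩ := h1
    have hm := hr.pos
    have h6 := seg_walk f Z F (VE f Z F) (VE_inv f Z F) (t + 1) (m - 1)
      (fun t _ _ => neg_VE f Z F t) (x := x + (Z (t + 1) - Z t)) (fun j hj => by
        simp only [Pi.add_apply, Pi.sub_apply]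
        have := h5 j hj
        linarith)
    have e1 : t + 1 + (m - 1) = t + m := by omega
    rw [e1, hr.perf] at h6
    have h7 := seg_sum Z (t + 1) (m - 1)
    rw [e1, hr.perZ] at h7
    refine ⟨w₁ ++ seg Z (t + 1) (m - 1), ?_, ?_⟩
    · have e2 : x + ((Z (t + 1) - Z t) :: w).sum = x + (Z (t + 1) - Z t) + w.sum := by
        rw [List.sum_cons, add_assoc]
      rw [e2]
      refine h3.append ?_
      have e3 : x + (Z (t + 1) - Z t) + w.sum + w₁.sum = x + (Z (t + 1) - Z t) := by
        rw [h4]; abel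
      rw [e3]
      exact h6
    · rw [List.sum_append, h4, h7, List.sum_cons]
      abel

/-- closed walks at time `t` -/
def NC (f : ℕ → Q) (Z : ℕ → Vec d) (F : Set (Fin d)) (t : ℕ) (c : List (Vec d)) : Prop :=
  SW (RE f Z F) (VE f Z F) (f t) (Z t) c (f t) ∧ ∀ j ∈ F, c.sum j = 0

theorem NC.nil (t : ℕ) : NC f Z F t [] := ⟨.nil (neg_VE f Z F t), fun _ _ => rfl⟩

/-- a closed walk may be prefixed -/
theorem NC.pre {t : ℕ} {c u : List (Vec d)} {q : Q} (hc : NC f Z F t c)
    (hu : SW (RE f Z F) (VE f Z F) (f t) (Z t) u q) :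
    SW (RE f Z F) (VE f Z F) (f t) (Z t) (c ++ u) q := by
  refine hc.1.append (hu.congr (RE_inv f Z F) (VE_inv f Z F) fun j hj => ?_)
  rw [Pi.add_apply, hc.2 j hj, add_zero]

theorem NC.append {t : ℕ} {c u : List (Vec d)} (hc : NC f Z F t c) (hu : NC f Z F t u) :
    NC f Z F t (c ++ u) := by
  refine ⟨hc.pre hu.1, fun j hj => ?_⟩
  rw [List.sum_append, Pi.add_apply, hc.2 j hj, hu.2 j hj, add_zero]

/-- effects of short closed walks at time `t` -/
def NG (f : ℕ → Q) (Z : ℕ → Vec d) (F : Set (Fin d)) (s t : ℕ) : Set (Vec d) :=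
  {g | ∃ c, NC f Z F t c ∧ c.length ≤ s ∧ c.sum = g}

theorem neg_join {s t : ℕ} (L : List (Vec d)) (hL : ∀ g ∈ L, g ∈ NG f Z F s t) :
    ∃ c, NC f Z F t c ∧ c.sum = L.sum ∧ c.length ≤ s * L.length := by
  induction L with
  | nil => exact ⟨[], NC.nil t, rfl, by simp⟩
  | cons g L ih =>
    obtain ⟨c, h1, h2, h3⟩ := ih fun g hg => hL g (List.mem_cons_of_mem _ hg)
    obtain ⟨c', h4, h5, h6⟩ := hL g List.mem_cons_self
    refine ⟨c' ++ c, h4.append h1, ?_, ?_⟩
    · rw [List.sum_append, List.sum_cons, h2, h6]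
    · rw [List.length_append, List.length_cons, Nat.mul_succ]
      omega

/-- (b), (c) a closed walk through the times in `I` with closed walks attached -/
theorem neg_build {s : ℕ} (hr : PR T W f Z m)
    (hsh : ∀ p x u q, SW (RE f Z F) (VE f Z F) p x u q → ∃ u', SW (RE f Z F) (VE f Z F) p x u' q ∧
      (∀ j ∈ F, u'.sum j = u.sum j) ∧ u'.length < s) (I : Finset ℕ) :
    ∃ σ : Vec d, ∀ L : ℕ → List (Vec d), (∀ t ∈ I, ∀ g ∈ L t, g ∈ NG f Z F s t) →
      ∃ w, NC f Z F 0 w ∧ w.sum = σ + ∑ t ∈ I, (L t).sum ∧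
        w.length ≤ 2 * s * I.card + s * ∑ t ∈ I, (L t).length := by
  classical
  induction I using Finset.induction_on with
  | empty => exact ⟨0, fun L _ => ⟨[], NC.nil 0, by simp, by simp⟩⟩
  | insert t I ht ih =>
    obtain ⟨σ, hσ⟩ := ih
    -- short walk to time t
    have h1 := seg_walk f Z F (VE f Z F) (VE_inv f Z F) 0 t
      (fun t _ _ => neg_VE f Z F t) (x := Z 0) (fun j _ => rfl)
    have h1s := seg_sum Z 0 t
    rw [Nat.zero_add] at h1 h1s
    obtain ⟨u₁, h2, h3, h4⟩ := hsh _ _ _ _ h1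
    -- short walk back
    have hm := hr.pos
    have h5 := seg_walk f Z F (VE f Z F) (VE_inv f Z F) t (m * t - t)
      (fun t _ _ => neg_VE f Z F t) (x := Z t) (fun j _ => rfl)
    have h5s := seg_sum Z t (m * t - t)
    have e1 : t + (m * t - t) = 0 + m * t := by
      have : t ≤ m * t := Nat.le_mul_of_pos_left t hm
      omega
    rw [e1, (hr.per_mul 0 t).1] at h5
    rw [e1, (hr.per_mul 0 t).2] at h5s
    obtain ⟨u₂, h6, h7, h8⟩ := hsh _ _ _ _ h5
    refine ⟨u₁.sum + u₂.sum + σ, fun L hL => ?_⟩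
    obtain ⟨w, hw1, hw2, hw3⟩ := hσ L fun t' ht' => hL t' (Finset.mem_insert_of_mem ht')
    obtain ⟨c, hc1, hc2, hc3⟩ := neg_join (L t) (hL t (Finset.mem_insert_self t I))
    have h9 : SW (RE f Z F) (VE f Z F) (f t) (Z t) (c ++ u₂) (f 0) := hc1.pre h6
    have h10 : SW (RE f Z F) (VE f Z F) (f 0) (Z 0) (u₁ ++ (c ++ u₂)) (f 0) := by
      refine h2.append (h9.congr (RE_inv f Z F) (VE_inv f Z F) fun j hj => ?_)
      rw [Pi.add_apply, h3 j hj, h1s, Pi.sub_apply]
      ring
    have h11 : NC f Z F 0 (u₁ ++ (c ++ u₂)) := by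
      refine ⟨h10, fun j hj => ?_⟩
      rw [List.sum_append, List.sum_append, Pi.add_apply, Pi.add_apply, h3 j hj, h1s, h7 j hj,
        h5s, hc1.2 j hj, Pi.sub_apply, Pi.sub_apply]
      ring
    refine ⟨(u₁ ++ (c ++ u₂)) ++ w, h11.append hw1, ?_, ?_⟩
    · rw [List.sum_append, List.sum_append, List.sum_append, hw2, hc2, Finset.sum_insert ht]
      abel
    · rw [List.length_append, List.length_append, List.length_append,
        Finset.card_insert_of_notMem ht, Finset.sum_insert ht, Nat.mul_add s]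
      have e2 : 2 * s * (I.card + 1) = 2 * s * I.card + 2 * s := by ring
      rw [e2]
      omega

/-- distribution of a list over the times in `I` -/
theorem neg_dist {s : ℕ} (I : Finset ℕ) (L : List (Vec d))
    (hL : ∀ g ∈ L, ∃ t ∈ I, g ∈ NG f Z F s t) :
    ∃ L' : ℕ → List (Vec d), (∀ t ∈ I, ∀ g ∈ L' t, g ∈ NG f Z F s t) ∧
      ∑ t ∈ I, (L' t).sum = L.sum ∧ ∑ t ∈ I, (L' t).length = L.length := by
  classical
  induction L with
  | nil => exact ⟨fun _ => [], by simp, by simp, by simp⟩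
  | cons g L ih =>
    obtain ⟨L', h1, h2, h3⟩ := ih fun g hg => hL g (List.mem_cons_of_mem _ hg)
    obtain ⟨t, ht, hg⟩ := hL g List.mem_cons_self
    refine ⟨Function.update L' t (g :: L' t), fun t' ht' g' hg' => ?_, ?_, ?_⟩
    · by_cases he : t' = t
      · subst he
        rw [Function.update_self, List.mem_cons] at hg'
        rcases hg' with rfl | hg'
        · exact hg
        · exact h1 _ ht' _ hg'
      · rw [Function.update_of_ne he] at hg'
        exact h1 _ ht' _ hg'
    · rw [← Finset.add_sum_erase I _ ht, Function.update_self, List.sum_cons, List.sum_cons,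
        ← h2, ← Finset.add_sum_erase I (fun t => (L' t).sum) ht, add_assoc]
      congr 2
      refine Finset.sum_congr rfl fun t' ht' => ?_
      rw [Function.update_of_ne (Finset.ne_of_mem_erase ht')]
    · rw [← Finset.add_sum_erase I _ ht, Function.update_self, List.length_cons,
        List.length_cons, ← h3, ← Finset.add_sum_erase I (fun t => (L' t).length) ht]
      have : ∑ t' ∈ I.erase t, (Function.update L' t (g :: L' t) t').length =
          ∑ t' ∈ I.erase t, (L' t').length :=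
        Finset.sum_congr rfl fun t' ht' => by
          rw [Function.update_of_ne (Finset.ne_of_mem_erase ht')]
      rw [this]
      ring

/-- (d) closed walks are sums of short closed walks -/
theorem neg_cut {s : ℕ} {I : Finset ℕ} (hI : I.card ≤ s)
    (hfin : ∀ t, ∃ t' ∈ I, f t' = f t ∧ ∀ j ∈ F, Z t' j = Z t j) :
    ∀ (n : ℕ) (R : List (Vec d)), R.length ≤ n → NC f Z F 0 R →
      ∃ L : List (Vec d), (∀ g ∈ L, ∃ t ∈ I, g ∈ NG f Z F s t) ∧ L.sum = R.sum := by
  classical
  intro n
  induction n with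
  | zero =>
    intro R hR _
    refine ⟨[], by simp, ?_⟩
    rw [List.length_eq_zero_iff.1 (Nat.le_zero.1 hR)]
  | succ n ih =>
    intro R hR hc
    by_cases hlt : R.length < s
    · obtain ⟨t', ht', h1, h2⟩ := hfin 0
      refine ⟨[R.sum], fun g hg => ?_, by simp⟩
      rw [List.mem_singleton] at hg
      subst hg
      refine ⟨t', ht', R, ⟨?_, hc.2⟩, hlt.le, rfl⟩
      rw [h1]
      exact hc.1.congr (RE_inv f Z F) (VE_inv f Z F) fun j hj => (h2 j hj).symm
    push Not at hlt
    obtain ⟨st, hs0, hsl, hst⟩ := neg_path hc.1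
    have hv : ∀ i, ∃ t' ∈ I, i ≤ R.length → f t' = st i ∧
        ∀ j ∈ F, Z t' j = (Z 0 + (R.take i).sum) j := by
      intro i
      by_cases hi : i ≤ R.length
      · obtain ⟨t, h1, h2⟩ := (hst i i le_rfl hi).start
        obtain ⟨t', ht', h3, h4⟩ := hfin t
        exact ⟨t', ht', fun _ => ⟨h3.trans h1, fun j hj => (h4 j hj).trans (h2 j hj)⟩⟩
      · obtain ⟨t', ht', _⟩ := hfin 0
        exact ⟨t', ht', fun h => absurd h hi⟩
    choose φ hφI hφ using hv
    obtain ⟨i, hi, j, hj, hne, he⟩ := Finset.exists_ne_map_eq_of_card_lt_of_maps_to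
      (s := Finset.range (s + 1)) (t := I) (by rw [Finset.card_range]; omega)
      (f := φ) (fun i _ => hφI i)
    rw [Finset.mem_range] at hi hj
    have key : ∀ i j, i < j → j ≤ s → φ i = φ j →
        ∃ L : List (Vec d), (∀ g ∈ L, ∃ t ∈ I, g ∈ NG f Z F s t) ∧ L.sum = R.sum := by
      intro i j hij hjs he
      obtain ⟨h1, h2⟩ := hφ i (by omega)
      obtain ⟨h3, h4⟩ := hφ j (by omega)
      have hst' : st i = st j := by rw [← h1, ← h3, he]
      have hF : ∀ k ∈ F, (R.take i).sum k = (R.take j).sum k := by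
        intro k hk
        have h5 := h2 k hk
        have h6 := h4 k hk
        rw [he] at h5
        rw [h5, Pi.add_apply, Pi.add_apply, add_right_inj] at h6
        exact h6
      have hcut : (R.take i) ++ ((R.take j).drop i) = R.take j := by
        have e : R.take i = (R.take j).take i := by rw [List.take_take, min_eq_left hij.le]
        rw [e, List.take_append_drop]
      have hmid := hst i j hij.le (by omega)
      have hmid0 : ∀ k ∈ F, ((R.take j).drop i).sum k = 0 := by
        intro k hk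
        have h5 : (R.take i).sum + ((R.take j).drop i).sum = (R.take j).sum := by
          rw [← List.sum_append, hcut]
        have h6 := congrFun h5 k
        rw [Pi.add_apply, hF k hk] at h6
        linarith
      -- the cut piece
      have hpiece : ((R.take j).drop i).sum ∈ NG f Z F s (φ i) := by
        refine ⟨(R.take j).drop i, ⟨?_, hmid0⟩, ?_, rfl⟩
        · rw [h1]
          nth_rewrite 2 [hst']
          exact hmid.congr (RE_inv f Z F) (VE_inv f Z F) fun k hk => (h2 k hk).symm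
        · rw [List.length_drop, List.length_take]
          omega
      -- the rest
      have hA := hst 0 i (Nat.zero_le i) (by omega)
      rw [hs0, List.take_zero, List.sum_nil, add_zero, List.drop_zero] at hA
      have hB := hst j R.length (by omega) le_rfl
      rw [hsl, List.take_length] at hB
      have hrest : NC f Z F 0 (R.take i ++ R.drop j) := by
        refine ⟨hA.append ?_, fun k hk => ?_⟩
        · rw [hst']
          refine hB.congr (RE_inv f Z F) (VE_inv f Z F) fun k hk => ?_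
          rw [Pi.add_apply, Pi.add_apply, hF k hk]
        · rw [List.sum_append, Pi.add_apply, hF k hk, ← Pi.add_apply, ← List.sum_append,
            List.take_append_drop]
          exact hc.2 k hk
      have hlen : (R.take i ++ R.drop j).length ≤ n := by
        rw [List.length_append, List.length_take, List.length_drop]
        omega
      obtain ⟨L, hL1, hL2⟩ := ih _ hlen hrest
      refine ⟨((R.take j).drop i).sum :: L, fun g hg => ?_, ?_⟩
      · rw [List.mem_cons] at hg
        rcases hg with rfl | hg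
        · exact ⟨φ i, hφI i, hpiece⟩
        · exact hL1 g hg
      · rw [List.sum_cons, hL2, List.sum_append]
        have h5 : (R.take j).sum + (R.drop j).sum = R.sum := by
          rw [← List.sum_append, List.take_append_drop]
        have h6 : (R.take i).sum + ((R.take j).drop i).sum = (R.take j).sum := by
          rw [← List.sum_append, hcut]
        rw [← h5, ← h6]
        abel
    rcases lt_or_gt_of_ne hne with h1 | h1
    · exact key i j h1 (by omega) he
    · exact key j i h1 (by omega) he.symm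

/-- the effect of a walk is bounded by its length -/
theorem neg_abs {M : ℕ} (hr : PR T W f Z m) (hM : ∀ p v q, (p, v, q) ∈ T → ∀ k, |v k| ≤ M)
    {p q : Q} {x : Vec d} {w : List (Vec d)} (h : SW (RE f Z F) (VE f Z F) p x w q) (k : Fin d) :
    |w.sum k| ≤ M * w.length := by
  induction h with
  | nil _ => simp
  | @cons p p' q v x w h0 h1 h2 ih =>
    have h3 := hM _ _ _ (hr.RT _ _ _ _ h1) k
    rw [List.sum_cons, Pi.add_apply, List.length_cons]
    refine (abs_add_le _ _).trans ?_
    push_cast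
    linarith

/-- MODULE NEG -/
theorem Cl_neg {M g s : ℕ} (hr : PR T W f Z m) (hM : ∀ p v q, (p, v, q) ∈ T → ∀ k, |v k| ≤ M)
    (hg : Module.finrank ℚ W ≤ g)
    (hsh : ∀ p x u q, SW (RE f Z F) (VE f Z F) p x u q → ∃ u', SW (RE f Z F) (VE f Z F) p x u' q ∧
      (∀ j ∈ F, u'.sum j = u.sum j) ∧ u'.length < s)
    (hfin : ∃ I : Finset ℕ, I.card ≤ s ∧ ∀ t, ∃ t' ∈ I, f t' = f t ∧ ∀ j ∈ F, Z t' j = Z t j)
    {v : Vec d} (hv : v ∈ Cl f Z F (2 * s)) : -v ∈ Cl f Z F (Lm g M s) := by
  classical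
  obtain ⟨I, hI, hIf⟩ := hfin
  obtain ⟨w, hw1, hw2, hw3, rfl⟩ := hv
  obtain ⟨σ, hσ⟩ := neg_build hr hsh I
  -- the basic closed walk
  obtain ⟨θ, hθ1, hθ2, hθ3⟩ := hσ (fun _ => []) (by simp)
  have hθ2' : θ.sum = σ := by rw [hθ2]; simp
  have hθ3' : θ.length ≤ 2 * s * I.card := by simpa using hθ3
  -- reverses
  have hrevNC : ∀ c, NC f Z F 0 c → ∃ c', NC f Z F 0 c' ∧ c'.sum = -c.sum := by
    intro c hc
    obtain ⟨c', h1, h2⟩ := neg_rev hr hc.1
    refine ⟨c', ⟨h1.congr (RE_inv f Z F) (VE_inv f Z F) fun j hj => ?_, fun j hj => ?_⟩, h2⟩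
    · rw [Pi.add_apply, hc.2 j hj, add_zero]
    · rw [h2, Pi.neg_apply, hc.2 j hj, neg_zero]
  obtain ⟨R₁, hR1, hR1s⟩ := hrevNC w ⟨hw1, hw2⟩
  obtain ⟨R₂, hR2, hR2s⟩ := hrevNC θ hθ1
  obtain ⟨L₁, hL1, hL1s⟩ := neg_cut hI hIf _ R₁ le_rfl hR1
  obtain ⟨L₂, hL2, hL2s⟩ := neg_cut hI hIf _ R₂ le_rfl hR2
  -- a short list
  let G : Set (Vec d) := {g | ∃ t ∈ I, g ∈ NG f Z F s t}
  have hGb : ∀ g ∈ G, ∀ j, |g j| ≤ ((M * s : ℕ) : ℤ) := by
    rintro _ ⟨t, _, c, hc, hcl, rfl⟩ j
    refine (neg_abs hr hM hc.1 j).trans ?_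
    push_cast
    exact mul_le_mul_of_nonneg_left (by exact_mod_cast hcl) (by positivity)
  have hGW : ∀ g ∈ G, qv g ∈ W := by
    rintro _ ⟨t, _, c, hc, hcl, rfl⟩
    exact hr.hWc t c (hc.1.walk hr.RT)
  have hsum : (L₁ ++ L₂).sum = -w.sum - σ := by
    rw [List.sum_append, hL1s, hL2s, hR1s, hR2s, hθ2']
    abel
  have hN : ∀ j, |(L₁ ++ L₂).sum j| ≤ ((2 * M * s * (s + 1) : ℕ) : ℤ) := by
    intro j
    rw [hsum, Pi.sub_apply, Pi.neg_apply]
    have h1 := neg_abs hr hM hw1 j
    have h2 := neg_abs hr hM hθ1.1 j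
    rw [hθ2'] at h2
    have h3 : (w.length : ℤ) ≤ 2 * s := by exact_mod_cast hw3
    have h4 : (θ.length : ℤ) ≤ 2 * s * s := by
      have : θ.length ≤ 2 * s * s := hθ3'.trans (Nat.mul_le_mul_left _ hI)
      exact_mod_cast this
    have hM0 : (0 : ℤ) ≤ M := by positivity
    have h5 : (M : ℤ) * w.length ≤ M * (2 * s) := mul_le_mul_of_nonneg_left h3 hM0
    have h6 : (M : ℤ) * θ.length ≤ M * (2 * s * s) := mul_le_mul_of_nonneg_left h4 hM0
    have h7 : |-w.sum j - σ j| ≤ |w.sum j| + |σ j| := by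
      have := abs_sub (-w.sum j) (σ j)
      rwa [abs_neg] at this
    push_cast
    nlinarith
  obtain ⟨L, hLG, hLs, -, hLl⟩ := tube (G := G) (Γ := M * s) (k := g) hGb hGW hg
    (L₀ := L₁ ++ L₂) (fun g hg => by
      rcases List.mem_append.1 hg with h | h
      · exact hL1 g h
      · exact hL2 g h) hN
  obtain ⟨L', hL'1, hL'2, hL'3⟩ := neg_dist I L hLG
  obtain ⟨u, hu1, hu2, hu3⟩ := hσ L' hL'1
  refine ⟨u, hu1.1, hu1.2, ?_, ?_⟩
  · rw [hL'3] at hu3
    refine hu3.trans ?_
    unfold Lm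
    have h1 : 2 * s * I.card ≤ 2 * s ^ 2 := by
      calc 2 * s * I.card ≤ 2 * s * s := Nat.mul_le_mul_left _ hI
        _ = 2 * s ^ 2 := by ring
    exact Nat.add_le_add h1 (Nat.mul_le_mul_left s hLl)
  · rw [hu2, hL'2, hLs, hsum]
    abel

end Pool.Agent.REV
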