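import Pool.Agent.REV.Lift
import Pool.Agent.REV.Tube
import Pool.Agent.REV.Conf

/-!
# REV / Part: runs inside a reversible component follow small path schemes
-/

set_option autoImplicit false

namespace Pool.Agent.REV

open Pool.Agent.EEF Finset

variable {Q : Type} {d : ℕ} {T : VASS Q d} {W : Submodule ℚ (Fin d → ℚ)} {p₀ : Q}

theorem nsa (a : ℕ) (h : Vec d) (j : Fin d) : (a • h) j = (a : ℤ) * h j := by
  rw [Pi.smul_apply, nsmul_eq_mul]

/-! ### Generators -/

/-- effects of short closed walks at `qs` which are executable on `F` -/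
def Gen (T : VASS Q d) (p₀ : Q) (F : Set (Fin d)) (qs : Q) (Xs : Vec d) (s : ℕ) :
    Set (Vec d) :=
  {g | ∃ u, PW T (NP T p₀ F) qs Xs u qs ∧ (∀ j ∈ F, u.sum j = 0) ∧ u.length ≤ 2 * s ∧ u.sum = g}

variable {F : Set (Fin d)} {qs : Q} {Xs : Vec d} {s : ℕ}

theorem Gen.neg (hs : Scc T p₀ W) {g : Vec d} (hg : g ∈ Gen T p₀ F qs Xs s) :
    -g ∈ Gen T p₀ F qs Xs s := by
  obtain ⟨u, h1, h2, h3, rfl⟩ := hg
  refine ⟨rv u, ?_, fun j hj => ?_, by rw [rv_length]; exact h3, rv_sum u⟩
  · refine (h1.rv hs fun _ _ h => h.1).congr (NP_inv p₀ F) fun j hj => ?_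
    rw [Pi.add_apply, h2 j hj, add_zero]
  · rw [rv_sum, Pi.neg_apply, h2 j hj, neg_zero]

theorem Gen.bound {M : ℕ} (hM : ∀ p v q, (p, v, q) ∈ T → ∀ k, |v k| ≤ M) {g : Vec d}
    (hg : g ∈ Gen T p₀ F qs Xs s) (j : Fin d) : |g j| ≤ (2 * M * s : ℕ) := by
  obtain ⟨u, h1, h2, h3, rfl⟩ := hg
  have h4 := sum_le (w := u) (M := M) (fun v hv k => by
    obtain ⟨a, b, h⟩ := h1.walk.letters v hv
    exact hM _ _ _ h k) j
  refine h4.trans ?_
  have h5 : u.length * M ≤ 2 * M * s := by
    calc u.length * M ≤ 2 * s * M := Nat.mul_le_mul_right _ h3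
      _ = _ := by ring
  exact_mod_cast h5

theorem Gen.mem (hs : Scc T p₀ W) {g : Vec d} (hg : g ∈ Gen T p₀ F qs Xs s) : qv g ∈ W := by
  obtain ⟨u, h1, h2, h3, rfl⟩ := hg
  have h4 := hs.diff h1.start.1.1 h1.start.1.2 h1.walk (.nil qs)
  simpa using h4

theorem Gen.closure_zero {z : Vec d} (hz : z ∈ AddSubgroup.closure (Gen T p₀ F qs Xs s))
    {j : Fin d} (hj : j ∈ F) : z j = 0 := by
  induction hz using AddSubgroup.closure_induction with
  | mem x hx =>
    obtain ⟨u, h1, h2, h3, rfl⟩ := hx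
    exact h2 j hj
  | zero => rfl
  | add x y _ _ hx hy => rw [Pi.add_apply, hx, hy, add_zero]
  | neg x _ hx => rw [Pi.neg_apply, hx, neg_zero]

theorem Gen.list (hs : Scc T p₀ W) {z : Vec d}
    (hz : z ∈ AddSubgroup.closure (Gen T p₀ F qs Xs s)) :
    ∃ L : List (Vec d), (∀ g ∈ L, g ∈ Gen T p₀ F qs Xs s) ∧ L.sum = z := by
  induction hz using AddSubgroup.closure_induction with
  | mem x hx => exact ⟨[x], by simpa using hx, by simp⟩
  | zero => exact ⟨[], by simp, rfl⟩
  | add x y _ _ hx hy =>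
    obtain ⟨L, h1, h2⟩ := hx
    obtain ⟨L', h3, h4⟩ := hy
    refine ⟨L ++ L', fun g hg => ?_, by rw [List.sum_append, h2, h4]⟩
    rcases List.mem_append.1 hg with h | h
    · exact h1 g h
    · exact h3 g h
  | neg x _ hx =>
    obtain ⟨L, h1, h2⟩ := hx
    refine ⟨L.map fun g => -g, fun g hg => ?_, ?_⟩
    · obtain ⟨g', h3, rfl⟩ := List.mem_map.1 hg
      exact Gen.neg hs (h1 g' h3)
    · rw [← h2]
      clear h1 h2
      induction L with
      | nil => simp
      | cons a L ih => rw [List.map_cons, List.sum_cons, ih, List.sum_cons, neg_add]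

/-- closed walks are sums of generators -/
theorem gen_all (hs : Scc T p₀ W)
    (hsh : ∀ u q, PW T (NP T p₀ F) qs Xs u q → ∃ τ, PW T (NP T p₀ F) qs Xs τ q ∧
        (∀ j ∈ F, τ.sum j = u.sum j) ∧ τ.length < s) :
    ∀ (u : List (Vec d)) {q : Q} {τ : List (Vec d)}, PW T (NP T p₀ F) qs Xs u q →
      PW T (NP T p₀ F) qs Xs τ q → (∀ j ∈ F, τ.sum j = u.sum j) → τ.length < s →
      u.sum - τ.sum ∈ AddSubgroup.closure (Gen T p₀ F qs Xs s) := by
  intro u
  induction u using List.reverseRecOn with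
  | nil =>
    intro q τ hu hτ hE hl
    have hq : q = qs := by
      cases hu with
      | nil _ => rfl
    subst hq
    rw [List.sum_nil, zero_sub]
    refine AddSubgroup.neg_mem _ (AddSubgroup.subset_closure ⟨τ, hτ, fun j hj => ?_, by omega, rfl⟩)
    rw [hE j hj]
    rfl
  | append_singleton u v ih =>
    intro q τ hu hτ hE hl
    obtain ⟨r, h1, h2⟩ := hu.split
    obtain ⟨τ₀, h3, h4, h5⟩ := hsh u r h1
    have h6 := ih h1 h3 h4 h5
    have hstep : (r, v, q) ∈ T := by
      cases h2 with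
      | cons _ ha hb =>
        cases hb with
        | nil _ => exact ha
    have hq : NP T p₀ F q (Xs + τ₀.sum + v) := by
      refine NP_inv p₀ F _ _ _ (fun j hj => ?_) hτ.stop
      have h7 := hE j hj
      have h8 := h4 j hj
      rw [List.sum_append, List.sum_singleton] at h7
      simp only [Pi.add_apply] at h7 ⊢
      linarith
    have h9 : PW T (NP T p₀ F) qs Xs (τ₀ ++ [v]) q := h3.append (.cons h3.stop hstep (.nil hq))
    have h10 : PW T (NP T p₀ F) qs Xs ((τ₀ ++ [v]) ++ rv τ) qs := by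
      refine h9.append ((hτ.rv hs fun _ _ h => h.1).congr (NP_inv p₀ F) fun j hj => ?_)
      have h7 := hE j hj
      have h8 := h4 j hj
      rw [List.sum_append, List.sum_singleton] at h7 ⊢
      simp only [Pi.add_apply] at h7 ⊢
      linarith
    have h11 : τ₀.sum + v - τ.sum ∈ Gen T p₀ F qs Xs s := by
      refine ⟨(τ₀ ++ [v]) ++ rv τ, h10, fun j hj => ?_, ?_, ?_⟩
      · have h7 := hE j hj
        have h8 := h4 j hj
        rw [List.sum_append, List.sum_singleton] at h7
        rw [List.sum_append, List.sum_append, List.sum_singleton, rv_sum]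
        simp only [Pi.add_apply, Pi.neg_apply] at h7 ⊢
        linarith
      · rw [List.length_append, List.length_append, List.length_singleton, rv_length]
        omega
      · rw [List.sum_append, List.sum_append, List.sum_singleton, rv_sum]
        abel
    have e : (u ++ [v]).sum - τ.sum = (u.sum - τ₀.sum) + (τ₀.sum + v - τ.sum) := by
      rw [List.sum_append, List.sum_singleton]
      abel
    rw [e]
    exact AddSubgroup.add_mem _ h6 (AddSubgroup.subset_closure h11)

/-- the word of a list of generators -/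
theorem word_of {M : ℕ} (hM : ∀ p v q, (p, v, q) ∈ T → ∀ k, |v k| ≤ M) (hqs : InS T p₀ qs)
    (hXs : ∀ j ∈ F, 0 ≤ Xs j) : ∀ L : List (Vec d), (∀ g ∈ L, g ∈ Gen T p₀ F qs Xs s) →
    ∃ β, PW T (NP T p₀ F) qs Xs β qs ∧ (∀ j ∈ F, β.sum j = 0) ∧ β.sum = L.sum ∧
      β.length ≤ 2 * s * L.length ∧ ∀ π π', β = π ++ π' → ∃ P R, L = P ++ R ∧
        ∀ j, |π.sum j - P.sum j| ≤ (2 * M * s : ℕ) := by
  intro L
  induction L with
  | nil =>
    intro _
    refine ⟨[], .nil ⟨hqs, hXs⟩, fun _ _ => rfl, rfl, by simp, fun π π' h => ?_⟩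
    have h1 : π = [] := (List.append_eq_nil_iff.1 h.symm).1
    subst h1
    exact ⟨[], [], rfl, fun j => by simp only [List.sum_nil, Pi.zero_apply, sub_zero, abs_zero]; positivity⟩
  | cons g L ih =>
    intro hL
    obtain ⟨β, h1, h2, h3, h4, h5⟩ := ih fun g' hg' => hL g' (List.mem_cons_of_mem _ hg')
    obtain ⟨u, a1, a2, a3, a4⟩ := hL g List.mem_cons_self
    refine ⟨u ++ β, ?_, ?_, ?_, ?_, ?_⟩
    · refine a1.append (h1.congr (NP_inv p₀ F) fun j hj => ?_)
      rw [Pi.add_apply, a2 j hj, add_zero]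
    · intro j hj
      rw [List.sum_append, Pi.add_apply, a2 j hj, h2 j hj, add_zero]
    · rw [List.sum_append, List.sum_cons, h3, a4]
    · rw [List.length_append, List.length_cons]
      have : 2 * s * (L.length + 1) = 2 * s * L.length + 2 * s := by ring
      omega
    · intro π π' h
      rcases prefix_append h with ⟨A', hA⟩ | ⟨π₂, hπ, hβ⟩
      · refine ⟨[], g :: L, rfl, fun j => ?_⟩
        have h6 : ∀ v ∈ π, ∀ k, |v k| ≤ (M : ℤ) := by
          intro v hv k
          obtain ⟨a, b, hab⟩ := a1.walk.letters v (by rw [hA]; exact List.mem_append_left _ hv)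
          exact hM _ _ _ hab k
        have h7 := sum_le h6 j
        have h8 : π.length ≤ 2 * s := by
          have : u.length = π.length + A'.length := by rw [hA, List.length_append]
          omega
        have h9 : π.length * M ≤ 2 * M * s := by
          calc π.length * M ≤ 2 * s * M := Nat.mul_le_mul_right _ h8
            _ = _ := by ring
        have h10 : ((π.length * M : ℕ) : ℤ) ≤ (2 * M * s : ℕ) := by exact_mod_cast h9
        rw [List.sum_nil, Pi.zero_apply, sub_zero]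
        push_cast at h10 ⊢
        linarith
      · obtain ⟨P, R, hPR, hb⟩ := h5 π₂ π' hβ
        refine ⟨g :: P, R, by rw [hPR, List.cons_append], fun j => ?_⟩
        rw [hπ, List.sum_append, List.sum_cons, a4]
        simp only [Pi.add_apply]
        rw [add_sub_add_left_eq_sub]
        exact hb j

/-! ### Schemes -/

theorem Rlz_word {p q : Q} {x : Vec d} {w : List (Vec d)} (hw : Walk T p w q) (hok : Ok x w) :
    Rlz T p x w.sum q (w.length + 1) := by
  refine ⟨[(w, [], 0)], .cons hw (.nil _) (.nil _), ?_, ?_, ?_⟩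
  · rw [unroll_cons, unroll_nil, wrd, rep_zero]
    simpa using hok
  · rw [unroll_cons, unroll_nil, wrd, rep_zero]
    simp
  · simp [schemeSize, isk]

theorem Rlz_loop {p : Q} {x : Vec d} {β : List (Vec d)} (hw : Walk T p β p) (a : ℕ)
    (hok : ∀ j < a, Ok (x + j • β.sum) β) : Rlz T p x (a • β.sum) p (β.length + 1) := by
  refine ⟨[([], β, a)], .cons (.nil _) hw (.nil _), ?_, ?_, ?_⟩
  · rw [unroll_cons, unroll_nil, wrd]
    simpa using Ok_rep hok
  · rw [unroll_cons, unroll_nil, wrd]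
    simpa using rep_sum a β
  · simp [schemeSize, isk]

theorem PW_ok {p q : Q} {x : Vec d} {w : List (Vec d)}
    (h : PW T (NP T p₀ Set.univ) p x w q) : Ok x w := by
  induction h with
  | nil _ => trivial
  | cons _ _ h2 ih => exact ⟨fun k => h2.start.2 k (Set.mem_univ k), ih⟩

theorem toPW {p q : Q} {w : List (Vec d)} (hw : Walk T p w q) :
    ∀ {x : Vec d}, 0 ≤ x → Reach T p₀ p → Reach T q p₀ → Ok x w →
      PW T (NP T p₀ Set.univ) p x w q := by
  induction hw with
  | nil p => intro x hx hp hq _; exact .nil ⟨⟨hp, hq⟩, fun j _ => hx j⟩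
  | @cons p p' q v w h1 h2 ih =>
    intro x hx hp hq hok
    have hp' : Reach T p p₀ := Reach.trans ⟨_, .cons h1 h2⟩ hq
    exact .cons ⟨⟨hp, hp'⟩, fun j _ => hx j⟩ h1
      (ih hok.1 (hp.trans ⟨[v], .cons h1 (.nil _)⟩) hq hok.2)

/-- one loop -/
theorem one_loop {M g : ℕ} (hM : ∀ p v q, (p, v, q) ∈ T → ∀ k, |v k| ≤ M) (hs : Scc T p₀ W)
    (hg : Module.finrank ℚ W ≤ g) (hqs : InS T p₀ qs) (hXs : ∀ j ∈ F, 0 ≤ Xs j) {h : Vec d}
    (hh : h ∈ AddSubgroup.closure (Gen T p₀ F qs Xs s))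
    (hb : ∀ j, |h j| ≤ rB d g (2 * M * s)) {x : Vec d} (hx : ∀ j ∈ F, x j = Xs j) (a : ℕ)
    (h0 : ∀ j ∉ F, ((dev g M s : ℕ) : ℤ) ≤ x j)
    (h1 : ∀ j ∉ F, ((dev g M s : ℕ) : ℤ) ≤ (x + a • h) j) :
    Rlz T qs x (a • h) qs (2 * s * lB d g (2 * M * s) + 1) := by
  obtain ⟨L₀, hL₀, hsum⟩ := Gen.list hs hh
  obtain ⟨L, e1, e2, e3, e4⟩ := tube (k := g) (fun g' hg' j => Gen.bound hM hg' j)
    (fun g' hg' => Gen.mem hs hg') hg hL₀ (N := rB d g (2 * M * s))
    (fun j => by rw [hsum]; exact hb j)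
  rw [hsum] at e2 e3
  obtain ⟨β, b1, b2, b3, b4, b5⟩ := word_of hM hqs hXs L e1
  rw [e2] at b3
  rw [← b3]
  refine (Rlz_loop b1.walk a fun i hi => ?_).mono ?_
  · refine Ok_of_prefix fun π π' hπ j => ?_
    by_cases hj : j ∈ F
    · have h3 : PW T (NP T p₀ F) qs Xs (π ++ π') qs := hπ ▸ b1
      obtain ⟨r, h4, -⟩ := h3.split
      have h5 := h4.stop.2 j hj
      simp only [Pi.add_apply, Pi.smul_apply, Pi.zero_apply] at h5 ⊢
      rw [b2 j hj, hx j hj, smul_zero, add_zero]
      exact h5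
    · obtain ⟨P, R, hPR, h6⟩ := b5 π π' hπ
      have h7 := e3 P R hPR j
      have h8 := (abs_le.1 (h6 j)).1
      have h9 := h0 j hj
      have h10 := h1 j hj
      have hdev : ((dev g M s : ℕ) : ℤ) =
          (tN g (2 * M * s) * (2 * M * s) : ℕ) + (2 * M * s : ℕ) := by
        rw [dev]; push_cast; ring
      rw [b3]
      simp only [Pi.add_apply, nsa, Pi.zero_apply] at h10 ⊢
      have hia : ((i : ℤ) + 1) ≤ a := by exact_mod_cast hi
      have hi0 : (0 : ℤ) ≤ i := Int.natCast_nonneg _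
      have h11 : ((dev g M s : ℕ) : ℤ) ≤ x j + i * h j + min 0 (h j) := by
        rcases le_total 0 (h j) with h12 | h12
        · rw [min_eq_left h12]
          have := mul_nonneg hi0 h12
          linarith
        · rw [min_eq_right h12]
          have h13 : (a : ℤ) * h j ≤ (i + 1) * h j := mul_le_mul_of_nonpos_right hia h12
          linarith
      linarith
  · have h3 : β.length ≤ 2 * s * lB d g (2 * M * s) :=
      b4.trans (Nat.mul_le_mul_left _ e4)
    omega

/-- all loops -/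
theorem all_loops {M g : ℕ} (hM : ∀ p v q, (p, v, q) ∈ T → ∀ k, |v k| ≤ M) (hs : Scc T p₀ W)
    (hg : Module.finrank ℚ W ≤ g) (hqs : InS T p₀ qs) (hXs : ∀ j ∈ F, 0 ≤ Xs j) {z : Vec d} :
    ∀ (D : List (ℕ × Vec d)), (∀ e ∈ D, e.2 ∈ AddSubgroup.closure (Gen T p₀ F qs Xs s) ∧
        (∀ j, |e.2 j| ≤ rB d g (2 * M * s)) ∧
        ∀ j, (0 ≤ z j → 0 ≤ e.2 j) ∧ (z j ≤ 0 → e.2 j ≤ 0)) →
      ∀ {x : Vec d}, (∀ j ∈ F, x j = Xs j) → (∀ j ∉ F, ((dev g M s : ℕ) : ℤ) ≤ x j) →
      (∀ j ∉ F, ((dev g M s : ℕ) : ℤ) ≤ (x + (D.map fun e => e.1 • e.2).sum) j) →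
      Rlz T qs x (D.map fun e => e.1 • e.2).sum qs
        (D.length * (2 * s * lB d g (2 * M * s) + 1)) := by
  intro D
  induction D with
  | nil =>
    intro _ x _ _ _
    simpa using Rlz.nil qs x
  | cons e D ih =>
    intro hD x hx h0 h1
    have hD' : ∀ e' ∈ D, _ := fun e' he' => hD e' (List.mem_cons_of_mem _ he')
    obtain ⟨c1, c2, c3⟩ := hD e List.mem_cons_self
    rw [List.map_cons, List.sum_cons] at h1 ⊢
    have hsg : ∀ j, (0 ≤ z j → 0 ≤ (D.map fun e => e.1 • e.2).sum j) ∧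
        (z j ≤ 0 → (D.map fun e => e.1 • e.2).sum j ≤ 0) := by
      intro j
      clear ih h1
      induction D with
      | nil => simp
      | cons f D ih2 =>
        have h2 := ih2 (fun e' he' => hD e' (by
            rw [List.mem_cons] at he' ⊢
            rcases he' with rfl | he'
            · exact Or.inl rfl
            · exact Or.inr (List.mem_cons_of_mem _ he')))
          (fun e' he' => hD' e' (List.mem_cons_of_mem _ he'))
        obtain ⟨-, -, c6⟩ := hD' f List.mem_cons_self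
        rw [List.map_cons, List.sum_cons, Pi.add_apply, nsa]
        have h3 : (0 : ℤ) ≤ (f.1 : ℕ) := Int.natCast_nonneg _
        exact ⟨fun h => add_nonneg (mul_nonneg h3 ((c6 j).1 h)) (h2.1 h),
          fun h => add_nonpos (mul_nonpos_of_nonneg_of_nonpos h3 ((c6 j).2 h)) (h2.2 h)⟩
    have hmid : ∀ j ∉ F, ((dev g M s : ℕ) : ℤ) ≤ (x + e.1 • e.2) j := by
      intro j hj
      have h2 := h0 j hj
      have h3 := h1 j hj
      have h4 : (0 : ℤ) ≤ (e.1 : ℕ) := Int.natCast_nonneg _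
      simp only [Pi.add_apply, nsa] at h3 ⊢
      rcases le_total 0 (z j) with h5 | h5
      · have := mul_nonneg h4 ((c3 j).1 h5)
        linarith
      · have := (hsg j).2 h5
        linarith
    have h2 := one_loop hM hs hg hqs hXs c1 c2 hx e.1 h0 hmid
    have h3 := ih hD' (x := x + e.1 • e.2) (fun j hj => by
      rw [Pi.add_apply, Pi.smul_apply, Gen.closure_zero c1 hj, smul_zero, add_zero]
      exact hx j hj) hmid (fun j hj => by rw [add_assoc]; exact h1 j hj)
    refine (h2.append h3).mono ?_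
    rw [List.length_cons]
    have : (D.length + 1) * (2 * s * lB d g (2 * M * s) + 1) =
      D.length * (2 * s * lB d g (2 * M * s) + 1) + (2 * s * lB d g (2 * M * s) + 1) := by ring
    omega

/-! ### Thresholds -/

theorem sS_succ (n d M g l : ℕ) :
    sS n d M g (l + 1) = sS n d M g l * ((d + 1) * sA n d M g l) := rfl

theorem sA_succ (n d M g l : ℕ) :
    sA n d M g (l + 1) = sA n d M g l + 1 + M * sS n d M g (l + 1) + dev g M (sS n d M g (l + 1)) :=
  rfl

theorem sA_zero (n d M g : ℕ) :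
    sA n d M g 0 = 1 + M * sS n d M g 0 + dev g M (sS n d M g 0) := rfl

theorem sA_pos (n d M g l : ℕ) : 1 ≤ sA n d M g l := by
  rcases l with _ | l
  · rw [sA_zero]; omega
  · rw [sA_succ]; omega

theorem sA_mono (n d M g : ℕ) : Monotone (sA n d M g) :=
  monotone_nat_of_le_succ fun l => by rw [sA_succ]; omega

theorem sS_mono (n d M g : ℕ) : Monotone (sS n d M g) :=
  monotone_nat_of_le_succ fun l => by
    rw [sS_succ]
    have := sA_pos n d M g l
    exact Nat.le_mul_of_pos_right _ (Nat.mul_pos (Nat.succ_pos d) this)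

theorem thr (n d M g : ℕ) :
    Thr n d M (sA n d M g) (sS n d M g) fun l => dev g M (sS n d M g l) := by
  refine ⟨fun l => ?_, fun l' l h => ?_, fun l => ?_⟩
  · induction l with
    | zero => simp [AL, sS, SA]
    | succ l ih =>
      refine (AL_card n d _ l).trans ?_
      rw [sS_succ]
      exact Nat.mul_le_mul ih (Nat.mul_le_mul_right _ (Nat.le_succ d))
  · obtain ⟨m, rfl⟩ : ∃ m, l = m + 1 := ⟨l - 1, by omega⟩
    have h1 : sA n d M g l' ≤ sA n d M g m := sA_mono n d M g (by omega)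
    rw [sA_succ]
    omega
  · rcases l with _ | l
    · rw [sA_zero]; omega
    · rw [sA_succ]; omega

theorem lB_mono {d k Γ Γ' : ℕ} (h : Γ ≤ Γ') : lB d k Γ ≤ lB d k Γ' := by
  unfold lB rB tN
  gcongr

/-- **Runs inside a reversible component follow small path schemes.** -/
theorem rev_part [Fintype Q] (hs : Scc T p₀ W) {g : ℕ} (hg : Module.finrank ℚ W ≤ g) {p q : Q}
    {x : Vec d} (hx : 0 ≤ x) (hp : Reach T p₀ p) (hq : Reach T q p₀) {w : List (Vec d)}
    (hw : Walk T p w q) (hok : Ok x w) :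
    Rlz T p x w.sum q (cRev (Fintype.card Q) d (maxNorm T) g) := by
  set M := maxNorm T with hMdef
  set n := Fintype.card Q with hn
  have hM : ∀ p v q, (p, v, q) ∈ T → ∀ k, |v k| ≤ (M : ℤ) := fun _ _ _ h k =>
    abs_le_maxNorm h k
  have hpw := toPW hw hx hp hq hok
  obtain ⟨r, F, qs, Xs, hr, hqs, hXs, hC1, hC2⟩ := lift hM hs (thr n d M g) (X := x)
    hpw.start.1 hx
  obtain ⟨τ₁, a1, a2, a3, a4⟩ := hC1 p x ⟨[], .nil hpw.start, by simp⟩
  obtain ⟨τ₂, b1, b2, b3, b4⟩ := hC1 q (x + w.sum) ⟨w, hpw, rfl⟩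
  set s := sS n d M g r with hsdef
  -- the difference of the lifted configurations
  have hcl : PW T (NP T p₀ F) qs Xs (rv τ₁ ++ (w ++ τ₂)) qs := by
    have h1 := a1.rv hs (fun _ _ h => h.1)
    have h2 : PW T (NP T p₀ Set.univ) qs (x + τ₁.sum) (rv τ₁ ++ (w ++ τ₂)) qs := by
      refine h1.append ?_
      have e : x + τ₁.sum + (rv τ₁).sum = x := by rw [rv_sum]; abel
      rw [e]
      exact hpw.append b1
    exact (h2.mono (NP_mono (Set.subset_univ F))).congr (NP_inv p₀ F) a3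
  have hzsum : (rv τ₁ ++ (w ++ τ₂)).sum = w.sum + τ₂.sum - τ₁.sum := by
    rw [List.sum_append, List.sum_append, rv_sum]
    abel
  have hz0 : ∀ j ∈ F, (rv τ₁ ++ (w ++ τ₂)).sum j = 0 := by
    intro j hj
    have h1 := a3 j hj
    have h2 := b3 j hj
    rw [hzsum]
    simp only [Pi.add_apply, Pi.sub_apply] at h1 h2 ⊢
    linarith
  have hspos : 0 < s := by
    obtain ⟨τ, -, -, h3⟩ := hC2 [] qs (.nil ⟨hqs, hXs⟩)
    exact lt_of_le_of_lt (Nat.zero_le _) h3
  have hz : (rv τ₁ ++ (w ++ τ₂)).sum ∈ AddSubgroup.closure (Gen T p₀ F qs Xs s) := by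
    have h1 := gen_all hs hC2 _ hcl (τ := []) (.nil ⟨hqs, hXs⟩)
      (fun j hj => by rw [hz0 j hj]; rfl) hspos
    simpa using h1
  obtain ⟨D, d1, d2, d3⟩ := conf (k := g) (fun g' hg' j => Gen.bound hM hg' j)
    (fun g' hg' => Gen.mem hs hg') hg hz
  rw [hzsum] at d2
  have h1 := Rlz_word a1.walk (PW_ok a1)
  have hend : x + τ₁.sum + (D.map fun e => e.1 • e.2).sum = x + w.sum + τ₂.sum := by
    rw [d2]
    abel
  have h2 := all_loops hM hs hg hqs hXs D d3 (x := x + τ₁.sum) a3 a4 (fun j hj => by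
    rw [hend]
    exact b4 j hj)
  have h3 := b1.rv hs (fun _ _ h => h.1)
  have h4 := Rlz_word h3.walk (PW_ok h3)
  rw [← hend] at h4
  have h5 := (h1.append h2).append (by rw [← add_assoc]; exact h4)
  have e : τ₁.sum + (D.map fun e => e.1 • e.2).sum + (rv τ₂).sum = w.sum := by
    rw [d2, rv_sum]
    abel
  rw [e] at h5
  refine h5.mono ?_
  rw [rv_length]
  have hrg : r ≤ g := hr.trans hg
  have hsg : s ≤ sS n d M g g := sS_mono n d M g hrg
  have hL0 : ∑ i ∈ range (Module.finrank ℚ W + 1), sS n d M g i ≤ (g + 1) * sS n d M g g := by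
    calc ∑ i ∈ range (Module.finrank ℚ W + 1), sS n d M g i
        ≤ ∑ i ∈ range (Module.finrank ℚ W + 1), sS n d M g g :=
          Finset.sum_le_sum fun i hi => sS_mono n d M g (by rw [mem_range] at hi; omega)
      _ = (Module.finrank ℚ W + 1) * sS n d M g g := by simp
      _ ≤ _ := Nat.mul_le_mul_right _ (by omega)
  have h6 : lB d g (2 * M * s) ≤ lB d g (2 * M * sS n d M g g) :=
    lB_mono (Nat.mul_le_mul_left _ hsg)
  have h7 : 2 * s * lB d g (2 * M * s) + 1 ≤
      2 * sS n d M g g * lB d g (2 * M * sS n d M g g) + 1 :=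
    Nat.add_le_add_right (Nat.mul_le_mul (Nat.mul_le_mul_left _ hsg) h6) 1
  have h8 := Nat.mul_le_mul d1 h7
  unfold cRev
  omega

end Pool.Agent.REV
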