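import Pool.Agent.REV.Cyc2
import Pool.Agent.REV.Neg
import Pool.Agent.REV.GenC
import Pool.Agent.REV.Part

/-!
# REV / Ret: returning runs follow small path schemes
-/

set_option autoImplicit false

namespace Pool.Agent.REV

open Pool.Agent.EEF Finset

variable {Q : Type} {d : ℕ} {T : VASS Q d}

/-! ### Thresholds -/

theorem sT_succ (n d M g l : ℕ) :
    sT n d M g (l + 1) = sT n d M g l * ((d + 1) * sR n d M g l) := rfl

theorem sR_succ (n d M g l : ℕ) :
    sR n d M g (l + 1) = sR n d M g l + 1 + M * sT n d M g (l + 1) + dev2 g M (sT n d M g (l + 1)) :=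
  rfl

theorem sR_zero (n d M g : ℕ) :
    sR n d M g 0 = 1 + M * sT n d M g 0 + dev2 g M (sT n d M g 0) := rfl

theorem sR_pos (n d M g l : ℕ) : 1 ≤ sR n d M g l := by
  rcases l with _ | l
  · rw [sR_zero]; omega
  · rw [sR_succ]; omega

theorem sR_mono (n d M g : ℕ) : Monotone (sR n d M g) :=
  monotone_nat_of_le_succ fun l => by rw [sR_succ]; omega

theorem sT_mono (n d M g : ℕ) : Monotone (sT n d M g) :=
  monotone_nat_of_le_succ fun l => by
    rw [sT_succ]
    have := sR_pos n d M g l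
    exact Nat.le_mul_of_pos_right _ (Nat.mul_pos (Nat.succ_pos d) this)

theorem thr2 (n d M g : ℕ) :
    Thr n d M (sR n d M g) (sT n d M g) fun l => dev2 g M (sT n d M g l) := by
  refine ⟨fun l => ?_, fun l' l h => ?_, fun l => ?_⟩
  · induction l with
    | zero => simp [AL, sT, SB]
    | succ l ih =>
      refine (AL_card n d _ l).trans ?_
      rw [sT_succ]
      exact Nat.mul_le_mul ih (Nat.mul_le_mul_right _ (Nat.le_succ d))
  · obtain ⟨m, rfl⟩ : ∃ m, l = m + 1 := ⟨l - 1, by omega⟩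
    have h1 : sR n d M g l' ≤ sR n d M g m := sR_mono n d M g (by omega)
    rw [sR_succ]
    omega
  · rcases l with _ | l
    · rw [sR_zero]; omega
    · rw [sR_succ]; omega

theorem Lm_mono {k M s s' : ℕ} (h : s ≤ s') : Lm k M s ≤ Lm k M s' := by
  unfold Lm tN
  gcongr

theorem lC_mono {d k M s s' : ℕ} (h : s ≤ s') : lC d k M s ≤ lC d k M s' := by
  have := Lm_mono (k := k) (M := M) h
  unfold lC rB tN
  gcongr

theorem two_le_Lm {k M s : ℕ} (h : 0 < s) : 2 * s ≤ Lm k M s := by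
  have h1 : 2 * s ≤ 2 * s ^ 2 := by
    rw [pow_two]
    exact Nat.mul_le_mul_left _ (Nat.le_mul_of_pos_left s h)
  unfold Lm
  omega

/-! ### The periodic run of a returning run -/

theorem exists_path {p q : Q} {w : List (Vec d)} (h : Walk T p w q) :
    ∃ st : ℕ → Q, st 0 = p ∧ st w.length = q ∧
      ∀ i (hi : i < w.length), (st i, w[i], st (i + 1)) ∈ T := by
  induction h with
  | nil p => exact ⟨fun _ => p, rfl, rfl, fun i hi => absurd hi (Nat.not_lt_zero _)⟩
  | @cons p p' q v w h1 h2 ih =>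
    obtain ⟨st, h3, h4, h5⟩ := ih
    refine ⟨fun i => match i with
      | 0 => p
      | i + 1 => st i, rfl, ?_, fun i hi => ?_⟩
    · simpa using h4
    · rcases i with _ | i
      · simpa [h3] using h1
      · have := h5 i (by simpa using hi)
        simpa using this

theorem exists_path2 {p q r : Q} {w w' : List (Vec d)} (h : Walk T p w q) (h' : Walk T q w' r) :
    ∃ st : ℕ → Q, st 0 = p ∧ st w.length = q ∧ st (w ++ w').length = r ∧
      ∀ i (hi : i < (w ++ w').length), (st i, (w ++ w')[i], st (i + 1)) ∈ T := by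
  induction h with
  | nil p =>
    obtain ⟨st, h3, h4, h5⟩ := exists_path h'
    exact ⟨st, h3, h3, h4, h5⟩
  | @cons p p' q v w h1 h2 ih =>
    obtain ⟨st, h3, h4, h5, h6⟩ := ih h'
    refine ⟨fun i => match i with
      | 0 => p
      | i + 1 => st i, rfl, ?_, ?_, fun i hi => ?_⟩
    · simpa using h4
    · simpa using h5
    · rcases i with _ | i
      · simpa [h3] using h1
      · have := h6 i (by simpa using hi)
        simpa using this

theorem Ok_take {x : Vec d} {w : List (Vec d)} (hx : 0 ≤ x) (h : Ok x w) (i : ℕ) :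
    0 ≤ x + (w.take i).sum := by
  induction w generalizing x i with
  | nil => simpa using hx
  | cons v w ih =>
    rcases i with _ | i
    · simpa using hx
    · rw [List.take_succ_cons, List.sum_cons, ← add_assoc]
      exact ih h.1 h.2 i

theorem seg_T (f : ℕ → Q) (Z : ℕ → Vec d) (h : ∀ i, (f i, Z (i + 1) - Z i, f (i + 1)) ∈ T)
    (i k : ℕ) : Walk T (f i) (seg Z i k) (f (i + k)) := by
  induction k generalizing i with
  | zero => exact .nil _
  | succ k ih =>
    rw [seg, show i + (k + 1) = i + 1 + k by ring]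
    exact .cons (h i) (ih (i + 1))

/-- the space of the cycle effects at `p` -/
def Wp (T : VASS Q d) (p : Q) : Submodule ℚ (Fin d → ℚ) :=
  Submodule.span ℚ {c : Fin d → ℚ | ∃ w, Walk T p w p ∧ c = qv w.sum}

theorem mem_Wp {p : Q} {w : List (Vec d)} (h : Walk T p w p) : qv w.sum ∈ Wp T p :=
  Submodule.subset_span ⟨w, h, rfl⟩

theorem mk_PR {f : ℕ → Q} {Z : ℕ → Vec d} {m : ℕ} (hm : 0 < m)
    (h : ∀ i, (f i, Z (i + 1) - Z i, f (i + 1)) ∈ T) (hn : ∀ i j, 0 ≤ Z i j)
    (hf : ∀ i, f (i + m) = f i) (hZ : ∀ i, Z (i + m) = Z i) : PR T (Wp T (f 0)) f Z m := by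
  have hper : ∀ i k, f (i + m * k) = f i ∧ Z (i + m * k) = Z i := by
    intro i k
    induction k with
    | zero => simp
    | succ k ih =>
      have e : i + m * (k + 1) = i + m * k + m := by ring
      rw [e, hf, hZ]
      exact ih
  have hWc : ∀ i w, Walk T (f i) w (f i) → qv w.sum ∈ Wp T (f 0) := by
    intro i w hw
    have h1 := seg_T f Z h 0 i
    rw [Nat.zero_add] at h1
    have h2 := seg_T f Z h i (m * i - i)
    have e : i + (m * i - i) = 0 + m * i := by
      have := Nat.le_mul_of_pos_left i hm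
      omega
    rw [e, (hper 0 i).1] at h2
    have h3 := mem_Wp ((h1.append hw).append h2)
    rw [List.sum_append, List.sum_append, seg_sum, seg_sum, e, (hper 0 i).2, Nat.zero_add] at h3
    have e2 : Z i - Z 0 + w.sum + (Z 0 - Z i) = w.sum := by abel
    rwa [e2] at h3
  refine ⟨hm, h, hn, hf, hZ, fun i j hij => ?_, hWc⟩
  have h1 := seg_T f Z h j (i + m * j - j)
  have e : j + (i + m * j - j) = i + m * j := by
    have := Nat.le_mul_of_pos_left j hm
    omega
  rw [e, (hper i j).1, hij] at h1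
  have h2 := hWc j _ h1
  rw [seg_sum, e, (hper i j).2] at h2
  exact h2

theorem closed_PR {p q : Q} {x : Vec d} {w w' : List (Vec d)} (hx : 0 ≤ x) (hw : Walk T p w q)
    (hok : Ok x w) (hw' : Walk T q w' p) (hok' : Ok (x + w.sum) w') (hs : w.sum + w'.sum = 0)
    (hne : 0 < (w ++ w').length) :
    ∃ (f : ℕ → Q) (Z : ℕ → Vec d), PR T (Wp T (f 0)) f Z (w ++ w').length ∧
      f 0 = p ∧ Z 0 = x ∧ ∃ i, f i = q ∧ Z i = x + w.sum := by
  obtain ⟨st, h1, h2, h3, h4⟩ := exists_path2 hw hw'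
  have hoku : Ok x (w ++ w') := by
    rw [Ok_append]
    exact ⟨hok, hok'⟩
  set u := w ++ w' with hu
  set m := u.length with hm
  have hus : u.sum = 0 := by rw [hu, List.sum_append, hs]
  let f : ℕ → Q := fun i => st (i % m)
  let Z : ℕ → Vec d := fun i => x + (u.take (i % m)).sum
  have hZm : ∀ i, i ≤ m → x + (u.take i).sum = Z i := by
    intro i hi
    rcases Nat.lt_or_eq_of_le hi with h | h
    · simp only [Z, Nat.mod_eq_of_lt h]
    · simp only [Z, h, Nat.mod_self, List.take_zero, List.sum_nil]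
      rw [hm, List.take_length, hus]
  have hfm : ∀ i, i ≤ m → st i = f i := by
    intro i hi
    rcases Nat.lt_or_eq_of_le hi with h | h
    · simp only [f, Nat.mod_eq_of_lt h]
    · simp only [f, h, Nat.mod_self]
      rw [h1, h3]
  have hZper : ∀ i, Z (i + m) = Z i := fun i => by simp only [Z, Nat.add_mod_right]
  have hfper : ∀ i, f (i + m) = f i := fun i => by simp only [f, Nat.add_mod_right]
  have hmod1 : ∀ i, Z (i + 1) = Z (i % m + 1) ∧ f (i + 1) = f (i % m + 1) := by
    intro i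
    have e : (i + 1) % m = (i % m + 1) % m := by simp [Nat.add_mod]
    exact ⟨by simp only [Z, e], by simp only [f, e]⟩
  have hstep : ∀ i, (f i, Z (i + 1) - Z i, f (i + 1)) ∈ T := by
    intro i
    have hlt : i % m < m := Nat.mod_lt _ hne
    have e1 : f i = st (i % m) := rfl
    have e2 : Z i = x + (u.take (i % m)).sum := rfl
    rw [(hmod1 i).1, (hmod1 i).2, e1, e2, ← hfm _ hlt, ← hZm _ hlt]
    have h5 := h4 (i % m) hlt
    have e3 : x + (u.take (i % m + 1)).sum - (x + (u.take (i % m)).sum) = u[i % m] := by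
      rw [List.sum_take_succ u (i % m) hlt]
      abel
    rw [e3]
    exact h5
  have hf0 : f 0 = p := by simp only [f, Nat.zero_mod]; exact h1
  refine ⟨f, Z, mk_PR hne hstep (fun i j => ?_) hfper hZper, hf0, ?_, w.length, ?_, ?_⟩
  · exact Ok_take hx hoku _ j
  · simp only [Z, Nat.zero_mod, List.take_zero, List.sum_nil, add_zero]
  · rw [← hfm _ (by rw [hm, hu, List.length_append]; omega), h2]
  · rw [← hZm _ (by rw [hm, hu, List.length_append]; omega), hu, List.take_left]

/-! ### Closed walks -/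

variable {W : Submodule ℚ (Fin d → ℚ)} {f : ℕ → Q} {Z : ℕ → Vec d} {m : ℕ} {F : Set (Fin d)}

theorem Cl_mono {L L' : ℕ} (h : L ≤ L') : Cl f Z F L ⊆ Cl f Z F L' := by
  rintro g ⟨u, h1, h2, h3, h4⟩
  exact ⟨u, h1, h2, h3.trans h, h4⟩

theorem Cl_bound (hr : PR T W f Z m) {M : ℕ} (hM : ∀ p v q, (p, v, q) ∈ T → ∀ k, |v k| ≤ M)
    {L : ℕ} {g : Vec d} (hg : g ∈ Cl f Z F L) (j : Fin d) : |g j| ≤ (M * L : ℕ) := by
  obtain ⟨u, h1, h2, h3, rfl⟩ := hg
  have h4 := sum_le (w := u) (M := M) (fun v hv k => by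
    obtain ⟨a, b, h⟩ := (h1.walk hr.RT).letters v hv
    exact hM _ _ _ h k) j
  refine h4.trans ?_
  have h5 : u.length * M ≤ M * L := by
    rw [Nat.mul_comm]
    exact Nat.mul_le_mul_left _ h3
  exact_mod_cast h5

theorem Cl_mem (hr : PR T W f Z m) {L : ℕ} {g : Vec d} (hg : g ∈ Cl f Z F L) : qv g ∈ W := by
  obtain ⟨u, h1, h2, h3, rfl⟩ := hg
  exact hr.hWc 0 u (h1.walk hr.RT)

theorem Cl_zero {L : ℕ} {z : Vec d} (hz : z ∈ AddSubgroup.closure (Cl f Z F L))
    {j : Fin d} (hj : j ∈ F) : z j = 0 := by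
  induction hz using AddSubgroup.closure_induction with
  | mem x hx =>
    obtain ⟨u, h1, h2, h3, rfl⟩ := hx
    exact h2 j hj
  | zero => rfl
  | add x y _ _ hx hy => rw [Pi.add_apply, hx, hy, add_zero]
  | neg x _ hx => rw [Pi.neg_apply, hx, neg_zero]

theorem list_closure {G G' : Set (Vec d)} (h : G ⊆ G') (hn : ∀ g ∈ G, -g ∈ G') {z : Vec d}
    (hz : z ∈ AddSubgroup.closure G) :
    ∃ L L' : List (Vec d), (∀ g ∈ L, g ∈ G') ∧ L.sum = z ∧ (∀ g ∈ L', g ∈ G') ∧ L'.sum = -z := by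
  induction hz using AddSubgroup.closure_induction with
  | mem x hx =>
    exact ⟨[x], [-x], by simpa using h hx, by simp, by simpa using hn x hx, by simp⟩
  | zero => exact ⟨[], [], by simp, rfl, by simp, by simp⟩
  | add x y _ _ hx hy =>
    obtain ⟨L, L', h1, h2, h3, h4⟩ := hx
    obtain ⟨K, K', h5, h6, h7, h8⟩ := hy
    refine ⟨L ++ K, L' ++ K', fun g hg => ?_, by rw [List.sum_append, h2, h6], fun g hg => ?_, ?_⟩
    · rcases List.mem_append.1 hg with h | h
      · exact h1 g h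
      · exact h5 g h
    · rcases List.mem_append.1 hg with h | h
      · exact h3 g h
      · exact h7 g h
    · rw [List.sum_append, h4, h8, neg_add]
  | neg x _ hx =>
    obtain ⟨L, L', h1, h2, h3, h4⟩ := hx
    exact ⟨L', L, h3, h4, h1, by rw [h2, neg_neg]⟩

/-- the word of a list of closed walks -/
theorem word_of2 (hr : PR T W f Z m) {M : ℕ} (hM : ∀ p v q, (p, v, q) ∈ T → ∀ k, |v k| ≤ M)
    {N : ℕ} : ∀ L : List (Vec d), (∀ g ∈ L, g ∈ Cl f Z F N) →
    ∃ β, SW (RE f Z F) (VE f Z F) (f 0) (Z 0) β (f 0) ∧ (∀ j ∈ F, β.sum j = 0) ∧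
      β.sum = L.sum ∧ β.length ≤ N * L.length ∧ ∀ π π', β = π ++ π' → ∃ P R, L = P ++ R ∧
        ∀ j, |π.sum j - P.sum j| ≤ (M * N : ℕ) := by
  intro L
  induction L with
  | nil =>
    intro _
    refine ⟨[], .nil ⟨0, rfl, fun _ _ => rfl⟩, fun _ _ => rfl, rfl, by simp, fun π π' h => ?_⟩
    have h1 : π = [] := (List.append_eq_nil_iff.1 h.symm).1
    subst h1
    exact ⟨[], [], rfl, fun j => by
      simp only [List.sum_nil, Pi.zero_apply, sub_zero, abs_zero]; positivity⟩
  | cons g L ih =>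
    intro hL
    obtain ⟨β, h1, h2, h3, h4, h5⟩ := ih fun g' hg' => hL g' (List.mem_cons_of_mem _ hg')
    obtain ⟨u, a1, a2, a3, a4⟩ := hL g List.mem_cons_self
    refine ⟨u ++ β, ?_, ?_, ?_, ?_, ?_⟩
    · refine a1.append (h1.congr (RE_inv f Z F) (VE_inv f Z F) fun j hj => ?_)
      rw [Pi.add_apply, a2 j hj, add_zero]
    · intro j hj
      rw [List.sum_append, Pi.add_apply, a2 j hj, h2 j hj, add_zero]
    · rw [List.sum_append, List.sum_cons, h3, a4]
    · rw [List.length_append, List.length_cons]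
      have : N * (L.length + 1) = N * L.length + N := by ring
      omega
    · intro π π' h
      rcases prefix_append h with ⟨A', hA⟩ | ⟨π₂, hπ, hβ⟩
      · refine ⟨[], g :: L, rfl, fun j => ?_⟩
        have h6 : ∀ v ∈ π, ∀ k, |v k| ≤ (M : ℤ) := by
          intro v hv k
          obtain ⟨a, b, hab⟩ := (a1.walk hr.RT).letters v (by
            rw [hA]; exact List.mem_append_left _ hv)
          exact hM _ _ _ hab k
        have h7 := sum_le h6 j
        have h8 : π.length ≤ N := by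
          have : u.length = π.length + A'.length := by rw [hA, List.length_append]
          omega
        have h9 : π.length * M ≤ M * N := by
          rw [Nat.mul_comm]
          exact Nat.mul_le_mul_left _ h8
        have h10 : ((π.length * M : ℕ) : ℤ) ≤ (M * N : ℕ) := by exact_mod_cast h9
        rw [List.sum_nil, Pi.zero_apply, sub_zero]
        push_cast at h10 ⊢
        linarith
      · obtain ⟨P, R, hPR, hb⟩ := h5 π₂ π' hβ
        refine ⟨g :: P, R, by rw [hPR, List.cons_append], fun j => ?_⟩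
        rw [hπ, List.sum_append, List.sum_cons, a4]
        simp only [Pi.add_apply]
        rw [add_sub_add_left_eq_sub]
        exact hb j

/-- one loop -/
theorem one_loop2 (hr : PR T W f Z m) {M g s : ℕ}
    (hM : ∀ p v q, (p, v, q) ∈ T → ∀ k, |v k| ≤ M) (hg : Module.finrank ℚ W ≤ g) (hs : 0 < s)
    (hneg : ∀ v ∈ Cl f Z F (2 * s), -v ∈ Cl f Z F (Lm g M s)) {h : Vec d}
    (hh : h ∈ AddSubgroup.closure (Cl f Z F (2 * s)))
    (hb : ∀ j, |h j| ≤ rB d g (2 * M * s)) {x : Vec d} (hx : ∀ j ∈ F, x j = Z 0 j) (a : ℕ)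
    (h0 : ∀ j ∉ F, ((dev2 g M s : ℕ) : ℤ) ≤ x j)
    (h1 : ∀ j ∉ F, ((dev2 g M s : ℕ) : ℤ) ≤ (x + a • h) j) :
    Rlz T (f 0) x (a • h) (f 0) (Lm g M s * lC d g M s + 1) := by
  obtain ⟨L₀, -, hL₀, hsum, -⟩ := list_closure (Cl_mono (two_le_Lm hs)) hneg hh
  obtain ⟨L, e1, e2, e3, e4⟩ := tube (k := g) (Γ := M * Lm g M s)
    (fun g' hg' j => Cl_bound hr hM hg' j)
    (fun g' hg' => Cl_mem hr hg') hg hL₀ (N := rB d g (2 * M * s))
    (fun j => by rw [hsum]; exact hb j)
  rw [hsum] at e2 e3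
  obtain ⟨β, b1, b2, b3, b4, b5⟩ := word_of2 hr hM L e1
  rw [e2] at b3
  rw [← b3]
  refine (Rlz_loop (b1.walk hr.RT) a fun i hi => ?_).mono ?_
  · refine Ok_of_prefix fun π π' hπ j => ?_
    by_cases hj : j ∈ F
    · have h3 : SW (RE f Z F) (VE f Z F) (f 0) (Z 0) (π ++ π') (f 0) := hπ ▸ b1
      obtain ⟨r, h4, -⟩ := h3.split
      obtain ⟨t, -, h5⟩ := h4.stop
      have h6 := h5 j hj
      have h7 := hr.nonneg t j
      simp only [Pi.add_apply, Pi.smul_apply, Pi.zero_apply] at h6 ⊢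
      rw [b2 j hj, hx j hj, smul_zero, add_zero, ← h6]
      exact h7
    · obtain ⟨P, R, hPR, h6⟩ := b5 π π' hπ
      have h7 := e3 P R hPR j
      have h8 := (abs_le.1 (h6 j)).1
      have h9 := h0 j hj
      have h10 := h1 j hj
      have hdev : ((dev2 g M s : ℕ) : ℤ) =
          (tN g (M * Lm g M s) * (M * Lm g M s) : ℕ) + (M * Lm g M s : ℕ) := by
        rw [dev2]; push_cast; ring
      rw [b3]
      simp only [Pi.add_apply, nsa, Pi.zero_apply] at h10 ⊢
      have hia : ((i : ℤ) + 1) ≤ a := by exact_mod_cast hi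
      have hi0 : (0 : ℤ) ≤ i := Int.natCast_nonneg _
      have h11 : ((dev2 g M s : ℕ) : ℤ) ≤ x j + i * h j + min 0 (h j) := by
        rcases le_total 0 (h j) with h12 | h12
        · rw [min_eq_left h12]
          have := mul_nonneg hi0 h12
          linarith
        · rw [min_eq_right h12]
          have h13 : (a : ℤ) * h j ≤ (i + 1) * h j := mul_le_mul_of_nonpos_right hia h12
          linarith
      linarith
  · have h3 : β.length ≤ Lm g M s * lC d g M s := b4.trans (Nat.mul_le_mul_left _ e4)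
    omega

/-- all loops -/
theorem all_loops2 (hr : PR T W f Z m) {M g s : ℕ}
    (hM : ∀ p v q, (p, v, q) ∈ T → ∀ k, |v k| ≤ M) (hg : Module.finrank ℚ W ≤ g) (hs : 0 < s)
    (hneg : ∀ v ∈ Cl f Z F (2 * s), -v ∈ Cl f Z F (Lm g M s)) {z : Vec d} :
    ∀ (D : List (ℕ × Vec d)), (∀ e ∈ D, e.2 ∈ AddSubgroup.closure (Cl f Z F (2 * s)) ∧
        (∀ j, |e.2 j| ≤ rB d g (2 * M * s)) ∧
        ∀ j, (0 ≤ z j → 0 ≤ e.2 j) ∧ (z j ≤ 0 → e.2 j ≤ 0)) →
      ∀ {x : Vec d}, (∀ j ∈ F, x j = Z 0 j) → (∀ j ∉ F, ((dev2 g M s : ℕ) : ℤ) ≤ x j) →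
      (∀ j ∉ F, ((dev2 g M s : ℕ) : ℤ) ≤ (x + (D.map fun e => e.1 • e.2).sum) j) →
      Rlz T (f 0) x (D.map fun e => e.1 • e.2).sum (f 0)
        (D.length * (Lm g M s * lC d g M s + 1)) := by
  intro D
  induction D with
  | nil =>
    intro _ x _ _ _
    simpa using Rlz.nil (f 0) x
  | cons e D ih =>
    intro hD x hx h0 h1
    have hD' : ∀ e' ∈ D, _ := fun e' he' => hD e' (List.mem_cons_of_mem _ he')
    obtain ⟨c1, c2, c3⟩ := hD e List.mem_cons_self
    rw [List.map_cons, List.sum_cons] at h1 ⊢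
    have hsg : ∀ j, (0 ≤ z j → 0 ≤ (D.map fun e => e.1 • e.2).sum j) ∧
        (z j ≤ 0 → (D.map fun e => e.1 • e.2).sum j ≤ 0) := by
      intro j
      clear ih h1
      induction D with
      | nil => simp
      | cons f D ih2 =>
        have h2 := ih2 (fun e' he' => hD e' (by
            rw [List.mem_cons] at he' ⊢
            rcases he' with rfl | he'
            · exact Or.inl rfl
            · exact Or.inr (List.mem_cons_of_mem _ he')))
          (fun e' he' => hD' e' (List.mem_cons_of_mem _ he'))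
        obtain ⟨-, -, c6⟩ := hD' f List.mem_cons_self
        rw [List.map_cons, List.sum_cons, Pi.add_apply, nsa]
        have h3 : (0 : ℤ) ≤ (f.1 : ℕ) := Int.natCast_nonneg _
        exact ⟨fun h => add_nonneg (mul_nonneg h3 ((c6 j).1 h)) (h2.1 h),
          fun h => add_nonpos (mul_nonpos_of_nonneg_of_nonpos h3 ((c6 j).2 h)) (h2.2 h)⟩
    have hmid : ∀ j ∉ F, ((dev2 g M s : ℕ) : ℤ) ≤ (x + e.1 • e.2) j := by
      intro j hj
      have h2 := h0 j hj
      have h3 := h1 j hj
      have h4 : (0 : ℤ) ≤ (e.1 : ℕ) := Int.natCast_nonneg _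
      simp only [Pi.add_apply, nsa] at h3 ⊢
      rcases le_total 0 (z j) with h5 | h5
      · have := mul_nonneg h4 ((c3 j).1 h5)
        linarith
      · have := (hsg j).2 h5
        linarith
    have h2 := one_loop2 hr hM hg hs hneg c1 c2 hx e.1 h0 hmid
    have h3 := ih hD' (x := x + e.1 • e.2) (fun j hj => by
      rw [Pi.add_apply, Pi.smul_apply, Cl_zero c1 hj, smul_zero, add_zero]
      exact hx j hj) hmid (fun j hj => by rw [add_assoc]; exact h1 j hj)
    refine (h2.append h3).mono ?_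
    rw [List.length_cons]
    have : (D.length + 1) * (Lm g M s * lC d g M s + 1) =
      D.length * (Lm g M s * lC d g M s + 1) + (Lm g M s * lC d g M s + 1) := by ring
    omega

/-- the run between two times -/
theorem ret_times [Fintype Q] (hr : PR T W f Z m) {M : ℕ}
    (hM : ∀ p v q, (p, v, q) ∈ T → ∀ k, |v k| ≤ (M : ℤ)) {g : ℕ}
    (hg : Module.finrank ℚ W ≤ g) (i : ℕ) :
    Rlz T (f 0) (Z 0) (Z i - Z 0) (f i) (cRet (Fintype.card Q) d M g) := by
  set n := Fintype.card Q with hn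
  obtain ⟨F, r, hF⟩ := exists_MF W (sR n d M g) Z
  have ht := thr2 n d M g
  set s := sT n d M g r with hsdef
  have hsh : ∀ p x u q, SW (RE f Z F) (VE f Z F) p x u q → ∃ u', SW (RE f Z F) (VE f Z F) p x u' q ∧
      (∀ j ∈ F, u'.sum j = u.sum j) ∧ u'.length < s := cyc_short hr ht hF
  have hfin := cyc_fin hr ht hF
  have hnil : SW (RE f Z F) (VE f Z F) (f 0) (Z 0) [] (f 0) := .nil ⟨0, rfl, fun _ _ => rfl⟩
  have hspos : 0 < s := by
    obtain ⟨τ, -, -, h3⟩ := hsh _ _ _ _ hnil
    exact lt_of_le_of_lt (Nat.zero_le _) h3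
  have hneg : ∀ v ∈ Cl f Z F (2 * s), -v ∈ Cl f Z F (Lm g M s) := fun v hv =>
    Cl_neg hr hM hg hsh hfin hv
  obtain ⟨τ₁, a1, a2, a3, a4, a5⟩ := fwd hM hr ht hF 0
  obtain ⟨y, τ₂, b1, b2, b3, b4, b5, b6⟩ := bwd hM hr ht hF i
  -- the difference of the two lifts
  have hseg : SW (RE f Z F) (VE f Z F) (f 0) (Z 0) (seg Z 0 i) (f i) := by
    have h1 := seg_walk f Z F (VE f Z F) (VE_inv f Z F) 0 i
      (fun t _ _ => ⟨t, rfl, fun _ _ => rfl⟩) (x := Z 0) fun _ _ => rfl
    rwa [Nat.zero_add] at h1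
  have hτ₂ : SW (RE f Z F) (VE f Z F) (f 0) (Z 0) τ₂ (f i) :=
    b1.congr (RE_inv f Z F) (VE_inv f Z F) fun j hj => (b5 j hj).symm
  have hz1 := Cl_gen hr hsh hseg hτ₂ (fun j hj => by
    have h1 := congrFun b3 j
    have h2 := b5 j hj
    rw [seg_sum, Nat.zero_add]
    simp only [Pi.add_apply, Pi.sub_apply] at h1 ⊢
    linarith)
  have hz2 := Cl_gen hr hsh a1 hnil (fun j hj => by
    have h1 := a4 j hj
    rw [Pi.add_apply] at h1
    simp only [List.sum_nil, Pi.zero_apply]
    linarith)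
  have hz : (y - (Z 0 + τ₁.sum)) ∈ AddSubgroup.closure (Cl f Z F (2 * s)) := by
    have h1 := AddSubgroup.sub_mem _ hz1 hz2
    have e : (seg Z 0 i).sum - τ₂.sum - (τ₁.sum - ([] : List (Vec d)).sum) =
        y - (Z 0 + τ₁.sum) := by
      rw [seg_sum, Nat.zero_add, ← b3, List.sum_nil]
      abel
    rwa [e] at h1
  obtain ⟨D, d1, d2, d3⟩ := conf (k := g) (Γ := 2 * M * s) (fun g' hg' j => by
      have h1 := Cl_bound hr hM hg' j
      have e : M * (2 * s) = 2 * M * s := by ring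
      rwa [e] at h1)
    (fun g' hg' => Cl_mem hr hg') hg hz
  have h1 := Rlz_word (a1.walk hr.RT) a2
  have hend : Z 0 + τ₁.sum + (D.map fun e => e.1 • e.2).sum = y := by
    rw [d2]
    abel
  have h2 := all_loops2 hr hM hg hspos hneg D d3 (x := Z 0 + τ₁.sum)
    (fun j hj => (a4 j hj).symm) a5 (fun j hj => by
      rw [hend]
      exact b6 j hj)
  have h4 := Rlz_word (b1.walk hr.RT) b2
  have h5 := (h1.append h2).append (by rw [← add_assoc, hend]; exact h4)
  have e : τ₁.sum + (D.map fun e => e.1 • e.2).sum + τ₂.sum = Z i - Z 0 := by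
    rw [d2, ← b3]
    abel
  rw [e] at h5
  refine h5.mono ?_
  have hrg : r ≤ g := by
    have := hF.flt.2
    omega
  have hsg : s ≤ sT n d M g g := sT_mono n d M g hrg
  have hL0 : ∑ i ∈ range (Module.finrank ℚ W + 1), sT n d M g i ≤ (g + 1) * sT n d M g g := by
    calc ∑ i ∈ range (Module.finrank ℚ W + 1), sT n d M g i
        ≤ ∑ i ∈ range (Module.finrank ℚ W + 1), sT n d M g g :=
          Finset.sum_le_sum fun i hi => sT_mono n d M g (by rw [mem_range] at hi; omega)
      _ = (Module.finrank ℚ W + 1) * sT n d M g g := by simp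
      _ ≤ _ := Nat.mul_le_mul_right _ (by omega)
  have h6 : lC d g M s ≤ lC d g M (sT n d M g g) := lC_mono hsg
  have h7 : Lm g M s * lC d g M s + 1 ≤
      Lm g M (sT n d M g g) * lC d g M (sT n d M g g) + 1 :=
    Nat.add_le_add_right (Nat.mul_le_mul (Lm_mono hsg) h6) 1
  have h8 := Nat.mul_le_mul d1 h7
  unfold cRet
  omega

/-- **Returning runs follow small path schemes.** -/
theorem ret_part [Fintype Q] {g M : ℕ} (hM : ∀ p v q, (p, v, q) ∈ T → ∀ k, |v k| ≤ (M : ℤ))
    {p q : Q} {x : Vec d} {w w' : List (Vec d)} (hx : 0 ≤ x)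
    (hg : Module.finrank ℚ (Wp T p) ≤ g) (hw : Walk T p w q) (hok : Ok x w)
    (hw' : Walk T q w' p) (hok' : Ok (x + w.sum) w') (hs : w.sum + w'.sum = 0) :
    Rlz T p x w.sum q (cRet (Fintype.card Q) d M g) := by
  rcases Nat.eq_zero_or_pos (w ++ w').length with h0 | h0
  · rw [List.length_append] at h0
    have h1 : w = [] := List.eq_nil_of_length_eq_zero (by omega)
    subst h1
    cases hw with
    | nil _ => exact (Rlz.nil p x).mono (Nat.zero_le _)
  · obtain ⟨f, Z, hr, rfl, rfl, i, rfl, hi⟩ := closed_PR hx hw hok hw' hok' hs h0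
    have h1 := ret_times hr hM hg i
    rw [hi, add_sub_cancel_left] at h1
    exact h1

end Pool.Agent.REV
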