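import Pool.Agent.REV.Pieces
import Pool.Agent.REV.Ret
import Pool.Agent.REV.Num2
import Pool.Agent.REV.Final

/-!
# REV / Final2: short covering runs for runs composed of returning runs and other pieces
-/

set_option autoImplicit false

namespace Pool.Agent.REV

open Pool.Agent.EEF Finset

variable {Q : Type} {d : ℕ} {T : VASS Q d}

theorem pieces_rlz [Fintype Q] {K : ℕ} {p q : Q} {x y : Fin d → ℕ} (h : Pieces T K p x q y) :
    Rlz T p (zv x) (zv y - zv x) q (K * (max (cZ (Fintype.card Q) d (maxNorm T))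
      (cRet (Fintype.card Q) d (maxNorm T) (geomDim T)) + 2)) := by
  set C := max (cZ (Fintype.card Q) d (maxNorm T))
      (cRet (Fintype.card Q) d (maxNorm T) (geomDim T)) with hC
  have hC1 : cZ (Fintype.card Q) d (maxNorm T) ≤ C := le_max_left _ _
  have hC2 : cRet (Fintype.card Q) d (maxNorm T) (geomDim T) ≤ C := le_max_right _ _
  induction h with
  | nil p x => simpa using Rlz.nil p (zv x)
  | @step K p p' q v x x' y h1 h2 _ ih =>
    have e : zv x' = zv x + v := by
      funext k
      exact h2 k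
    have h3 := Rlz.step h1 (x := zv x) (by rw [← e]; exact zv_nonneg x')
    have h4 := h3.append (by rw [← e]; exact ih)
    have e2 : v + (zv y - zv x') = zv y - zv x := by rw [e]; abel
    rw [e2] at h4
    refine h4.mono ?_
    have : (K + 1) * (C + 2) = K * (C + 2) + (C + 2) := by ring
    omega
  | @ret K p p' q x x' y w w' h1 h2 _ ih =>
    obtain ⟨a1, a2, a3⟩ := run_iff.1 h1
    obtain ⟨b1, b2, b3⟩ := run_iff.1 h2
    have h3 := ret_part (fun _ _ _ h k => abs_le_maxNorm h k) (zv_nonneg x) (finrank_le_geomDim T p) a1 a2 b1 (by rw [← a3]; exact b2)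
      (by
        rw [b3] at a3
        have h5 : w'.sum + w.sum = 0 := by
          have h6 : zv x' + (w'.sum + w.sum) = zv x' + 0 := by
            rw [← add_assoc, add_zero]
            exact a3.symm
          exact add_left_cancel h6
        rw [add_comm]
        exact h5)
    have h4 := h3.append (by rw [← a3]; exact ih)
    have e2 : w.sum + (zv y - zv x') = zv y - zv x := by rw [a3]; abel
    rw [e2] at h4
    refine h4.mono ?_
    have : (K + 1) * (C + 2) = K * (C + 2) + (C + 2) := by ring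
    omega
  | @thin K p p' q x x' y w h0 h1 h2 _ ih =>
    obtain ⟨a1, a2, a3⟩ := run_iff.1 h1
    have h3 := scc_part h0 (zv_nonneg x) ⟨[], .nil p⟩ h2 a1 a2
    have h4 := h3.append (by rw [← a3]; exact ih)
    have e2 : w.sum + (zv y - zv x') = zv y - zv x := by rw [a3]; abel
    rw [e2] at h4
    refine h4.mono ?_
    have : (K + 1) * (C + 2) = K * (C + 2) + (C + 2) := by ring
    omega
  | @loop K p q x x' y β a h1 h2 _ ih =>
    obtain ⟨a1, a2, a3⟩ := run_iff.1 h2
    have h3 : Rlz T p (zv x) (List.replicate a β).flatten.sum p (β.length + 1) := by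
      refine ⟨[([], β, a)], .cons (.nil _) h1 (.nil _), ?_, ?_, ?_⟩
      · rw [unroll_cons, unroll_nil, wrd]
        simpa [rep] using a2
      · rw [unroll_cons, unroll_nil, wrd]
        simp [rep]
      · simp [schemeSize, isk]
    have h4 := h3.append (by rw [← a3]; exact ih)
    have e2 : (List.replicate a β).flatten.sum + (zv y - zv x') = zv y - zv x := by
      rw [a3]; abel
    rw [e2] at h4
    refine h4.mono ?_
    have e3 : (K + (β.length + 1)) * (C + 2) = K * (C + 2) + (β.length + 1) * (C + 2) := by ring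
    have e4 : β.length + 1 ≤ (β.length + 1) * (C + 2) := Nat.le_mul_of_pos_right _ (by omega)
    omega

theorem cZ_mono {n n' d M : ℕ} (h : n ≤ n') : cZ n d M ≤ cZ n' d M := by
  unfold cZ cA
  gcongr

theorem num_all {n d M g K s : ℕ} (hn : 1 ≤ n) (hg : g ≤ d)
    (hs : s ≤ K * (max (cZ n d M) (cRet n d M g) + 2)) :
    (45 * (s + 1) ^ 4 * (d + 1) ^ 3 * (M + 1) ^ 2) ^ (g + 1) ≤
      (((K + 1) * 100 * n * (d + 1) ^ 3 * (M + 1) ^ 3) ^ 1000) ^ (100 ^ g * (g + 1) ^ g) := by
  rcases le_total (cZ n d M) (cRet n d M g) with h | h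
  · rw [max_eq_right h] at hs
    exact num_ret hn hg hs
  · rw [max_eq_left h] at hs
    have hn' : 1 ≤ n * (K + 1) := Nat.mul_pos hn (Nat.succ_pos K)
    have hs' : s ≤ n * (K + 1) * (max (cZ (n * (K + 1)) d M) (cRev (n * (K + 1)) d M g) + 2) := by
      refine hs.trans (Nat.mul_le_mul ?_ (Nat.add_le_add_right ?_ 2))
      · exact (Nat.le_succ K).trans (Nat.le_mul_of_pos_left _ hn)
      · exact (cZ_mono (Nat.le_mul_of_pos_right n (Nat.succ_pos K))).trans (le_max_left _ _)
    refine (num_rev hn' hg hs').trans ?_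
    rw [← pow_mul, ← pow_mul]
    have hb : 29 * (n * (K + 1)) * (d + 1) ^ 3 * (M + 1) ^ 2 ≤
        (K + 1) * 100 * n * (d + 1) ^ 3 * (M + 1) ^ 3 := by
      calc 29 * (n * (K + 1)) * (d + 1) ^ 3 * (M + 1) ^ 2
          ≤ 100 * (n * (K + 1)) * (d + 1) ^ 3 * (M + 1) ^ 3 := by
            gcongr
            · norm_num
            · exact Nat.succ_pos M
            · norm_num
        _ = _ := by ring
    have hpos : 0 < (K + 1) * 100 * n * (d + 1) ^ 3 * (M + 1) ^ 3 := by positivity
    refine (Nat.pow_le_pow_left hb _).trans (Nat.pow_le_pow_right hpos ?_)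
    have h1 : 24 ^ g ≤ 100 ^ g * (g + 1) ^ g :=
      (Nat.pow_le_pow_left (by norm_num) g).trans
        (Nat.le_mul_of_pos_right _ (pow_pos (Nat.succ_pos g) g))
    exact Nat.mul_le_mul (by norm_num) h1

theorem pieces_main [Fintype Q] {K : ℕ} {s t : Q} {x y y' : Fin d → ℕ}
    (h : Pieces T K s x t y') (hy : ∀ k, y k ≤ y' k) :
    ∃ (w' : List (Fin d → ℤ)) (y'' : Fin d → ℕ), Run T s x w' t y'' ∧ (∀ k, y k ≤ y'' k) ∧
      w'.length ≤ max 1 (supN y) *
        (((K + 1) * 100 * Fintype.card Q * (d + 1) ^ 3 * (maxNorm T + 1) ^ 3) ^ 1000) ^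
          (100 ^ geomDim T * (geomDim T + 1) ^ geomDim T) := by
  obtain ⟨I, e1, e2, e3, e4⟩ := pieces_rlz h
  obtain ⟨a, ha⟩ := exists_items I
  have hw : unroll I = schemeWord (I.map isk) a := by
    conv_lhs => rw [ha]
    rw [items_unroll]
  have hrun' : Run T s x (schemeWord (I.map isk) a) t y' := by
    rw [← hw]
    refine run_iff.2 ⟨scheme_walk I e1, e2, ?_⟩
    rw [e3]
    abel
  obtain ⟨a', y'', h4, h5, h6⟩ := scheme_main e1 hrun' hy
  refine ⟨_, y'', h4, h5, h6.trans (Nat.mul_le_mul_left _ ?_)⟩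
  have hn : 1 ≤ Fintype.card Q := Fintype.card_pos_iff.2 ⟨s⟩
  have hg : geomDim T ≤ d := by
    refine (Submodule.finrank_le _).trans ?_
    rw [Module.finrank_fintype_fun_eq_card, Fintype.card_fin]
  refine le_trans ?_ (num_all hn hg e4)
  refine Nat.pow_le_pow_right ?_ (Nat.add_le_add_right (schemeDim_le e1) 1)
  positivity

end Pool.Agent.REV
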