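import Pool.Agent.REV.Pieces2
import Pool.Agent.REV.Drain
import Pool.Agent.REV.Final2

/-!
# REV / Final3: short covering runs for runs composed of recoverable runs and other pieces
-/

set_option autoImplicit false

namespace Pool.Agent.REV

open Pool.Agent.EEF Finset

variable {Q : Type} {d : ℕ} {T : VASS Q d}

/-- the norm after adding the drains -/
def Mp (n d M g : ℕ) : ℕ := max M (rB d g (M * n))

theorem rec_rlz [Fintype Q] {K : ℕ} {p q : Q} {x y : Fin d → ℕ} (h : RecPieces T K p x q y) :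
    RlzC T p (zv x) (zv y) q (K * (max (cZ (Fintype.card Q) d (maxNorm T))
      (cRet (Fintype.card Q) d (Mp (Fintype.card Q) d (maxNorm T) (geomDim T)) (geomDim T)) +
        2)) := by
  set C := max (cZ (Fintype.card Q) d (maxNorm T))
      (cRet (Fintype.card Q) d (Mp (Fintype.card Q) d (maxNorm T) (geomDim T)) (geomDim T)) with hC
  have hC1 : cZ (Fintype.card Q) d (maxNorm T) ≤ C := le_max_left _ _
  have hC2 : cRet (Fintype.card Q) d (Mp (Fintype.card Q) d (maxNorm T) (geomDim T))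
      (geomDim T) ≤ C := le_max_right _ _
  induction h with
  | nil p x =>
    have h1 := rlz_toC (Rlz.nil (T := T) p (zv x))
    rw [add_zero] at h1
    exact h1.mono (Nat.zero_le _)
  | @step K p p' q v x x' y h1 h2 _ ih =>
    have e : zv x' = zv x + v := by
      funext k
      exact h2 k
    have h3 := rlz_toC (Rlz.step h1 (x := zv x) (by rw [← e]; exact zv_nonneg x'))
    rw [← e] at h3
    refine (h3.append ih).mono ?_
    have : (K + 1) * (C + 2) = K * (C + 2) + (C + 2) := by ring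
    omega
  | @recover K p p' q x x' y w w' h1 h2 _ ih =>
    obtain ⟨z, h2, hz⟩ := h2
    obtain ⟨a1, a2, a3⟩ := run_iff.1 h1
    obtain ⟨b1, b2, b3⟩ := run_iff.1 h2
    have hz' : zv x ≤ zv z := fun k => by
      have := hz k
      simp only [zv]
      exact_mod_cast this
    have h3 := rec_part (fun _ _ _ h k => abs_le_maxNorm h k) (zv_nonneg x)
      (finrank_le_geomDim T p) a1 a2 b1 (by rw [← a3]; exact b2) (by
        have h5 : w.sum + w'.sum = zv z - zv x := by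
          rw [b3, a3]
          abel
        rw [h5]
        exact sub_nonneg.2 hz')
    rw [← a3] at h3
    refine (h3.append ih).mono ?_
    have h6 : (K + 1) * (C + 2) = K * (C + 2) + (C + 2) := by ring
    have h7 : cRet (Fintype.card Q) d (max (maxNorm T)
        (rB d (geomDim T) (maxNorm T * Fintype.card Q))) (geomDim T) ≤ C := hC2
    omega
  | @thin K p p' q x x' y w h0 h1 h2 _ ih =>
    obtain ⟨a1, a2, a3⟩ := run_iff.1 h1
    have h3 := rlz_toC (scc_part h0 (zv_nonneg x) ⟨[], .nil p⟩ h2 a1 a2)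
    rw [← a3] at h3
    refine (h3.append ih).mono ?_
    have : (K + 1) * (C + 2) = K * (C + 2) + (C + 2) := by ring
    omega
  | @loop K p q x x' y β a h1 h2 _ ih =>
    obtain ⟨a1, a2, a3⟩ := run_iff.1 h2
    have h3 : Rlz T p (zv x) (List.replicate a β).flatten.sum p (β.length + 1) := by
      refine ⟨[([], β, a)], .cons (.nil _) h1 (.nil _), ?_, ?_, ?_⟩
      · rw [unroll_cons, unroll_nil, wrd]
        simpa [rep] using a2
      · rw [unroll_cons, unroll_nil, wrd]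
        simp [rep]
      · simp [schemeSize, isk]
    have h4 := rlz_toC h3
    rw [← a3] at h4
    refine (h4.append ih).mono ?_
    have e3 : (K + (β.length + 1)) * (C + 2) = K * (C + 2) + (β.length + 1) * (C + 2) := by ring
    have e4 : β.length + 1 ≤ (β.length + 1) * (C + 2) := Nat.le_mul_of_pos_right _ (by omega)
    omega

theorem cZ_monoM {n d M M' : ℕ} (h : M ≤ M') : cZ n d M ≤ cZ n d M' := by
  unfold cZ cA
  gcongr

theorem Mp_le {n d M g K : ℕ} (hn : 1 ≤ n) (hg : g ≤ d) :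
    Mp n d M g + 1 ≤ ((K + 1) * 100 * n * (d + 1) ^ 3 * (M + 1) ^ 3) ^ (g + 1) := by
  obtain ⟨X, hX⟩ : ∃ X, X = (K + 1) * 100 * n * (d + 1) ^ 3 * (M + 1) ^ 3 := ⟨_, rfl⟩
  rw [← hX]
  have hd1 : 1 ≤ d + 1 := Nat.succ_pos d
  have hM1 : 1 ≤ M + 1 := Nat.succ_pos M
  have hd3 : d + 1 ≤ (d + 1) ^ 3 := Nat.le_self_pow (by norm_num) _
  have hM3 : M + 1 ≤ (M + 1) ^ 3 := Nat.le_self_pow (by norm_num) _
  have key : 100 * (n * ((d + 1) * (M + 1))) ≤ X := by
    calc 100 * (n * ((d + 1) * (M + 1))) = 1 * 100 * n * (d + 1) * (M + 1) := by ring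
      _ ≤ (K + 1) * 100 * n * (d + 1) ^ 3 * (M + 1) ^ 3 := by
          gcongr
          exact Nat.succ_pos K
      _ = X := hX.symm
  have hdM : d + 1 ≤ n * ((d + 1) * (M + 1)) := by
    calc d + 1 = 1 * ((d + 1) * 1) := by ring
      _ ≤ n * ((d + 1) * (M + 1)) := by gcongr
  have hMM : M + 1 ≤ n * ((d + 1) * (M + 1)) := by
    calc M + 1 = 1 * (1 * (M + 1)) := by ring
      _ ≤ n * ((d + 1) * (M + 1)) := by gcongr
  have hX1 : 1 ≤ X := by omega
  have hY : 2 * g * (M * n) + 1 ≤ X := by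
    have h1 : g * (M * n) ≤ n * ((d + 1) * (M + 1)) := by
      calc g * (M * n) ≤ (d + 1) * ((M + 1) * n) :=
            Nat.mul_le_mul (by omega) (Nat.mul_le_mul_right _ (Nat.le_succ M))
        _ = _ := by ring
    have h2 : 2 * g * (M * n) = 2 * (g * (M * n)) := by ring
    omega
  have h1 : rB d g (M * n) + 1 ≤ X ^ (g + 1) := by
    unfold rB
    have h2 : (2 * g * (M * n) + 1) ^ g ≤ X ^ g := Nat.pow_le_pow_left hY g
    have h3 : 1 ≤ X ^ g := Nat.one_le_pow _ _ hX1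
    calc (d + 1) * (2 * g * (M * n) + 1) ^ g + 1 ≤ (d + 1) * X ^ g + X ^ g :=
          Nat.add_le_add (Nat.mul_le_mul_left _ h2) h3
      _ = (d + 2) * X ^ g := by ring
      _ ≤ X * X ^ g := Nat.mul_le_mul_right _ (by omega)
      _ = X ^ (g + 1) := by ring
  have h2 : M + 1 ≤ X ^ (g + 1) := by
    have h3 : X ≤ X ^ (g + 1) := Nat.le_self_pow (by omega) _
    omega
  unfold Mp
  rcases le_total M (rB d g (M * n)) with h3 | h3
  · rw [max_eq_right h3]; exact h1
  · rw [max_eq_left h3]; exact h2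

theorem num_rec {n d M g K s : ℕ} (hn : 1 ≤ n) (hg : g ≤ d)
    (hs : s ≤ K * (max (cZ n d M) (cRet n d (Mp n d M g) g) + 2)) :
    (45 * (s + 1) ^ 4 * (d + 1) ^ 3 * (M + 1) ^ 2) ^ (g + 1) ≤
      (((K + 1) * 100 * n * (d + 1) ^ 3 * (M + 1) ^ 3) ^ 4000) ^
        (100 ^ g * (g + 1) ^ (g + 1)) := by
  have hMp : M ≤ Mp n d M g := le_max_left _ _
  have hs' : s ≤ K * (max (cZ n d (Mp n d M g)) (cRet n d (Mp n d M g) g) + 2) :=
    hs.trans (Nat.mul_le_mul_left _ (Nat.add_le_add_right (max_le_max (cZ_monoM hMp) le_rfl) 2))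
  have h1 := num_all hn hg hs'
  have h0 : (45 * (s + 1) ^ 4 * (d + 1) ^ 3 * (M + 1) ^ 2) ^ (g + 1) ≤
      (45 * (s + 1) ^ 4 * (d + 1) ^ 3 * (Mp n d M g + 1) ^ 2) ^ (g + 1) := by gcongr
  refine (h0.trans h1).trans ?_
  have hm := Mp_le (n := n) (d := d) (M := M) (g := g) (K := K) hn hg
  obtain ⟨X, hX⟩ : ∃ X, X = (K + 1) * 100 * n * (d + 1) ^ 3 * (M + 1) ^ 3 := ⟨_, rfl⟩
  rw [← hX] at hm ⊢
  have hX1 : 1 ≤ X := by
    rw [hX]
    have : 0 < n := hn
    exact Nat.succ_le_of_lt (by positivity)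
  have h2 : (K + 1) * 100 * n * (d + 1) ^ 3 ≤ X := by
    rw [hX]
    exact Nat.le_mul_of_pos_right _ (by positivity)
  have h3 : (K + 1) * 100 * n * (d + 1) ^ 3 * (Mp n d M g + 1) ^ 3 ≤ X ^ (3 * g + 4) := by
    calc (K + 1) * 100 * n * (d + 1) ^ 3 * (Mp n d M g + 1) ^ 3 ≤ X * (X ^ (g + 1)) ^ 3 :=
          Nat.mul_le_mul h2 (Nat.pow_le_pow_left hm 3)
      _ = X ^ (3 * g + 4) := by rw [← pow_mul]; ring
  calc (((K + 1) * 100 * n * (d + 1) ^ 3 * (Mp n d M g + 1) ^ 3) ^ 1000) ^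
        (100 ^ g * (g + 1) ^ g) ≤ ((X ^ (3 * g + 4)) ^ 1000) ^ (100 ^ g * (g + 1) ^ g) :=
        Nat.pow_le_pow_left (Nat.pow_le_pow_left h3 _) _
    _ = X ^ ((3 * g + 4) * 1000 * (100 ^ g * (g + 1) ^ g)) := by
        rw [← pow_mul, ← pow_mul, Nat.mul_assoc (3 * g + 4)]
    _ ≤ X ^ (4000 * (100 ^ g * (g + 1) ^ (g + 1))) := by
        refine Nat.pow_le_pow_right hX1 ?_
        calc (3 * g + 4) * 1000 * (100 ^ g * (g + 1) ^ g)
            ≤ (4 * (g + 1)) * 1000 * (100 ^ g * (g + 1) ^ g) := by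
              refine Nat.mul_le_mul_right _ (Nat.mul_le_mul_right _ ?_)
              omega
          _ = 4000 * (100 ^ g * (g + 1) ^ (g + 1)) := by ring
    _ = (X ^ 4000) ^ (100 ^ g * (g + 1) ^ (g + 1)) := by rw [← pow_mul]

theorem rec_main [Fintype Q] {K : ℕ} {s t : Q} {x y y' : Fin d → ℕ}
    (h : RecPieces T K s x t y') (hy : ∀ k, y k ≤ y' k) :
    ∃ (w' : List (Fin d → ℤ)) (y'' : Fin d → ℕ), Run T s x w' t y'' ∧ (∀ k, y k ≤ y'' k) ∧
      w'.length ≤ max 1 (supN y) *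
        (((K + 1) * 100 * Fintype.card Q * (d + 1) ^ 3 * (maxNorm T + 1) ^ 3) ^ 4000) ^
          (100 ^ geomDim T * (geomDim T + 1) ^ (geomDim T + 1)) := by
  obtain ⟨I, e1, e2, e3, e4⟩ := rec_rlz h
  obtain ⟨a, ha⟩ := exists_items I
  have hw : unroll I = schemeWord (I.map isk) a := by
    conv_lhs => rw [ha]
    rw [items_unroll]
  -- the configuration reached by the scheme
  have hend : ∃ z : Fin d → ℕ, zv z = zv x + (unroll I).sum := by
    refine ⟨fun k => ((zv x + (unroll I).sum) k).toNat, ?_⟩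
    funext k
    have h1 := e3 k
    have h2 : (0 : ℤ) ≤ zv y' k := zv_nonneg y' k
    exact Int.toNat_of_nonneg (h2.trans h1)
  obtain ⟨z, hz⟩ := hend
  have hyz : ∀ k, y k ≤ z k := by
    intro k
    have h1 := e3 k
    rw [← hz] at h1
    have h2 : (y' k : ℤ) ≤ z k := h1
    have h3 := hy k
    omega
  have hrun' : Run T s x (schemeWord (I.map isk) a) t z := by
    rw [← hw]
    exact run_iff.2 ⟨scheme_walk I e1, e2, hz⟩
  obtain ⟨a', y'', h4, h5, h6⟩ := scheme_main e1 hrun' hyz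
  refine ⟨_, y'', h4, h5, h6.trans (Nat.mul_le_mul_left _ ?_)⟩
  have hn : 1 ≤ Fintype.card Q := Fintype.card_pos_iff.2 ⟨s⟩
  have hg : geomDim T ≤ d := by
    refine (Submodule.finrank_le _).trans ?_
    rw [Module.finrank_fintype_fun_eq_card, Fintype.card_fin]
  refine le_trans ?_ (num_rec hn hg e4)
  refine Nat.pow_le_pow_right ?_ (Nat.add_le_add_right (schemeDim_le e1) 1)
  positivity

end Pool.Agent.REV
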