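import Pool.Agent.REV.Irr
import Pool.Agent.REV.Final3

/-!
# REV / Final4: short covering runs when some covering run has few irrecoverable steps
-/

set_option autoImplicit false

namespace Pool.Agent.REV

open Pool.Agent.EEF Finset

variable {Q : Type} {d : ℕ} {T : VASS Q d}

/-- runs from larger configurations -/
theorem run_lift {p q : Q} {x y x' : Fin d → ℕ} {w : List (Fin d → ℤ)} (h : Run T p x w q y)
    (hx : ∀ k, x k ≤ x' k) : ∃ y', Run T p x' w q y' ∧ ∀ k, y k ≤ y' k := by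
  induction h generalizing x' with
  | nil p x => exact ⟨x', .nil p x', hx⟩
  | @cons p p' q v x x₁ y w h1 h2 _ ih =>
    obtain ⟨y', h3, h4⟩ := ih (x' := fun k => x₁ k + (x' k - x k)) (fun k => Nat.le_add_right _ _)
    refine ⟨y', .cons h1 (fun k => ?_) h3, h4⟩
    have h5 := h2 k
    have h6 := hx k
    push_cast [Nat.cast_sub h6]
    linarith

theorem run_append {p q r : Q} {x y z : Fin d → ℕ} {u w : List (Fin d → ℤ)}
    (h : Run T p x u q y) (h' : Run T q y w r z) : Run T p x (u ++ w) r z := by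
  induction h with
  | nil p x => exact h'
  | cons h1 h2 _ ih => exact .cons h1 h2 (ih h')

theorem covers_trans {p q r : Q} {x y z : Fin d → ℕ} {u w : List (Fin d → ℤ)}
    (h : Covers T p x q y u) (h' : Covers T q y r z w) : Covers T p x r z (u ++ w) := by
  obtain ⟨y', h1, h2⟩ := h
  obtain ⟨z', h3, h4⟩ := h'
  obtain ⟨z'', h5, h6⟩ := run_lift h3 h2
  exact ⟨z'', run_append h1 h5, fun k => (h4 k).trans (h6 k)⟩

theorem irr_pieces {K : ℕ} {p q : Q} {x y : Fin d → ℕ} (h : FewIrr T K p x q y) :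
    ∃ (p' : Q) (x' : Fin d → ℕ) (w w' : List (Fin d → ℤ)) (K' : ℕ), Run T p x w p' x' ∧
      Covers T p' x' p x w' ∧ K' ≤ 2 * K ∧ RecPieces T K' p' x' q y := by
  induction h with
  | nil p x => exact ⟨p, x, [], [], 0, .nil p x, ⟨x, .nil p x, fun _ => le_rfl⟩, le_rfl, .nil p x⟩
  | free h1 h2 h3 _ ih =>
    obtain ⟨p₂, x₂, w, w', K', h4, h5, h6, h7⟩ := ih
    exact ⟨p₂, x₂, _, _, K', .cons h1 h2 h4, covers_trans h5 h3, h6, h7⟩
  | @step K p p' q v x x' y h1 h2 _ ih =>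
    obtain ⟨p₂, x₂, w, w', K', h4, h5, h6, h7⟩ := ih
    exact ⟨p, x, [], [], K' + 1 + 1, .nil p x, ⟨x, .nil p x, fun _ => le_rfl⟩, by omega,
      .step h1 h2 (.recover h4 h5 h7)⟩
  | @thin K p p' q x x' y w h0 h1 h2 _ ih =>
    obtain ⟨p₂, x₂, w, w', K', h4, h5, h6, h7⟩ := ih
    exact ⟨p, x, [], [], K' + 1 + 1, .nil p x, ⟨x, .nil p x, fun _ => le_rfl⟩, by omega,
      .thin h0 h1 h2 (.recover h4 h5 h7)⟩
  | @loop K p q x x' y β a h1 h2 _ ih =>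
    obtain ⟨p₂, x₂, w, w', K', h4, h5, h6, h7⟩ := ih
    exact ⟨p, x, [], [], K' + 1 + (β.length + 1), .nil p x, ⟨x, .nil p x, fun _ => le_rfl⟩,
      by omega, .loop h1 h2 (.recover h4 h5 h7)⟩

theorem num_sharp {n d M g K s : ℕ} (hn : 1 ≤ n) (hg : g ≤ d)
    (hs : s ≤ (2 * K + 1) * (max (cZ n d M) (cRet n d (Mp n d M g) g) + 2)) :
    (45 * (s + 1) ^ 4 * (d + 1) ^ 3 * (M + 1) ^ 2) ^ (g + 1) ≤
      (K + 1) ^ (4 * (g + 1)) * ((400 * n * (d + 1) ^ 3 * (M + 1) ^ 3) ^ 4000) ^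
        (100 ^ g * (g + 1) ^ (g + 1)) := by
  obtain ⟨C, hC⟩ : ∃ C, C = max (cZ n d M) (cRet n d (Mp n d M g) g) := ⟨_, rfl⟩
  have h1 := num_rec (K := 1) (s := C + 2) hn hg (by rw [hC, Nat.one_mul])
  rw [← hC] at hs
  have h2 : s + 1 ≤ 2 * (K + 1) * (C + 2 + 1) := by
    have e : 2 * (K + 1) * (C + 2 + 1) = (2 * K + 1) * (C + 2) + (C + 2) + (2 * K + 2) := by ring
    omega
  have h3 : (45 * (s + 1) ^ 4 * (d + 1) ^ 3 * (M + 1) ^ 2) ^ (g + 1) ≤
      ((K + 1) ^ (4 * (g + 1)) * 2 ^ (4 * (g + 1))) *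
        (45 * (C + 2 + 1) ^ 4 * (d + 1) ^ 3 * (M + 1) ^ 2) ^ (g + 1) := by
    calc (45 * (s + 1) ^ 4 * (d + 1) ^ 3 * (M + 1) ^ 2) ^ (g + 1)
        ≤ (45 * (2 * (K + 1) * (C + 2 + 1)) ^ 4 * (d + 1) ^ 3 * (M + 1) ^ 2) ^ (g + 1) := by
          gcongr
      _ = ((K + 1) ^ (4 * (g + 1)) * 2 ^ (4 * (g + 1))) *
        (45 * (C + 2 + 1) ^ 4 * (d + 1) ^ 3 * (M + 1) ^ 2) ^ (g + 1) := by
          rw [pow_mul, pow_mul, ← mul_pow, ← mul_pow, ← mul_pow]
          congr 1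
          ring
  refine h3.trans ?_
  have h4 : 1 ≤ 100 ^ g * (g + 1) ^ (g + 1) := Nat.mul_pos (by positivity) (by positivity)
  have h5 : 4 * (g + 1) ≤ 4000 * (100 ^ g * (g + 1) ^ (g + 1)) := by
    have h6 : g + 1 ≤ (g + 1) ^ (g + 1) := Nat.le_self_pow (by omega) _
    have h7 : (g + 1) ^ (g + 1) ≤ 100 ^ g * (g + 1) ^ (g + 1) :=
      Nat.le_mul_of_pos_left _ (by positivity)
    omega
  have h8 : 2 ^ (4 * (g + 1)) ≤ 2 ^ (4000 * (100 ^ g * (g + 1) ^ (g + 1))) :=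
    Nat.pow_le_pow_right (by norm_num) h5
  calc (K + 1) ^ (4 * (g + 1)) * 2 ^ (4 * (g + 1)) *
        (45 * (C + 2 + 1) ^ 4 * (d + 1) ^ 3 * (M + 1) ^ 2) ^ (g + 1)
      ≤ (K + 1) ^ (4 * (g + 1)) * 2 ^ (4000 * (100 ^ g * (g + 1) ^ (g + 1))) *
        (((1 + 1) * 100 * n * (d + 1) ^ 3 * (M + 1) ^ 3) ^ 4000) ^
          (100 ^ g * (g + 1) ^ (g + 1)) :=
        Nat.mul_le_mul (Nat.mul_le_mul_left _ h8) h1
    _ = (K + 1) ^ (4 * (g + 1)) * ((400 * n * (d + 1) ^ 3 * (M + 1) ^ 3) ^ 4000) ^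
          (100 ^ g * (g + 1) ^ (g + 1)) := by
        rw [Nat.mul_assoc, ← pow_mul, ← pow_mul, ← mul_pow]
        congr 2
        ring

theorem irr_main [Fintype Q] {K : ℕ} {s t : Q} {x y y' : Fin d → ℕ}
    (h : FewIrr T K s x t y') (hy : ∀ k, y k ≤ y' k) :
    ∃ (w' : List (Fin d → ℤ)) (y'' : Fin d → ℕ), Run T s x w' t y'' ∧ (∀ k, y k ≤ y'' k) ∧
      w'.length ≤ max 1 (supN y) * ((K + 1) ^ (4 * (geomDim T + 1)) *
        ((400 * Fintype.card Q * (d + 1) ^ 3 * (maxNorm T + 1) ^ 3) ^ 4000) ^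
          (100 ^ geomDim T * (geomDim T + 1) ^ (geomDim T + 1))) := by
  obtain ⟨p₂, x₂, w, w', K', h4, h5, h6, h7⟩ := irr_pieces h
  obtain ⟨I, e1, e2, e3, e4⟩ := rec_rlz (.recover h4 h5 h7)
  obtain ⟨a, ha⟩ := exists_items I
  have hw : unroll I = schemeWord (I.map isk) a := by
    conv_lhs => rw [ha]
    rw [items_unroll]
  have hend : ∃ z : Fin d → ℕ, zv z = zv x + (unroll I).sum := by
    refine ⟨fun k => ((zv x + (unroll I).sum) k).toNat, ?_⟩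
    funext k
    have h1 := e3 k
    have h2 : (0 : ℤ) ≤ zv y' k := zv_nonneg y' k
    exact Int.toNat_of_nonneg (h2.trans h1)
  obtain ⟨z, hz⟩ := hend
  have hyz : ∀ k, y k ≤ z k := by
    intro k
    have h1 := e3 k
    rw [← hz] at h1
    have h2 : (y' k : ℤ) ≤ z k := h1
    have h3 := hy k
    omega
  have hrun' : Run T s x (schemeWord (I.map isk) a) t z := by
    rw [← hw]
    exact run_iff.2 ⟨scheme_walk I e1, e2, hz⟩
  obtain ⟨a', y'', h8, h9, h10⟩ := scheme_main e1 hrun' hyz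
  refine ⟨_, y'', h8, h9, h10.trans (Nat.mul_le_mul_left _ ?_)⟩
  have hn : 1 ≤ Fintype.card Q := Fintype.card_pos_iff.2 ⟨s⟩
  have hg : geomDim T ≤ d := by
    refine (Submodule.finrank_le _).trans ?_
    rw [Module.finrank_fintype_fun_eq_card, Fintype.card_fin]
  have e5 : schemeSize (I.map isk) ≤ (2 * K + 1) * (max (cZ (Fintype.card Q) d (maxNorm T))
      (cRet (Fintype.card Q) d (Mp (Fintype.card Q) d (maxNorm T) (geomDim T)) (geomDim T)) +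
        2) := e4.trans (Nat.mul_le_mul_right _ (by omega))
  refine le_trans ?_ (num_sharp hn hg e5)
  refine Nat.pow_le_pow_right ?_ (Nat.add_le_add_right (schemeDim_le e1) 1)
  positivity

end Pool.Agent.REV
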