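import Pool.Agent.REV.Irr2
import Pool.Agent.REV.Final4
import Pool.Agent.EE2.Main
import Pool.Agent.EE2.Cyc
import Pool.Agent.EE2.Num

/-!
# REV / Final5: few irrecoverable steps, pieces in planar components and cycle-monotone pieces
-/

set_option autoImplicit false

namespace Pool.Agent.REV

open Pool.Agent.EEF Pool.Agent.EE2 Finset

variable {Q : Type} {d : ℕ} {T : VASS Q d}

/-- the size of the scheme of a piece -/
def cP (n d M g : ℕ) : ℕ :=
  max (max (cTot n d M) (cCyc n d g M)) (max (cZ n d M) (cRet n d (Mp n d M g) g))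

/-- recoverable pieces -/
theorem recover_rlz [Fintype Q] {p p' : Q} {x x' : Fin d → ℕ} {w w' : List (Fin d → ℤ)}
    (h1 : Run T p x w p' x') (h2 : Covers T p' x' p x w') :
    RlzC T p (zv x) (zv x') p'
      (cP (Fintype.card Q) d (maxNorm T) (geomDim T) + 2) := by
  refine (rec_rlz (.recover h1 h2 (.nil _ _))).mono ?_
  unfold cP
  omega

/-- pieces inside a planar component -/
theorem planar_rlz [Fintype Q] {p p' : Q} {x x' : Fin d → ℕ} {w : List (Fin d → ℤ)}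
    (h0 : Module.finrank ℚ (Submodule.span ℚ
        {c : Fin d → ℚ | ∃ w, Walk T p w p ∧ c = qv w.sum}) ≤ 2)
    (h1 : Run T p x w p' x') (h2 : Reach T p' p) :
    RlzC T p (zv x) (zv x') p' (cP (Fintype.card Q) d (maxNorm T) (geomDim T)) := by
  obtain ⟨a1, a2, a3⟩ := run_iff.1 h1
  have h4 := rlz_toC (planar_part h0 (zv_nonneg x) h2 a1 a2)
  rw [← a3] at h4
  exact h4.mono ((le_max_left _ _).trans (le_max_left _ _))

/-- cycle-monotone pieces -/
theorem cyc_rlz [Fintype Q] {T' : VASS Q d} (hsub : T' ⊆ T) {p p' : Q} {x x' : Fin d → ℕ}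
    {w : List (Fin d → ℤ)}
    (h1 : ∀ k, (∀ r u, Walk T' r u r → 0 ≤ u.sum k) ∨ (∀ r u, Walk T' r u r → u.sum k ≤ 0))
    (h2 : Run T' p x w p' x') :
    RlzC T p (zv x) (zv x') p' (cP (Fintype.card Q) d (maxNorm T) (geomDim T)) := by
  obtain ⟨a1, a2, a3⟩ := run_iff.1 h2
  have h4 := rlz_toC (cyc_part hsub h1 (zv_nonneg x) a1 a2)
  rw [← a3] at h4
  exact h4.mono ((le_max_right _ _).trans (le_max_left _ _))

theorem irr2_rlz [Fintype Q] {K : ℕ} {p q : Q} {x y : Fin d → ℕ} (h : FewIrr2 T K p x q y) :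
    ∃ (p' : Q) (x' : Fin d → ℕ) (w w' : List (Fin d → ℤ)), Run T p x w p' x' ∧
      Covers T p' x' p x w' ∧ RlzC T p' (zv x') (zv y) q
        (2 * K * (cP (Fintype.card Q) d (maxNorm T) (geomDim T) + 2)) := by
  set C := cP (Fintype.card Q) d (maxNorm T) (geomDim T) with hC
  induction h with
  | nil p x =>
    refine ⟨p, x, [], [], .nil p x, ⟨x, .nil p x, fun _ => le_rfl⟩, ?_⟩
    have h1 := rlz_toC (Rlz.nil (T := T) p (zv x))
    rw [add_zero] at h1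
    exact h1.mono (Nat.zero_le _)
  | free h1 h2 h3 _ ih =>
    obtain ⟨p₂, x₂, w, w', h4, h5, h6⟩ := ih
    exact ⟨p₂, x₂, _, _, .cons h1 h2 h4, covers_trans h5 h3, h6⟩
  | @step K p p' q v x x' y h1 h2 _ ih =>
    obtain ⟨p₂, x₂, w, w', h4, h5, h6⟩ := ih
    have h7 := (recover_rlz h4 h5).append h6
    rw [← hC] at h7
    have e : zv x' = zv x + v := by
      funext k
      exact h2 k
    have h3 := rlz_toC (Rlz.step h1 (x := zv x) (by rw [← e]; exact zv_nonneg x'))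
    rw [← e] at h3
    refine ⟨p, x, [], [], .nil p x, ⟨x, .nil p x, fun _ => le_rfl⟩, (h3.append h7).mono ?_⟩
    have : 2 * (K + 1) * (C + 2) = 2 * K * (C + 2) + (C + 2) + (C + 2) := by ring
    omega
  | @planar K p p' q x x' y w h0 h1 h2 _ ih =>
    obtain ⟨p₂, x₂, w₁, w', h4, h5, h6⟩ := ih
    have h7 := (recover_rlz h4 h5).append h6
    have h3 := planar_rlz h0 h1 h2
    rw [← hC] at h7 h3
    refine ⟨p, x, [], [], .nil p x, ⟨x, .nil p x, fun _ => le_rfl⟩, (h3.append h7).mono ?_⟩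
    have : 2 * (K + 1) * (C + 2) = 2 * K * (C + 2) + (C + 2) + (C + 2) := by ring
    omega
  | @mono K T' p p' q x x' y w h0 h1 h2 _ ih =>
    obtain ⟨p₂, x₂, w₁, w', h4, h5, h6⟩ := ih
    have h7 := (recover_rlz h4 h5).append h6
    have h3 := cyc_rlz h0 h1 h2
    rw [← hC] at h7 h3
    refine ⟨p, x, [], [], .nil p x, ⟨x, .nil p x, fun _ => le_rfl⟩, (h3.append h7).mono ?_⟩
    have : 2 * (K + 1) * (C + 2) = 2 * K * (C + 2) + (C + 2) + (C + 2) := by ring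
    omega
  | @loop K p q x x' y β a h1 h2 _ ih =>
    obtain ⟨p₂, x₂, w₁, w', h4, h5, h6⟩ := ih
    have h7 := (recover_rlz h4 h5).append h6
    rw [← hC] at h7
    obtain ⟨a1, a2, a3⟩ := run_iff.1 h2
    have h3 : Rlz T p (zv x) (List.replicate a β).flatten.sum p (β.length + 1) := by
      refine ⟨[([], β, a)], .cons (.nil _) h1 (.nil _), ?_, ?_, ?_⟩
      · rw [unroll_cons, unroll_nil, wrd]
        simpa [rep] using a2
      · rw [unroll_cons, unroll_nil, wrd]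
        simp [rep]
      · simp [schemeSize, isk]
    have h8 := rlz_toC h3
    rw [← a3] at h8
    refine ⟨p, x, [], [], .nil p x, ⟨x, .nil p x, fun _ => le_rfl⟩, (h8.append h7).mono ?_⟩
    have e3 : 2 * (K + (β.length + 1)) * (C + 2) =
      2 * K * (C + 2) + (C + 2) + (β.length * (C + 2) + β.length * (C + 2) + (C + 2)) := by ring
    have e4 : β.length ≤ β.length * (C + 2) := Nat.le_mul_of_pos_right _ (by omega)
    omega

theorem num_aux {n d M g K s C : ℕ} (hn : 1 ≤ n) (hs : s ≤ (2 * K + 1) * (C + 2))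
    (hC : 45 * (C + 1) ^ 4 * (d + 1) ^ 3 * (M + 1) ^ 2 ≤
      (400 * n * (d + 1) ^ 3 * (M + 1) ^ 3) ^ 400) :
    (45 * (s + 1) ^ 4 * (d + 1) ^ 3 * (M + 1) ^ 2) ^ (g + 1) ≤
      (K + 1) ^ (4 * (g + 1)) * ((400 * n * (d + 1) ^ 3 * (M + 1) ^ 3) ^ 4000) ^
        (100 ^ g * (g + 1) ^ (g + 1)) := by
  obtain ⟨X, hX⟩ : ∃ X, X = 400 * n * (d + 1) ^ 3 * (M + 1) ^ 3 := ⟨_, rfl⟩
  rw [← hX] at hC ⊢
  have hX4 : 400 ≤ X := by
    rw [hX]
    calc 400 = 400 * 1 * 1 ^ 3 * 1 ^ 3 := by norm_num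
      _ ≤ 400 * n * (d + 1) ^ 3 * (M + 1) ^ 3 := by
          gcongr
          · exact Nat.succ_le_succ (Nat.zero_le d)
          · exact Nat.succ_le_succ (Nat.zero_le M)
  have h2 : s + 1 ≤ 6 * (K + 1) * (C + 1) := by
    have e1 : (2 * K + 1) * (C + 2) = 2 * (K * C) + 4 * K + C + 2 := by ring
    have e2 : 6 * (K + 1) * (C + 1) = 6 * (K * C) + 6 * K + 6 * C + 6 := by ring
    omega
  have h3 : 45 * (s + 1) ^ 4 * (d + 1) ^ 3 * (M + 1) ^ 2 ≤ (K + 1) ^ 4 * X ^ 402 := by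
    calc 45 * (s + 1) ^ 4 * (d + 1) ^ 3 * (M + 1) ^ 2
        ≤ 45 * (6 * (K + 1) * (C + 1)) ^ 4 * (d + 1) ^ 3 * (M + 1) ^ 2 := by gcongr
      _ = (K + 1) ^ 4 * (6 ^ 4 * (45 * (C + 1) ^ 4 * (d + 1) ^ 3 * (M + 1) ^ 2)) := by ring
      _ ≤ (K + 1) ^ 4 * (X ^ 2 * X ^ 400) := by
          refine Nat.mul_le_mul_left _ (Nat.mul_le_mul ?_ hC)
          calc 6 ^ 4 ≤ 400 ^ 2 := by norm_num
            _ ≤ X ^ 2 := Nat.pow_le_pow_left hX4 2
      _ = (K + 1) ^ 4 * X ^ 402 := by rw [← pow_add]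
  calc (45 * (s + 1) ^ 4 * (d + 1) ^ 3 * (M + 1) ^ 2) ^ (g + 1)
      ≤ ((K + 1) ^ 4 * X ^ 402) ^ (g + 1) := Nat.pow_le_pow_left h3 _
    _ = (K + 1) ^ (4 * (g + 1)) * X ^ (402 * (g + 1)) := by
        rw [mul_pow, ← pow_mul, ← pow_mul]
    _ ≤ (K + 1) ^ (4 * (g + 1)) * X ^ (4000 * (100 ^ g * (g + 1) ^ (g + 1))) := by
        refine Nat.mul_le_mul_left _ (Nat.pow_le_pow_right (by omega) ?_)
        have h6 : g + 1 ≤ (g + 1) ^ (g + 1) := Nat.le_self_pow (by omega) _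
        have h7 : (g + 1) ^ (g + 1) ≤ 100 ^ g * (g + 1) ^ (g + 1) :=
          Nat.le_mul_of_pos_left _ (by positivity)
        omega
    _ = (K + 1) ^ (4 * (g + 1)) * (X ^ 4000) ^ (100 ^ g * (g + 1) ^ (g + 1)) := by
        rw [← pow_mul]

theorem num_tot {n d M : ℕ} (hn : 1 ≤ n) :
    45 * (cTot n d M + 1) ^ 4 * (d + 1) ^ 3 * (M + 1) ^ 2 ≤
      (400 * n * (d + 1) ^ 3 * (M + 1) ^ 3) ^ 400 := by
  refine (num2 hn le_rfl).trans (Nat.pow_le_pow_left ?_ 400)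
  have e1 : d + 1 ≤ (d + 1) ^ 3 := Nat.le_self_pow (by norm_num) _
  have e2 : M + 1 ≤ (M + 1) ^ 3 := Nat.le_self_pow (by norm_num) _
  gcongr
  norm_num

theorem num_cycl {n d M g : ℕ} (hn : 1 ≤ n) (hg : g ≤ d) :
    45 * (cCyc n d g M + 1) ^ 4 * (d + 1) ^ 3 * (M + 1) ^ 2 ≤
      (400 * n * (d + 1) ^ 3 * (M + 1) ^ 3) ^ 400 := by
  have h1 : cCyc n d g M + 1 ≤ (2 * n * (d + 1) * (M + 1)) ^ 24 := num_cyc hn hg
  obtain ⟨X, hX⟩ : ∃ X, X = 400 * n * (d + 1) ^ 3 * (M + 1) ^ 3 := ⟨_, rfl⟩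
  rw [← hX]
  have hd1 : 1 ≤ d + 1 := Nat.succ_pos d
  have hM1 : 1 ≤ M + 1 := Nat.succ_pos M
  have e1 : d + 1 ≤ (d + 1) ^ 3 := Nat.le_self_pow (by norm_num) _
  have e2 : M + 1 ≤ (M + 1) ^ 3 := Nat.le_self_pow (by norm_num) _
  have hXY : 2 * n * (d + 1) * (M + 1) ≤ X := by
    rw [hX]
    gcongr
    norm_num
  have hdX : d + 1 ≤ X := by
    rw [hX]
    calc d + 1 = 1 * 1 * (d + 1) * 1 := by ring
      _ ≤ 400 * n * (d + 1) ^ 3 * (M + 1) ^ 3 := by
          gcongr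
          · norm_num
          · omega
  have hMX : M + 1 ≤ X := by
    rw [hX]
    calc M + 1 = 1 * 1 * 1 * (M + 1) := by ring
      _ ≤ 400 * n * (d + 1) ^ 3 * (M + 1) ^ 3 := by
          gcongr
          · norm_num
          · omega
  have h4X : 45 ≤ X := by
    rw [hX]
    calc 45 ≤ 400 * 1 * 1 * 1 := by norm_num
      _ ≤ 400 * n * (d + 1) ^ 3 * (M + 1) ^ 3 := by
          gcongr
          · omega
          · omega
  have h2 : cCyc n d g M + 1 ≤ X ^ 24 := h1.trans (Nat.pow_le_pow_left hXY 24)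
  calc 45 * (cCyc n d g M + 1) ^ 4 * (d + 1) ^ 3 * (M + 1) ^ 2
      ≤ X * (X ^ 24) ^ 4 * X ^ 3 * X ^ 2 := by gcongr
    _ = X ^ 102 := by ring
    _ ≤ X ^ 400 := Nat.pow_le_pow_right (by omega) (by norm_num)

theorem num_irr2 {n d M g K s : ℕ} (hn : 1 ≤ n) (hg : g ≤ d)
    (hs : s ≤ (2 * K + 1) * (cP n d M g + 2)) :
    (45 * (s + 1) ^ 4 * (d + 1) ^ 3 * (M + 1) ^ 2) ^ (g + 1) ≤
      (K + 1) ^ (4 * (g + 1)) * ((400 * n * (d + 1) ^ 3 * (M + 1) ^ 3) ^ 4000) ^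
        (100 ^ g * (g + 1) ^ (g + 1)) := by
  rcases le_total (max (cTot n d M) (cCyc n d g M))
    (max (cZ n d M) (cRet n d (Mp n d M g) g)) with h | h
  · rw [cP, max_eq_right h] at hs
    exact num_sharp hn hg hs
  · rw [cP, max_eq_left h] at hs
    rcases le_total (cTot n d M) (cCyc n d g M) with h' | h'
    · rw [max_eq_right h'] at hs
      exact num_aux hn hs (num_cycl hn hg)
    · rw [max_eq_left h'] at hs
      exact num_aux hn hs (num_tot hn)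

theorem irr2_main [Fintype Q] {K : ℕ} {s t : Q} {x y y' : Fin d → ℕ}
    (h : FewIrr2 T K s x t y') (hy : ∀ k, y k ≤ y' k) :
    ∃ (w' : List (Fin d → ℤ)) (y'' : Fin d → ℕ), Run T s x w' t y'' ∧ (∀ k, y k ≤ y'' k) ∧
      w'.length ≤ max 1 (supN y) * ((K + 1) ^ (4 * (geomDim T + 1)) *
        ((400 * Fintype.card Q * (d + 1) ^ 3 * (maxNorm T + 1) ^ 3) ^ 4000) ^
          (100 ^ geomDim T * (geomDim T + 1) ^ (geomDim T + 1))) := by
  obtain ⟨p₂, x₂, w, w', h4, h5, h6⟩ := irr2_rlz h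
  have h7 := ((recover_rlz h4 h5).append h6).mono
    (s' := (2 * K + 1) * (cP (Fintype.card Q) d (maxNorm T) (geomDim T) + 2))
    (le_of_eq (by ring))
  obtain ⟨I, e1, e2, e3, e4⟩ := h7
  obtain ⟨a, ha⟩ := exists_items I
  have hw : unroll I = schemeWord (I.map isk) a := by
    conv_lhs => rw [ha]
    rw [items_unroll]
  have hend : ∃ z : Fin d → ℕ, zv z = zv x + (unroll I).sum := by
    refine ⟨fun k => ((zv x + (unroll I).sum) k).toNat, ?_⟩
    funext k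
    have h1 := e3 k
    have h2 : (0 : ℤ) ≤ zv y' k := zv_nonneg y' k
    exact Int.toNat_of_nonneg (h2.trans h1)
  obtain ⟨z, hz⟩ := hend
  have hyz : ∀ k, y k ≤ z k := by
    intro k
    have h1 := e3 k
    rw [← hz] at h1
    have h2 : (y' k : ℤ) ≤ z k := h1
    have h3 := hy k
    omega
  have hrun' : Run T s x (schemeWord (I.map isk) a) t z := by
    rw [← hw]
    exact run_iff.2 ⟨scheme_walk I e1, e2, hz⟩
  obtain ⟨a', y'', h8, h9, h10⟩ := scheme_main e1 hrun' hyz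
  refine ⟨_, y'', h8, h9, h10.trans (Nat.mul_le_mul_left _ ?_)⟩
  have hn : 1 ≤ Fintype.card Q := Fintype.card_pos_iff.2 ⟨s⟩
  have hg : geomDim T ≤ d := by
    refine (Submodule.finrank_le _).trans ?_
    rw [Module.finrank_fintype_fun_eq_card, Fintype.card_fin]
  refine le_trans ?_ (num_irr2 hn hg e4)
  refine Nat.pow_le_pow_right ?_ (Nat.add_le_add_right (schemeDim_le e1) 1)
  positivity

end Pool.Agent.REV
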