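import Pool.Agent.REV.Walks

/-!
# REV / Flats: thin vectors, greedy lists and their number
-/

set_option autoImplicit false

namespace Pool.Agent.REV

open Pool.Agent.EEF Finset

variable {Q : Type} {d : ℕ} {T : VASS Q d}

/-- the elements of a list -/
def ls (b : List (Fin d)) : Set (Fin d) := {i | i ∈ b}

theorem ls_cons (j : Fin d) (b : List (Fin d)) : ls (j :: b) = insert j (ls b) := by
  ext i
  simp [ls]

theorem ls_nil : ls ([] : List (Fin d)) = ∅ := by
  ext i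
  simp [ls]

/-- greedy lists (the last chosen coordinate comes first): independent coordinates of `x`, the one
chosen after `i` others is smaller than `A i` -/
def Gdy (W : Submodule ℚ (Fin d → ℚ)) (A : ℕ → ℕ) (x : Vec d) : List (Fin d) → Prop
  | [] => True
  | j :: b => Gdy W A x b ∧ (∃ v ∈ Kr W (ls b), v j ≠ 0) ∧ 0 ≤ x j ∧ x j < (A b.length : ℕ)

variable {W : Submodule ℚ (Fin d → ℚ)} {A : ℕ → ℕ} {x : Vec d}

theorem Gdy.rank {b : List (Fin d)} (h : Gdy W A x b) :
    b.length + Module.finrank ℚ (Kr W (ls b)) = Module.finrank ℚ W := by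
  induction b with
  | nil => rw [ls_nil, Kr_empty]; simp
  | cons j b ih =>
    have h1 := Kr_insert h.2.1
    have h2 := ih h.1
    rw [ls_cons, List.length_cons]
    omega

theorem Gdy.congr {E : Set (Fin d)} {x' : Vec d} (hx : ∀ j ∈ E, x j = x' j) {b : List (Fin d)}
    (hb : ∀ j ∈ b, j ∈ E) (h : Gdy W A x b) : Gdy W A x' b := by
  induction b with
  | nil => trivial
  | cons j b ih =>
    have h0 := hx j (hb j List.mem_cons_self)
    exact ⟨ih (fun i hi => hb i (List.mem_cons_of_mem _ hi)) h.1, h.2.1, h0 ▸ h.2.2.1,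
      h0 ▸ h.2.2.2⟩

theorem Gdy.suffix {a b : List (Fin d)} (h : Gdy W A x (a ++ b)) : Gdy W A x b := by
  induction a with
  | nil => exact h
  | cons j a ih => exact ih h.1

theorem Gdy.lt {b : List (Fin d)} (hA : Monotone A) {r : ℕ} (h : Gdy W A x b)
    (hb : b.length ≤ r + 1) : ∀ j ∈ b, x j < (A r : ℕ) := by
  induction b with
  | nil => simp
  | cons j b ih =>
    intro i hi
    rw [List.length_cons] at hb
    rw [List.mem_cons] at hi
    rcases hi with rfl | hi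
    · have h1 : A b.length ≤ A r := hA (by omega)
      have h2 := h.2.2.2
      have h3 : ((A b.length : ℕ) : ℤ) ≤ (A r : ℕ) := by exact_mod_cast h1
      linarith
    · exact ih h.1 (by omega) i hi

/-- thin vectors on `E` -/
def Thn (W : Submodule ℚ (Fin d → ℚ)) (A : ℕ → ℕ) (E : Set (Fin d)) (x : Vec d) : Prop :=
  ∃ b, Gdy W A x b ∧ (∀ j ∈ b, j ∈ E) ∧ Kr W (ls b) = Kr W E

theorem Thn.congr {E : Set (Fin d)} {x' : Vec d} (hx : ∀ j ∈ E, x j = x' j)
    (h : Thn W A E x) : Thn W A E x' := by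
  obtain ⟨b, h1, h2, h3⟩ := h
  exact ⟨b, h1.congr hx h2, h2, h3⟩

/-- maximal greedy lists -/
theorem greedy {E : Set (Fin d)} (hx : ∀ j ∈ E, 0 ≤ x j) : ∃ b, Gdy W A x b ∧
    (∀ j ∈ b, j ∈ E) ∧ ∀ j ∈ E, (∃ v ∈ Kr W (ls b), v j ≠ 0) → ((A b.length : ℕ) : ℤ) ≤ x j := by
  have key : ∀ (n : ℕ) (b : List (Fin d)), Gdy W A x b → (∀ j ∈ b, j ∈ E) →
      Module.finrank ℚ (Kr W (ls b)) ≤ n → ∃ b, Gdy W A x b ∧
      (∀ j ∈ b, j ∈ E) ∧ ∀ j ∈ E, (∃ v ∈ Kr W (ls b), v j ≠ 0) →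
        ((A b.length : ℕ) : ℤ) ≤ x j := by
    intro n
    induction n with
    | zero =>
      intro b h1 h2 h3
      refine ⟨b, h1, h2, fun j hj => ?_⟩
      rintro ⟨v, hv, hvj⟩
      have h4 : Kr W (ls b) = ⊥ := Submodule.finrank_eq_zero.1 (by omega)
      rw [h4, Submodule.mem_bot] at hv
      rw [hv] at hvj
      exact absurd rfl hvj
    | succ n ih =>
      intro b h1 h2 h3
      by_cases h : ∃ j ∈ E, (∃ v ∈ Kr W (ls b), v j ≠ 0) ∧ x j < (A b.length : ℕ)
      · obtain ⟨j, hj, hv, hlt⟩ := h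
        have h4 := Kr_insert hv
        refine ih (j :: b) ⟨h1, hv, hx j hj, hlt⟩ ?_ ?_
        · intro i hi
          rw [List.mem_cons] at hi
          rcases hi with rfl | hi
          · exact hj
          · exact h2 i hi
        · rw [ls_cons]
          omega
      · push Not at h
        exact ⟨b, h1, h2, h⟩
  exact key _ [] trivial (by simp) le_rfl

/-- flats of rank `l` -/
def Flt (W : Submodule ℚ (Fin d → ℚ)) (E : Set (Fin d)) (l : ℕ) : Prop :=
  (∀ j, (∀ v ∈ Kr W E, v j = 0) → j ∈ E) ∧ l + Module.finrank ℚ (Kr W E) = Module.finrank ℚ W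

theorem Flt_univ (W : Submodule ℚ (Fin d → ℚ)) : Flt W Set.univ (Module.finrank ℚ W) := by
  refine ⟨fun j _ => Set.mem_univ j, ?_⟩
  rw [Kr_univ]
  simp

theorem descend {E : Set (Fin d)} {l : ℕ} (hE : Flt W E l) (hx : ∀ j ∈ E, 0 ≤ x j)
    (h : ¬ Thn W A E x) : ∃ E' l', Flt W E' l' ∧ l' < l ∧ E' ⊆ E ∧
      ∀ j ∈ E, j ∉ E' → ((A l' : ℕ) : ℤ) ≤ x j := by
  obtain ⟨b, h1, h2, h3⟩ := greedy (W := W) (A := A) hx
  have hKE : Kr W E ≤ Kr W (ls b) := Kr_anti W h2
  have hlt : Module.finrank ℚ (Kr W E) < Module.finrank ℚ (Kr W (ls b)) := by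
    refine Submodule.finrank_lt_finrank_of_lt (lt_of_le_of_ne hKE fun he => ?_)
    exact h ⟨b, h1, h2, he.symm⟩
  have hr := h1.rank
  have hKr : Kr W {j | ∀ v ∈ Kr W (ls b), v j = 0} = Kr W (ls b) := by
    refine le_antisymm (Kr_anti W fun j hj v hv => hv.2 j hj) fun v hv => ⟨hv.1, fun j hj => hj v hv⟩
  refine ⟨{j | ∀ v ∈ Kr W (ls b), v j = 0}, b.length, ⟨fun j hj => ?_, ?_⟩, ?_, ?_, ?_⟩
  · rw [hKr] at hj
    exact hj
  · rw [hKr]
    exact hr
  · have := hE.2
    omega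
  · intro j hj
    exact hE.1 j fun v hv => hj v (hKE hv)
  · intro j hj hj'
    refine h3 j hj ?_
    simp only [Set.mem_setOf_eq, not_forall] at hj'
    obtain ⟨v, hv, hvj⟩ := hj'
    exact ⟨v, hv, hvj⟩

theorem thin_star {F E : Set (Fin d)} {r l : ℕ} (hA : Monotone A) (hF : Flt W F r)
    (hE : Flt W E l) (hrl : r ≤ l) (ht : Thn W A E x)
    (hx : ∀ j ∉ F, ((A r : ℕ) : ℤ) ≤ x j) : E = F ∧ l = r := by
  obtain ⟨b, h1, h2, h3⟩ := ht
  have hbl : b.length = l := by
    have h4 := h1.rank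
    rw [h3] at h4
    have := hE.2
    omega
  have key : ∀ b', Gdy W A x b' → b'.length ≤ r + 1 → ∀ j ∈ b', j ∈ F := by
    intro b' h4 h5 j hj
    by_contra hjF
    have h6 := h4.lt hA h5 j hj
    have h7 := hx j hjF
    linarith
  have hlr : l ≤ r := by
    by_contra hlt
    push Not at hlt
    have h4 : b.take (b.length - (r + 1)) ++ b.drop (b.length - (r + 1)) = b :=
      List.take_append_drop _ _
    have h5 : Gdy W A x (b.drop (b.length - (r + 1))) := by
      rw [← h4] at h1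
      exact h1.suffix
    have h6 : (b.drop (b.length - (r + 1))).length = r + 1 := by
      rw [List.length_drop]
      omega
    have h7 := key _ h5 (by rw [h6])
    have h8 := h5.rank
    have h9 : Module.finrank ℚ (Kr W F) ≤
        Module.finrank ℚ (Kr W (ls (b.drop (b.length - (r + 1))))) := Kr_mono_rank W h7
    have := hF.2
    omega
  have hl : l = r := le_antisymm hlr hrl
  subst hl
  have h4 := key b h1 (by omega)
  have h5 : Kr W F = Kr W (ls b) := by
    refine Submodule.eq_of_le_of_finrank_eq (Kr_anti W h4) ?_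
    have h6 := h1.rank
    have := hF.2
    omega
  refine ⟨?_, rfl⟩
  have h6 : Kr W F = Kr W E := by rw [h5, h3]
  ext j
  constructor
  · intro hj
    exact hF.1 j fun v hv => (h6 ▸ hv : v ∈ Kr W E).2 j hj
  · intro hj
    exact hE.1 j fun v hv => (h6.symm ▸ hv : v ∈ Kr W F).2 j hj

/-! ### Counting -/

/-- codes of thin vectors -/
def AL (d : ℕ) (A : ℕ → ℕ) : ℕ → Finset (List (Fin d × ℕ))
  | 0 => {[]}
  | l + 1 => (((univ : Finset (Fin d)) ×ˢ range (A l)) ×ˢ AL d A l).image fun e => e.1 :: e.2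

theorem AL_card (n d : ℕ) (A : ℕ → ℕ) (l : ℕ) :
    n * (AL d A (l + 1)).card ≤ n * (AL d A l).card * (d * A l) := by
  have h1 : (AL d A (l + 1)).card ≤ d * A l * (AL d A l).card := by
    rw [AL]
    refine card_image_le.trans ?_
    rw [card_product, card_product, card_univ, Fintype.card_fin, card_range]
  calc n * (AL d A (l + 1)).card ≤ n * (d * A l * (AL d A l).card) := Nat.mul_le_mul_left _ h1
    _ = _ := by ring

/-- the code of a greedy list -/
def enc (x : Vec d) (b : List (Fin d)) : List (Fin d × ℕ) := b.map fun j => (j, (x j).toNat)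

theorem enc_mem {b : List (Fin d)} (h : Gdy W A x b) : enc x b ∈ AL d A b.length := by
  induction b with
  | nil => simp [enc, AL]
  | cons j b ih =>
    rw [List.length_cons, AL, mem_image]
    refine ⟨((j, (x j).toNat), enc x b), ?_, rfl⟩
    rw [mem_product, mem_product]
    refine ⟨⟨mem_univ _, ?_⟩, ih h.1⟩
    rw [mem_range]
    have h1 := h.2.2.1
    have h2 := h.2.2.2
    simp only
    omega

theorem enc_inj {x' : Vec d} : ∀ {b b' : List (Fin d)}, Gdy W A x b → Gdy W A x' b' →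
    enc x b = enc x' b' → b = b' ∧ ∀ j ∈ b, x j = x' j := by
  intro b
  induction b with
  | nil =>
    intro b' h1 h2 h3
    rcases b' with _ | ⟨j', b'⟩
    · simp
    · simp [enc] at h3
  | cons j b ih =>
    intro b' h1 h2 h3
    rcases b' with _ | ⟨j', b'⟩
    · simp [enc] at h3
    · rw [enc, enc, List.map_cons, List.map_cons, List.cons.injEq, Prod.mk.injEq] at h3
      obtain ⟨⟨h4, h5⟩, h6⟩ := h3
      subst h4
      obtain ⟨h7, h8⟩ := ih h1.1 h2.1 h6
      subst h7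
      refine ⟨rfl, fun i hi => ?_⟩
      rw [List.mem_cons] at hi
      rcases hi with rfl | hi
      · have h9 := h1.2.2.1
        have h10 := h2.2.2.1
        omega
      · exact h8 i hi

open Classical in
/-- the code of a configuration -/
noncomputable def code (W : Submodule ℚ (Fin d → ℚ)) (A : ℕ → ℕ) (E : Set (Fin d)) (p : Q)
    (x : Vec d) : Q × List (Fin d × ℕ) :=
  (p, if h : Thn W A E x then enc x h.choose else [])

/-- non-negative and thin on `E` -/
def PT (T : VASS Q d) (p₀ : Q) (W : Submodule ℚ (Fin d → ℚ)) (A : ℕ → ℕ) (E : Set (Fin d))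
    (p : Q) (x : Vec d) : Prop := NP T p₀ E p x ∧ Thn W A E x

theorem PT_inv (p₀ : Q) (E : Set (Fin d)) : Inv (PT T p₀ W A E) E := by
  intro p x x' hx h
  exact ⟨NP_inv p₀ E p x x' hx h.1, h.2.congr hx⟩

theorem code_mem [Fintype Q] {p₀ : Q} {E : Set (Fin d)} {l : ℕ} (hE : Flt W E l)
    {p : Q} {x : Vec d} (h : PT T p₀ W A E p x) :
    code W A E p x ∈ (univ : Finset Q) ×ˢ AL d A l := by
  obtain ⟨h1, h2, h3⟩ := h.2.choose_spec
  rw [code, mem_product, dif_pos h.2]
  refine ⟨mem_univ _, ?_⟩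
  have h4 := enc_mem h1
  have h5 := h1.rank
  rw [h3] at h5
  have h6 := hE.2
  have h7 : (h.2.choose).length = l := by omega
  rw [h7] at h4
  exact h4

theorem code_inj {p₀ : Q} (hs : Scc T p₀ W) {E : Set (Fin d)} {p : Q}
    (hp : Reach T p₀ p) {x : Vec d} {r₁ r₂ : Q} {u₁ u₂ : List (Vec d)} (hu₁ : Walk T p u₁ r₁)
    (hu₂ : Walk T p u₂ r₂) (h₁ : PT T p₀ W A E r₁ (x + u₁.sum)) (h₂ : PT T p₀ W A E r₂ (x + u₂.sum))
    (he : code W A E r₁ (x + u₁.sum) = code W A E r₂ (x + u₂.sum)) :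
    r₁ = r₂ ∧ ∀ j ∈ E, u₁.sum j = u₂.sum j := by
  rw [code, code, dif_pos h₁.2, dif_pos h₂.2, Prod.mk.injEq] at he
  obtain ⟨e1, e2⟩ := he
  subst e1
  obtain ⟨a1, a2, a3⟩ := h₁.2.choose_spec
  obtain ⟨b1, b2, b3⟩ := h₂.2.choose_spec
  obtain ⟨c1, c2⟩ := enc_inj a1 b1 e2
  refine ⟨rfl, fun j hj => ?_⟩
  have h3 := hs.diff hp h₁.1.1.2 hu₁ hu₂
  have h4 : qv (u₁.sum - u₂.sum) ∈ Kr W (ls h₁.2.choose) := by
    refine ⟨h3, fun i hi => ?_⟩
    have h5 := c2 i hi
    simp only [Pi.add_apply, add_right_inj] at h5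
    simp [qv, h5]
  rw [a3] at h4
  have h6 := h4.2 j hj
  simp only [qv, Pi.sub_apply, Int.cast_sub] at h6
  have h7 : ((u₁.sum j : ℤ) : ℚ) = (u₂.sum j : ℤ) := by linarith
  exact_mod_cast h7

/-- shortening of thin walks -/
theorem shortenT [Fintype Q] {p₀ : Q} (hs : Scc T p₀ W) {E : Set (Fin d)} {l : ℕ}
    (hE : Flt W E l) {p q : Q} {x : Vec d} {w : List (Vec d)} (h : PW T (PT T p₀ W A E) p x w q) :
    ∃ w', PW T (PT T p₀ W A E) p x w' q ∧ (∀ j ∈ E, w'.sum j = w.sum j) ∧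
      w'.length < Fintype.card Q * (AL d A l).card := by
  classical
  obtain ⟨w', h1, h2, h3⟩ := PW.shorten (PT_inv p₀ E) ((univ : Finset Q) ×ˢ AL d A l)
    (code W A E) (fun r y hy => code_mem hE hy)
    (fun r₁ r₂ u₁ u₂ h1 h2 h3 h4 h5 => code_inj hs h.start.1.1.1 h1 h2 h3 h4 h5) _ le_rfl h
  refine ⟨w', h1, h2, ?_⟩
  rwa [card_product, card_univ] at h3

end Pool.Agent.REV
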