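import Pool.Agent.EEF.Defs

/-!
# REV / Irr: runs with few irrecoverable steps
-/

set_option autoImplicit false

namespace Pool.Agent.REV

open Pool.Agent.EEF

/-- `FewIrr T K p x q y`: there is a run from `p(x)` to `q(y)` of total cost `K`, where
* `free`: a RECOVERABLE step, i.e. a step from a configuration `c` to a configuration `c'` such that
  some run from `c'` covers `c` again, is free;
* `step`: any other step costs 1;
* `thin`: a run which stays inside a strongly connected component whose cycle effects span a space
  of dimension at most one costs 1 altogether;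
* `loop`: a run labelled by a power of a word `β` which labels a closed walk costs
  `β.length + 1` altogether.

In particular this holds if `K` is the number of irrecoverable steps of some run from `p(x)` to
`q(y)`. -/
inductive FewIrr {Q : Type} {d : ℕ} (T : VASS Q d) :
    ℕ → Q → (Fin d → ℕ) → Q → (Fin d → ℕ) → Prop
  | nil (p : Q) (x : Fin d → ℕ) : FewIrr T 0 p x p x
  | free {K : ℕ} {p p' q : Q} {v : Fin d → ℤ} {x x' y : Fin d → ℕ} {w : List (Fin d → ℤ)} :
      (p, v, p') ∈ T → (∀ k, (x' k : ℤ) = x k + v k) → Covers T p' x' p x w →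
      FewIrr T K p' x' q y → FewIrr T K p x q y
  | step {K : ℕ} {p p' q : Q} {v : Fin d → ℤ} {x x' y : Fin d → ℕ} :
      (p, v, p') ∈ T → (∀ k, (x' k : ℤ) = x k + v k) →
      FewIrr T K p' x' q y → FewIrr T (K + 1) p x q y
  | thin {K : ℕ} {p p' q : Q} {x x' y : Fin d → ℕ} {w : List (Fin d → ℤ)} :
      Module.finrank ℚ (Submodule.span ℚ
        {c : Fin d → ℚ | ∃ w, Walk T p w p ∧ c = qv w.sum}) ≤ 1 →
      Run T p x w p' x' → Reach T p' p → FewIrr T K p' x' q y →
      FewIrr T (K + 1) p x q y
  | loop {K : ℕ} {p q : Q} {x x' y : Fin d → ℕ} {β : List (Fin d → ℤ)} {a : ℕ} :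
      Walk T p β p → Run T p x (List.replicate a β).flatten p x' → FewIrr T K p x' q y →
      FewIrr T (K + (β.length + 1)) p x q y

end Pool.Agent.REV
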