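import Pool.Agent.REV.Defs

/-!
# REV / Lin: coordinates of subspaces
-/

set_option autoImplicit false

namespace Pool.Agent.REV

open Pool.Agent.EEF

variable {d : ℕ}

theorem Kr_insert_le (W : Submodule ℚ (Fin d → ℚ)) (S : Set (Fin d)) (j : Fin d) :
    Module.finrank ℚ (Kr W S) ≤ Module.finrank ℚ (Kr W (insert j S)) + 1 := by
  let f : Kr W S →ₗ[ℚ] ℚ := (LinearMap.proj j : (Fin d → ℚ) →ₗ[ℚ] ℚ).comp (Kr W S).subtype
  have h1 := LinearMap.finrank_range_add_finrank_ker f
  have h2 : Module.finrank ℚ (LinearMap.range f) ≤ 1 := by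
    refine (Submodule.finrank_le _).trans ?_
    simp
  have h3 : Module.finrank ℚ (LinearMap.ker f) ≤ Module.finrank ℚ (Kr W (insert j S)) := by
    have h4 : Module.finrank ℚ (LinearMap.ker f) =
        Module.finrank ℚ ((LinearMap.ker f).map (Kr W S).subtype) := by
      exact (Submodule.finrank_map_subtype_eq (Kr W S) (LinearMap.ker f)).symm
    rw [h4]
    refine Submodule.finrank_mono ?_
    rintro _ ⟨v, hv, rfl⟩
    refine ⟨v.2.1, fun k hk => ?_⟩
    rcases hk with rfl | hk
    · exact hv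
    · exact v.2.2 k hk
  omega

theorem Kr_insert {W : Submodule ℚ (Fin d → ℚ)} {S : Set (Fin d)} {j : Fin d}
    (h : ∃ v ∈ Kr W S, v j ≠ 0) :
    Module.finrank ℚ (Kr W (insert j S)) + 1 = Module.finrank ℚ (Kr W S) := by
  obtain ⟨v, hv, hvj⟩ := h
  have h1 := Kr_insert_le W S j
  have h2 : Module.finrank ℚ (Kr W (insert j S)) < Module.finrank ℚ (Kr W S) :=
    Kr_lt (Set.subset_insert j S) hv.1 hv.2 (Set.mem_insert j S) hvj
  omega

theorem Kr_empty (W : Submodule ℚ (Fin d → ℚ)) : Kr W ∅ = W :=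
  le_antisymm (Kr_le W ∅) fun _ hv => ⟨hv, fun _ hk => absurd hk (Set.notMem_empty _)⟩

theorem Kr_univ (W : Submodule ℚ (Fin d → ℚ)) : Kr W Set.univ = ⊥ := by
  refine le_antisymm (fun v hv => ?_) bot_le
  rw [Submodule.mem_bot]
  funext k
  exact hv.2 k (Set.mem_univ k)

/-- a basis of the coordinates in `S` -/
theorem exists_basis (W : Submodule ℚ (Fin d → ℚ)) (S : Set (Fin d)) :
    ∃ J : Finset (Fin d), (∀ j ∈ J, j ∈ S) ∧ Kr W (J : Set (Fin d)) = Kr W S ∧
      J.card + Module.finrank ℚ (Kr W S) = Module.finrank ℚ W := by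
  classical
  have key : ∀ (n : ℕ) (J : Finset (Fin d)), (∀ j ∈ J, j ∈ S) →
      J.card + Module.finrank ℚ (Kr W (J : Set (Fin d))) = Module.finrank ℚ W →
      Module.finrank ℚ (Kr W (J : Set (Fin d))) ≤ n →
      ∃ J : Finset (Fin d), (∀ j ∈ J, j ∈ S) ∧ Kr W (J : Set (Fin d)) = Kr W S ∧
        J.card + Module.finrank ℚ (Kr W S) = Module.finrank ℚ W := by
    intro n
    induction n with
    | zero =>
      intro J hJ h1 h2
      have h3 : Kr W (J : Set (Fin d)) = Kr W S := by
        refine le_antisymm ?_ (Kr_anti W hJ)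
        have h4 : Kr W (J : Set (Fin d)) = ⊥ := Submodule.finrank_eq_zero.1 (by omega)
        rw [h4]
        exact bot_le
      exact ⟨J, hJ, h3, by rw [← h3]; exact h1⟩
    | succ n ih =>
      intro J hJ h1 h2
      by_cases h : ∃ j ∈ S, ∃ v ∈ Kr W (J : Set (Fin d)), v j ≠ 0
      · obtain ⟨j, hj, v, hv, hvj⟩ := h
        have hjJ : j ∉ J := fun h => hvj (hv.2 j h)
        have h3 := Kr_insert ⟨v, hv, hvj⟩
        rw [← Finset.coe_insert] at h3
        refine ih (insert j J) ?_ ?_ ?_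
        · intro i hi
          rw [Finset.mem_insert] at hi
          rcases hi with rfl | hi
          · exact hj
          · exact hJ i hi
        · rw [Finset.card_insert_of_notMem hjJ]
          omega
        · omega
      · push Not at h
        have h3 : Kr W (J : Set (Fin d)) = Kr W S := by
          refine le_antisymm (fun v hv => ⟨hv.1, fun k hk => h k hk v hv⟩) (Kr_anti W hJ)
        exact ⟨J, hJ, h3, by rw [← h3]; exact h1⟩
  refine key _ ∅ (by simp) ?_ le_rfl
  rw [Finset.coe_empty, Kr_empty, Finset.card_empty, Nat.zero_add]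

/-- `finrank W` coordinates determine the vectors of `W` -/
theorem exists_coords (W : Submodule ℚ (Fin d → ℚ)) : ∃ J : Finset (Fin d),
    J.card = Module.finrank ℚ W ∧ ∀ v ∈ W, (∀ j ∈ J, v j = 0) → v = 0 := by
  obtain ⟨J, -, h2, h3⟩ := exists_basis W Set.univ
  rw [Kr_univ] at h2 h3
  refine ⟨J, by simpa using h3, fun v hv h => ?_⟩
  have h4 : v ∈ Kr W (J : Set (Fin d)) := ⟨hv, h⟩
  rw [h2, Submodule.mem_bot] at h4
  exact h4

end Pool.Agent.REV
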