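import Pool.Agent.EEF.Defs

/-!
# REV / Pieces2: runs composed of recoverable runs, thin runs, steps and loops
-/

set_option autoImplicit false

namespace Pool.Agent.REV

open Pool.Agent.EEF

/-- `RecPieces T K p x q y`: there is a run from `p(x)` to `q(y)` which is a concatenation of
pieces of total cost `K`. The pieces are
* `step`: a single transition, at cost 1;
* `recover`: a RECOVERABLE run, i.e. a run from a configuration `c` to a configuration `c'` such that
  some run from `c'` covers `c` again, at cost 1;
* `thin`: a run which stays inside a strongly connected component whose cycle effects span a space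
  of dimension at most one, at cost 1;
* `loop`: a run labelled by a power of a word `β` which labels a closed walk, at cost
  `β.length + 1`. -/
inductive RecPieces {Q : Type} {d : ℕ} (T : VASS Q d) :
    ℕ → Q → (Fin d → ℕ) → Q → (Fin d → ℕ) → Prop
  | nil (p : Q) (x : Fin d → ℕ) : RecPieces T 0 p x p x
  | step {K : ℕ} {p p' q : Q} {v : Fin d → ℤ} {x x' y : Fin d → ℕ} :
      (p, v, p') ∈ T → (∀ k, (x' k : ℤ) = x k + v k) → RecPieces T K p' x' q y →
      RecPieces T (K + 1) p x q y
  | recover {K : ℕ} {p p' q : Q} {x x' y : Fin d → ℕ} {w w' : List (Fin d → ℤ)} :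
      Run T p x w p' x' → Covers T p' x' p x w' → RecPieces T K p' x' q y →
      RecPieces T (K + 1) p x q y
  | thin {K : ℕ} {p p' q : Q} {x x' y : Fin d → ℕ} {w : List (Fin d → ℤ)} :
      Module.finrank ℚ (Submodule.span ℚ
        {c : Fin d → ℚ | ∃ w, Walk T p w p ∧ c = qv w.sum}) ≤ 1 →
      Run T p x w p' x' → Reach T p' p → RecPieces T K p' x' q y →
      RecPieces T (K + 1) p x q y
  | loop {K : ℕ} {p q : Q} {x x' y : Fin d → ℕ} {β : List (Fin d → ℤ)} {a : ℕ} :
      Walk T p β p → Run T p x (List.replicate a β).flatten p x' → RecPieces T K p x' q y →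
      RecPieces T (K + (β.length + 1)) p x q y

end Pool.Agent.REV
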