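import Pool.Agent.REV.Cyc

/-!
# REV / Rack: covering runs are short in terms of the norm of the target (Rackoff's argument, in
terms of the geometric dimension)
-/

set_option autoImplicit false

namespace Pool.Agent.REV

open Pool.Agent.EEF Finset

variable {Q : Type} {d : ℕ} {T : VASS Q d} {W : Submodule ℚ (Fin d → ℚ)} {A S : ℕ → ℕ}
  {f : ℕ → Q} {Z : ℕ → Vec d} {m : ℕ}

/-- a finite run -/
structure FR (T : VASS Q d) (W : Submodule ℚ (Fin d → ℚ)) (f : ℕ → Q) (Z : ℕ → Vec d)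
    (m : ℕ) : Prop where
  step : ∀ i < m, (f i, Z (i + 1) - Z i, f (i + 1)) ∈ T
  nonneg : ∀ i ≤ m, ∀ j, 0 ≤ Z i j
  hW : ∀ i j, i ≤ m → j ≤ m → f i = f j → qv (Z i - Z j) ∈ W

/-- the steps of the run, read on `E` -/
def RF (f : ℕ → Q) (Z : ℕ → Vec d) (m : ℕ) (E : Set (Fin d)) (p : Q) (x v : Vec d)
    (p' : Q) : Prop :=
  ∃ t < m, f t = p ∧ (∀ j ∈ E, Z t j = x j) ∧ v = Z (t + 1) - Z t ∧ f (t + 1) = p'

/-- the thin configurations of the run, read on `E` -/
def VF (W : Submodule ℚ (Fin d → ℚ)) (A : ℕ → ℕ) (f : ℕ → Q) (Z : ℕ → Vec d) (m : ℕ)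
    (E : Set (Fin d)) (p : Q) (x : Vec d) : Prop :=
  (∃ t ≤ m, f t = p ∧ ∀ j ∈ E, Z t j = x j) ∧ Thn W A E x

theorem RF_inv (f : ℕ → Q) (Z : ℕ → Vec d) (m : ℕ) (E : Set (Fin d)) : RInv (RF f Z m E) E := by
  rintro p x x' v p' hx ⟨t, h0, h1, h2, h3, h4⟩
  exact ⟨t, h0, h1, fun j hj => (h2 j hj).trans (hx j hj), h3, h4⟩

theorem VF_inv (W : Submodule ℚ (Fin d → ℚ)) (A : ℕ → ℕ) (f : ℕ → Q) (Z : ℕ → Vec d) (m : ℕ)
    (E : Set (Fin d)) : Inv (VF W A f Z m E) E := by
  rintro p x x' hx ⟨⟨t, h0, h1, h2⟩, h3⟩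
  exact ⟨⟨t, h0, h1, fun j hj => (h2 j hj).trans (hx j hj)⟩, h3.congr hx⟩

theorem code_inj3 (hr : FR T W f Z m) {E : Set (Fin d)} {r₁ r₂ : Q} {y₁ y₂ : Vec d}
    (h₁ : VF W A f Z m E r₁ y₁) (h₂ : VF W A f Z m E r₂ y₂)
    (he : code W A E r₁ y₁ = code W A E r₂ y₂) : r₁ = r₂ ∧ ∀ j ∈ E, y₁ j = y₂ j := by
  obtain ⟨⟨t₁, e0, e1, e2⟩, h1⟩ := h₁
  obtain ⟨⟨t₂, e0', e3, e4⟩, h2⟩ := h₂
  rw [code, code, dif_pos h1, dif_pos h2, Prod.mk.injEq] at he
  obtain ⟨rfl, he2⟩ := he
  obtain ⟨a1, a2, a3⟩ := h1.choose_spec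
  obtain ⟨b1, b2, b3⟩ := h2.choose_spec
  obtain ⟨c1, c2⟩ := enc_inj a1 b1 he2
  refine ⟨rfl, fun j hj => ?_⟩
  have h3 := hr.hW t₁ t₂ e0 e0' (e1.trans e3.symm)
  have h4 : qv (Z t₁ - Z t₂) ∈ Kr W (ls h1.choose) := by
    refine ⟨h3, fun i hi => ?_⟩
    have h5 := c2 i hi
    have h6 := e2 i (a2 i hi)
    have h7 := e4 i (by rw [c1] at hi; exact b2 i hi)
    have h8 : Z t₁ i = Z t₂ i := by rw [h6, h7, h5]
    simp [qv, h8]
  rw [a3] at h4
  have h6 := h4.2 j hj
  simp only [qv, Pi.sub_apply, Int.cast_sub] at h6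
  have h7 : ((Z t₁ j : ℤ) : ℚ) = (Z t₂ j : ℤ) := by linarith
  have h8 : Z t₁ j = Z t₂ j := by exact_mod_cast h7
  rw [← e2 j hj, ← e4 j hj, h8]

theorem shortenF [Fintype Q] (hr : FR T W f Z m) {E : Set (Fin d)} {l : ℕ} (hE : Flt W E l)
    {p q : Q} {x : Vec d} {w : List (Vec d)} (h : SW (RF f Z m E) (VF W A f Z m E) p x w q) :
    ∃ w', SW (RF f Z m E) (VF W A f Z m E) p x w' q ∧ (∀ j ∈ E, w'.sum j = w.sum j) ∧
      w'.length < Fintype.card Q * (AL d A l).card := by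
  classical
  obtain ⟨w', h1, h2, h3⟩ := SW.shorten (RF_inv f Z m E) (VF_inv W A f Z m E)
    ((univ : Finset Q) ×ˢ AL d A l) (code W A E) (fun r y hy => code_mem2 hE hy.2)
    (fun r₁ r₂ y₁ y₂ h1 h2 h3 => code_inj3 hr h1 h2 h3) _ le_rfl h
  refine ⟨w', h1, h2, ?_⟩
  rwa [card_product, card_univ] at h3

theorem seg_walkF (f : ℕ → Q) (Z : ℕ → Vec d) (m : ℕ) (E : Set (Fin d))
    (P : Q → Vec d → Prop) (hinv : Inv P E) (i k : ℕ) (hik : i + k ≤ m)
    (hP : ∀ t, i ≤ t → t ≤ i + k → P (f t) (Z t)) {x : Vec d}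
    (hx : ∀ j ∈ E, Z i j = x j) : SW (RF f Z m E) P (f i) x (seg Z i k) (f (i + k)) := by
  induction k generalizing i x with
  | zero => exact .nil (hinv _ _ _ hx (hP i le_rfl (by omega)))
  | succ k ih =>
    rw [seg, show i + (k + 1) = i + 1 + k by ring]
    refine .cons (hinv _ _ _ hx (hP i le_rfl (by omega))) ⟨i, by omega, rfl, hx, rfl, rfl⟩
      (ih (i + 1) (by omega) (fun t h1 h2 => hP t (by omega) (by omega)) fun j hj => ?_)
    simp only [Pi.add_apply, Pi.sub_apply]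
    have := hx j hj
    linarith

theorem FR.RT (hr : FR T W f Z m) (E : Set (Fin d)) (p : Q) (x v : Vec d) (p' : Q)
    (h : RF f Z m E p x v p') : (p, v, p') ∈ T := by
  obtain ⟨t, h0, rfl, -, rfl, rfl⟩ := h
  exact hr.step t h0

theorem SW.execF {E : Set (Fin d)} {M : ℕ} (hr : FR T W f Z m)
    (hM : ∀ p v q, (p, v, q) ∈ T → ∀ k, |v k| ≤ M) {D : ℤ} (hD : 0 ≤ D) {p q : Q}
    {x : Vec d} {w : List (Vec d)} (h : SW (RF f Z m E) (VF W A f Z m E) p x w q)
    (hx : ∀ j ∉ E, D + M * w.length ≤ x j) :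
    Ok x w ∧ ∀ j ∉ E, D ≤ (x + w.sum) j := by
  induction h with
  | @nil p x h0 =>
    refine ⟨trivial, fun j hj => ?_⟩
    have := hx j hj
    simpa using this
  | @cons p p' q v x w h0 h1 h2 ih =>
    have h3 : ∀ j ∉ E, D + M * w.length ≤ (x + v) j := by
      intro j hj
      have h4 := hx j hj
      have h5 := (abs_le.1 (hM _ _ _ (hr.RT E _ _ _ _ h1) j)).1
      rw [List.length_cons] at h4
      push_cast at h4
      rw [Pi.add_apply]
      linarith
    obtain ⟨h4, h5⟩ := ih h3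
    refine ⟨⟨fun j => ?_, h4⟩, fun j hj => ?_⟩
    · by_cases hj : j ∈ E
      · obtain ⟨⟨t, h7, -, h6⟩, -⟩ := h2.start
        rw [← h6 j hj]
        exact hr.nonneg t h7 j
      · have h6 := h3 j hj
        have h7 : (0 : ℤ) ≤ M * w.length := by positivity
        have h8 : 0 ≤ (x + v) j := by linarith
        exact h8
    · rw [List.sum_cons, ← add_assoc]
      exact h5 j hj

theorem rack_aux [Fintype Q] {M N : ℕ} (hM : ∀ p v q, (p, v, q) ∈ T → ∀ k, |v k| ≤ M)
    (hr : FR T W f Z m) (ht : Thr (Fintype.card Q) d M A S fun _ => N) :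
    ∀ (l : ℕ) {E : Set (Fin d)} {i : ℕ} {Y : Vec d}, Flt W E l → i ≤ m →
      (∀ j ∈ E, Z i j = Y j) → (∀ j ∉ E, ((A l : ℕ) : ℤ) ≤ Y j) →
      ∃ τ, Walk T (f i) τ (f m) ∧ Ok Y τ ∧ τ.length ≤ ∑ i ∈ range (l + 1), S i ∧
        ∀ j, Z m j ≤ (Y + τ.sum) j ∨ (N : ℤ) ≤ (Y + τ.sum) j := by
  intro l
  induction l using Nat.strong_induction_on with
  | _ l ih =>
    intro E i Y hE him hYE hY
    by_cases hall : ∀ t, i ≤ t → t ≤ m → Thn W A E (Z t)
    · obtain ⟨k, rfl⟩ : ∃ k, m = i + k := ⟨m - i, by omega⟩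
      have h1 : SW (RF f Z (i + k) E) (VF W A f Z (i + k) E) (f i) Y (seg Z i k) (f (i + k)) :=
        seg_walkF f Z _ E _ (VF_inv W A f Z _ E) i k le_rfl
          (fun t h1 h2 => ⟨⟨t, h2, rfl, fun _ _ => rfl⟩, hall t h1 h2⟩) hYE
      obtain ⟨w₀, e1, e2, e3⟩ := shortenF hr hE h1
      have hlen : w₀.length ≤ S l := (le_of_lt e3).trans (ht.card l)
      have hex := e1.execF hr hM (D := N) (Int.natCast_nonneg _) (fun j hj => by
        have h7 := hY j hj
        have h8 : ((w₀.length : ℕ) : ℤ) ≤ S l := by exact_mod_cast hlen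
        have h9 : (M : ℤ) * w₀.length ≤ M * S l :=
          mul_le_mul_of_nonneg_left h8 (Int.natCast_nonneg _)
        have h10 : ((M * S l + N : ℕ) : ℤ) ≤ A l := by exact_mod_cast ht.bank l
        push_cast at h10
        linarith)
      refine ⟨w₀, e1.walk (hr.RT E), hex.1, hlen.trans ?_, fun j => ?_⟩
      · exact Finset.single_le_sum (f := S) (fun i _ => Nat.zero_le _)
          (mem_range.2 (Nat.lt_succ_self l))
      · by_cases hj : j ∈ E
        · left
          rw [Pi.add_apply, e2 j hj, seg_sum, Pi.sub_apply, ← hYE j hj]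
          linarith
        · exact Or.inr (hex.2 j hj)
    · push Not at hall
      obtain ⟨t, ⟨hit, htm, hbad⟩, hmin⟩ : ∃ t, (i ≤ t ∧ t ≤ m ∧ ¬ Thn W A E (Z t)) ∧
          ∀ t', t' < t → ¬ (i ≤ t' ∧ t' ≤ m ∧ ¬ Thn W A E (Z t')) := by
        classical
        exact ⟨Nat.find hall, Nat.find_spec hall, fun t' h => Nat.find_min hall h⟩
      have hthin : ∀ t', i ≤ t' → t' < t → Thn W A E (Z t') := by
        intro t' h1 h2
        by_contra h3
        exact hmin t' h2 ⟨h1, by omega, h3⟩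
      obtain ⟨E', l', d1, d2, d3, d4⟩ := descend hE (fun j _ => hr.nonneg t htm j) hbad
      have hgap : ((A l' : ℕ) : ℤ) + M * S l ≤ A l := by exact_mod_cast ht.gap l' l d2
      -- the walk to the bad configuration
      have hstep : ∃ τ, Walk T (f i) τ (f t) ∧ Ok Y τ ∧ τ.length ≤ S l ∧
          (∀ j ∈ E, Z t j = (Y + τ.sum) j) ∧ ∀ j ∉ E', ((A l' : ℕ) : ℤ) ≤ (Y + τ.sum) j := by
        have hfin : ∀ τ : List (Vec d), Walk T (f i) τ (f t) → Ok Y τ → τ.length ≤ S l →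
            (∀ j ∈ E, Z t j = (Y + τ.sum) j) →
            (∀ j ∉ E, ((A l' : ℕ) : ℤ) ≤ (Y + τ.sum) j) →
            ∃ τ, Walk T (f i) τ (f t) ∧ Ok Y τ ∧ τ.length ≤ S l ∧
              (∀ j ∈ E, Z t j = (Y + τ.sum) j) ∧
              ∀ j ∉ E', ((A l' : ℕ) : ℤ) ≤ (Y + τ.sum) j := by
          intro τ h1 h2 h3 h4 h5
          refine ⟨τ, h1, h2, h3, h4, fun j hj => ?_⟩
          by_cases hjE : j ∈ E
          · rw [← h4 j hjE]
            exact d4 j hjE hj
          · exact h5 j hjE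
        rcases Nat.eq_or_lt_of_le hit with rfl | hlt
        · refine hfin [] (.nil _) trivial (Nat.zero_le _) (fun j hj => ?_) fun j hj => ?_
          · rw [List.sum_nil, add_zero]
            exact hYE j hj
          · rw [List.sum_nil, add_zero]
            have h1 := hY j hj
            have h2 : (0 : ℤ) ≤ M * S l := by positivity
            linarith
        · obtain ⟨k, rfl⟩ : ∃ k, t = i + k + 1 := ⟨t - i - 1, by omega⟩
          have h1 : SW (RF f Z m E) (VF W A f Z m E) (f i) Y (seg Z i k) (f (i + k)) :=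
            seg_walkF f Z m E _ (VF_inv W A f Z m E) i k (by omega)
              (fun t' h1 h2 => ⟨⟨t', by omega, rfl, fun _ _ => rfl⟩, hthin t' h1 (by omega)⟩) hYE
          obtain ⟨w₀, e1, e2, e3⟩ := shortenF hr hE h1
          have hlen : w₀.length + 1 ≤ S l := le_trans e3 (ht.card l)
          have hex := e1.execF hr hM (D := (A l' : ℕ) + M) (by positivity) (fun j hj => by
            have h7 := hY j hj
            have h8 : ((w₀.length : ℕ) : ℤ) + 1 ≤ S l := by exact_mod_cast hlen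
            have h9 : (M : ℤ) * (w₀.length + 1) ≤ M * S l :=
              mul_le_mul_of_nonneg_left h8 (Int.natCast_nonneg _)
            linarith)
          have hstp := hr.step (i + k) (by omega)
          have hsum : ∀ j ∈ E, Z (i + k + 1) j =
              (Y + (w₀ ++ [Z (i + k + 1) - Z (i + k)]).sum) j := by
            intro j hj
            rw [List.sum_append, List.sum_singleton]
            simp only [Pi.add_apply, Pi.sub_apply]
            rw [e2 j hj, seg_sum, Pi.sub_apply, ← hYE j hj]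
            ring
          have hoff : ∀ j ∉ E, ((A l' : ℕ) : ℤ) ≤
              (Y + (w₀ ++ [Z (i + k + 1) - Z (i + k)]).sum) j := by
            intro j hj
            have h5 := hex.2 j hj
            have h6 := (abs_le.1 (hM _ _ _ hstp j)).1
            rw [List.sum_append, List.sum_singleton]
            simp only [Pi.add_apply, Pi.sub_apply] at h5 h6 ⊢
            linarith
          refine hfin (w₀ ++ [Z (i + k + 1) - Z (i + k)]) ?_ ?_ ?_ hsum hoff
          · exact (e1.walk (hr.RT E)).append (.cons hstp (.nil _))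
          · rw [Ok_append]
            refine ⟨hex.1, fun j => ?_, trivial⟩
            have e : (Y + w₀.sum + (Z (i + k + 1) - Z (i + k))) j =
                (Y + (w₀ ++ [Z (i + k + 1) - Z (i + k)]).sum) j := by
              rw [List.sum_append, List.sum_singleton, add_assoc]
            rw [e]
            by_cases hj : j ∈ E
            · rw [← hsum j hj]
              exact hr.nonneg _ htm j
            · exact (Int.natCast_nonneg _).trans (hoff j hj)
          · rw [List.length_append, List.length_singleton]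
            exact hlen
      obtain ⟨τ, g1, g2, g3, g4, g5⟩ := hstep
      obtain ⟨τ', h1, h2, h3, h4⟩ := ih l' d2 (i := t) (Y := Y + τ.sum) d1 htm
        (fun j hj => g4 j (d3 hj)) g5
      have es : Y + (τ ++ τ').sum = Y + τ.sum + τ'.sum := by rw [List.sum_append, add_assoc]
      refine ⟨τ ++ τ', g1.append h1, ?_, ?_, ?_⟩
      · rw [Ok_append]
        exact ⟨g2, h2⟩
      · rw [List.length_append, sum_range_succ]
        have h8 : ∑ i ∈ range (l' + 1), S i ≤ ∑ i ∈ range l, S i :=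
          Finset.sum_le_sum_of_subset (range_subset_range.2 (by omega))
        omega
      · rw [es]; exact h4

/-! ### The thresholds -/

/-- `(S l, A l)` -/
def RS (n d M N : ℕ) : ℕ → ℕ × ℕ
  | 0 => (n, 1 + M * n + N)
  | l + 1 => ((RS n d M N l).1 * ((d + 1) * (RS n d M N l).2),
      (RS n d M N l).2 + 1 + M * ((RS n d M N l).1 * ((d + 1) * (RS n d M N l).2)) + N)

theorem thrR (n d M N : ℕ) :
    Thr n d M (fun l => (RS n d M N l).2) (fun l => (RS n d M N l).1) fun _ => N := by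
  have hpos : ∀ l, 1 ≤ (RS n d M N l).2 := by
    intro l
    rcases l with _ | l
    · rw [RS]; omega
    · rw [RS]; omega
  have hmono : Monotone fun l => (RS n d M N l).2 :=
    monotone_nat_of_le_succ fun l => by rw [RS]; omega
  refine ⟨fun l => ?_, fun l' l h => ?_, fun l => ?_⟩
  · induction l with
    | zero => simp [AL, RS]
    | succ l ih =>
      refine (AL_card n d _ l).trans ?_
      rw [RS]
      exact Nat.mul_le_mul ih (Nat.mul_le_mul_right _ (Nat.le_succ d))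
  · obtain ⟨m, rfl⟩ : ∃ m, l = m + 1 := ⟨l - 1, by omega⟩
    have h1 : (RS n d M N l').2 ≤ (RS n d M N m).2 := hmono (by omega)
    simp only [RS]
    omega
  · rcases l with _ | l
    · simp only [RS]; omega
    · simp only [RS]; omega

theorem RS_mono (n d M N : ℕ) : Monotone fun l => (RS n d M N l).1 :=
  monotone_nat_of_le_succ fun l => by
    have hpos : 1 ≤ (RS n d M N l).2 := by
      rcases l with _ | l
      · rw [RS]; omega
      · rw [RS]; omega
    simp only [RS]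
    exact Nat.le_mul_of_pos_right _ (Nat.mul_pos (Nat.succ_pos d) hpos)

theorem RS_le {n d M X : ℕ} (hn : 1 ≤ n) (hX : X = 29 * n * (d + 1) ^ 3 * (M + 1) ^ 2) (l : ℕ) :
    (RS n d M M l).1 ≤ X ^ (3 ^ (l + 1) - 2) ∧ (RS n d M M l).2 ≤ X ^ (3 ^ (l + 1) - 1) := by
  have hd3 : d + 1 ≤ (d + 1) ^ 3 := Nat.le_self_pow (by norm_num) _
  have hM2 : M + 1 ≤ (M + 1) ^ 2 := Nat.le_self_pow (by norm_num) _
  have key : 29 * (n * ((d + 1) * (M + 1))) ≤ X := by
    rw [hX]
    calc 29 * (n * ((d + 1) * (M + 1))) = 29 * n * (d + 1) * (M + 1) := by ring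
      _ ≤ 29 * n * (d + 1) ^ 3 * (M + 1) ^ 2 := by gcongr
  have hdM : d + 1 ≤ n * ((d + 1) * (M + 1)) := by
    calc d + 1 = 1 * ((d + 1) * 1) := by ring
      _ ≤ n * ((d + 1) * (M + 1)) := by gcongr; omega
  have hMM : M + 1 ≤ n * ((d + 1) * (M + 1)) := by
    calc M + 1 = 1 * (1 * (M + 1)) := by ring
      _ ≤ n * ((d + 1) * (M + 1)) := by gcongr; omega
  have hnn : n ≤ n * ((d + 1) * (M + 1)) := Nat.le_mul_of_pos_right _ (by positivity)
  have hX1 : 1 ≤ X := by omega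
  have hpow : ∀ l, 3 ≤ 3 ^ (l + 1) := fun l => by
    calc 3 = 3 ^ 1 := rfl
      _ ≤ 3 ^ (l + 1) := Nat.pow_le_pow_right (by norm_num) (by omega)
  induction l with
  | zero =>
    simp only [RS]
    have hMn : M * n ≤ n * ((d + 1) * (M + 1)) := by
      calc M * n = n * (1 * M) := by ring
        _ ≤ n * ((d + 1) * (M + 1)) := by gcongr <;> omega
    refine ⟨?_, ?_⟩
    · have e : 3 ^ (0 + 1) - 2 = 1 := by norm_num
      rw [e, pow_one]; omega
    · have e : 3 ^ (0 + 1) - 1 = 2 := by norm_num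
      rw [e]
      have h1 : X ≤ X ^ 2 := Nat.le_self_pow (by norm_num) _
      omega
  | succ l ih =>
    obtain ⟨h1, h2⟩ := ih
    have h3 := hpow l
    have e3 : 3 ^ (l + 1 + 1) = 3 * 3 ^ (l + 1) := by ring
    obtain ⟨b, hb⟩ : ∃ b, 3 ^ (l + 1) = b + 3 := ⟨3 ^ (l + 1) - 3, by omega⟩
    rw [hb] at h1 h2 e3
    have e1 : b + 3 - 2 = b + 1 := by omega
    have e2 : b + 3 - 1 = b + 2 := by omega
    rw [e1] at h1
    rw [e2] at h2
    have h4 : (RS n d M M l).1 * ((d + 1) * (RS n d M M l).2) ≤ X ^ (2 * b + 4) := by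
      calc (RS n d M M l).1 * ((d + 1) * (RS n d M M l).2) ≤ X ^ (b + 1) * (X * X ^ (b + 2)) :=
            Nat.mul_le_mul h1 (Nat.mul_le_mul (by omega) h2)
        _ = X ^ (2 * b + 4) := by ring
    refine ⟨?_, ?_⟩
    · simp only [RS]
      refine h4.trans (Nat.pow_le_pow_right hX1 ?_)
      omega
    · simp only [RS]
      have h5 : 1 ≤ X ^ (2 * b + 4) := Nat.one_le_pow _ _ hX1
      have h6 : X ^ (b + 2) ≤ X ^ (2 * b + 4) := Nat.pow_le_pow_right hX1 (by omega)
      have h7 : M * ((RS n d M M l).1 * ((d + 1) * (RS n d M M l).2)) ≤ M * X ^ (2 * b + 4) :=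
        Nat.mul_le_mul_left _ h4
      have h8 : M ≤ M * X ^ (2 * b + 4) := Nat.le_mul_of_pos_right _ h5
      calc (RS n d M M l).2 + 1 + M * ((RS n d M M l).1 * ((d + 1) * (RS n d M M l).2)) + M
          ≤ X ^ (2 * b + 4) + X ^ (2 * b + 4) + M * X ^ (2 * b + 4) + M * X ^ (2 * b + 4) := by
            omega
        _ = (2 * M + 2) * X ^ (2 * b + 4) := by ring
        _ ≤ X * X ^ (2 * b + 4) := Nat.mul_le_mul_right _ (by omega)
        _ = X ^ (2 * b + 5) := by ring
        _ ≤ X ^ (3 ^ (l + 1 + 1) - 1) := Nat.pow_le_pow_right hX1 (by omega)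

end Pool.Agent.REV
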