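import Pool.Agent.REV.Flats

/-!
# REV / SW: walks along a periodic run, read on a set of counters
-/

set_option autoImplicit false

namespace Pool.Agent.REV

open Pool.Agent.EEF Finset

variable {Q : Type} {d : ℕ} {T : VASS Q d}

/-- walks with steps in `R` all of whose configurations satisfy `P` -/
inductive SW (R : Q → Vec d → Vec d → Q → Prop) (P : Q → Vec d → Prop) :
    Q → Vec d → List (Vec d) → Q → Prop
  | nil {p : Q} {x : Vec d} : P p x → SW R P p x [] p
  | cons {p p' q : Q} {v x : Vec d} {w : List (Vec d)} :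
      P p x → R p x v p' → SW R P p' (x + v) w q → SW R P p x (v :: w) q

variable {R R' : Q → Vec d → Vec d → Q → Prop} {P P' : Q → Vec d → Prop} {E : Set (Fin d)}

theorem SW.start {p q : Q} {x : Vec d} {w : List (Vec d)} (h : SW R P p x w q) : P p x := by
  cases h with
  | nil h => exact h
  | cons h _ _ => exact h

theorem SW.stop {p q : Q} {x : Vec d} {w : List (Vec d)} (h : SW R P p x w q) :
    P q (x + w.sum) := by
  induction h with
  | nil h => simpa using h
  | cons _ _ _ ih => rw [List.sum_cons, ← add_assoc]; exact ih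

theorem SW.append {p q r : Q} {x : Vec d} {u w : List (Vec d)} (h : SW R P p x u q)
    (h' : SW R P q (x + u.sum) w r) : SW R P p x (u ++ w) r := by
  induction h with
  | nil h => simpa using h'
  | cons h0 h1 _ ih =>
    refine .cons h0 h1 (ih ?_)
    rw [List.sum_cons, ← add_assoc] at h'
    exact h'

theorem SW.split {u w : List (Vec d)} : ∀ {p r : Q} {x : Vec d}, SW R P p x (u ++ w) r →
    ∃ q, SW R P p x u q ∧ SW R P q (x + u.sum) w r := by
  induction u with
  | nil => intro p r x h; exact ⟨p, .nil h.start, by simpa using h⟩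
  | cons v u ih =>
    intro p r x h
    rw [List.cons_append] at h
    cases h with
    | cons h0 h1 h2 =>
      obtain ⟨q, h3, h4⟩ := ih h2
      exact ⟨q, .cons h0 h1 h3, by rw [List.sum_cons, ← add_assoc]; exact h4⟩

theorem SW.mono (hRR : ∀ p x v p', R p x v p' → R' p x v p') (hPP : ∀ p x, P p x → P' p x)
    {p q : Q} {x : Vec d} {w : List (Vec d)} (h : SW R P p x w q) : SW R' P' p x w q := by
  induction h with
  | nil h => exact .nil (hPP _ _ h)
  | cons h0 h1 _ ih => exact .cons (hPP _ _ h0) (hRR _ _ _ _ h1) ih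

/-- the steps only depend on the coordinates in `E` -/
def RInv (R : Q → Vec d → Vec d → Q → Prop) (E : Set (Fin d)) : Prop :=
  ∀ p x x' v p', (∀ j ∈ E, x j = x' j) → R p x v p' → R p x' v p'

theorem SW.congr (hR : RInv R E) (hinv : Inv P E) {p q : Q} {x x' : Vec d} {w : List (Vec d)}
    (hx : ∀ j ∈ E, x j = x' j) (h : SW R P p x w q) : SW R P p x' w q := by
  induction h generalizing x' with
  | nil h => exact .nil (hinv _ _ _ hx h)
  | cons h0 h1 _ ih =>
    refine .cons (hinv _ _ _ hx h0) (hR _ _ _ _ _ hx h1) (ih fun j hj => ?_)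
    simp only [Pi.add_apply, hx j hj]

theorem SW.walk (hRT : ∀ p x v p', R p x v p' → (p, v, p') ∈ T) {p q : Q} {x : Vec d}
    {w : List (Vec d)} (h : SW R P p x w q) : Walk T p w q := by
  induction h with
  | nil _ => exact .nil _
  | cons _ h1 _ ih => exact .cons (hRT _ _ _ _ h1) ih

/-- shortening -/
theorem SW.shorten {α : Type} [DecidableEq α] (hR : RInv R E) (hinv : Inv P E) (C : Finset α)
    (code : Q → Vec d → α) (hC : ∀ r y, P r y → code r y ∈ C)
    (hinj : ∀ r₁ r₂ y₁ y₂, P r₁ y₁ → P r₂ y₂ → code r₁ y₁ = code r₂ y₂ →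
      r₁ = r₂ ∧ ∀ j ∈ E, y₁ j = y₂ j) {p : Q} {x : Vec d} :
    ∀ (m : ℕ) {q : Q} {w : List (Vec d)}, w.length ≤ m → SW R P p x w q →
    ∃ w', SW R P p x w' q ∧ (∀ j ∈ E, w'.sum j = w.sum j) ∧ w'.length < C.card := by
  intro m
  induction m with
  | zero =>
    intro q w hw h
    refine ⟨w, h, fun _ _ => rfl, ?_⟩
    have h1 : 0 < C.card := Finset.card_pos.2 ⟨_, hC _ _ h.start⟩
    omega
  | succ m ih =>
    intro q w hw h
    by_cases hlt : w.length < C.card
    · exact ⟨w, h, fun _ _ => rfl, hlt⟩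
    push Not at hlt
    have hsp : ∀ i : ℕ, ∃ r, SW R P p x (w.take i) r ∧
        SW R P r (x + (w.take i).sum) (w.drop i) q := fun i => by
      apply SW.split
      rw [List.take_append_drop]
      exact h
    choose f hf1 hf2 using hsp
    obtain ⟨i, hi, j, hj, hne, he⟩ := Finset.exists_ne_map_eq_of_card_lt_of_maps_to
      (s := range (w.length + 1)) (t := C) (by rw [card_range]; omega)
      (f := fun i => code (f i) (x + (w.take i).sum)) (fun i _ => hC _ _ (hf1 i).stop)
    have key : ∀ i j, i < j → j ≤ w.length →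
        code (f i) (x + (w.take i).sum) = code (f j) (x + (w.take j).sum) →
        ∃ w', SW R P p x w' q ∧ (∀ j ∈ E, w'.sum j = w.sum j) ∧ w'.length < C.card := by
      intro i j hij hj he
      obtain ⟨h1, h2⟩ := hinj _ _ _ _ (hf1 i).stop (hf1 j).stop he
      have h2' : ∀ k ∈ E, (w.take i).sum k = (w.take j).sum k := by
        intro k hk
        have := h2 k hk
        simp only [Pi.add_apply, add_right_inj] at this
        exact this
      have h3 : SW R P (f i) (x + (w.take i).sum) (w.drop j) q := by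
        rw [h1]
        exact (hf2 j).congr hR hinv fun k hk => (h2 k hk).symm
      have h4 := (hf1 i).append h3
      have hlen : (w.take i ++ w.drop j).length ≤ m := by
        rw [List.length_append, List.length_take, List.length_drop]
        omega
      obtain ⟨w', h5, h6, h7⟩ := ih hlen h4
      refine ⟨w', h5, fun k hk => ?_, h7⟩
      rw [h6 k hk, List.sum_append, Pi.add_apply, h2' k hk, ← Pi.add_apply, ← List.sum_append,
        List.take_append_drop]
    rw [mem_range] at hi hj
    rcases lt_or_gt_of_ne hne with h1 | h1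
    · exact key i j h1 (by omega) he
    · exact key j i h1 (by omega) he.symm

/-! ### Periodic runs -/

/-- a periodic infinite run, with all transitions in `T` and cycle effects in `W` -/
structure PR (T : VASS Q d) (W : Submodule ℚ (Fin d → ℚ)) (f : ℕ → Q) (Z : ℕ → Vec d)
    (m : ℕ) : Prop where
  pos : 0 < m
  step : ∀ i, (f i, Z (i + 1) - Z i, f (i + 1)) ∈ T
  nonneg : ∀ i j, 0 ≤ Z i j
  perf : ∀ i, f (i + m) = f i
  perZ : ∀ i, Z (i + m) = Z i
  hW : ∀ i j, f i = f j → qv (Z i - Z j) ∈ W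
  hWc : ∀ i w, Walk T (f i) w (f i) → qv w.sum ∈ W

variable {W : Submodule ℚ (Fin d → ℚ)} {f : ℕ → Q} {Z : ℕ → Vec d} {m : ℕ}

/-- the steps of the run, read on `E` -/
def RE (f : ℕ → Q) (Z : ℕ → Vec d) (E : Set (Fin d)) (p : Q) (x v : Vec d) (p' : Q) : Prop :=
  ∃ t, f t = p ∧ (∀ j ∈ E, Z t j = x j) ∧ v = Z (t + 1) - Z t ∧ f (t + 1) = p'

/-- the configurations of the run, read on `E` -/
def VE (f : ℕ → Q) (Z : ℕ → Vec d) (E : Set (Fin d)) (p : Q) (x : Vec d) : Prop :=
  ∃ t, f t = p ∧ ∀ j ∈ E, Z t j = x j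

theorem RE_inv (f : ℕ → Q) (Z : ℕ → Vec d) (E : Set (Fin d)) : RInv (RE f Z E) E := by
  rintro p x x' v p' hx ⟨t, h1, h2, h3, h4⟩
  exact ⟨t, h1, fun j hj => (h2 j hj).trans (hx j hj), h3, h4⟩

theorem VE_inv (f : ℕ → Q) (Z : ℕ → Vec d) (E : Set (Fin d)) : Inv (VE f Z E) E := by
  rintro p x x' hx ⟨t, h1, h2⟩
  exact ⟨t, h1, fun j hj => (h2 j hj).trans (hx j hj)⟩

theorem RE_mono {E' : Set (Fin d)} (h : E' ⊆ E) :
    ∀ p x v p', RE f Z E p x v p' → RE f Z E' p x v p' := by
  rintro p x v p' ⟨t, h1, h2, h3, h4⟩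
  exact ⟨t, h1, fun j hj => h2 j (h hj), h3, h4⟩

theorem VE_mono {E' : Set (Fin d)} (h : E' ⊆ E) : ∀ p x, VE f Z E p x → VE f Z E' p x := by
  rintro p x ⟨t, h1, h2⟩
  exact ⟨t, h1, fun j hj => h2 j (h hj)⟩

theorem PR.RT (hr : PR T W f Z m) (p : Q) (x v : Vec d) (p' : Q) (h : RE f Z E p x v p') :
    (p, v, p') ∈ T := by
  obtain ⟨t, rfl, -, rfl, rfl⟩ := h
  exact hr.step t

theorem PR.per_mul (hr : PR T W f Z m) (i k : ℕ) : f (i + m * k) = f i ∧ Z (i + m * k) = Z i := by
  induction k with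
  | zero => simp
  | succ k ih =>
    have e : i + m * (k + 1) = i + m * k + m := by ring
    rw [e, hr.perf, hr.perZ]
    exact ih

/-- the letters of the run between two times -/
def seg (Z : ℕ → Vec d) (i : ℕ) : ℕ → List (Vec d)
  | 0 => []
  | k + 1 => (Z (i + 1) - Z i) :: seg Z (i + 1) k

theorem seg_sum (Z : ℕ → Vec d) (i k : ℕ) : (seg Z i k).sum = Z (i + k) - Z i := by
  induction k generalizing i with
  | zero => simp [seg]
  | succ k ih =>
    rw [seg, List.sum_cons, ih, show i + 1 + k = i + (k + 1) by ring]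
    abel

theorem seg_length (Z : ℕ → Vec d) (i k : ℕ) : (seg Z i k).length = k := by
  induction k generalizing i with
  | zero => rfl
  | succ k ih => rw [seg, List.length_cons, ih]

theorem seg_walk (f : ℕ → Q) (Z : ℕ → Vec d) (E : Set (Fin d)) (P : Q → Vec d → Prop)
    (hinv : Inv P E) (i k : ℕ) (hP : ∀ t, i ≤ t → t ≤ i + k → P (f t) (Z t)) {x : Vec d}
    (hx : ∀ j ∈ E, Z i j = x j) : SW (RE f Z E) P (f i) x (seg Z i k) (f (i + k)) := by
  induction k generalizing i x with
  | zero => exact .nil (hinv _ _ _ hx (hP i le_rfl (by omega)))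
  | succ k ih =>
    rw [seg, show i + (k + 1) = i + 1 + k by ring]
    refine .cons (hinv _ _ _ hx (hP i le_rfl (by omega))) ⟨i, rfl, hx, rfl, rfl⟩
      (ih (i + 1) (fun t h1 h2 => hP t (by omega) (by omega)) fun j hj => ?_)
    simp only [Pi.add_apply, Pi.sub_apply]
    have := hx j hj
    linarith

end Pool.Agent.REV
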