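import Pool.Agent.EEF.Defs

/-!
# REV / Undo: transitions which can be undone up to coverage
-/

set_option autoImplicit false

namespace Pool.Agent.REV

open Pool.Agent.EEF

/-- `Undo T p v q`: the transition `(p, v, q)` can be undone up to coverage: from the smallest
configuration `q(v⁺)` in which it can end, some run covers the smallest configuration `p(v⁻)` in
which it can be fired. (Then for every step `p(x) → q(x + v)` some run from `q(x + v)` covers
`p(x)`.) -/
def Undo {Q : Type} {d : ℕ} (T : VASS Q d) (p : Q) (v : Fin d → ℤ) (q : Q) : Prop :=
  ∃ w, Covers T q (fun k => (v k).toNat) p (fun k => (-v k).toNat) w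

/-- `CoreOf T₀ T`: `T₀` arises from `T` by deleting redundant transitions: every transition
`(p, v, q)` of `T` is simulated by `T₀` up to coverage, i.e. from the smallest configuration `p(v⁻)`
in which it can be fired some run of `T₀` covers `q(v⁺)`. (This holds for `T₀ = T`; for instance all
transitions `(p, v, p)` with `v ≤ 0` are redundant.) -/
def CoreOf {Q : Type} {d : ℕ} (T₀ T : VASS Q d) : Prop :=
  T₀ ⊆ T ∧ ∀ p v q, (p, v, q) ∈ T →
    ∃ w, Covers T₀ p (fun k => (-v k).toNat) q (fun k => (v k).toNat) w

/-- Every strongly connected component of the system is thin (its cycle effects span a space of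
dimension at most one) or all its transitions can be undone up to coverage. -/
def ThinOrUndo {Q : Type} {d : ℕ} (T : VASS Q d) : Prop :=
  ∀ r, Module.finrank ℚ (Submodule.span ℚ {c : Fin d → ℚ | ∃ w, Walk T r w r ∧ c = qv w.sum}) ≤ 1 ∨
    ∀ p v q, (p, v, q) ∈ T → Reach T r p → Reach T q r → Undo T p v q

end Pool.Agent.REV
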