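import Pool.Agent.REV.Undo
import Pool.Agent.REV.Rack
import Pool.Agent.REV.Final4

/-!
# REV / Undo2: components all of whose transitions can be undone up to coverage
-/

set_option autoImplicit false

namespace Pool.Agent.REV

open Pool.Agent.EEF Finset

variable {Q : Type} {d : ℕ} {T : VASS Q d}

/-! ### Rackoff's bound -/

theorem seg_TF {f : ℕ → Q} {Z : ℕ → Vec d} {m : ℕ}
    (h : ∀ i < m, (f i, Z (i + 1) - Z i, f (i + 1)) ∈ T) (i k : ℕ) (hik : i + k ≤ m) :
    Walk T (f i) (seg Z i k) (f (i + k)) := by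
  induction k generalizing i with
  | zero => exact .nil _
  | succ k ih =>
    rw [seg, show i + (k + 1) = i + 1 + k by ring]
    exact .cons (h i (by omega)) (ih (i + 1) (by omega))

/-- the length bound -/
def RL (n d M N g : ℕ) : ℕ := ∑ i ∈ range (g + 1), (RS n d M N i).1

/-- A covering run can be chosen short in terms of the norm of the target. -/
theorem rack [Fintype Q] {s t : Q} {x y y' : Fin d → ℕ} {w : List (Fin d → ℤ)}
    (hrun : Run T s x w t y') (hy : ∀ k, y k ≤ y' k) {N : ℕ} (hN : ∀ k, y k ≤ N) :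
    ∃ w', Covers T s x t y w' ∧
      w'.length ≤ RL (Fintype.card Q) d (maxNorm T) N (geomDim T) := by
  obtain ⟨h1, h2, h3⟩ := run_iff.1 hrun
  obtain ⟨st, a1, a2, a3⟩ := exists_path h1
  set W := Submodule.span ℚ {c : Fin d → ℚ | ∃ q w, Walk T q w q ∧ c = qv w.sum} with hW
  set Z : ℕ → Vec d := fun i => zv x + (w.take i).sum with hZ
  have hstep : ∀ i < w.length, (st i, Z (i + 1) - Z i, st (i + 1)) ∈ T := by
    intro i hi
    have e : Z (i + 1) - Z i = w[i] := by
      simp only [hZ]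
      rw [List.sum_take_succ w i hi]
      abel
    rw [e]
    exact a3 i hi
  have hr : FR T W st Z w.length := by
    refine ⟨hstep, fun i _ j => Ok_take (zv_nonneg x) h2 i j, ?_⟩
    have key : ∀ i j, i ≤ j → j ≤ w.length → st i = st j → qv (Z j - Z i) ∈ W := by
      intro i j hij hj he
      obtain ⟨k, rfl⟩ : ∃ k, j = i + k := ⟨j - i, by omega⟩
      have h5 := seg_TF hstep i k hj
      rw [← he] at h5
      rw [← seg_sum]
      exact Submodule.subset_span ⟨_, _, h5, rfl⟩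
    intro i j hi hj he
    rcases le_total i j with hij | hij
    · have h5 := Submodule.neg_mem _ (key i j hij hj he)
      rw [← qv_neg, neg_sub] at h5
      exact h5
    · exact key j i hij hi he.symm
  obtain ⟨τ, b1, b2, b3, b4⟩ := rack_aux (N := N) (fun _ _ _ h k => abs_le_maxNorm h k) hr
    (thrR (Fintype.card Q) d (maxNorm T) N) (Module.finrank ℚ W) (i := 0) (Y := Z 0)
    (Flt_univ W) (Nat.zero_le _) (fun _ _ => rfl) (fun j hj => absurd (Set.mem_univ j) hj)
  have hZ0 : Z 0 = zv x := by simp [hZ]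
  have hZm : Z w.length = zv y' := by
    simp only [hZ]
    rw [List.take_length, h3]
  rw [hZ0] at b2 b4
  rw [a1, a2] at b1
  rw [hZm] at b4
  have hge : ∀ j, (y j : ℤ) ≤ (zv x + τ.sum) j := by
    intro j
    rcases b4 j with h | h
    · have h5 : (y j : ℤ) ≤ zv y' j := by
        have := hy j
        simp only [zv]
        exact_mod_cast this
      exact h5.trans h
    · have h5 : (y j : ℤ) ≤ N := by exact_mod_cast hN j
      exact h5.trans h
  refine ⟨τ, ⟨fun k => ((zv x + τ.sum) k).toNat, run_iff.2 ⟨b1, b2, ?_⟩, fun k => ?_⟩, b3⟩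
  · funext k
    exact Int.toNat_of_nonneg ((Int.natCast_nonneg _).trans (hge k))
  · have h5 := hge k
    have h6 : (y k : ℤ) ≤ ((((zv x + τ.sum) k).toNat : ℕ) : ℤ) := by
      rw [Int.toNat_of_nonneg ((Int.natCast_nonneg _).trans (hge k))]
      exact hge k
    exact_mod_cast h6

/-! ### The symmetrized system -/

open Classical in
/-- add the inverses of the transitions which can be undone -/
noncomputable def symU (T : VASS Q d) : VASS Q d :=
  T ∪ (T.filter fun t => Undo T t.1 t.2.1 t.2.2).image fun t => (t.2.2, -t.2.1, t.1)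

theorem mem_symU {a b : Q} {v : Vec d} :
    (a, v, b) ∈ symU T ↔ (a, v, b) ∈ T ∨ ((b, -v, a) ∈ T ∧ Undo T b (-v) a) := by
  classical
  rw [symU, mem_union, mem_image]
  refine or_congr Iff.rfl ⟨?_, fun h => ⟨(b, -v, a), mem_filter.2 ⟨h.1, h.2⟩, by simp⟩⟩
  rintro ⟨⟨p, u, q⟩, h, he⟩
  simp only [Prod.mk.injEq] at he
  obtain ⟨rfl, rfl, rfl⟩ := he
  rw [mem_filter] at h
  rw [neg_neg]
  exact h

theorem undo_walk {a b : Q} {v : Vec d} (h : Undo T b (-v) a) : ∃ u, Walk T a u b := by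
  obtain ⟨w, y, h1, -⟩ := h
  exact ⟨w, (run_iff.1 h1).1⟩

theorem symU_reach {a b : Q} {w : List (Vec d)} (h : Walk (symU T) a w b) : Reach T a b := by
  induction h with
  | nil a => exact ⟨[], .nil a⟩
  | cons h1 _ ih =>
    rcases mem_symU.1 h1 with h2 | ⟨-, h2⟩
    · exact Reach.trans ⟨_, .cons h2 (.nil _)⟩ ih
    · exact Reach.trans (undo_walk h2) ih

theorem loop_Wp {r a : Q} (h1 : Reach T r a) (h2 : Reach T a r) {c : List (Vec d)}
    (hc : Walk T a c a) : qv c.sum ∈ Wp T r :=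
  CG_mem (n := c.length) ⟨a, c, h1, h2, hc, le_rfl, rfl⟩

theorem symU_walk {r a b : Q} {w : List (Vec d)} (h : Walk (symU T) a w b) (h1 : Reach T r a)
    (h2 : Reach T b r) : ∃ w', Walk T a w' b ∧ qv (w'.sum - w.sum) ∈ Wp T r := by
  induction h with
  | nil a =>
    refine ⟨[], .nil a, ?_⟩
    rw [sub_self, tube_qv_zero]
    exact Submodule.zero_mem _
  | @cons a a' b v w h3 _ ih =>
    rcases mem_symU.1 h3 with h4 | ⟨h4, h5⟩
    · obtain ⟨w', h6, h7⟩ := ih (h1.trans ⟨_, .cons h4 (.nil _)⟩) h2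
      refine ⟨v :: w', .cons h4 h6, ?_⟩
      rw [List.sum_cons, List.sum_cons, add_sub_add_left_eq_sub]
      exact h7
    · obtain ⟨u, hu⟩ := undo_walk h5
      obtain ⟨w', h6, h7⟩ := ih (h1.trans ⟨_, hu⟩) h2
      refine ⟨u ++ w', hu.append h6, ?_⟩
      have h8 := loop_Wp h1 (Reach.trans ⟨_, hu.append h6⟩ h2) (hu.append (.cons h4 (.nil _)))
      rw [List.sum_append, List.sum_singleton] at h8
      have e : (u ++ w').sum - (v :: w).sum = (u.sum + -v) + (w'.sum - w.sum) := by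
        rw [List.sum_append, List.sum_cons]
        abel
      rw [e, qv_add]
      exact Submodule.add_mem _ h8 h7

theorem Wp_symU (T : VASS Q d) (r : Q) : Wp (symU T) r ≤ Wp T r := by
  rw [Wp, Submodule.span_le]
  rintro c ⟨w, hw, rfl⟩
  have hrr : Reach T r r := ⟨[], .nil r⟩
  obtain ⟨w', h1, h2⟩ := symU_walk hw hrr hrr
  have h3 := Submodule.sub_mem _ (mem_Wp h1) h2
  rw [← qv_sub] at h3
  have e : w'.sum - (w'.sum - w.sum) = w.sum := by abel
  rw [e] at h3
  exact h3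

theorem geomDim_symU (T : VASS Q d) : geomDim (symU T) ≤ geomDim T := by
  refine Submodule.finrank_mono (Submodule.span_le.2 ?_)
  rintro c ⟨q, w, hw, rfl⟩
  have h1 : qv w.sum ∈ Wp T q := Wp_symU T q (mem_Wp hw)
  have h2 : Wp T q ≤ Submodule.span ℚ {c : Fin d → ℚ | ∃ q w, Walk T q w q ∧ c = qv w.sum} := by
    refine Submodule.span_mono ?_
    rintro c ⟨w, hw, rfl⟩
    exact ⟨q, w, hw, rfl⟩
  exact h2 h1

theorem maxNorm_symU (T : VASS Q d) : maxNorm (symU T) ≤ maxNorm T := by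
  refine Finset.sup_le ?_
  rintro ⟨a, v, b⟩ h
  rcases mem_symU.1 h with h1 | ⟨h1, -⟩
  · exact Finset.le_sup (f := fun t : Q × (Fin d → ℤ) × Q => supZ t.2.1) h1
  · have h2 := Finset.le_sup (f := fun t : Q × (Fin d → ℤ) × Q => supZ t.2.1) h1
    have e : supZ (-v) = supZ v := by
      unfold supZ
      congr 1
      funext k
      simp
    simp only at h2 ⊢
    rw [e] at h2
    exact h2

theorem symU_thin (hT : ThinOrUndo T) : ThinOrRev (symU T) := by
  intro r
  rcases hT r with h | h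
  · exact Or.inl ((Submodule.finrank_mono (Wp_symU T r)).trans h)
  · refine Or.inr fun p v q h1 h2 h3 => ?_
    rcases mem_symU.1 h1 with h4 | ⟨h4, -⟩
    · obtain ⟨w2, h2⟩ := h2
      obtain ⟨w3, h3⟩ := h3
      refine mem_symU.2 (Or.inr ?_)
      rw [neg_neg]
      exact ⟨h4, h p v q h4 (symU_reach h2) (symU_reach h3)⟩
    · exact mem_symU.2 (Or.inl h4)

/-! ### Simulation -/

theorem run_add {p q : Q} {x y : Fin d → ℕ} {w : List (Fin d → ℤ)} (h : Run T p x w q y)
    (r : Fin d → ℕ) : Run T p (fun k => x k + r k) w q (fun k => y k + r k) := by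
  induction h with
  | nil p x => exact .nil p _
  | @cons p p' q v x x₁ y w h1 h2 _ ih =>
    refine .cons h1 (fun k => ?_) ih
    have h5 := h2 k
    push_cast
    linarith

theorem sim_step [Fintype Q] {a b : Q} {v : Vec d} (h : (a, v, b) ∈ symU T)
    {x x' : Fin d → ℕ} (hx : ∀ k, (x' k : ℤ) = x k + v k) : ∃ w, Covers T a x b x' w ∧
      w.length ≤ RL (Fintype.card Q) d (maxNorm T) (maxNorm T) (geomDim T) := by
  have hn : 1 ≤ Fintype.card Q := Fintype.card_pos_iff.2 ⟨a⟩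
  have hL : 1 ≤ RL (Fintype.card Q) d (maxNorm T) (maxNorm T) (geomDim T) := by
    unfold RL
    have h1 := Finset.single_le_sum
      (f := fun i => (RS (Fintype.card Q) d (maxNorm T) (maxNorm T) i).1)
      (fun i _ => Nat.zero_le _) (mem_range.2 (Nat.succ_pos (geomDim T)))
    have h2 : (RS (Fintype.card Q) d (maxNorm T) (maxNorm T) 0).1 = Fintype.card Q := rfl
    simp only [h2] at h1
    exact hn.trans h1
  rcases mem_symU.1 h with h1 | ⟨h1, h2⟩
  · exact ⟨[v], ⟨x', .cons h1 hx (.nil _ _), fun _ => le_rfl⟩, by simpa using hL⟩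
  · obtain ⟨w, y, h3, h4⟩ := h2
    obtain ⟨w', ⟨y', h5, h6⟩, h7⟩ := rack (N := maxNorm T) h3 h4 (fun k => by
      have h8 := abs_le_maxNorm h1 k
      have h9 := abs_le.1 h8
      rw [Int.toNat_le]
      linarith [h9.1, h9.2])
    refine ⟨w', ⟨fun k => y' k + (x k - ((-v) k).toNat), ?_, ?_⟩, h7⟩
    · have h8 := run_add h5 (fun k => x k - ((-v) k).toNat)
      have e : (fun k => ((-v) k).toNat + (x k - ((-v) k).toNat)) = x := by
        funext k
        have h9 := hx k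
        simp only [Pi.neg_apply]
        omega
      rw [e] at h8
      exact h8
    · intro k
      have h9 := hx k
      have h10 := h6 k
      simp only [Pi.neg_apply] at h10 ⊢
      omega

theorem sim_run [Fintype Q] {a b : Q} {x y : Fin d → ℕ} {w : List (Fin d → ℤ)}
    (h : Run (symU T) a x w b y) : ∃ w', Covers T a x b y w' ∧
      w'.length ≤ w.length * RL (Fintype.card Q) d (maxNorm T) (maxNorm T) (geomDim T) := by
  induction h with
  | nil a x => exact ⟨[], ⟨x, .nil a x, fun _ => le_rfl⟩, Nat.zero_le _⟩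
  | @cons a a' b v x x₁ y w h1 h2 _ ih =>
    obtain ⟨w', h3, h4⟩ := ih
    obtain ⟨u, h5, h6⟩ := sim_step h1 h2
    refine ⟨u ++ w', covers_trans h5 h3, ?_⟩
    rw [List.length_append, List.length_cons, Nat.succ_mul]
    omega

theorem sim_any {T₀ : VASS Q d} (h₀ : ∀ p v q, (p, v, q) ∈ T →
      ∃ w, Covers T₀ p (fun k => (-v k).toNat) q (fun k => (v k).toNat) w)
    {a b : Q} {x y : Fin d → ℕ} {w : List (Fin d → ℤ)} (h : Run T a x w b y) :
    ∃ w', Covers T₀ a x b y w' := by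
  induction h with
  | nil a x => exact ⟨[], ⟨x, .nil a x, fun _ => le_rfl⟩⟩
  | @cons a a' b v x x₁ y w h1 h2 _ ih =>
    obtain ⟨w', h3⟩ := ih
    obtain ⟨u, z, h5, h6⟩ := h₀ a v a' h1
    have h8 := run_add h5 (fun k => x k - (-v k).toNat)
    have e : (fun k => (-v k).toNat + (x k - (-v k).toNat)) = x := by
      funext k
      have h9 := h2 k
      omega
    rw [e] at h8
    refine ⟨u ++ w', covers_trans (q := a') (y := x₁) ⟨_, h8, fun k => ?_⟩ h3⟩
    have h9 := h2 k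
    have h10 : (v k).toNat ≤ z k := h6 k
    omega

theorem core_self (T : VASS Q d) : CoreOf T T := by
  refine ⟨Finset.Subset.refl T, fun p v q h => ⟨[v], fun k => (v k).toNat,
    .cons h (fun k => ?_) (.nil _ _), fun k => le_rfl⟩⟩
  omega

theorem geomDim_mono {T₀ : VASS Q d} (h : T₀ ⊆ T) : geomDim T₀ ≤ geomDim T := by
  refine Submodule.finrank_mono (Submodule.span_mono ?_)
  rintro c ⟨q, w, hw, rfl⟩
  exact ⟨q, w, walk_mono (fun p v q h' => h h') hw, rfl⟩

theorem maxNorm_mono {T₀ : VASS Q d} (h : T₀ ⊆ T) : maxNorm T₀ ≤ maxNorm T :=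
  Finset.sup_mono h

/-! ### The bound -/

theorem RL_le {n d M g X : ℕ} (hn : 1 ≤ n) (hg : g ≤ d)
    (hX : X = 29 * n * (d + 1) ^ 3 * (M + 1) ^ 2) : RL n d M M g ≤ X ^ (3 * 24 ^ g) := by
  have h1 : RL n d M M g ≤ (g + 1) * (RS n d M M g).1 := by
    unfold RL
    calc ∑ i ∈ range (g + 1), (RS n d M M i).1 ≤ ∑ i ∈ range (g + 1), (RS n d M M g).1 :=
          Finset.sum_le_sum fun i hi => RS_mono n d M M (by rw [mem_range] at hi; omega)
      _ = (g + 1) * (RS n d M M g).1 := by simp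
  have hX1 : g + 1 ≤ X := by
    have h2 : d + 1 ≤ (d + 1) ^ 3 := Nat.le_self_pow (by norm_num) _
    calc g + 1 ≤ (d + 1) ^ 3 := by omega
      _ = 1 * 1 * (d + 1) ^ 3 * 1 := by ring
      _ ≤ 29 * n * (d + 1) ^ 3 * (M + 1) ^ 2 := by
          gcongr
          · norm_num
          · exact Nat.one_le_pow _ _ (Nat.succ_pos M)
      _ = X := hX.symm
  have h2 := (RS_le (M := M) (d := d) hn hX g).1
  have h3 : 3 ^ (g + 1) = 3 * 3 ^ g := by ring
  have h4 : 3 ^ g ≤ 24 ^ g := Nat.pow_le_pow_left (by norm_num) g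
  have h5 : 1 ≤ 3 ^ g := Nat.one_le_pow _ _ (by norm_num)
  calc RL n d M M g ≤ X * X ^ (3 ^ (g + 1) - 2) := h1.trans (Nat.mul_le_mul hX1 h2)
    _ = X ^ (3 ^ (g + 1) - 2 + 1) := by ring
    _ ≤ X ^ (3 * 24 ^ g) := Nat.pow_le_pow_right (by omega) (by omega)

/-- Systems whose components are thin or can be undone. -/
theorem undo_main [Fintype Q] (hT : ThinOrUndo T) {s t : Q} {x y y' : Fin d → ℕ}
    {w : List (Fin d → ℤ)} (hrun : Run T s x w t y') (hy : ∀ k, y k ≤ y' k) :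
    ∃ w', Covers T s x t y w' ∧ w'.length ≤ max 1 (supN y) *
      ((29 * Fintype.card Q * (d + 1) ^ 3 * (maxNorm T + 1) ^ 2) ^ 45) ^ (24 ^ geomDim T) := by
  have hn : 1 ≤ Fintype.card Q := Fintype.card_pos_iff.2 ⟨s⟩
  have hg : geomDim T ≤ d := by
    refine (Submodule.finrank_le _).trans ?_
    rw [Module.finrank_fintype_fun_eq_card, Fintype.card_fin]
  have hrun' : Run (symU T) s x w t y' := by
    obtain ⟨h1, h2, h3⟩ := run_iff.1 hrun
    exact run_iff.2 ⟨walk_mono (fun p v q h => mem_symU.2 (Or.inl h)) h1, h2, h3⟩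
  obtain ⟨w₁, y₁, h1, h2, h3⟩ := mixed_main (symU_thin hT) hrun' hy
  obtain ⟨w₂, ⟨y₂, h4, h5⟩, h6⟩ := sim_run h1
  refine ⟨w₂, ⟨y₂, h4, fun k => (h2 k).trans (h5 k)⟩, ?_⟩
  obtain ⟨X, hX⟩ : ∃ X, X = 29 * Fintype.card Q * (d + 1) ^ 3 * (maxNorm T + 1) ^ 2 := ⟨_, rfl⟩
  have hL := RL_le hn hg hX
  have hB : ((29 * Fintype.card Q * (d + 1) ^ 3 * (maxNorm (symU T) + 1) ^ 2) ^ 42) ^
      (24 ^ geomDim (symU T)) ≤ (X ^ 42) ^ (24 ^ geomDim T) := by
    have hX1 : 1 ≤ X := by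
      rw [hX]
      have : 0 < Fintype.card Q := hn
      exact Nat.succ_le_of_lt (by positivity)
    have h7 : 29 * Fintype.card Q * (d + 1) ^ 3 * (maxNorm (symU T) + 1) ^ 2 ≤ X := by
      rw [hX]
      have := maxNorm_symU T
      gcongr
    calc ((29 * Fintype.card Q * (d + 1) ^ 3 * (maxNorm (symU T) + 1) ^ 2) ^ 42) ^
          (24 ^ geomDim (symU T)) ≤ (X ^ 42) ^ (24 ^ geomDim (symU T)) :=
          Nat.pow_le_pow_left (Nat.pow_le_pow_left h7 _) _
      _ ≤ (X ^ 42) ^ (24 ^ geomDim T) :=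
          Nat.pow_le_pow_right (Nat.one_le_pow _ _ hX1)
            (Nat.pow_le_pow_right (by norm_num) (geomDim_symU T))
  rw [← hX]
  calc w₂.length ≤ w₁.length *
        RL (Fintype.card Q) d (maxNorm T) (maxNorm T) (geomDim T) := h6
    _ ≤ (max 1 (supN y) * (X ^ 42) ^ (24 ^ geomDim T)) * X ^ (3 * 24 ^ geomDim T) :=
        Nat.mul_le_mul (h3.trans (Nat.mul_le_mul_left _ hB)) hL
    _ = max 1 (supN y) * (X ^ 45) ^ (24 ^ geomDim T) := by
        rw [Nat.mul_assoc, ← pow_mul, ← pow_add, ← pow_mul]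
        congr 2
        ring

theorem core_main [Fintype Q] {T₀ : VASS Q d} (hc : CoreOf T₀ T) (hT : ThinOrUndo T₀) {s t : Q}
    {x y y' : Fin d → ℕ} {w : List (Fin d → ℤ)} (hrun : Run T s x w t y')
    (hy : ∀ k, y k ≤ y' k) :
    ∃ w', Covers T s x t y w' ∧ w'.length ≤ max 1 (supN y) *
      ((29 * Fintype.card Q * (d + 1) ^ 3 * (maxNorm T + 1) ^ 2) ^ 45) ^ (24 ^ geomDim T) := by
  have hn : 0 < Fintype.card Q := Fintype.card_pos_iff.2 ⟨s⟩
  obtain ⟨w₁, y₁, h1, h2⟩ := sim_any hc.2 hrun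
  obtain ⟨w₂, ⟨y₂, h3, h4⟩, h5⟩ := undo_main hT h1 fun k => (hy k).trans (h2 k)
  refine ⟨w₂, ⟨y₂, ?_, h4⟩, h5.trans (Nat.mul_le_mul_left _ ?_)⟩
  · obtain ⟨a1, a2, a3⟩ := run_iff.1 h3
    exact run_iff.2 ⟨walk_mono (fun p v q h' => hc.1 h') a1, a2, a3⟩
  · have h6 : 29 * Fintype.card Q * (d + 1) ^ 3 * (maxNorm T₀ + 1) ^ 2 ≤
        29 * Fintype.card Q * (d + 1) ^ 3 * (maxNorm T + 1) ^ 2 := by
      have := maxNorm_mono hc.1
      gcongr
    have h7 : 0 < 29 * Fintype.card Q * (d + 1) ^ 3 * (maxNorm T + 1) ^ 2 := by positivity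
    exact (Nat.pow_le_pow_left (Nat.pow_le_pow_left h6 _) _).trans
      (Nat.pow_le_pow_right (pow_pos h7 _) (Nat.pow_le_pow_right (by norm_num)
        (geomDim_mono hc.1)))

end Pool.Agent.REV
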