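import Pool.Agent.REV.Undo2
import Pool.Agent.EE2.Main

/-!
# REV / Undo3: components with cycle spaces of dimension at most two, or all of whose transitions
can be undone up to coverage
-/

set_option autoImplicit false

namespace Pool.Agent.REV

open Pool.Agent.EEF Finset

variable {Q : Type} {d : ℕ} {T : VASS Q d}

/-- Every strongly connected component of the system is planar (its cycle effects span a space of
dimension at most two) or all its transitions can be undone up to coverage. -/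
def PlanarOrUndo {Q : Type} {d : ℕ} (T : VASS Q d) : Prop :=
  ∀ r, Module.finrank ℚ (Submodule.span ℚ {c : Fin d → ℚ | ∃ w, Walk T r w r ∧ c = qv w.sum}) ≤ 2 ∨
    ∀ p v q, (p, v, q) ∈ T → Reach T r p → Reach T q r → Undo T p v q

/-- the same with reversible components -/
private def PlanarOrRev {Q : Type} {d : ℕ} (T : VASS Q d) : Prop :=
  ∀ r, Module.finrank ℚ (Submodule.span ℚ {c : Fin d → ℚ | ∃ w, Walk T r w r ∧ c = qv w.sum}) ≤ 2 ∨
    ∀ p v q, (p, v, q) ∈ T → Reach T r p → Reach T q r → (q, -v, p) ∈ T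

/-- the size bound for one component -/
def cMix2 (n d M g : ℕ) : ℕ := max (EE2.cTot n d M) (cRev n d M g)

private theorem u3_part [Fintype Q] (hT : PlanarOrRev T) {p₀ p q : Q} {x : Vec d} (hx : 0 ≤ x)
    (hp : Reach T p₀ p) (hq : Reach T q p₀) {w : List (Vec d)} (hw : Walk T p w q)
    (hok : Ok x w) : Rlz T p x w.sum q (cMix2 (Fintype.card Q) d (maxNorm T) (geomDim T)) := by
  rcases hT p₀ with h | h
  · have h2 : EE2.TwoAt T p := by
      refine le_trans (Submodule.finrank_mono (Submodule.span_le.2 ?_)) h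
      rintro c ⟨u, hu, rfl⟩
      exact EE2.vs_closed (p₀ := p₀) ⟨hp, Reach.trans ⟨w, hw⟩ hq⟩ hu
    exact (EE2.planar_part h2 hx (hq.trans hp) hw hok).mono (le_max_left _ _)
  · refine (rev_part (W := Submodule.span ℚ {c : Fin d → ℚ | ∃ w, Walk T p₀ w p₀ ∧
      c = qv w.sum}) ⟨fun p v q h1 h2 h3 => h p v q h1 h2 h3, fun w hw =>
        Submodule.subset_span ⟨w, hw, rfl⟩⟩ (finrank_le_geomDim T p₀) hx hp hq hw hok).mono
      (le_max_right _ _)

/-- Systems with planar or reversible components are captured by path schemes. -/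
private theorem u3_scheme [Fintype Q] (hT : PlanarOrRev T) : ∀ (n : ℕ) {S : Finset Q},
    S.card ≤ n → ∀ {p q : Q} {x : Vec d} {w : List (Vec d)}, 0 ≤ x → WalkIn T S p w q → Ok x w →
    Rlz T p x w.sum q (n * (cMix2 (Fintype.card Q) d (maxNorm T) (geomDim T) + 2)) := by
  classical
  intro n
  induction n with
  | zero =>
    intro S hS p q x w hx h hok
    have : S = ∅ := Finset.card_eq_zero.1 (Nat.le_zero.1 hS)
    have h' := h.start
    rw [this] at h'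
    simp at h'
  | succ n ih =>
    intro S hS p q x w hx h hok
    set C := cMix2 (Fintype.card Q) d (maxNorm T) (geomDim T) with hC
    have hexp : (n + 1) * (C + 2) = n * (C + 2) + (C + 2) := by ring
    have hpp : Reach T p p := ⟨[], .nil p⟩
    by_cases hq : Reach T q p
    · exact (u3_part hT hx hpp hq h.walk hok).mono (by rw [hexp]; omega)
    · obtain ⟨u, v, p₂, p₃, w', rfl, h1, h2, h3, h4⟩ := leave hq h hpp
      rw [Ok_append] at hok
      obtain ⟨o1, o2, o3⟩ := hok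
      have h5 := u3_part hT hx hpp h2 h1 o1
      have hcard : (S.erase p).card ≤ n := by
        rw [card_erase_of_mem h.start]
        omega
      have h6 := ih hcard o2 h4 o3
      have h7 := (h5.append (Rlz.step h3 o2)).append (by rw [← add_assoc]; exact h6)
      have e : (u ++ v :: w').sum = u.sum + v + w'.sum := by
        rw [List.sum_append, List.sum_cons, add_assoc]
      rw [e]
      exact h7.mono (by rw [hexp]; omega)

/-! ### The numerical bounds -/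

private theorem u3_exp_le (g : ℕ) :
    3 ^ g * ((4 * (g ^ 2 + 3 * g + 401) + 2) * (g + 1)) ≤ 1606 * 24 ^ g := by
  have h1 : g + 1 ≤ 2 ^ g := Nat.lt_two_pow_self
  have h2 : (g + 1) ^ 3 ≤ (2 ^ g) ^ 3 := Nat.pow_le_pow_left h1 3
  have h3 : (2 ^ g) ^ 3 = 8 ^ g := by
    rw [← pow_mul, mul_comm, pow_mul]
    norm_num
  have h4 : (4 * (g ^ 2 + 3 * g + 401) + 2) * (g + 1) ≤ 1606 * (g + 1) ^ 3 := by nlinarith
  calc 3 ^ g * ((4 * (g ^ 2 + 3 * g + 401) + 2) * (g + 1)) ≤ 3 ^ g * (1606 * 8 ^ g) := by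
        refine Nat.mul_le_mul_left _ (h4.trans ?_)
        rw [← h3]
        exact Nat.mul_le_mul_left _ h2
    _ = 1606 * (3 ^ g * 8 ^ g) := by ring
    _ = 1606 * 24 ^ g := by rw [← mul_pow]; norm_num

private theorem u3_num {n d M g s : ℕ} (hn : 1 ≤ n) (hg : g ≤ d)
    (hs : s ≤ n * (max (EE2.cTot n d M) (cRev n d M g) + 2)) :
    (45 * (s + 1) ^ 4 * (d + 1) ^ 3 * (M + 1) ^ 2) ^ (g + 1) ≤
      ((29 * n * (d + 1) ^ 3 * (M + 1) ^ 2) ^ 1606) ^ (24 ^ g) := by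
  have hX := sS_pow (M := M) hn hg g
  obtain ⟨Y, hY⟩ : ∃ Y, Y = 29 * n * (d + 1) ^ 3 * (M + 1) ^ 2 := ⟨_, rfl⟩
  obtain ⟨X, hXd⟩ : ∃ X, X = Y ^ (3 ^ g) := ⟨_, rfl⟩
  have hcT : EE2.cTot n d M ≤ Y ^ 400 := by
    have h1 := EE2.num2 (M := M) (d := d) (s := EE2.cTot n d M) hn le_rfl
    have h2 : EE2.cTot n d M ≤ 45 * (EE2.cTot n d M + 1) ^ 4 * (d + 1) ^ 3 * (M + 1) ^ 2 := by
      calc EE2.cTot n d M ≤ (EE2.cTot n d M + 1) ^ 4 :=
            (Nat.le_succ _).trans (Nat.le_self_pow (by norm_num) _)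
        _ = 1 * (EE2.cTot n d M + 1) ^ 4 * 1 * 1 := by ring
        _ ≤ 45 * (EE2.cTot n d M + 1) ^ 4 * (d + 1) ^ 3 * (M + 1) ^ 2 := by
            gcongr
            · norm_num
            · exact Nat.one_le_pow _ _ (Nat.succ_pos _)
            · exact Nat.one_le_pow _ _ (Nat.succ_pos _)
    have h3 : 2 * n * (d + 1) * (M + 1) ≤ Y := by
      rw [hY]
      have h4 : d + 1 ≤ (d + 1) ^ 3 := Nat.le_self_pow (by norm_num) _
      have h5 : M + 1 ≤ (M + 1) ^ 2 := Nat.le_self_pow (by norm_num) _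
      gcongr
      norm_num
    exact (h2.trans h1).trans (Nat.pow_le_pow_left h3 400)
  rw [← hY] at hX ⊢
  rw [← hXd] at hX
  have hcR := cRev_le hn hg hX
  have hbm : 1 ≤ (d + 1) ^ 3 * (M + 1) ^ 2 := Nat.mul_pos (pow_pos (by omega) 3)
    (pow_pos (by omega) 2)
  have hYn : 29 * n ≤ Y := by
    rw [hY]
    calc 29 * n = 29 * n * 1 := by ring
      _ ≤ 29 * n * ((d + 1) ^ 3 * (M + 1) ^ 2) := Nat.mul_le_mul_left _ hbm
      _ = _ := by ring
  have hYb : 29 * ((d + 1) ^ 3 * (M + 1) ^ 2) ≤ Y := by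
    rw [hY]
    calc 29 * ((d + 1) ^ 3 * (M + 1) ^ 2) = 29 * 1 * ((d + 1) ^ 3 * (M + 1) ^ 2) := by ring
      _ ≤ 29 * n * ((d + 1) ^ 3 * (M + 1) ^ 2) := by gcongr
      _ = _ := by ring
  have hY0 : 0 < Y := by omega
  have hYX : Y ≤ X := by
    rw [hXd]
    exact Nat.le_self_pow (by positivity) Y
  have hX0 : 0 < X := by omega
  have hX29 : 29 ≤ X := by omega
  have hZ : EE2.cTot n d M ≤ X ^ (g ^ 2 + 3 * g + 400) :=
    hcT.trans ((Nat.pow_le_pow_left hYX 400).trans (Nat.pow_le_pow_right hX0 (by omega)))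
  have hR : cRev n d M g ≤ X ^ (g ^ 2 + 3 * g + 400) :=
    hcR.trans (Nat.pow_le_pow_right hX0 (by omega))
  have hmax : max (EE2.cTot n d M) (cRev n d M g) ≤ X ^ (g ^ 2 + 3 * g + 400) := max_le hZ hR
  have hone : 1 ≤ X ^ (g ^ 2 + 3 * g + 400) := Nat.one_le_pow _ _ hX0
  have hs1 : s + 1 ≤ X ^ (g ^ 2 + 3 * g + 401) := by
    have h1 : n * (max (EE2.cTot n d M) (cRev n d M g) + 2) ≤
        n * (3 * X ^ (g ^ 2 + 3 * g + 400)) := Nat.mul_le_mul_left _ (by omega)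
    have h2 : 1 ≤ n * X ^ (g ^ 2 + 3 * g + 400) := Nat.mul_pos hn hone
    have h3 : n * (3 * X ^ (g ^ 2 + 3 * g + 400)) = 3 * (n * X ^ (g ^ 2 + 3 * g + 400)) := by
      ring
    have h4 : 4 * (n * X ^ (g ^ 2 + 3 * g + 400)) ≤ X ^ (g ^ 2 + 3 * g + 401) := by
      calc 4 * (n * X ^ (g ^ 2 + 3 * g + 400)) = (4 * n) * X ^ (g ^ 2 + 3 * g + 400) := by ring
        _ ≤ X * X ^ (g ^ 2 + 3 * g + 400) := Nat.mul_le_mul_right _ (by omega)
        _ = _ := by rw [← pow_succ']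
    omega
  have hb2 : 45 * ((d + 1) ^ 3 * (M + 1) ^ 2) ≤ X ^ 2 := by
    have h1 : 29 * ((d + 1) ^ 3 * (M + 1) ^ 2) ≤ X := hYb.trans hYX
    calc 45 * ((d + 1) ^ 3 * (M + 1) ^ 2) ≤ 29 * (29 * ((d + 1) ^ 3 * (M + 1) ^ 2)) := by omega
      _ ≤ X * X := Nat.mul_le_mul hX29 h1
      _ = X ^ 2 := by ring
  have hall : 45 * (s + 1) ^ 4 * (d + 1) ^ 3 * (M + 1) ^ 2 ≤
      X ^ (4 * (g ^ 2 + 3 * g + 401) + 2) := by
    calc 45 * (s + 1) ^ 4 * (d + 1) ^ 3 * (M + 1) ^ 2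
        = (s + 1) ^ 4 * (45 * ((d + 1) ^ 3 * (M + 1) ^ 2)) := by ring
      _ ≤ (X ^ (g ^ 2 + 3 * g + 401)) ^ 4 * X ^ 2 :=
          Nat.mul_le_mul (Nat.pow_le_pow_left hs1 4) hb2
      _ = X ^ (4 * (g ^ 2 + 3 * g + 401) + 2) := by
          rw [← pow_mul, ← pow_add, Nat.mul_comm (g ^ 2 + 3 * g + 401) 4]
  calc (45 * (s + 1) ^ 4 * (d + 1) ^ 3 * (M + 1) ^ 2) ^ (g + 1)
      ≤ (X ^ (4 * (g ^ 2 + 3 * g + 401) + 2)) ^ (g + 1) := Nat.pow_le_pow_left hall _
    _ = Y ^ (3 ^ g * ((4 * (g ^ 2 + 3 * g + 401) + 2) * (g + 1))) := by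
        rw [hXd, ← pow_mul, ← pow_mul]
    _ ≤ Y ^ (1606 * 24 ^ g) := Nat.pow_le_pow_right hY0 (u3_exp_le g)
    _ = (Y ^ 1606) ^ (24 ^ g) := pow_mul Y 1606 (24 ^ g)

private theorem u3_main [Fintype Q] (hT : PlanarOrRev T) {s t : Q} {x y y' : Fin d → ℕ}
    {w : List (Fin d → ℤ)} (hrun : Run T s x w t y') (hy : ∀ k, y k ≤ y' k) :
    ∃ (w' : List (Fin d → ℤ)) (y'' : Fin d → ℕ), Run T s x w' t y'' ∧ (∀ k, y k ≤ y'' k) ∧
      w'.length ≤ max 1 (supN y) *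
        ((29 * Fintype.card Q * (d + 1) ^ 3 * (maxNorm T + 1) ^ 2) ^ 1606) ^ (24 ^ geomDim T) := by
  obtain ⟨h1, h2, h3⟩ := run_iff.1 hrun
  obtain ⟨I, e1, e2, e3, e4⟩ := u3_scheme hT (Fintype.card Q) (S := Finset.univ) le_rfl
    (zv_nonneg x) h1.walkIn h2
  obtain ⟨a, ha⟩ := exists_items I
  have hw : unroll I = schemeWord (I.map isk) a := by
    conv_lhs => rw [ha]
    rw [items_unroll]
  have hrun' : Run T s x (schemeWord (I.map isk) a) t y' := by
    rw [← hw]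
    refine run_iff.2 ⟨scheme_walk I e1, e2, ?_⟩
    rw [e3]
    exact h3
  obtain ⟨a', y'', h4, h5, h6⟩ := scheme_main e1 hrun' hy
  refine ⟨_, y'', h4, h5, h6.trans (Nat.mul_le_mul_left _ ?_)⟩
  have hn : 1 ≤ Fintype.card Q := Fintype.card_pos_iff.2 ⟨s⟩
  have hg : geomDim T ≤ d := by
    refine (Submodule.finrank_le _).trans ?_
    rw [Module.finrank_fintype_fun_eq_card, Fintype.card_fin]
  refine le_trans ?_ (u3_num hn hg e4)
  refine Nat.pow_le_pow_right ?_ (Nat.add_le_add_right (schemeDim_le e1) 1)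
  positivity

/-! ### Undoing -/

private theorem u3_symU (hT : PlanarOrUndo T) : PlanarOrRev (symU T) := by
  intro r
  rcases hT r with h | h
  · exact Or.inl ((Submodule.finrank_mono (Wp_symU T r)).trans h)
  · refine Or.inr fun p v q h1 h2 h3 => ?_
    rcases mem_symU.1 h1 with h4 | ⟨h4, -⟩
    · obtain ⟨w2, h2⟩ := h2
      obtain ⟨w3, h3⟩ := h3
      refine mem_symU.2 (Or.inr ?_)
      rw [neg_neg]
      exact ⟨h4, h p v q h4 (symU_reach h2) (symU_reach h3)⟩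
    · exact mem_symU.2 (Or.inl h4)

/-- Systems whose components are planar or can be undone. -/
theorem undo_main2 [Fintype Q] (hT : PlanarOrUndo T) {s t : Q} {x y y' : Fin d → ℕ}
    {w : List (Fin d → ℤ)} (hrun : Run T s x w t y') (hy : ∀ k, y k ≤ y' k) :
    ∃ w', Covers T s x t y w' ∧ w'.length ≤ max 1 (supN y) *
      ((29 * Fintype.card Q * (d + 1) ^ 3 * (maxNorm T + 1) ^ 2) ^ 1609) ^ (24 ^ geomDim T) := by
  have hn : 1 ≤ Fintype.card Q := Fintype.card_pos_iff.2 ⟨s⟩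
  have hg : geomDim T ≤ d := by
    refine (Submodule.finrank_le _).trans ?_
    rw [Module.finrank_fintype_fun_eq_card, Fintype.card_fin]
  have hrun' : Run (symU T) s x w t y' := by
    obtain ⟨h1, h2, h3⟩ := run_iff.1 hrun
    exact run_iff.2 ⟨walk_mono (fun p v q h => mem_symU.2 (Or.inl h)) h1, h2, h3⟩
  obtain ⟨w₁, y₁, h1, h2, h3⟩ := u3_main (u3_symU hT) hrun' hy
  obtain ⟨w₂, ⟨y₂, h4, h5⟩, h6⟩ := sim_run h1
  refine ⟨w₂, ⟨y₂, h4, fun k => (h2 k).trans (h5 k)⟩, ?_⟩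
  obtain ⟨X, hX⟩ : ∃ X, X = 29 * Fintype.card Q * (d + 1) ^ 3 * (maxNorm T + 1) ^ 2 := ⟨_, rfl⟩
  have hL := RL_le hn hg hX
  have hB : ((29 * Fintype.card Q * (d + 1) ^ 3 * (maxNorm (symU T) + 1) ^ 2) ^ 1606) ^
      (24 ^ geomDim (symU T)) ≤ (X ^ 1606) ^ (24 ^ geomDim T) := by
    have hX1 : 1 ≤ X := by
      rw [hX]
      have : 0 < Fintype.card Q := hn
      exact Nat.succ_le_of_lt (by positivity)
    have h7 : 29 * Fintype.card Q * (d + 1) ^ 3 * (maxNorm (symU T) + 1) ^ 2 ≤ X := by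
      rw [hX]
      have := maxNorm_symU T
      gcongr
    calc ((29 * Fintype.card Q * (d + 1) ^ 3 * (maxNorm (symU T) + 1) ^ 2) ^ 1606) ^
          (24 ^ geomDim (symU T)) ≤ (X ^ 1606) ^ (24 ^ geomDim (symU T)) :=
          Nat.pow_le_pow_left (Nat.pow_le_pow_left h7 _) _
      _ ≤ (X ^ 1606) ^ (24 ^ geomDim T) :=
          Nat.pow_le_pow_right (Nat.one_le_pow _ _ hX1)
            (Nat.pow_le_pow_right (by norm_num) (geomDim_symU T))
  rw [← hX]
  calc w₂.length ≤ w₁.length *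
        RL (Fintype.card Q) d (maxNorm T) (maxNorm T) (geomDim T) := h6
    _ ≤ (max 1 (supN y) * (X ^ 1606) ^ (24 ^ geomDim T)) * X ^ (3 * 24 ^ geomDim T) :=
        Nat.mul_le_mul (h3.trans (Nat.mul_le_mul_left _ hB)) hL
    _ = max 1 (supN y) * (X ^ 1609) ^ (24 ^ geomDim T) := by
        rw [Nat.mul_assoc, ← pow_mul, ← pow_add, ← pow_mul]
        congr 2
        ring

theorem core_main2 [Fintype Q] {T₀ : VASS Q d} (hc : CoreOf T₀ T) (hT : PlanarOrUndo T₀) {s t : Q}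
    {x y y' : Fin d → ℕ} {w : List (Fin d → ℤ)} (hrun : Run T s x w t y')
    (hy : ∀ k, y k ≤ y' k) :
    ∃ w', Covers T s x t y w' ∧ w'.length ≤ max 1 (supN y) *
      ((29 * Fintype.card Q * (d + 1) ^ 3 * (maxNorm T + 1) ^ 2) ^ 1609) ^ (24 ^ geomDim T) := by
  have hn : 0 < Fintype.card Q := Fintype.card_pos_iff.2 ⟨s⟩
  obtain ⟨w₁, y₁, h1, h2⟩ := sim_any hc.2 hrun
  obtain ⟨w₂, ⟨y₂, h3, h4⟩, h5⟩ := undo_main2 hT h1 fun k => (hy k).trans (h2 k)
  refine ⟨w₂, ⟨y₂, ?_, h4⟩, h5.trans (Nat.mul_le_mul_left _ ?_)⟩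
  · obtain ⟨a1, a2, a3⟩ := run_iff.1 h3
    exact run_iff.2 ⟨walk_mono (fun p v q h' => hc.1 h') a1, a2, a3⟩
  · have h6 : 29 * Fintype.card Q * (d + 1) ^ 3 * (maxNorm T₀ + 1) ^ 2 ≤
        29 * Fintype.card Q * (d + 1) ^ 3 * (maxNorm T + 1) ^ 2 := by
      have := maxNorm_mono hc.1
      gcongr
    have h7 : 0 < 29 * Fintype.card Q * (d + 1) ^ 3 * (maxNorm T + 1) ^ 2 := by positivity
    exact (Nat.pow_le_pow_left (Nat.pow_le_pow_left h6 _) _).trans
      (Nat.pow_le_pow_right (pow_pos h7 _) (Nat.pow_le_pow_right (by norm_num)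
        (geomDim_mono hc.1)))

end Pool.Agent.REV
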