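import Pool.Agent.REV.Undo2
import Pool.Agent.EE2.ClassPM

/-!
# REV / Undo4: components with cycle spaces of dimension at most two, or with cycles changing every
counter in one direction only, or all of whose transitions can be undone up to coverage
-/

set_option autoImplicit false

namespace Pool.Agent.REV

open Pool.Agent.EEF Finset

variable {Q : Type} {d : ℕ} {T : VASS Q d}

/-- Every strongly connected component of the system is planar (its cycle effects span a space of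
dimension at most two), or its cycles change every counter in one direction only, or all its
transitions can be undone up to coverage. -/
def PlanarMonoOrUndo {Q : Type} {d : ℕ} (T : VASS Q d) : Prop :=
  ∀ r, Module.finrank ℚ (Submodule.span ℚ {c : Fin d → ℚ | ∃ w, Walk T r w r ∧ c = qv w.sum}) ≤ 2 ∨
    (∀ k, (∀ w, Walk T r w r → 0 ≤ w.sum k) ∨ (∀ w, Walk T r w r → w.sum k ≤ 0)) ∨
    ∀ p v q, (p, v, q) ∈ T → Reach T r p → Reach T q r → Undo T p v q

/-- the same with reversible components -/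
private def PmOrRev {Q : Type} {d : ℕ} (T : VASS Q d) : Prop :=
  ∀ r, (EE2.TwoAt T r ∨ EE2.MonAt T r) ∨
    ∀ p v q, (p, v, q) ∈ T → Reach T r p → Reach T q r → (q, -v, p) ∈ T

/-- the size bound for one component -/
def cMix3 (n d M g : ℕ) : ℕ := max (EE2.cPM n d g M) (cRev n d M g)

private theorem u4_part [Fintype Q] (hT : PmOrRev T) {p₀ p q : Q} {x : Vec d} (hx : 0 ≤ x)
    (hp : Reach T p₀ p) (hq : Reach T q p₀) {w : List (Vec d)} (hw : Walk T p w q)
    (hok : Ok x w) : Rlz T p x w.sum q (cMix3 (Fintype.card Q) d (maxNorm T) (geomDim T)) := by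
  rcases hT p₀ with h | h
  · have h2 : EE2.TwoAt T p ∨ EE2.MonAt T p := by
      have hin : InS T p₀ p := ⟨hp, Reach.trans ⟨w, hw⟩ hq⟩
      rcases h with h | h
      · left
        refine le_trans (Submodule.finrank_mono (Submodule.span_le.2 ?_)) h
        rintro c ⟨u, hu, rfl⟩
        exact EE2.vs_closed (p₀ := p₀) hin hu
      · right
        intro k
        rcases h k with h | h
        · exact Or.inl fun u hu => EE2.mon_closed hin h hu
        · exact Or.inr fun u hu => EE2.mon_closed' hin h hu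
    exact (EE2.pm_part h2 hx (hq.trans hp) hw hok).mono (le_max_left _ _)
  · refine (rev_part (W := Submodule.span ℚ {c : Fin d → ℚ | ∃ w, Walk T p₀ w p₀ ∧
      c = qv w.sum}) ⟨fun p v q h1 h2 h3 => h p v q h1 h2 h3, fun w hw =>
        Submodule.subset_span ⟨w, hw, rfl⟩⟩ (finrank_le_geomDim T p₀) hx hp hq hw hok).mono
      (le_max_right _ _)

/-- Systems with planar, cycle-monotone or reversible components are captured by path schemes. -/
private theorem u4_scheme [Fintype Q] (hT : PmOrRev T) : ∀ (n : ℕ) {S : Finset Q},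
    S.card ≤ n → ∀ {p q : Q} {x : Vec d} {w : List (Vec d)}, 0 ≤ x → WalkIn T S p w q → Ok x w →
    Rlz T p x w.sum q (n * (cMix3 (Fintype.card Q) d (maxNorm T) (geomDim T) + 2)) := by
  classical
  intro n
  induction n with
  | zero =>
    intro S hS p q x w hx h hok
    have : S = ∅ := Finset.card_eq_zero.1 (Nat.le_zero.1 hS)
    have h' := h.start
    rw [this] at h'
    simp at h'
  | succ n ih =>
    intro S hS p q x w hx h hok
    set C := cMix3 (Fintype.card Q) d (maxNorm T) (geomDim T) with hC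
    have hexp : (n + 1) * (C + 2) = n * (C + 2) + (C + 2) := by ring
    have hpp : Reach T p p := ⟨[], .nil p⟩
    by_cases hq : Reach T q p
    · exact (u4_part hT hx hpp hq h.walk hok).mono (by rw [hexp]; omega)
    · obtain ⟨u, v, p₂, p₃, w', rfl, h1, h2, h3, h4⟩ := leave hq h hpp
      rw [Ok_append] at hok
      obtain ⟨o1, o2, o3⟩ := hok
      have h5 := u4_part hT hx hpp h2 h1 o1
      have hcard : (S.erase p).card ≤ n := by
        rw [card_erase_of_mem h.start]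
        omega
      have h6 := ih hcard o2 h4 o3
      have h7 := (h5.append (Rlz.step h3 o2)).append (by rw [← add_assoc]; exact h6)
      have e : (u ++ v :: w').sum = u.sum + v + w'.sum := by
        rw [List.sum_append, List.sum_cons, add_assoc]
      rw [e]
      exact h7.mono (by rw [hexp]; omega)

/-! ### The numerical bounds -/

private theorem u4_exp_le (g : ℕ) :
    3 ^ g * ((4 * (g ^ 2 + 3 * g + 401) + 2) * (g + 1)) ≤ 1606 * 24 ^ g := by
  have h1 : g + 1 ≤ 2 ^ g := Nat.lt_two_pow_self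
  have h2 : (g + 1) ^ 3 ≤ (2 ^ g) ^ 3 := Nat.pow_le_pow_left h1 3
  have h3 : (2 ^ g) ^ 3 = 8 ^ g := by
    rw [← pow_mul, mul_comm, pow_mul]
    norm_num
  have h4 : (4 * (g ^ 2 + 3 * g + 401) + 2) * (g + 1) ≤ 1606 * (g + 1) ^ 3 := by nlinarith
  calc 3 ^ g * ((4 * (g ^ 2 + 3 * g + 401) + 2) * (g + 1)) ≤ 3 ^ g * (1606 * 8 ^ g) := by
        refine Nat.mul_le_mul_left _ (h4.trans ?_)
        rw [← h3]
        exact Nat.mul_le_mul_left _ h2
    _ = 1606 * (3 ^ g * 8 ^ g) := by ring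
    _ = 1606 * 24 ^ g := by rw [← mul_pow]; norm_num

private theorem u4_num {n d M g s : ℕ} (hn : 1 ≤ n) (hg : g ≤ d)
    (hs : s ≤ n * (max (EE2.cPM n d g M) (cRev n d M g) + 2)) :
    (45 * (s + 1) ^ 4 * (d + 1) ^ 3 * (M + 1) ^ 2) ^ (g + 1) ≤
      ((29 * n * (d + 1) ^ 3 * (M + 1) ^ 2) ^ 1606) ^ (24 ^ g) := by
  have hX := sS_pow (M := M) hn hg g
  obtain ⟨Y, hY⟩ : ∃ Y, Y = 29 * n * (d + 1) ^ 3 * (M + 1) ^ 2 := ⟨_, rfl⟩
  obtain ⟨X, hXd⟩ : ∃ X, X = Y ^ (3 ^ g) := ⟨_, rfl⟩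
  have hcT : EE2.cPM n d g M ≤ Y ^ 400 := by
    have h3 : 2 * n * (d + 1) * (M + 1) ≤ Y := by
      rw [hY]
      have h4 : d + 1 ≤ (d + 1) ^ 3 := Nat.le_self_pow (by norm_num) _
      have h5 : M + 1 ≤ (M + 1) ^ 2 := Nat.le_self_pow (by norm_num) _
      gcongr
      norm_num
    have hN1 : 1 ≤ 2 * n * (d + 1) * (M + 1) := by
      have : 0 < n := hn
      exact Nat.succ_le_of_lt (by positivity)
    have h1 := EE2.cTot_pow (d := d) (M := M) hn
    have h2 := EE2.num_cyc (d := d) (M := M) hn hg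
    have h6 : EE2.cTot n d M ≤ (2 * n * (d + 1) * (M + 1)) ^ 400 :=
      (Nat.le_of_succ_le h1).trans (Nat.pow_le_pow_right hN1 (by norm_num))
    have h7 : EE2.cCyc n d g M ≤ (2 * n * (d + 1) * (M + 1)) ^ 400 :=
      (Nat.le_of_succ_le h2).trans (Nat.pow_le_pow_right hN1 (by norm_num))
    exact (max_le h6 h7).trans (Nat.pow_le_pow_left h3 400)
  rw [← hY] at hX ⊢
  rw [← hXd] at hX
  have hcR := cRev_le hn hg hX
  have hbm : 1 ≤ (d + 1) ^ 3 * (M + 1) ^ 2 := Nat.mul_pos (pow_pos (by omega) 3)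
    (pow_pos (by omega) 2)
  have hYn : 29 * n ≤ Y := by
    rw [hY]
    calc 29 * n = 29 * n * 1 := by ring
      _ ≤ 29 * n * ((d + 1) ^ 3 * (M + 1) ^ 2) := Nat.mul_le_mul_left _ hbm
      _ = _ := by ring
  have hYb : 29 * ((d + 1) ^ 3 * (M + 1) ^ 2) ≤ Y := by
    rw [hY]
    calc 29 * ((d + 1) ^ 3 * (M + 1) ^ 2) = 29 * 1 * ((d + 1) ^ 3 * (M + 1) ^ 2) := by ring
      _ ≤ 29 * n * ((d + 1) ^ 3 * (M + 1) ^ 2) := by gcongr
      _ = _ := by ring
  have hY0 : 0 < Y := by omega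
  have hYX : Y ≤ X := by
    rw [hXd]
    exact Nat.le_self_pow (by positivity) Y
  have hX0 : 0 < X := by omega
  have hX29 : 29 ≤ X := by omega
  have hZ : EE2.cPM n d g M ≤ X ^ (g ^ 2 + 3 * g + 400) :=
    hcT.trans ((Nat.pow_le_pow_left hYX 400).trans (Nat.pow_le_pow_right hX0 (by omega)))
  have hR : cRev n d M g ≤ X ^ (g ^ 2 + 3 * g + 400) :=
    hcR.trans (Nat.pow_le_pow_right hX0 (by omega))
  have hmax : max (EE2.cPM n d g M) (cRev n d M g) ≤ X ^ (g ^ 2 + 3 * g + 400) := max_le hZ hR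
  have hone : 1 ≤ X ^ (g ^ 2 + 3 * g + 400) := Nat.one_le_pow _ _ hX0
  have hs1 : s + 1 ≤ X ^ (g ^ 2 + 3 * g + 401) := by
    have h1 : n * (max (EE2.cPM n d g M) (cRev n d M g) + 2) ≤
        n * (3 * X ^ (g ^ 2 + 3 * g + 400)) := Nat.mul_le_mul_left _ (by omega)
    have h2 : 1 ≤ n * X ^ (g ^ 2 + 3 * g + 400) := Nat.mul_pos hn hone
    have h3 : n * (3 * X ^ (g ^ 2 + 3 * g + 400)) = 3 * (n * X ^ (g ^ 2 + 3 * g + 400)) := by
      ring
    have h4 : 4 * (n * X ^ (g ^ 2 + 3 * g + 400)) ≤ X ^ (g ^ 2 + 3 * g + 401) := by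
      calc 4 * (n * X ^ (g ^ 2 + 3 * g + 400)) = (4 * n) * X ^ (g ^ 2 + 3 * g + 400) := by ring
        _ ≤ X * X ^ (g ^ 2 + 3 * g + 400) := Nat.mul_le_mul_right _ (by omega)
        _ = _ := by rw [← pow_succ']
    omega
  have hb2 : 45 * ((d + 1) ^ 3 * (M + 1) ^ 2) ≤ X ^ 2 := by
    have h1 : 29 * ((d + 1) ^ 3 * (M + 1) ^ 2) ≤ X := hYb.trans hYX
    calc 45 * ((d + 1) ^ 3 * (M + 1) ^ 2) ≤ 29 * (29 * ((d + 1) ^ 3 * (M + 1) ^ 2)) := by omega
      _ ≤ X * X := Nat.mul_le_mul hX29 h1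
      _ = X ^ 2 := by ring
  have hall : 45 * (s + 1) ^ 4 * (d + 1) ^ 3 * (M + 1) ^ 2 ≤
      X ^ (4 * (g ^ 2 + 3 * g + 401) + 2) := by
    calc 45 * (s + 1) ^ 4 * (d + 1) ^ 3 * (M + 1) ^ 2
        = (s + 1) ^ 4 * (45 * ((d + 1) ^ 3 * (M + 1) ^ 2)) := by ring
      _ ≤ (X ^ (g ^ 2 + 3 * g + 401)) ^ 4 * X ^ 2 :=
          Nat.mul_le_mul (Nat.pow_le_pow_left hs1 4) hb2
      _ = X ^ (4 * (g ^ 2 + 3 * g + 401) + 2) := by
          rw [← pow_mul, ← pow_add, Nat.mul_comm (g ^ 2 + 3 * g + 401) 4]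
  calc (45 * (s + 1) ^ 4 * (d + 1) ^ 3 * (M + 1) ^ 2) ^ (g + 1)
      ≤ (X ^ (4 * (g ^ 2 + 3 * g + 401) + 2)) ^ (g + 1) := Nat.pow_le_pow_left hall _
    _ = Y ^ (3 ^ g * ((4 * (g ^ 2 + 3 * g + 401) + 2) * (g + 1))) := by
        rw [hXd, ← pow_mul, ← pow_mul]
    _ ≤ Y ^ (1606 * 24 ^ g) := Nat.pow_le_pow_right hY0 (u4_exp_le g)
    _ = (Y ^ 1606) ^ (24 ^ g) := pow_mul Y 1606 (24 ^ g)

private theorem u4_main [Fintype Q] (hT : PmOrRev T) {s t : Q} {x y y' : Fin d → ℕ}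
    {w : List (Fin d → ℤ)} (hrun : Run T s x w t y') (hy : ∀ k, y k ≤ y' k) :
    ∃ (w' : List (Fin d → ℤ)) (y'' : Fin d → ℕ), Run T s x w' t y'' ∧ (∀ k, y k ≤ y'' k) ∧
      w'.length ≤ max 1 (supN y) *
        ((29 * Fintype.card Q * (d + 1) ^ 3 * (maxNorm T + 1) ^ 2) ^ 1606) ^ (24 ^ geomDim T) := by
  obtain ⟨h1, h2, h3⟩ := run_iff.1 hrun
  obtain ⟨I, e1, e2, e3, e4⟩ := u4_scheme hT (Fintype.card Q) (S := Finset.univ) le_rfl
    (zv_nonneg x) h1.walkIn h2
  obtain ⟨a, ha⟩ := exists_items I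
  have hw : unroll I = schemeWord (I.map isk) a := by
    conv_lhs => rw [ha]
    rw [items_unroll]
  have hrun' : Run T s x (schemeWord (I.map isk) a) t y' := by
    rw [← hw]
    refine run_iff.2 ⟨scheme_walk I e1, e2, ?_⟩
    rw [e3]
    exact h3
  obtain ⟨a', y'', h4, h5, h6⟩ := scheme_main e1 hrun' hy
  refine ⟨_, y'', h4, h5, h6.trans (Nat.mul_le_mul_left _ ?_)⟩
  have hn : 1 ≤ Fintype.card Q := Fintype.card_pos_iff.2 ⟨s⟩
  have hg : geomDim T ≤ d := by
    refine (Submodule.finrank_le _).trans ?_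
    rw [Module.finrank_fintype_fun_eq_card, Fintype.card_fin]
  refine le_trans ?_ (u4_num hn hg e4)
  refine Nat.pow_le_pow_right ?_ (Nat.add_le_add_right (schemeDim_le e1) 1)
  positivity

/-! ### Undoing -/

/-- all transitions in the component of `r` can be undone up to coverage -/
private def UK {Q : Type} {d : ℕ} (T : VASS Q d) (r : Q) : Prop :=
  ∀ p v q, (p, v, q) ∈ T → Reach T r p → Reach T q r → Undo T p v q

private theorem uk_trans {r s : Q} (h1 : Reach T r s) (h2 : Reach T s r) (h : UK T s) : UK T r :=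
  fun p v q hpq h3 h4 => h p v q hpq (h2.trans h3) (h4.trans h1)

open Classical in
/-- add the inverses of the transitions in the components which can be undone -/
private noncomputable def symV (T : VASS Q d) : VASS Q d :=
  T ∪ (T.filter fun t => Undo T t.1 t.2.1 t.2.2 ∧ UK T t.1).image fun t => (t.2.2, -t.2.1, t.1)

private theorem mem_symV {a b : Q} {v : Vec d} :
    (a, v, b) ∈ symV T ↔ (a, v, b) ∈ T ∨ ((b, -v, a) ∈ T ∧ Undo T b (-v) a ∧ UK T b) := by
  classical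
  rw [symV, mem_union, mem_image]
  refine or_congr Iff.rfl ⟨?_, fun h => ⟨(b, -v, a), mem_filter.2 ⟨h.1, h.2⟩, by simp⟩⟩
  rintro ⟨⟨p, u, q⟩, h, he⟩
  simp only [Prod.mk.injEq] at he
  obtain ⟨rfl, rfl, rfl⟩ := he
  rw [mem_filter] at h
  rw [neg_neg]
  exact h

private theorem symV_sub (T : VASS Q d) : symV T ⊆ symU T := by
  rintro ⟨a, v, b⟩ h
  rcases mem_symV.1 h with h | ⟨h1, h2, -⟩
  · exact mem_symU.2 (Or.inl h)
  · exact mem_symU.2 (Or.inr ⟨h1, h2⟩)

private theorem symV_reach {a b : Q} (h : Reach (symV T) a b) : Reach T a b := by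
  obtain ⟨w, hw⟩ := h
  exact symU_reach (walk_mono (fun p v q h' => symV_sub T h') hw)

/-- in the component of `r` nothing has been added, unless it can be undone -/
private theorem symV_walk {r : Q} (hr : ¬ UK T r) {a b : Q} {w : List (Vec d)}
    (h : Walk (symV T) a w b) (h1 : Reach T r a) (h2 : Reach T b r) : Walk T a w b := by
  induction h with
  | nil a => exact .nil a
  | @cons a a' b v w h3 h4 ih =>
    rcases mem_symV.1 h3 with h5 | ⟨-, h5, h6⟩
    · exact .cons h5 (ih (h1.trans ⟨_, .cons h5 (.nil _)⟩) h2)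
    · exfalso
      have h7 : Reach T a' r := (symV_reach ⟨_, h4⟩).trans h2
      exact hr (uk_trans (h1.trans (undo_walk h5)) h7 h6)

private theorem symV_pm (hT : PlanarMonoOrUndo T) : PmOrRev (symV T) := by
  intro r
  have hrr : Reach T r r := ⟨[], .nil r⟩
  by_cases hr : UK T r
  · refine Or.inr fun p v q h1 h2 h3 => ?_
    have h2' := symV_reach h2
    have h3' := symV_reach h3
    rcases mem_symV.1 h1 with h4 | ⟨h4, -⟩
    · refine mem_symV.2 (Or.inr ?_)
      rw [neg_neg]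
      refine ⟨h4, hr p v q h4 h2' h3', uk_trans ?_ h2' hr⟩
      exact Reach.trans ⟨_, .cons h4 (.nil _)⟩ h3'
    · exact mem_symV.2 (Or.inl h4)
  · left
    rcases hT r with h | h | h
    · left
      refine le_trans (Submodule.finrank_mono (Submodule.span_mono ?_)) h
      rintro c ⟨w, hw, rfl⟩
      exact ⟨w, symV_walk hr hw hrr hrr, rfl⟩
    · right
      intro k
      rcases h k with h | h
      · exact Or.inl fun u hu => h u (symV_walk hr hu hrr hrr)
      · exact Or.inr fun u hu => h u (symV_walk hr hu hrr hrr)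
    · exact absurd h hr

/-- Systems whose components are planar, cycle-monotone or can be undone. -/
theorem undo_main3 [Fintype Q] (hT : PlanarMonoOrUndo T) {s t : Q} {x y y' : Fin d → ℕ}
    {w : List (Fin d → ℤ)} (hrun : Run T s x w t y') (hy : ∀ k, y k ≤ y' k) :
    ∃ w', Covers T s x t y w' ∧ w'.length ≤ max 1 (supN y) *
      ((29 * Fintype.card Q * (d + 1) ^ 3 * (maxNorm T + 1) ^ 2) ^ 1609) ^ (24 ^ geomDim T) := by
  have hn : 1 ≤ Fintype.card Q := Fintype.card_pos_iff.2 ⟨s⟩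
  have hg : geomDim T ≤ d := by
    refine (Submodule.finrank_le _).trans ?_
    rw [Module.finrank_fintype_fun_eq_card, Fintype.card_fin]
  have hrun' : Run (symV T) s x w t y' := by
    obtain ⟨h1, h2, h3⟩ := run_iff.1 hrun
    exact run_iff.2 ⟨walk_mono (fun p v q h => mem_symV.2 (Or.inl h)) h1, h2, h3⟩
  obtain ⟨w₁, y₁, h1, h2, h3⟩ := u4_main (symV_pm hT) hrun' hy
  have h1' : Run (symU T) s x w₁ t y₁ := by
    obtain ⟨a1, a2, a3⟩ := run_iff.1 h1
    exact run_iff.2 ⟨walk_mono (fun p v q h => symV_sub T h) a1, a2, a3⟩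
  obtain ⟨w₂, ⟨y₂, h4, h5⟩, h6⟩ := sim_run h1'
  refine ⟨w₂, ⟨y₂, h4, fun k => (h2 k).trans (h5 k)⟩, ?_⟩
  obtain ⟨X, hX⟩ : ∃ X, X = 29 * Fintype.card Q * (d + 1) ^ 3 * (maxNorm T + 1) ^ 2 := ⟨_, rfl⟩
  have hL := RL_le hn hg hX
  have hmN : maxNorm (symV T) ≤ maxNorm T := (maxNorm_mono (symV_sub T)).trans (maxNorm_symU T)
  have hgD : geomDim (symV T) ≤ geomDim T := (geomDim_mono (symV_sub T)).trans (geomDim_symU T)
  have hB : ((29 * Fintype.card Q * (d + 1) ^ 3 * (maxNorm (symV T) + 1) ^ 2) ^ 1606) ^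
      (24 ^ geomDim (symV T)) ≤ (X ^ 1606) ^ (24 ^ geomDim T) := by
    have hX1 : 1 ≤ X := by
      rw [hX]
      have : 0 < Fintype.card Q := hn
      exact Nat.succ_le_of_lt (by positivity)
    have h7 : 29 * Fintype.card Q * (d + 1) ^ 3 * (maxNorm (symV T) + 1) ^ 2 ≤ X := by
      rw [hX]
      gcongr
    calc ((29 * Fintype.card Q * (d + 1) ^ 3 * (maxNorm (symV T) + 1) ^ 2) ^ 1606) ^
          (24 ^ geomDim (symV T)) ≤ (X ^ 1606) ^ (24 ^ geomDim (symV T)) :=
          Nat.pow_le_pow_left (Nat.pow_le_pow_left h7 _) _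
      _ ≤ (X ^ 1606) ^ (24 ^ geomDim T) :=
          Nat.pow_le_pow_right (Nat.one_le_pow _ _ hX1)
            (Nat.pow_le_pow_right (by norm_num) hgD)
  rw [← hX]
  calc w₂.length ≤ w₁.length *
        RL (Fintype.card Q) d (maxNorm T) (maxNorm T) (geomDim T) := h6
    _ ≤ (max 1 (supN y) * (X ^ 1606) ^ (24 ^ geomDim T)) * X ^ (3 * 24 ^ geomDim T) :=
        Nat.mul_le_mul (h3.trans (Nat.mul_le_mul_left _ hB)) hL
    _ = max 1 (supN y) * (X ^ 1609) ^ (24 ^ geomDim T) := by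
        rw [Nat.mul_assoc, ← pow_mul, ← pow_add, ← pow_mul]
        congr 2
        ring

theorem core_main3 [Fintype Q] {T₀ : VASS Q d} (hc : CoreOf T₀ T) (hT : PlanarMonoOrUndo T₀) {s t : Q}
    {x y y' : Fin d → ℕ} {w : List (Fin d → ℤ)} (hrun : Run T s x w t y')
    (hy : ∀ k, y k ≤ y' k) :
    ∃ w', Covers T s x t y w' ∧ w'.length ≤ max 1 (supN y) *
      ((29 * Fintype.card Q * (d + 1) ^ 3 * (maxNorm T + 1) ^ 2) ^ 1609) ^ (24 ^ geomDim T) := by
  have hn : 0 < Fintype.card Q := Fintype.card_pos_iff.2 ⟨s⟩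
  obtain ⟨w₁, y₁, h1, h2⟩ := sim_any hc.2 hrun
  obtain ⟨w₂, ⟨y₂, h3, h4⟩, h5⟩ := undo_main3 hT h1 fun k => (hy k).trans (h2 k)
  refine ⟨w₂, ⟨y₂, ?_, h4⟩, h5.trans (Nat.mul_le_mul_left _ ?_)⟩
  · obtain ⟨a1, a2, a3⟩ := run_iff.1 h3
    exact run_iff.2 ⟨walk_mono (fun p v q h' => hc.1 h') a1, a2, a3⟩
  · have h6 : 29 * Fintype.card Q * (d + 1) ^ 3 * (maxNorm T₀ + 1) ^ 2 ≤
        29 * Fintype.card Q * (d + 1) ^ 3 * (maxNorm T + 1) ^ 2 := by
      have := maxNorm_mono hc.1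
      gcongr
    have h7 : 0 < 29 * Fintype.card Q * (d + 1) ^ 3 * (maxNorm T + 1) ^ 2 := by positivity
    exact (Nat.pow_le_pow_left (Nat.pow_le_pow_left h6 _) _).trans
      (Nat.pow_le_pow_right (pow_pos h7 _) (Nat.pow_le_pow_right (by norm_num)
        (geomDim_mono hc.1)))

end Pool.Agent.REV
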